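import Pool.Agent.EscM.EDefs

set_option autoImplicit false

/-!
Project EscM, module A1: facts on the tube.
`ray`: for `q = r x + s (x - r x)` and `p ∈ N`: `dist q p ≥ dist x p - (1-s) dist x (r x) ≥ s dist x (r x) = dist q (r x)`, so `r x` is a nearest point of `q`, and it is the only one (`nearest` for `q`,
`infDist q N ≤ infDist x N < R`). `ker`: `r` is constant on the segment from `r x` to `x`; differentiate at `x` from the left. `orth`: for every `w`, the curve `r (x + h w)` is in `N`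
and the distance of `x` to it is minimal at `h = 0`. `tan`: `r (r y) = r y` near `x`. `symm`: differentiate `orth` at points of `N`: apply `orth` at `y + h w'`:
`⟪fderiv r (y + h w') w, (y + h w') - r (y + h w')⟫ = 0`, divide by `h`. `ray_fd`: differentiate `ray` with respect to `x` (for `s ∈ [0,1]`).
-/

noncomputable section

namespace EscM

open MeasureTheory Set Filter Topology Esc EscF EscG EscK
open scoped ContDiff

variable {ι : Type} [Fintype ι] {E : Type*} [NormedAddCommGroup E] [InnerProductSpace ℝ E]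
  [FiniteDimensional ℝ E] {β : Module.Basis ι ℝ E} {N : Set E} {r : E → E} {R : ℝ}

theorem Tb.isOpen_tube (h : Tb β N r R) : IsOpen {x | Metric.infDist x N < R} :=
  isOpen_lt (Metric.continuous_infDist_pt N) continuous_const

theorem Tb.r_eq (h : Tb β N r R) {x : E} (hx : x ∈ N) : r x = x := by
  by_contra hne
  have h0 : Metric.infDist x N < R := by
    rw [Metric.infDist_zero_of_mem hx]
    exact h.R_pos
  have h1 := h.nearest x h0 x hx (fun h' => hne h'.symm)
  rw [dist_self] at h1
  exact absurd h1 (not_lt.2 dist_nonneg)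

theorem A1_le (h : Tb β N r R) {x : E} (hx : Metric.infDist x N < R) {p : E} (hp : p ∈ N) :
    ‖x - r x‖ ≤ dist x p := by
  rw [← dist_eq_norm]
  by_cases hpr : p = r x
  · rw [hpr]
  · exact (h.nearest x hx p hp hpr).le

theorem Tb.dist_eq (h : Tb β N r R) {x : E} (hx : Metric.infDist x N < R) :
    Metric.infDist x N = ‖x - r x‖ := by
  apply le_antisymm
  · rw [← dist_eq_norm]
    exact Metric.infDist_le_dist_of_mem (h.mem x hx)
  · rw [Metric.le_infDist h.ne]
    intro p hp
    exact A1_le h hx hp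

theorem Tb.perN_Lam (h : Tb β N r R) {w : E} (hw : w ∈ Submodule.span ℤ (Set.range β)) (x : E) :
    x + w ∈ N ↔ x ∈ N := by
  let S : AddSubgroup E :=
    { carrier := {w | ∀ x, x + w ∈ N ↔ x ∈ N}
      add_mem' := by
        intro a b ha hb x
        rw [← add_assoc]
        exact (hb _).trans (ha _)
      zero_mem' := by
        intro x
        rw [add_zero]
      neg_mem' := by
        intro a ha x
        have h1 := ha (x + -a)
        rw [neg_add_cancel_right] at h1
        exact h1.symm }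
  have h1 : Submodule.span ℤ (Set.range β) ≤ AddSubgroup.toIntSubmodule S := by
    rw [Submodule.span_le]
    rintro _ ⟨i, rfl⟩
    exact fun x => h.perN i x
  exact h1 hw x

theorem Tb.infDist_Lam (h : Tb β N r R) {w : E} (hw : w ∈ Submodule.span ℤ (Set.range β)) (x : E) :
    Metric.infDist (x + w) N = Metric.infDist x N := by
  have h1 : (fun y => y + w) '' N = N := by
    ext y
    constructor
    · rintro ⟨z, hz, rfl⟩
      exact (h.perN_Lam hw z).2 hz
    · intro hy
      refine ⟨y - w, ?_, sub_add_cancel y w⟩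
      have h2 := h.perN_Lam hw (y - w)
      rw [sub_add_cancel] at h2
      exact h2.1 hy
  have h2 : Isometry (fun y : E => y + w) := Isometry.of_dist_eq fun a b => dist_add_right a b w
  have h3 := Metric.infDist_image (x := x) (t := N) h2
  rw [h1] at h3
  exact h3

theorem Tb.r_Lam (h : Tb β N r R) {w : E} (hw : w ∈ Submodule.span ℤ (Set.range β)) {x : E}
    (hx : Metric.infDist x N < R) : r (x + w) = r x + w := by
  by_contra hne
  have hx' : Metric.infDist (x + w) N < R := by
    rw [h.infDist_Lam hw]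
    exact hx
  have h1 := h.nearest (x + w) hx' (r x + w) ((h.perN_Lam hw _).2 (h.mem x hx))
    (fun h' => hne h'.symm)
  rw [dist_add_right] at h1
  have h2 : r (x + w) - w ∈ N := by
    have h3 := h.perN_Lam hw (r (x + w) - w)
    rw [sub_add_cancel] at h3
    exact h3.1 (h.mem _ hx')
  have h3 := A1_le h hx h2
  have h4 : dist x (r (x + w) - w) = dist (x + w) (r (x + w)) := by
    rw [← dist_add_right x (r (x + w) - w) w, sub_add_cancel]
  rw [h4, ← dist_eq_norm] at h3
  exact absurd h1 (not_lt.2 h3)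

theorem Tb.diff (h : Tb β N r R) {x : E} (hx : Metric.infDist x N < R) : DifferentiableAt ℝ r x :=
  (h.smooth.contDiffAt (h.isOpen_tube.mem_nhds hx)).differentiableAt (by simp)

theorem A1_ev (h : Tb β N r R) {x : E} (hx : Metric.infDist x N < R) :
    ∀ᶠ y in 𝓝 x, Metric.infDist y N < R :=
  h.isOpen_tube.mem_nhds hx

theorem Tb.fd_Lam (h : Tb β N r R) {w : E} (hw : w ∈ Submodule.span ℤ (Set.range β)) {x : E}
    (hx : Metric.infDist x N < R) : fderiv ℝ r (x + w) = fderiv ℝ r x := by
  have h1 : (fun y => r (y + w)) =ᶠ[𝓝 x] fun y => r y + w := by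
    filter_upwards [A1_ev h hx] with y hy
    exact h.r_Lam hw hy
  have h2 := h1.fderiv_eq (𝕜 := ℝ)
  rw [fderiv_comp_add_right, fderiv_add_const] at h2
  exact h2

theorem A1_ray (h : Tb β N r R) {x : E} (hx : Metric.infDist x N < R) {s : ℝ}
    (hs : s ∈ Icc (0:ℝ) 1) {p : E} (hp : p ∈ N) :
    s * ‖x - r x‖ ≤ dist (r x + s • (x - r x)) p := by
  have h1 := A1_le h hx hp
  have h2 : dist x (r x + s • (x - r x)) = (1 - s) * ‖x - r x‖ := by
    rw [dist_eq_norm]
    have h3 : x - (r x + s • (x - r x)) = (1 - s) • (x - r x) := by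
      rw [sub_smul, one_smul]
      abel
    rw [h3, norm_smul, Real.norm_of_nonneg (by linarith [hs.2])]
  have h3 := dist_triangle x (r x + s • (x - r x)) p
  rw [h2] at h3
  linarith

theorem A1_ray0 {x : E} {s : ℝ} (hs : s ∈ Icc (0:ℝ) 1) :
    dist (r x + s • (x - r x)) (r x) = s * ‖x - r x‖ := by
  rw [dist_eq_norm, add_sub_cancel_left, norm_smul, Real.norm_of_nonneg hs.1]

theorem Tb.ray (h : Tb β N r R) {x : E} (hx : Metric.infDist x N < R) {s : ℝ} (hs : s ∈ Icc (0:ℝ) 1) :
    r (r x + s • (x - r x)) = r x ∧ Metric.infDist (r x + s • (x - r x)) N = s * Metric.infDist x N := by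
  have h1 : Metric.infDist (r x + s • (x - r x)) N = s * Metric.infDist x N := by
    rw [h.dist_eq hx]
    apply le_antisymm
    · rw [← A1_ray0 (r := r) hs]
      exact Metric.infDist_le_dist_of_mem (h.mem x hx)
    · rw [Metric.le_infDist h.ne]
      intro p hp
      exact A1_ray h hx hs hp
  refine ⟨?_, h1⟩
  have h2 : Metric.infDist (r x + s • (x - r x)) N < R := by
    rw [h1]
    refine lt_of_le_of_lt ?_ hx
    exact mul_le_of_le_one_left Metric.infDist_nonneg hs.2
  by_contra hne
  have h3 := h.nearest _ h2 (r x) (h.mem x hx) (fun h' => hne h'.symm)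
  rw [A1_ray0 hs] at h3
  exact absurd h3 (not_lt.2 (A1_ray h hx hs (h.mem _ h2)))

theorem Tb.ker (h : Tb β N r R) {x : E} (hx : Metric.infDist x N < R) : fderiv ℝ r x (x - r x) = 0 := by
  have h1 : HasDerivAt (fun s : ℝ => r x + s • (x - r x)) (x - r x) 1 := by
    have h2 := ((hasDerivAt_id (1 : ℝ)).smul_const (x - r x)).const_add (r x)
    simpa using h2
  have h2 : HasFDerivAt r (fderiv ℝ r x) ((fun s : ℝ => r x + s • (x - r x)) 1) := by
    have e : (fun s : ℝ => r x + s • (x - r x)) 1 = x := by simp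
    rw [e]
    exact (h.diff hx).hasFDerivAt
  have h3 := (h2.comp_hasDerivAt (1 : ℝ) h1).hasDerivWithinAt (s := Icc (0 : ℝ) 1)
  have h4 : HasDerivWithinAt (fun _ : ℝ => r x) (0 : E) (Icc (0 : ℝ) 1) 1 :=
    hasDerivWithinAt_const _ _ _
  have h5 : HasDerivWithinAt (r ∘ fun s : ℝ => r x + s • (x - r x)) (0 : E) (Icc (0 : ℝ) 1) 1 := by
    refine h4.congr (fun s hs => (h.ray hx hs).1) ?_
    exact (h.ray hx (s := 1) ⟨zero_le_one, le_rfl⟩).1
  have h6 : UniqueDiffWithinAt ℝ (Icc (0 : ℝ) 1) 1 :=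
    uniqueDiffOn_Icc zero_lt_one 1 ⟨zero_le_one, le_rfl⟩
  exact h6.eq_deriv _ h3 h5

theorem Tb.orth (h : Tb β N r R) {x : E} (hx : Metric.infDist x N < R) (w : E) :
    inner ℝ (x - r x) (fderiv ℝ r x w) = 0 := by
  have h1 : HasDerivAt (fun s : ℝ => x + s • w) w 0 := by
    have h2 := ((hasDerivAt_id (0 : ℝ)).smul_const w).const_add x
    simpa using h2
  have e : (fun s : ℝ => x + s • w) 0 = x := by simp
  have h2 : HasFDerivAt r (fderiv ℝ r x) ((fun s : ℝ => x + s • w) 0) := by
    rw [e]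
    exact (h.diff hx).hasFDerivAt
  have h3 : HasDerivAt (fun s : ℝ => x - r (x + s • w)) (-(fderiv ℝ r x w)) 0 :=
    (h2.comp_hasDerivAt (0 : ℝ) h1).const_sub x
  have h4 := h3.norm_sq
  have h5 : IsLocalMin (fun s : ℝ => ‖x - r (x + s • w)‖ ^ 2) 0 := by
    have h6 : ∀ᶠ s : ℝ in 𝓝 0, Metric.infDist (x + s • w) N < R := by
      have h7 : Tendsto (fun s : ℝ => x + s • w) (𝓝 0) (𝓝 x) := by
        have h8 := h1.continuousAt.tendsto
        simpa using h8
      exact h7.eventually (A1_ev h hx)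
    filter_upwards [h6] with s hs
    have h7 := A1_le h hx (h.mem _ hs)
    rw [dist_eq_norm] at h7
    simp only [zero_smul, add_zero]
    gcongr
  have h6 := h5.hasDerivAt_eq_zero h4
  simp only [zero_smul, add_zero, inner_neg_right] at h6
  linarith

theorem A1_mem (h : Tb β N r R) {x : E} (hx : x ∈ N) : Metric.infDist x N < R := by
  rw [Metric.infDist_zero_of_mem hx]
  exact h.R_pos

theorem Tb.tan (h : Tb β N r R) {x : E} (hx : Metric.infDist x N < R) (w : E) :
    (r x, fderiv ℝ r x w) ∈ TN N r := by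
  refine ⟨h.mem x hx, ?_⟩
  have h1 : (fun y => r (r y)) =ᶠ[𝓝 x] r := by
    filter_upwards [A1_ev h hx] with y hy
    exact h.r_eq (h.mem y hy)
  have h2 := h1.fderiv_eq (𝕜 := ℝ)
  have h3 := fderiv_comp (𝕜 := ℝ) x (h.diff (A1_mem h (h.mem x hx))) (h.diff hx)
  have h4 : fderiv ℝ (r ∘ r) x = fderiv ℝ r x := h2
  rw [h4] at h3
  have h5 := congrArg (fun L : E →L[ℝ] E => L w) h3
  exact h5.symm

theorem Tb.symm (h : Tb β N r R) {y : E} (hy : y ∈ N) (w w' : E) :
    inner ℝ (fderiv ℝ r y w) (w' - fderiv ℝ r y w') = 0 := by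
  have hy' := A1_mem h hy
  have h1 : HasDerivAt (fun s : ℝ => y + s • w') w' 0 := by
    have h2 := ((hasDerivAt_id (0 : ℝ)).smul_const w').const_add y
    simpa using h2
  have e : (fun s : ℝ => y + s • w') 0 = y := by simp
  have h2 : HasFDerivAt r (fderiv ℝ r y) ((fun s : ℝ => y + s • w') 0) := by
    rw [e]
    exact (h.diff hy').hasFDerivAt
  have h3 : HasDerivAt (fun s : ℝ => (y + s • w') - r (y + s • w')) (w' - fderiv ℝ r y w') 0 :=
    h1.sub (h2.comp_hasDerivAt (0 : ℝ) h1)
  have h4 : Tendsto (fun s : ℝ => y + s • w') (𝓝 0) (𝓝 y) := by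
    have h8 := h1.continuousAt.tendsto
    simpa using h8
  have h5 : ContinuousAt (fun z => fderiv ℝ r z w) y := by
    have h6 : ContDiffAt ℝ ∞ r y := h.smooth.contDiffAt (h.isOpen_tube.mem_nhds hy')
    have h7 : ContinuousAt (fderiv ℝ r) y :=
      (h6.fderiv_right (m := 0) (by simp)).continuousAt
    exact h7.clm_apply continuousAt_const
  have h6 : Tendsto (fun s : ℝ => fderiv ℝ r (y + s • w') w) (𝓝 0) (𝓝 (fderiv ℝ r y w)) :=
    h5.tendsto.comp h4
  have h7 := h3.tendsto_slope
  have h6' : Tendsto (fun s : ℝ => fderiv ℝ r (y + s • w') w) (𝓝[≠] 0) (𝓝 (fderiv ℝ r y w)) :=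
    h6.mono_left nhdsWithin_le_nhds
  have h8 : Tendsto (fun s : ℝ => inner ℝ (fderiv ℝ r (y + s • w') w)
      (slope (fun s : ℝ => (y + s • w') - r (y + s • w')) 0 s)) (𝓝[≠] 0)
      (𝓝 (inner ℝ (fderiv ℝ r y w) (w' - fderiv ℝ r y w'))) := h6'.inner h7
  have h9 : ∀ᶠ s : ℝ in 𝓝[≠] 0, inner ℝ (fderiv ℝ r (y + s • w') w)
      (slope (fun s : ℝ => (y + s • w') - r (y + s • w')) 0 s) = 0 := by
    have h10 : ∀ᶠ s : ℝ in 𝓝 0, Metric.infDist (y + s • w') N < R := h4.eventually (A1_ev h hy')
    filter_upwards [h10.filter_mono nhdsWithin_le_nhds] with s hs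
    rw [slope_def_module]
    simp only [zero_smul, add_zero, sub_zero, h.r_eq hy, sub_self, inner_smul_right]
    rw [real_inner_comm, h.orth hs, mul_zero]
  have h10 := tendsto_nhds_unique_of_eventuallyEq h8 tendsto_const_nhds h9
  exact h10

theorem Tb.ray_fd (h : Tb β N r R) {x : E} (hx : Metric.infDist x N < R) {s : ℝ} (hs : s ∈ Icc (0:ℝ) 1)
    (v : E) : fderiv ℝ r (r x + s • (x - r x)) (fderiv ℝ r x v + s • (v - fderiv ℝ r x v)) =
      fderiv ℝ r x v := by
  have hq : Metric.infDist (r x + s • (x - r x)) N < R := by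
    rw [(h.ray hx hs).2]
    refine lt_of_le_of_lt ?_ hx
    exact mul_le_of_le_one_left Metric.infDist_nonneg hs.2
  have h1 : (fun y => r (r y + s • (y - r y))) =ᶠ[𝓝 x] r := by
    filter_upwards [A1_ev h hx] with y hy
    exact (h.ray hy hs).1
  have h2 : HasFDerivAt r (fderiv ℝ r x) x := (h.diff hx).hasFDerivAt
  have h3 : HasFDerivAt (fun y => r y + s • (y - r y))
      (fderiv ℝ r x + s • (ContinuousLinearMap.id ℝ E - fderiv ℝ r x)) x :=
    h2.add (((hasFDerivAt_id x).sub h2).const_smul s)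
  have h4 : HasFDerivAt r (fderiv ℝ r (r x + s • (x - r x))) ((fun y => r y + s • (y - r y)) x) :=
    (h.diff hq).hasFDerivAt
  have h5 := h4.comp x h3
  have h6 : HasFDerivAt (fun y => r (r y + s • (y - r y))) (fderiv ℝ r x) x :=
    h2.congr_of_eventuallyEq h1
  have h7 := h5.unique h6
  have h8 := congrArg (fun L : E →L[ℝ] E => L v) h7
  exact h8

end EscM
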