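import Pool.Agent.EscM.A7a

set_option autoImplicit false

/-!
Project EscM, module A10: the normal component of the momentum.
For `infDist x N < ρ` the Lagrangian `Lt` equals `Lg` near `x` (`chi = 1` on `{infDist ≤ ρ}`). `P_eq`: `Tb.Lg_v` with `w = x - r x`, `fderiv ℝ r x (x - r x) = 0` (`Tb.ker`), `Tb.orth`.
`Px`: the left side is the derivative at `s = 1` of `s ↦ Lt (r x + s • (x - r x)) (D v + s • (v - D v)) t` (chain rule, `Lt` is `C²`, `Tb.Lt_smooth`; derivative from the left suffices), `D = fderiv ℝ r x`; by `Tb.ray`,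
`Tb.ray_fd` this function equals, for `0 ≤ s ≤ 1`, `L (r x) (D v) t + s² ‖v - D v‖²/2 + κ s² ‖x - r x‖² ‖D v + s • (v - D v)‖²/2`. `Px_nonneg`: `κ ‖x - r x‖² ≤ 1/4`.
-/

noncomputable section

namespace EscM

open MeasureTheory Set Filter Topology Esc EscF EscG EscK
open scoped ContDiff

variable {ι : Type} [Fintype ι] {E : Type*} [NormedAddCommGroup E] [InnerProductSpace ℝ E]
  [FiniteDimensional ℝ E] {β : Module.Basis ι ℝ E} {N : Set E} {r : E → E} {R : ℝ}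
variable {F : E → E → ℝ} {mF MF m M : ℝ} {L : E → E → ℝ → ℝ} {ρ : ℝ}

theorem A10_Lt (h : Tb β N r R) (L : E → E → ℝ → ℝ) (hρ : 0 < ρ) (hR : 2 * ρ < R) (Λ : ℝ)
    {x : E} (hx : Metric.infDist x N < ρ) (v : E) (t : ℝ) :
    Lt N r ρ Λ L x v t = Lg r ρ L x v t := by
  unfold Lt
  rw [h.chi_one hρ.le (by linarith) hR hx.le]
  ring

theorem A10_dF (h : Tb β N r R) (hL : LagN β N r R F m M L) (hρ : 0 < ρ) (hR : 2 * ρ < R) (Λ : ℝ)
    (p : E × E × ℝ) :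
    DifferentiableAt ℝ (fun p : E × E × ℝ => Lt N r ρ Λ L p.1 p.2.1 p.2.2) p :=
  ((h.Lt_smooth hL hρ hR Λ).differentiable (by norm_num)).differentiableAt

theorem A10_gu (h : Tb β N r R) (hL : LagN β N r R F m M L) (hρ : 0 < ρ) (hR : 2 * ρ < R) (Λ : ℝ)
    (x v w : E) (t : ℝ) :
    inner ℝ (gu (Lt N r ρ Λ L) x v t) w =
      fderiv ℝ (fun p : E × E × ℝ => Lt N r ρ Λ L p.1 p.2.1 p.2.2) (x, v, t) (0, w, 0) := by
  unfold gu gradient
  rw [InnerProductSpace.toDual_symm_apply]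
  have h1 : HasFDerivAt (fun u : E => ((x, u, t) : E × E × ℝ))
      ((0 : E →L[ℝ] E).prod ((ContinuousLinearMap.id ℝ E).prod (0 : E →L[ℝ] ℝ))) v :=
    (hasFDerivAt_const x v).prodMk ((hasFDerivAt_id v).prodMk (hasFDerivAt_const t v))
  have h2 := (A10_dF h hL hρ hR Λ (x, v, t)).hasFDerivAt.comp v h1
  have h3 : HasFDerivAt (fun u : E => Lt N r ρ Λ L x u t) _ v := h2
  rw [h3.fderiv]
  rfl

theorem A10_gx (h : Tb β N r R) (hL : LagN β N r R F m M L) (hρ : 0 < ρ) (hR : 2 * ρ < R) (Λ : ℝ)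
    (x v w : E) (t : ℝ) :
    inner ℝ (gx (Lt N r ρ Λ L) x v t) w =
      fderiv ℝ (fun p : E × E × ℝ => Lt N r ρ Λ L p.1 p.2.1 p.2.2) (x, v, t) (w, 0, 0) := by
  unfold gx gradient
  rw [InnerProductSpace.toDual_symm_apply]
  have h1 : HasFDerivAt (fun u : E => ((u, v, t) : E × E × ℝ))
      ((ContinuousLinearMap.id ℝ E).prod ((0 : E →L[ℝ] E).prod (0 : E →L[ℝ] ℝ))) x :=
    (hasFDerivAt_id x).prodMk ((hasFDerivAt_const v x).prodMk (hasFDerivAt_const t x))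
  have h2 := (A10_dF h hL hρ hR Λ (x, v, t)).hasFDerivAt.comp x h1
  have h3 : HasFDerivAt (fun u : E => Lt N r ρ Λ L u v t) _ x := h2
  rw [h3.fderiv]
  rfl

theorem Tb.P_eq (h : Tb β N r R) (hL : LagN β N r R F m M L) (hρ : 0 < ρ) (hR : 2 * ρ < R) (Λ : ℝ)
    {x : E} (hx : Metric.infDist x N < ρ) (v : E) (t : ℝ) :
    inner ℝ (gu (Lt N r ρ Λ L) x v t) (x - r x) =
      inner ℝ (x - r x) v * (1 + kap ρ * ‖x - r x‖ ^ 2) := by
  have hxR : Metric.infDist x N < R := by linarith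
  rw [A10_gu h hL hρ hR]
  have h0 := h.Lg_v hL ρ hxR v (x - r x) t
  have h1 : HasDerivAt (fun s : ℝ => ((x, v + s • (x - r x), t) : E × E × ℝ))
      ((0 : E), x - r x, (0 : ℝ)) 0 := by
    have e1 : HasDerivAt (fun s : ℝ => v + s • (x - r x)) (x - r x) 0 := by
      simpa using ((hasDerivAt_id (0:ℝ)).smul_const (x - r x)).const_add v
    exact (hasDerivAt_const (0:ℝ) x).prodMk (e1.prodMk (hasDerivAt_const (0:ℝ) t))
  have h2 := (A10_dF h hL hρ hR Λ (x, v + (0:ℝ) • (x - r x), t)).hasFDerivAt.comp_hasDerivAt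
    (0:ℝ) h1
  have h3 : HasDerivAt (fun s : ℝ => Lg r ρ L x (v + s • (x - r x)) t)
      (fderiv ℝ (fun p : E × E × ℝ => Lt N r ρ Λ L p.1 p.2.1 p.2.2) (x, v + (0:ℝ) • (x - r x), t)
        ((0 : E), x - r x, (0 : ℝ))) 0 := by
    refine h2.congr_of_eventuallyEq (Eventually.of_forall fun s => ?_)
    exact (A10_Lt h L hρ hR Λ hx _ t).symm
  have h4 := h3.unique h0
  rw [zero_smul, add_zero] at h4
  rw [h4, h.ker hxR, map_zero, sub_zero, zero_add, inner_sub_left]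
  have h5 : inner ℝ (fderiv ℝ r x v) (x - r x) = 0 := by
    rw [real_inner_comm]
    exact h.orth hxR v
  rw [h5, real_inner_comm (x - r x) v]
  ring

theorem Tb.Px (h : Tb β N r R) (hL : LagN β N r R F m M L) (hρ : 0 < ρ) (hR : 2 * ρ < R) (Λ : ℝ)
    {x : E} (hx : Metric.infDist x N < ρ) (v : E) (t : ℝ) :
    inner ℝ (gx (Lt N r ρ Λ L) x v t) (x - r x) +
        inner ℝ (gu (Lt N r ρ Λ L) x v t) (v - fderiv ℝ r x v) =
      ‖v - fderiv ℝ r x v‖ ^ 2 + kap ρ * ‖x - r x‖ ^ 2 * ‖v‖ ^ 2 +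
        kap ρ * ‖x - r x‖ ^ 2 * inner ℝ v (v - fderiv ℝ r x v) := by
  have hxR : Metric.infDist x N < R := by linarith
  rw [A10_gu h hL hρ hR, A10_gx h hL hρ hR, ← map_add]
  have hsum : ((x - r x, 0, 0) : E × E × ℝ) + (0, v - fderiv ℝ r x v, 0) =
      (x - r x, v - fderiv ℝ r x v, 0) := by
    simp
  rw [hsum]
  set ν : E := x - r x with hν
  set w : E := v - fderiv ℝ r x v with hw
  have e1 : HasDerivAt (fun s : ℝ => r x + s • ν) ν 1 := by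
    simpa using ((hasDerivAt_id (1:ℝ)).smul_const ν).const_add (r x)
  have e2 : HasDerivAt (fun s : ℝ => fderiv ℝ r x v + s • w) w 1 := by
    simpa using ((hasDerivAt_id (1:ℝ)).smul_const w).const_add (fderiv ℝ r x v)
  have hp : (r x + (1:ℝ) • ν, fderiv ℝ r x v + (1:ℝ) • w, t) = ((x, v, t) : E × E × ℝ) := by
    rw [one_smul, one_smul, hν, hw]
    simp
  have h1 : HasDerivAt (fun s : ℝ => ((r x + s • ν, fderiv ℝ r x v + s • w, t) : E × E × ℝ))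
      (ν, w, (0 : ℝ)) 1 :=
    e1.prodMk (e2.prodMk (hasDerivAt_const (1:ℝ) t))
  have h2 := (A10_dF h hL hρ hR Λ
    (r x + (1:ℝ) • ν, fderiv ℝ r x v + (1:ℝ) • w, t)).hasFDerivAt.comp_hasDerivAt (1:ℝ) h1
  rw [hp] at h2
  have h3 : HasDerivAt (fun s : ℝ => Lt N r ρ Λ L (r x + s • ν) (fderiv ℝ r x v + s • w) t)
      (fderiv ℝ (fun p : E × E × ℝ => Lt N r ρ Λ L p.1 p.2.1 p.2.2) (x, v, t) (ν, w, 0)) 1 := h2
  -- the explicit form on `[0,1]`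
  have h4 : ∀ s ∈ Icc (0:ℝ) 1, Lt N r ρ Λ L (r x + s • ν) (fderiv ℝ r x v + s • w) t =
      L (r x) (fderiv ℝ r x v) t + s ^ 2 * ‖w‖ ^ 2 / 2 +
        kap ρ * (s ^ 2 * ‖ν‖ ^ 2) * ‖fderiv ℝ r x v + s • w‖ ^ 2 / 2 := by
    intro s hs
    obtain ⟨i1, i2⟩ := h.ray hxR hs
    have i3 : Metric.infDist (r x + s • ν) N < ρ := by
      rw [i2]
      have j1 : s * Metric.infDist x N ≤ 1 * Metric.infDist x N :=
        mul_le_mul_of_nonneg_right hs.2 Metric.infDist_nonneg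
      linarith
    rw [A10_Lt h L hρ hR Λ i3]
    unfold Lg
    rw [i1, h.ray_fd hxR hs v]
    have i4 : ‖fderiv ℝ r x v + s • w - fderiv ℝ r x v‖ ^ 2 = s ^ 2 * ‖w‖ ^ 2 := by
      rw [add_sub_cancel_left, norm_smul, mul_pow, Real.norm_eq_abs, sq_abs]
    have i5 : ‖r x + s • ν - r x‖ ^ 2 = s ^ 2 * ‖ν‖ ^ 2 := by
      rw [add_sub_cancel_left, norm_smul, mul_pow, Real.norm_eq_abs, sq_abs]
    rw [i4, i5]
  have e3 : HasDerivAt (fun s : ℝ => ‖fderiv ℝ r x v + s • w‖ ^ 2) (2 * inner ℝ v w) 1 := by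
    have j := e2.norm_sq
    have j2 : fderiv ℝ r x v + (1:ℝ) • w = v := by
      rw [one_smul, hw]
      simp
    rw [j2] at j
    exact j
  have h5 : HasDerivAt (fun s : ℝ => L (r x) (fderiv ℝ r x v) t + s ^ 2 * ‖w‖ ^ 2 / 2 +
        kap ρ * (s ^ 2 * ‖ν‖ ^ 2) * ‖fderiv ℝ r x v + s • w‖ ^ 2 / 2)
      (‖w‖ ^ 2 + kap ρ * ‖ν‖ ^ 2 * ‖v‖ ^ 2 + kap ρ * ‖ν‖ ^ 2 * inner ℝ v w) 1 := by
    have a1 : HasDerivAt (fun s : ℝ => s ^ 2) (2 * 1) 1 := by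
      simpa using hasDerivAt_pow 2 (1:ℝ)
    have a2 := ((a1.mul_const (‖w‖ ^ 2)).div_const 2).const_add (L (r x) (fderiv ℝ r x v) t)
    have a3 := (((a1.mul_const (‖ν‖ ^ 2)).const_mul (kap ρ)).mul e3).div_const 2
    have a4 := a2.add a3
    have j2 : fderiv ℝ r x v + (1:ℝ) • w = v := by
      rw [one_smul, hw]
      simp
    refine HasDerivAt.congr_deriv (f' := (2 * 1 * ‖w‖ ^ 2 / 2 +
      (kap ρ * (2 * 1 * ‖ν‖ ^ 2) * ‖fderiv ℝ r x v + (1:ℝ) • w‖ ^ 2 +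
        kap ρ * (1 ^ 2 * ‖ν‖ ^ 2) * (2 * inner ℝ v w)) / 2)) a4 ?_
    rw [j2]
    ring
  have h6 : HasDerivWithinAt (fun s : ℝ => L (r x) (fderiv ℝ r x v) t + s ^ 2 * ‖w‖ ^ 2 / 2 +
        kap ρ * (s ^ 2 * ‖ν‖ ^ 2) * ‖fderiv ℝ r x v + s • w‖ ^ 2 / 2)
      (fderiv ℝ (fun p : E × E × ℝ => Lt N r ρ Λ L p.1 p.2.1 p.2.2) (x, v, t) (ν, w, 0))
      (Icc 0 1) 1 := by
    refine h3.hasDerivWithinAt.congr (fun s hs => (h4 s hs).symm) ?_
    exact (h4 1 (by simp)).symm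
  have hu : UniqueDiffWithinAt ℝ (Icc (0:ℝ) 1) 1 :=
    uniqueDiffOn_Icc (by norm_num) 1 (by simp)
  exact hu.eq_deriv _ h6 h5.hasDerivWithinAt

theorem Tb.Px_nonneg (h : Tb β N r R) (hρ : 0 < ρ) (hR : 2 * ρ < R) {x : E}
    (hx : Metric.infDist x N < ρ) (v : E) :
    0 ≤ ‖v - fderiv ℝ r x v‖ ^ 2 + kap ρ * ‖x - r x‖ ^ 2 * ‖v‖ ^ 2 +
      kap ρ * ‖x - r x‖ ^ 2 * inner ℝ v (v - fderiv ℝ r x v) := by
  have hxR : Metric.infDist x N < R := by linarith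
  have h1 : ‖x - r x‖ < ρ := by
    rw [← h.dist_eq hxR]
    exact hx
  have h2 : kap ρ * ‖x - r x‖ ^ 2 ≤ 1 / 4 := by
    unfold kap
    have j : ‖x - r x‖ ^ 2 ≤ ρ ^ 2 := by
      have := norm_nonneg (x - r x)
      nlinarith
    rw [div_mul_eq_mul_div, one_mul, div_le_iff₀ (by positivity)]
    linarith
  have h3 : 0 ≤ kap ρ * ‖x - r x‖ ^ 2 := by
    unfold kap
    positivity
  have h4 : -(‖v‖ * ‖v - fderiv ℝ r x v‖) ≤ inner ℝ v (v - fderiv ℝ r x v) :=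
    neg_le_of_abs_le (abs_real_inner_le_norm _ _)
  set a := kap ρ * ‖x - r x‖ ^ 2
  set p := ‖v‖
  set q := ‖v - fderiv ℝ r x v‖
  set z := inner ℝ v (v - fderiv ℝ r x v)
  have h5 : a * -(p * q) ≤ a * z := mul_le_mul_of_nonneg_left h4 h3
  nlinarith [sq_nonneg (q - a * p), sq_nonneg (q - p), sq_nonneg p, mul_nonneg h3 (sq_nonneg p), mul_nonneg h3 (sq_nonneg (p - q)), sq_nonneg q]

end EscM
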