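import Pool.Agent.EscM.A10

set_option autoImplicit false

/-!
Project EscM, module A11: orbits which start on `N` stay on `N`.
Let `x`, `v` be the orbit, `ν = x - r x`, `P t = ⟪gu Lt (x t) (v t) t, ν t⟫`, `W = ‖ν‖² + κ ‖ν‖⁴/2`. `W' = 2 P`
(`P_eq`, `⟪ν, ν'⟫ = ⟪ν, v⟫` by `Tb.orth`), `P' = ⟪gx Lt, ν⟫ + ⟪gu Lt, v - D v⟫ + fderiv f ν ≥ 0` (`Px`, `Px_nonneg`,
`gx (lf l f) = gx l + gradient of f`). If `P t1 > 0` then `W' ≥ 2 P t1` on `[t1,∞)`, contradiction with
`W ≤ ρ² + κ ρ⁴/2`. So `P ≤ 0`, `W` is nonincreasing, `W t0 = 0`, `W ≥ 0`.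
-/

noncomputable section

namespace EscM

open MeasureTheory Set Filter Topology Esc EscF EscG EscK
open scoped ContDiff

variable {ι : Type} [Fintype ι] {E : Type*} [NormedAddCommGroup E] [InnerProductSpace ℝ E]
  [FiniteDimensional ℝ E] {β : Module.Basis ι ℝ E} {N : Set E} {r : E → E} {R : ℝ}
variable {F : E → E → ℝ} {mF MF m M : ℝ} {L : E → E → ℝ → ℝ} {ρ : ℝ}

private theorem A11_inner_gradient (g : E → ℝ) (x w : E) :
    inner ℝ (gradient g x) w = fderiv ℝ g x w := by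
  unfold gradient
  exact InnerProductSpace.toDual_symm_apply

/-- a function `W` which is continuous on `[t0,∞)`, has the derivative `2 P` with `P` nondecreasing, is
nonnegative and bounded and vanishes at `t0`, is zero -/
private theorem A11_ode {t0 C : ℝ} {W P P' : ℝ → ℝ} (hWc : ContinuousOn W (Ici t0))
    (hW : ∀ t, t0 < t → HasDerivAt W (2 * P t) t) (hP : ∀ t, t0 < t → HasDerivAt P (P' t) t)
    (hP' : ∀ t, t0 < t → 0 ≤ P' t) (h0 : W t0 = 0) (hn : ∀ t, t0 ≤ t → 0 ≤ W t)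
    (hC : ∀ t, t0 ≤ t → W t ≤ C) (t : ℝ) (ht : t0 ≤ t) : W t = 0 := by
  have hPm : MonotoneOn P (Ioi t0) := by
    refine monotoneOn_of_deriv_nonneg (convex_Ioi t0)
      (fun s hs => (hP s hs).continuousAt.continuousWithinAt) ?_ ?_
    · rw [interior_Ioi]
      exact fun s hs => (hP s hs).differentiableAt.differentiableWithinAt
    · rw [interior_Ioi]
      intro s hs
      rw [(hP s hs).deriv]
      exact hP' s hs
  have hPn : ∀ s, t0 < s → P s ≤ 0 := by
    intro s hs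
    by_contra hcon
    push Not at hcon
    have hlow : ∀ u, s ≤ u → W s + 2 * P s * (u - s) ≤ W u := by
      intro u hu
      have hm : MonotoneOn (fun τ => W τ - 2 * P s * (τ - s)) (Icc s u) := by
        have hd : ∀ τ, t0 < τ → HasDerivAt (fun τ => W τ - 2 * P s * (τ - s))
            (2 * P τ - 2 * P s * 1) τ := fun τ hτ =>
          (hW τ hτ).sub (((hasDerivAt_id τ).sub_const s).const_mul (2 * P s))
        refine monotoneOn_of_deriv_nonneg (convex_Icc s u)
          (fun τ hτ => (hd τ (hs.trans_le hτ.1)).continuousAt.continuousWithinAt) ?_ ?_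
        · rw [interior_Icc]
          exact fun τ hτ => (hd τ (hs.trans hτ.1)).differentiableAt.differentiableWithinAt
        · rw [interior_Icc]
          intro τ hτ
          rw [(hd τ (hs.trans hτ.1)).deriv]
          have := hPm hs (hs.trans hτ.1 : t0 < τ) hτ.1.le
          linarith
      have h1 := hm (left_mem_Icc.2 hu) (right_mem_Icc.2 hu) hu
      simp only [sub_self, mul_zero, sub_zero] at h1
      linarith
    have h2 := hlow (s + (C + 1) / (2 * P s)) (by
      have : 0 ≤ C := (hn s hs.le).trans (hC s hs.le)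
      have h3 : 0 ≤ (C + 1) / (2 * P s) := by positivity
      linarith)
    have h4 : 2 * P s * (s + (C + 1) / (2 * P s) - s) = C + 1 := by
      field_simp
      ring
    rw [h4] at h2
    have h5 := hC (s + (C + 1) / (2 * P s)) (by
      have : 0 ≤ C := (hn s hs.le).trans (hC s hs.le)
      have h3 : 0 ≤ (C + 1) / (2 * P s) := by positivity
      linarith)
    have h6 := hn s hs.le
    linarith
  have hWa : AntitoneOn W (Ici t0) := by
    refine antitoneOn_of_deriv_nonpos (convex_Ici t0) hWc ?_ ?_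
    · rw [interior_Ici]
      exact fun s hs => (hW s hs).differentiableAt.differentiableWithinAt
    · rw [interior_Ici]
      intro s hs
      rw [(hW s hs).deriv]
      have := hPn s hs
      linarith
  have h1 := hWa (mem_Ici.2 le_rfl) (mem_Ici.2 ht) ht
  rw [h0] at h1
  exact le_antisymm h1 (hn t ht)

theorem Tb.stays (h : Tb β N r R) (hL : LagN β N r R F m M L) (hρ : 0 < ρ) (hR : 2 * ρ < R) (Λ : ℝ)
    {f : E → ℝ → ℝ} (hf : Pt β f)
    (hv : ∀ x, Metric.infDist x N < ρ → ∀ t, 0 ≤ fderiv ℝ (fun y => f y t) x (x - r x)) {x0 : E}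
    (hx0 : x0 ∈ N) (he : EscapesFrom (Lt N r ρ Λ L) f x0 {x | Metric.infDist x N < ρ}) :
    EscapesFrom (Lt N r ρ Λ L) f x0 N := by
  obtain ⟨t0, x, v, ht0, hxt0, hxc, hxd, hvc, hel, hmem, hlim⟩ := he
  refine ⟨t0, x, v, ht0, hxt0, hxc, hxd, hvc, hel, ?_, hlim⟩
  have hρR : ρ < R := by linarith
  have hxR : ∀ t, t0 ≤ t → Metric.infDist (x t) N < R := fun t ht => (hmem t ht).trans hρR
  -- the normal component
  set ν : ℝ → E := fun t => x t - r (x t) with hνdef
  have hrc : ContinuousOn (fun t => r (x t)) (Ici t0) :=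
    h.smooth.continuousOn.comp hxc (fun t ht => hxR t ht)
  have hνc : ContinuousOn ν (Ici t0) := hxc.sub hrc
  have hνd : ∀ t, t0 < t → HasDerivAt ν (v t - fderiv ℝ r (x t) (v t)) t := by
    intro t ht
    have h1 := (h.diff (hxR t ht.le)).hasFDerivAt.comp_hasDerivAt t (hxd t ht)
    exact (hxd t ht).sub h1
  have hνn : ∀ t, t0 ≤ t → ‖ν t‖ < ρ := by
    intro t ht
    have h1 := h.dist_eq (hxR t ht)
    have h2 : Metric.infDist (x t) N < ρ := hmem t ht
    rw [h1] at h2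
    exact h2
  have hin : ∀ t, t0 ≤ t → inner ℝ (ν t) (v t - fderiv ℝ r (x t) (v t)) = inner ℝ (ν t) (v t) := by
    intro t ht
    have h1 := h.orth (hxR t ht) (v t)
    rw [inner_sub_right]
    have h2 : inner ℝ (ν t) (fderiv ℝ r (x t) (v t)) = (0:ℝ) := h1
    rw [h2, sub_zero]
  have hκ : 0 ≤ kap ρ := by
    unfold kap
    positivity
  -- the functions `W`, `P`
  have hq : ∀ t, t0 < t → HasDerivAt (fun t => ‖ν t‖ ^ 2) (2 * inner ℝ (ν t) (v t)) t := by
    intro t ht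
    have h1 := (hνd t ht).norm_sq
    rw [hin t ht.le] at h1
    exact h1
  have hW : ∀ t, t0 < t → HasDerivAt (fun t => ‖ν t‖ ^ 2 + kap ρ / 2 * (‖ν t‖ ^ 2) ^ 2)
      (2 * inner ℝ (gu (Lt N r ρ Λ L) (x t) (v t) t) (ν t)) t := by
    intro t ht
    have h1 := (hq t ht).add (((hq t ht).pow 2).const_mul (kap ρ / 2))
    have h2 := h.P_eq hL hρ hR Λ (hmem t ht.le) (v t) t
    have h3 : inner ℝ (gu (Lt N r ρ Λ L) (x t) (v t) t) (ν t) =
        inner ℝ (ν t) (v t) * (1 + kap ρ * ‖ν t‖ ^ 2) := h2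
    rw [h3]
    refine h1.congr_deriv ?_
    norm_num
    ring
  have hP : ∀ t, t0 < t → HasDerivAt (fun t => inner ℝ (gu (Lt N r ρ Λ L) (x t) (v t) t) (ν t))
      (inner ℝ (gu (Lt N r ρ Λ L) (x t) (v t) t) (v t - fderiv ℝ r (x t) (v t)) +
        inner ℝ (gx (lf (Lt N r ρ Λ L) f) (x t) (v t) t) (ν t)) t := by
    intro t ht
    exact (hel t ht).inner ℝ (hνd t ht)
  have hP' : ∀ t, t0 < t →
      0 ≤ inner ℝ (gu (Lt N r ρ Λ L) (x t) (v t) t) (v t - fderiv ℝ r (x t) (v t)) +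
        inner ℝ (gx (lf (Lt N r ρ Λ L) f) (x t) (v t) t) (ν t) := by
    intro t ht
    have hxt : Metric.infDist (x t) N < ρ := hmem t ht.le
    have h1 := h.Px hL hρ hR Λ hxt (v t) t
    have h2 := h.Px_nonneg hρ hR hxt (v t)
    have h3 := hv (x t) hxt t
    have hLd : DifferentiableAt ℝ (fun y => Lt N r ρ Λ L y (v t) t) (x t) := by
      have h4 : ContDiff ℝ 2 (fun y : E => Lt N r ρ Λ L y (v t) t) :=
        (h.Lt_smooth hL hρ hR Λ).comp
          (f := fun y : E => ((y, v t, t) : E × E × ℝ)) (by fun_prop)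
      exact h4.differentiable (by norm_num) (x t)
    have hfd : DifferentiableAt ℝ (fun y => f y t) (x t) := by
      have h4 : ContDiff ℝ 2 (fun y : E => f y t) :=
        hf.smooth.comp (f := fun y : E => ((y, t) : E × ℝ)) (by fun_prop)
      exact h4.differentiable (by norm_num) (x t)
    have h5 : inner ℝ (gx (lf (Lt N r ρ Λ L) f) (x t) (v t) t) (ν t) =
        inner ℝ (gx (Lt N r ρ Λ L) (x t) (v t) t) (ν t) +
          fderiv ℝ (fun y => f y t) (x t) (ν t) := by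
      unfold gx
      rw [A11_inner_gradient, A11_inner_gradient]
      have h6 : (fun y => lf (Lt N r ρ Λ L) f y (v t) t) =
          (fun y => Lt N r ρ Λ L y (v t) t) + fun y => f y t := rfl
      rw [h6, fderiv_add hLd hfd]
      rfl
    rw [h5]
    have h7 : inner ℝ (gx (Lt N r ρ Λ L) (x t) (v t) t) (ν t) +
        inner ℝ (gu (Lt N r ρ Λ L) (x t) (v t) t) (v t - fderiv ℝ r (x t) (v t)) =
      ‖v t - fderiv ℝ r (x t) (v t)‖ ^ 2 + kap ρ * ‖x t - r (x t)‖ ^ 2 * ‖v t‖ ^ 2 +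
        kap ρ * ‖x t - r (x t)‖ ^ 2 * inner ℝ (v t) (v t - fderiv ℝ r (x t) (v t)) := h1
    have h8 : 0 ≤ fderiv ℝ (fun y => f y t) (x t) (ν t) := h3
    linarith
  have hWc : ContinuousOn (fun t => ‖ν t‖ ^ 2 + kap ρ / 2 * (‖ν t‖ ^ 2) ^ 2) (Ici t0) := by
    have h1 : ContinuousOn (fun t => ‖ν t‖ ^ 2) (Ici t0) := hνc.norm.pow 2
    exact h1.add (continuousOn_const.mul (h1.pow 2))
  have hν0 : ν t0 = 0 := by
    show x t0 - r (x t0) = 0
    rw [hxt0, h.r_eq hx0, sub_self]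
  have key := A11_ode (C := ρ ^ 2 + kap ρ / 2 * (ρ ^ 2) ^ 2) hWc hW hP hP'
    (by simp only [hν0, norm_zero]; norm_num)
    (fun t _ => by positivity) (fun t ht => by
      have h1 := hνn t ht
      have h2 : ‖ν t‖ ^ 2 ≤ ρ ^ 2 := by
        have := norm_nonneg (ν t)
        nlinarith
      have h3 : (‖ν t‖ ^ 2) ^ 2 ≤ (ρ ^ 2) ^ 2 := by
        have := sq_nonneg ‖ν t‖
        nlinarith
      have h4 := mul_le_mul_of_nonneg_left h3 (by positivity : 0 ≤ kap ρ / 2)
      linarith)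
  intro t ht
  have h1 := key t ht
  have h2 : ‖ν t‖ ^ 2 = 0 := by
    have h3 : 0 ≤ kap ρ / 2 * (‖ν t‖ ^ 2) ^ 2 := by positivity
    have h4 : 0 ≤ ‖ν t‖ ^ 2 := by positivity
    have h5 : ‖ν t‖ ^ 2 + kap ρ / 2 * (‖ν t‖ ^ 2) ^ 2 = 0 := h1
    linarith
  have h3 : ν t = 0 := by
    have : ‖ν t‖ = 0 := by
      exact pow_eq_zero_iff (two_ne_zero) |>.1 h2
    exact norm_eq_zero.1 this
  have h4 : x t = r (x t) := sub_eq_zero.1 h3
  rw [h4]
  exact h.mem (x t) (hxR t ht)

end EscM
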