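import Pool.Agent.EscM.EDefs

set_option autoImplicit false

/-!
Project EscM, module A12a: regularity of orbits.
A `C¹` solution `x` of the Euler-Lagrange equation of a strongly convex Lagrangian of class `C²` is of class
`C²`: the map `(x, w, t) ↦ (x, gu l x w t, t)` is `C¹` with invertible derivative, and its local inverse
recovers the velocity from the momentum.
-/

noncomputable section

namespace EscM

open MeasureTheory Set Filter Topology Esc EscF EscG EscK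
open scoped ContDiff

variable {ι : Type} [Fintype ι] {E : Type*} [NormedAddCommGroup E] [InnerProductSpace ℝ E]
  [FiniteDimensional ℝ E] {β : Module.Basis ι ℝ E} {N : Set E} {r : E → E} {R : ℝ}
variable {F : E → E → ℝ} {mF MF m M : ℝ} {L : E → E → ℝ → ℝ} {ρ : ℝ} {l : E → E → ℝ → ℝ}

/-- a function with a continuous derivative is `C¹` -/
theorem A12a_c1 {F : Type*} [NormedAddCommGroup F] [NormedSpace ℝ F] {P P' : ℝ → F}
    (hP : ∀ t, 0 < t → HasDerivAt P (P' t) t) (hP' : ContinuousOn P' (Ioi 0)) :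
    ContDiffOn ℝ 1 P (Ioi 0) := by
  rw [show (1 : WithTop ℕ∞) = 0 + 1 from (zero_add 1).symm,
    contDiffOn_succ_iff_deriv_of_isOpen isOpen_Ioi]
  refine ⟨fun t ht => (hP t ht).differentiableAt.differentiableWithinAt, by simp, ?_⟩
  rw [contDiffOn_zero]
  exact hP'.congr fun t ht => (hP t ht).deriv

/-- the inclusion of the velocities -/
def A12a_J (E : Type*) [NormedAddCommGroup E] [InnerProductSpace ℝ E] : E →L[ℝ] E × E × ℝ :=
  (ContinuousLinearMap.inr ℝ E (E × ℝ)).comp (ContinuousLinearMap.inl ℝ E ℝ)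

omit [FiniteDimensional ℝ E] in
theorem A12a_line (x v : E) (t : ℝ) :
    HasFDerivAt (fun w : E => ((x, w, t) : E × E × ℝ)) (A12a_J E) v := by
  have h1 : HasFDerivAt (fun w : E => w) (ContinuousLinearMap.id ℝ E) v := hasFDerivAt_id _
  exact (hasFDerivAt_const x v).prodMk (h1.prodMk (hasFDerivAt_const t v))

/-- the velocity gradient through the full derivative -/
theorem A12a_gu (hl : ContDiff ℝ 2 (fun p : E × E × ℝ => l p.1 p.2.1 p.2.2)) (q : E × E × ℝ) :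
    gu l q.1 q.2.1 q.2.2 = (InnerProductSpace.toDual ℝ E).symm
      ((fderiv ℝ (fun p : E × E × ℝ => l p.1 p.2.1 p.2.2) q).comp (A12a_J E)) := by
  have hd : Differentiable ℝ (fun p : E × E × ℝ => l p.1 p.2.1 p.2.2) := hl.differentiable (by norm_num)
  have h := (hd (q.1, q.2.1, q.2.2)).hasFDerivAt.comp q.2.1 (A12a_line q.1 q.2.1 q.2.2)
  have h1 : fderiv ℝ (fun w => l q.1 w q.2.2) q.2.1 =
      (fderiv ℝ (fun p : E × E × ℝ => l p.1 p.2.1 p.2.2) q).comp (A12a_J E) := h.fderiv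
  unfold gu gradient
  rw [h1]

theorem A12a_gu_smooth (hl : ContDiff ℝ 2 (fun p : E × E × ℝ => l p.1 p.2.1 p.2.2)) :
    ContDiff ℝ 1 (fun q : E × E × ℝ => gu l q.1 q.2.1 q.2.2) := by
  have h2 : ContDiff ℝ 1 (fderiv ℝ (fun p : E × E × ℝ => l p.1 p.2.1 p.2.2)) :=
    hl.fderiv_right (by norm_num)
  have h3 : (fun q : E × E × ℝ => gu l q.1 q.2.1 q.2.2) = fun q => (InnerProductSpace.toDual ℝ E).symm
      ((fderiv ℝ (fun p : E × E × ℝ => l p.1 p.2.1 p.2.2) q).comp (A12a_J E)) :=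
    funext fun q => A12a_gu hl q
  rw [h3]
  exact (InnerProductSpace.toDual ℝ E).symm.contDiff.comp (h2.clm_comp contDiff_const)

/-- strong monotonicity of the velocity gradient -/
theorem A12a_mono (hc : ∀ x u v t, l x v t + inner ℝ (gu l x v t) (u - v) + m / 2 * ‖u - v‖ ^ 2 ≤ l x u t)
    (x u v : E) (t : ℝ) : m * ‖u - v‖ ^ 2 ≤ inner ℝ (gu l x u t - gu l x v t) (u - v) := by
  have h1 := hc x u v t
  have h2 := hc x v u t
  have h3 : inner ℝ (gu l x u t) (v - u) = - inner ℝ (gu l x u t) (u - v) := by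
    rw [← inner_neg_right, neg_sub]
  rw [norm_sub_rev v u, h3] at h2
  rw [inner_sub_left]
  linarith

/-- the velocity gradient is strictly monotone to first order -/
theorem A12a_inj (hl : ContDiff ℝ 2 (fun p : E × E × ℝ => l p.1 p.2.1 p.2.2)) (hm : 0 < m)
    (hc : ∀ x u v t, l x v t + inner ℝ (gu l x v t) (u - v) + m / 2 * ‖u - v‖ ^ 2 ≤ l x u t)
    (q : E × E × ℝ) (w : E)
    (h0 : fderiv ℝ (fun q : E × E × ℝ => gu l q.1 q.2.1 q.2.2) q (0, w, 0) = 0) : w = 0 := by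
  have hd := ((A12a_gu_smooth hl).differentiable (by norm_num) q).hasFDerivAt
  have hcurve : HasDerivAt (fun s : ℝ => ((q.1, q.2.1 + s • w, q.2.2) : E × E × ℝ)) (0, w, 0) 0 := by
    have h1 : HasDerivAt (fun s : ℝ => q.2.1 + s • w) w 0 := by
      have := ((hasDerivAt_id (0 : ℝ)).smul_const w).const_add q.2.1
      simpa using this
    exact (hasDerivAt_const (0 : ℝ) q.1).prodMk (h1.prodMk (hasDerivAt_const (0 : ℝ) q.2.2))
  have hq : (fun s : ℝ => ((q.1, q.2.1 + s • w, q.2.2) : E × E × ℝ)) 0 = q := by simp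
  have h1 : HasDerivAt (fun s : ℝ => gu l q.1 (q.2.1 + s • w) q.2.2) 0 0 := by
    have hd' : HasFDerivAt (fun q : E × E × ℝ => gu l q.1 q.2.1 q.2.2)
        (fderiv ℝ (fun q : E × E × ℝ => gu l q.1 q.2.1 q.2.2) q)
        ((fun s : ℝ => ((q.1, q.2.1 + s • w, q.2.2) : E × E × ℝ)) 0) := by
      rw [hq]; exact hd
    have h2 := hd'.comp_hasDerivAt (0 : ℝ) hcurve
    rw [h0] at h2
    exact h2
  have h2 : HasDerivAt (fun s : ℝ => (inner ℝ (gu l q.1 (q.2.1 + s • w) q.2.2) w : ℝ)) 0 0 := by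
    have h3 := h1.inner ℝ (hasDerivAt_const (0 : ℝ) w)
    simpa using h3
  have h3 := (hasDerivAt_iff_tendsto_slope.mp h2).mono_left
    (nhdsWithin_mono (0 : ℝ) (fun s (hs : s ∈ Ioi (0 : ℝ)) => (ne_of_gt hs)))
  have h4 : m * ‖w‖ ^ 2 ≤ 0 := by
    refine ge_of_tendsto h3 ?_
    filter_upwards [self_mem_nhdsWithin] with s hs
    have hs0 : 0 < s := hs
    have h5 := A12a_mono hc q.1 (q.2.1 + s • w) q.2.1 q.2.2
    rw [add_sub_cancel_left, norm_smul, Real.norm_of_nonneg hs0.le, inner_smul_right,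
      inner_sub_left] at h5
    rw [slope_def_field, le_div_iff₀ (by linarith)]
    simp only [zero_smul, add_zero, sub_zero]
    have h6 : s * (m * ‖w‖ ^ 2 * s) ≤
        s * (inner ℝ (gu l q.1 (q.2.1 + s • w) q.2.2) w - inner ℝ (gu l q.1 q.2.1 q.2.2) w) := by
      calc s * (m * ‖w‖ ^ 2 * s) = m * (s * ‖w‖) ^ 2 := by ring
        _ ≤ _ := h5
    exact le_of_mul_le_mul_left h6 hs0
  have h5 : ‖w‖ ^ 2 ≤ 0 := by
    by_contra hn
    push Not at hn
    nlinarith [mul_pos hm hn]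
  have h6 : ‖w‖ = 0 := by nlinarith [norm_nonneg w]
  exact norm_eq_zero.mp h6

/-- the momentum map -/
def A12a_G (l : E → E → ℝ → ℝ) (q : E × E × ℝ) : E × E × ℝ := (q.1, gu l q.1 q.2.1 q.2.2, q.2.2)

/-- its derivative -/
def A12a_G' (l : E → E → ℝ → ℝ) (q : E × E × ℝ) : (E × E × ℝ) →L[ℝ] (E × E × ℝ) :=
  (ContinuousLinearMap.fst ℝ E (E × ℝ)).prod
    ((fderiv ℝ (fun q : E × E × ℝ => gu l q.1 q.2.1 q.2.2) q).prod
      ((ContinuousLinearMap.snd ℝ E ℝ).comp (ContinuousLinearMap.snd ℝ E (E × ℝ))))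

theorem A12a_G_smooth (hl : ContDiff ℝ 2 (fun p : E × E × ℝ => l p.1 p.2.1 p.2.2)) :
    ContDiff ℝ 1 (A12a_G l) :=
  contDiff_fst.prodMk ((A12a_gu_smooth hl).prodMk (contDiff_snd.comp contDiff_snd))

theorem A12a_G_deriv (hl : ContDiff ℝ 2 (fun p : E × E × ℝ => l p.1 p.2.1 p.2.2)) (q : E × E × ℝ) :
    HasFDerivAt (A12a_G l) (A12a_G' l q) q := by
  have e2 : HasFDerivAt (fun q : E × E × ℝ => q.2.2)
      ((ContinuousLinearMap.snd ℝ E ℝ).comp (ContinuousLinearMap.snd ℝ E (E × ℝ))) q :=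
    ((ContinuousLinearMap.snd ℝ E ℝ).comp (ContinuousLinearMap.snd ℝ E (E × ℝ))).hasFDerivAt
  exact hasFDerivAt_fst.prodMk
    (((A12a_gu_smooth hl).differentiable (by norm_num) q).hasFDerivAt.prodMk e2)

theorem A12a_equiv (hl : ContDiff ℝ 2 (fun p : E × E × ℝ => l p.1 p.2.1 p.2.2)) (hm : 0 < m)
    (hc : ∀ x u v t, l x v t + inner ℝ (gu l x v t) (u - v) + m / 2 * ‖u - v‖ ^ 2 ≤ l x u t)
    (q : E × E × ℝ) :
    ∃ e : (E × E × ℝ) ≃L[ℝ] (E × E × ℝ), (e : (E × E × ℝ) →L[ℝ] (E × E × ℝ)) = A12a_G' l q := by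
  have hi : Function.Injective (A12a_G' l q).toLinearMap := by
    rw [injective_iff_map_eq_zero]
    rintro ⟨ξ, w, τ⟩ h0
    have h1 : ξ = 0 := congrArg Prod.fst h0
    have h2 : τ = 0 := congrArg (fun p => p.2.2) h0
    have h3 : fderiv ℝ (fun q : E × E × ℝ => gu l q.1 q.2.1 q.2.2) q (ξ, w, τ) = 0 :=
      congrArg (fun p => p.2.1) h0
    subst h1 h2
    rw [A12a_inj hl hm hc q w h3]
    rfl
  refine ⟨(LinearEquiv.ofInjectiveEndo _ hi).toContinuousLinearEquiv, ?_⟩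
  ext p <;> rfl

theorem A12a_v (hl : ContDiff ℝ 2 (fun p : E × E × ℝ => l p.1 p.2.1 p.2.2)) (hm : 0 < m)
    (hc : ∀ x u v t, l x v t + inner ℝ (gu l x v t) (u - v) + m / 2 * ‖u - v‖ ^ 2 ≤ l x u t)
    {x v : ℝ → E} {t : ℝ} (hx : ContDiffAt ℝ 1 x t) (hv : ContinuousAt v t)
    (hP : ContDiffAt ℝ 1 (fun s => gu l (x s) (v s) s) t) : ContDiffAt ℝ 1 v t := by
  obtain ⟨e, he⟩ := A12a_equiv hl hm hc (x t, v t, t)
  have hsm : ContDiffAt ℝ 1 (A12a_G l) (x t, v t, t) := (A12a_G_smooth hl).contDiffAt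
  have hd : HasFDerivAt (A12a_G l) (e : (E × E × ℝ) →L[ℝ] (E × E × ℝ)) (x t, v t, t) := by
    rw [he]; exact A12a_G_deriv hl _
  have hinv := hsm.to_localInverse hd (by norm_num)
  set g := hsm.localInverse hd (by norm_num) with hg
  have hleft : ∀ᶠ q in 𝓝 (x t, v t, t), g (A12a_G l q) = q :=
    (hsm.hasStrictFDerivAt' hd (by norm_num)).eventually_left_inverse
  have hcurve : ContinuousAt (fun s => (x s, v s, s)) t :=
    hx.continuousAt.prodMk (hv.prodMk continuousAt_id)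
  have h1 : ∀ᶠ s in 𝓝 t, g (A12a_G l (x s, v s, s)) = (x s, v s, s) := hcurve.eventually hleft
  have h2 : ∀ᶠ s in 𝓝 t, v s = (g (x s, gu l (x s) (v s) s, s)).2.1 := by
    filter_upwards [h1] with s hs
    have h3 : A12a_G l (x s, v s, s) = (x s, gu l (x s) (v s) s, s) := rfl
    rw [h3] at hs
    rw [hs]
  have h4 : ContDiffAt ℝ 1 (fun s => (x s, gu l (x s) (v s) s, s)) t :=
    hx.prodMk (hP.prodMk contDiffAt_id)
  have h6 : ContDiffAt ℝ 1 (fun s => g (x s, gu l (x s) (v s) s, s)) t :=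
    ContDiffAt.comp t (g := g) (f := fun s => (x s, gu l (x s) (v s) s, s)) hinv h4
  have h7 : ContDiffAt ℝ 1 (fun s => (g (x s, gu l (x s) (v s) s, s)).2.1) t :=
    contDiffAt_fst.comp _ (contDiffAt_snd.comp t h6)
  exact h7.congr_of_eventuallyEq h2

theorem contDiffOn_two (hl : ContDiff ℝ 2 (fun p : E × E × ℝ => l p.1 p.2.1 p.2.2)) (hm : 0 < m)
    (hc : ∀ x u v t, l x v t + inner ℝ (gu l x v t) (u - v) + m / 2 * ‖u - v‖ ^ 2 ≤ l x u t)
    {x v q : ℝ → E} (hx : ∀ t, 0 < t → HasDerivAt x (v t) t) (hv : ContinuousOn v (Ioi 0))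
    (hq : ContinuousOn q (Ioi 0)) (hp : ∀ t, 0 < t → HasDerivAt (fun s => gu l (x s) (v s) s) (q t) t) :
    ContDiffOn ℝ 2 x (Ioi 0) := by
  have hx1 : ContDiffOn ℝ 1 x (Ioi 0) := A12a_c1 hx hv
  have hP1 := A12a_c1 hp hq
  have hv1 : ContDiffOn ℝ 1 v (Ioi 0) := by
    intro t ht
    have hnt : Ioi (0:ℝ) ∈ 𝓝 t := isOpen_Ioi.mem_nhds ht
    exact (A12a_v hl hm hc (hx1.contDiffAt hnt) (hv.continuousAt hnt)
      (hP1.contDiffAt hnt)).contDiffWithinAt
  rw [show (2 : WithTop ℕ∞) = 1 + 1 from one_add_one_eq_two.symm,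
    contDiffOn_succ_iff_deriv_of_isOpen isOpen_Ioi]
  refine ⟨hx1.differentiableOn (by norm_num), by simp, ?_⟩
  exact hv1.congr fun t ht => (hx t ht).deriv

end EscM
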