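import Pool.Agent.EscM.EDefs

set_option autoImplicit false

/-!
Project EscM, module A12b: the action is stationary.
Derivative of the integral with respect to the parameter `s` at `0` (integrand `C^1` in `(s, t)`, `X` is `C²`): `∫ ⟪gx l, ∂s X⟫ + ⟪gu l, ∂t ∂s X⟫`, with the arguments `(X (0,t), ∂t X (0,t), t) = (x t, x' t, t)` for `t ∈ (a,b)`;
this is the integral of the derivative of `⟪gu l (x t) (x' t) t, ∂s X (0,t)⟫`, and `∂s X (0,a) = ∂s X (0,b) = 0`.
-/

noncomputable section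

namespace EscM

open MeasureTheory Set Filter Topology Esc EscF EscG EscK
open scoped ContDiff

/-- derivative under the integral sign for `C¹` integrands -/
theorem A12b_par {g : ℝ × ℝ → ℝ} (hg : ContDiff ℝ 1 g) (a b : ℝ) :
    HasDerivAt (fun s => ∫ t in a..b, g (s, t)) (∫ t in a..b, fderiv ℝ g (0, t) (1, 0)) 0 := by
  have hc : Continuous (fun z : ℝ × ℝ => fderiv ℝ g z (1, 0)) :=
    (hg.continuous_fderiv one_ne_zero).clm_apply continuous_const
  obtain ⟨C, hC⟩ : ∃ C, ∀ z ∈ (Metric.closedBall (0 : ℝ) 1) ×ˢ (uIcc a b),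
      ‖fderiv ℝ g z (1, 0)‖ ≤ C :=
    ((isCompact_closedBall (0 : ℝ) 1).prod isCompact_uIcc).exists_bound_of_continuousOn
      hc.continuousOn
  have hd : ∀ s t : ℝ, HasDerivAt (fun s => g (s, t)) (fderiv ℝ g (s, t) (1, 0)) s := by
    intro s t
    have h1 : HasFDerivAt g (fderiv ℝ g (s, t)) (s, t) :=
      (hg.differentiable one_ne_zero (s, t)).hasFDerivAt
    have h2 : HasDerivAt (fun s : ℝ => (s, t)) ((1 : ℝ), (0 : ℝ)) s :=
      (hasDerivAt_id s).prodMk (hasDerivAt_const s t)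
    exact h1.comp_hasDerivAt s h2
  refine (intervalIntegral.hasDerivAt_integral_of_dominated_loc_of_deriv_le
    (F' := fun s t => fderiv ℝ g (s, t) (1, 0)) (bound := fun _ => C)
    (Metric.closedBall_mem_nhds (0 : ℝ) one_pos) (Eventually.of_forall fun s => ?_) ?_ ?_ ?_ ?_
    ?_).2
  · exact (hg.continuous.comp (continuous_const.prodMk continuous_id)).aestronglyMeasurable
  · exact (hg.continuous.comp (continuous_const.prodMk continuous_id)).intervalIntegrable _ _
  · exact (hc.comp (continuous_const.prodMk continuous_id)).aestronglyMeasurable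
  · exact Eventually.of_forall fun t ht s hs => hC (s, t) ⟨hs, uIoc_subset_uIcc ht⟩
  · simp
  · exact Eventually.of_forall fun t _ s _ => hd s t

variable {ι : Type} [Fintype ι] {E : Type*} [NormedAddCommGroup E] [InnerProductSpace ℝ E]
  [FiniteDimensional ℝ E] {β : Module.Basis ι ℝ E} {N : Set E} {r : E → E} {R : ℝ}
variable {F : E → E → ℝ} {mF MF m M : ℝ} {L : E → E → ℝ → ℝ} {ρ : ℝ} {l : E → E → ℝ → ℝ}

theorem A12b_gx (hl : ContDiff ℝ 2 (fun p : E × E × ℝ => l p.1 p.2.1 p.2.2)) (x v w : E) (t : ℝ) :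
    inner ℝ (gx l x v t) w = fderiv ℝ (fun p : E × E × ℝ => l p.1 p.2.1 p.2.2) (x, v, t) (w, 0, 0) := by
  have h1 : HasFDerivAt (fun p : E × E × ℝ => l p.1 p.2.1 p.2.2)
      (fderiv ℝ (fun p : E × E × ℝ => l p.1 p.2.1 p.2.2) (x, v, t)) (x, v, t) :=
    ((hl.differentiable (by norm_num)) _).hasFDerivAt
  have h2 : HasFDerivAt (fun y : E => (y, v, t)) (ContinuousLinearMap.inl ℝ E (E × ℝ)) x :=
    hasFDerivAt_prodMk_left x (v, t)
  have h3 := (h1.comp x h2).fderiv
  unfold gx gradient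
  rw [InnerProductSpace.toDual_symm_apply]
  have h4 : fderiv ℝ (fun y => l y v t) x = fderiv ℝ ((fun p : E × E × ℝ => l p.1 p.2.1 p.2.2) ∘
      (fun y : E => (y, v, t))) x := rfl
  rw [h4, h3]
  rfl

theorem A12b_gu (hl : ContDiff ℝ 2 (fun p : E × E × ℝ => l p.1 p.2.1 p.2.2)) (x v w : E) (t : ℝ) :
    inner ℝ (gu l x v t) w = fderiv ℝ (fun p : E × E × ℝ => l p.1 p.2.1 p.2.2) (x, v, t) (0, w, 0) := by
  have h1 : HasFDerivAt (fun p : E × E × ℝ => l p.1 p.2.1 p.2.2)
      (fderiv ℝ (fun p : E × E × ℝ => l p.1 p.2.1 p.2.2) (x, v, t)) (x, v, t) :=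
    ((hl.differentiable (by norm_num)) _).hasFDerivAt
  have h2 : HasFDerivAt (fun w : E => (x, w, t))
      ((ContinuousLinearMap.inr ℝ E (E × ℝ)).comp (ContinuousLinearMap.inl ℝ E ℝ)) v := by
    have h3 : HasFDerivAt (fun w : E => (w, t)) (ContinuousLinearMap.inl ℝ E ℝ) v :=
      hasFDerivAt_prodMk_left v t
    exact (hasFDerivAt_prodMk_right x (v, t)).comp v h3
  have h3 := (h1.comp v h2).fderiv
  unfold gu gradient
  rw [InnerProductSpace.toDual_symm_apply]
  have h4 : fderiv ℝ (fun y => l x y t) v = fderiv ℝ ((fun p : E × E × ℝ => l p.1 p.2.1 p.2.2) ∘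
      (fun y : E => (x, y, t))) v := rfl
  rw [h4, h3]
  simp

theorem stationary (hl : ContDiff ℝ 2 (fun p : E × E × ℝ => l p.1 p.2.1 p.2.2)) {x : ℝ → E}
    (hx : ContDiffOn ℝ 2 x (Ioi 0)) (hp : ∀ t, 0 < t →
      HasDerivAt (fun s => gu l (x s) (deriv x s) s) (gx l (x t) (deriv x t) t) t)
    {a b : ℝ} (ha : 0 < a) (hab : a < b) {X : ℝ × ℝ → E} (hX : ContDiff ℝ 2 X)
    (h0 : ∀ t ∈ Icc a b, X (0, t) = x t) (he : ∀ s, X (s, a) = x a ∧ X (s, b) = x b) :
    HasDerivAt (fun s => ∫ t in a..b, l (X (s, t)) (deriv (fun t' => X (s, t')) t) t) 0 0 := by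
  have hD : ContDiff ℝ 1 (fderiv ℝ X) := hX.fderiv_right (by norm_num)
  have hXs : ContDiff ℝ 1 (fun z => fderiv ℝ X z (1, 0)) := hD.clm_apply contDiff_const
  have hXt : ContDiff ℝ 1 (fun z => fderiv ℝ X z (0, 1)) := hD.clm_apply contDiff_const
  have hXd : ∀ z, HasFDerivAt X (fderiv ℝ X z) z := fun z =>
    (hX.differentiable (by norm_num) z).hasFDerivAt
  have hdt : ∀ s t : ℝ, HasDerivAt (fun t' => X (s, t')) (fderiv ℝ X (s, t) (0, 1)) t := by
    intro s t
    have h2 : HasDerivAt (fun t' : ℝ => (s, t')) ((0 : ℝ), (1 : ℝ)) t :=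
      (hasDerivAt_const t s).prodMk (hasDerivAt_id t)
    exact (hXd (s, t)).comp_hasDerivAt t h2
  have hds : ∀ s t : ℝ, HasDerivAt (fun s' => X (s', t)) (fderiv ℝ X (s, t) (1, 0)) s := by
    intro s t
    have h2 : HasDerivAt (fun s' : ℝ => (s', t)) ((1 : ℝ), (0 : ℝ)) s :=
      (hasDerivAt_id s).prodMk (hasDerivAt_const s t)
    exact (hXd (s, t)).comp_hasDerivAt s h2
  obtain ⟨g, hg⟩ : ∃ g : ℝ × ℝ → ℝ, g = fun z => l (X z) (fderiv ℝ X z (0, 1)) z.2 := ⟨_, rfl⟩
  have hgc : ContDiff ℝ 1 g := by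
    rw [hg]
    exact (hl.of_le (by norm_num)).comp
      ((hX.of_le (by norm_num)).prodMk (hXt.prodMk contDiff_snd))
  have e1 : (fun s => ∫ t in a..b, l (X (s, t)) (deriv (fun t' => X (s, t')) t) t) =
      fun s => ∫ t in a..b, g (s, t) := by
    funext s
    refine intervalIntegral.integral_congr fun t _ => ?_
    simp only [hg]
    rw [(hdt s t).deriv]
  rw [e1]
  have h1 := A12b_par hgc a b
  have e2 : (∫ t in a..b, fderiv ℝ g (0, t) (1, 0)) = 0 := by
    have hsym : ∀ z : ℝ × ℝ, fderiv ℝ (fun z => fderiv ℝ X z (0, 1)) z (1, 0) =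
        fderiv ℝ (fun z => fderiv ℝ X z (1, 0)) z (0, 1) := by
      intro z
      have hd : DifferentiableAt ℝ (fderiv ℝ X) z := hD.differentiable one_ne_zero z
      have s1 : IsSymmSndFDerivAt ℝ X z :=
        (hX.contDiffAt (x := z)).isSymmSndFDerivAt (by simp)
      have k1 : ∀ w : ℝ × ℝ, HasFDerivAt (fun z => fderiv ℝ X z w)
          ((ContinuousLinearMap.apply ℝ E w).comp (fderiv ℝ (fderiv ℝ X) z)) z := fun w =>
        ((ContinuousLinearMap.apply ℝ E w).hasFDerivAt (x := fderiv ℝ X z)).comp z hd.hasFDerivAt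
      rw [(k1 (0, 1)).fderiv, (k1 (1, 0)).fderiv]
      simp only [ContinuousLinearMap.comp_apply, ContinuousLinearMap.apply_apply]
      exact s1 _ _
    have hgs : ∀ t, fderiv ℝ g (0, t) (1, 0) =
        inner ℝ (gx l (X (0, t)) (fderiv ℝ X (0, t) (0, 1)) t) (fderiv ℝ X (0, t) (1, 0)) +
        inner ℝ (gu l (X (0, t)) (fderiv ℝ X (0, t) (0, 1)) t)
          (fderiv ℝ (fun z => fderiv ℝ X z (1, 0)) (0, t) (0, 1)) := by
      intro t
      have k1 : HasFDerivAt (fun p : E × E × ℝ => l p.1 p.2.1 p.2.2)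
          (fderiv ℝ (fun p : E × E × ℝ => l p.1 p.2.1 p.2.2)
            (X (0, t), fderiv ℝ X (0, t) (0, 1), t)) (X (0, t), fderiv ℝ X (0, t) (0, 1), t) :=
        ((hl.differentiable (by norm_num)) _).hasFDerivAt
      have k2 : HasFDerivAt (fun z : ℝ × ℝ => (X z, fderiv ℝ X z (0, 1), z.2))
          ((fderiv ℝ X (0, t)).prod ((fderiv ℝ (fun z => fderiv ℝ X z (0, 1)) (0, t)).prod
            (ContinuousLinearMap.snd ℝ ℝ ℝ))) (0, t) :=
        (hXd (0, t)).prodMk (((hXt.differentiable one_ne_zero (0, t)).hasFDerivAt).prodMk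
          hasFDerivAt_snd)
      have k3 := (k1.comp (0, t) k2).fderiv
      have k4 : fderiv ℝ g (0, t) = fderiv ℝ ((fun p : E × E × ℝ => l p.1 p.2.1 p.2.2) ∘
          (fun z : ℝ × ℝ => (X z, fderiv ℝ X z (0, 1), z.2))) (0, t) := by
        rw [hg]
        rfl
      rw [k4, k3, A12b_gx hl, A12b_gu hl, ← map_add, ← hsym]
      simp
    obtain ⟨y, hy⟩ : ∃ y : ℝ → ℝ, y = fun t =>
        inner ℝ (gu l (x t) (deriv x t) t) (fderiv ℝ X (0, t) (1, 0)) := ⟨_, rfl⟩
    have hyd : ∀ t, 0 < t → HasDerivAt y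
        (inner ℝ (gu l (x t) (deriv x t) t)
            (fderiv ℝ (fun z => fderiv ℝ X z (1, 0)) (0, t) (0, 1)) +
          inner ℝ (gx l (x t) (deriv x t) t) (fderiv ℝ X (0, t) (1, 0))) t := by
      intro t ht
      rw [hy]
      have k2 : HasDerivAt (fun t' : ℝ => ((0 : ℝ), t')) ((0 : ℝ), (1 : ℝ)) t :=
        (hasDerivAt_const t (0 : ℝ)).prodMk (hasDerivAt_id t)
      have k3 : HasDerivAt (fun t' : ℝ => fderiv ℝ X (0, t') (1, 0))
          (fderiv ℝ (fun z => fderiv ℝ X z (1, 0)) (0, t) (0, 1)) t :=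
        ((hXs.differentiable one_ne_zero (0, t)).hasFDerivAt).comp_hasDerivAt t k2
      exact (hp t ht).inner ℝ k3
    have hend : ∀ t, (∀ s, X (s, t) = X (0, t)) → fderiv ℝ X (0, t) (1, 0) = 0 := by
      intro t ht
      have k1 := hds 0 t
      have k2 : (fun s' => X (s', t)) = fun _ => X (0, t) := funext ht
      rw [k2] at k1
      exact k1.unique (hasDerivAt_const _ _)
    have hya : y a = 0 := by
      rw [hy]
      simp only
      rw [hend a (fun s => by rw [(he s).1, (he 0).1]), inner_zero_right]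
    have hyb : y b = 0 := by
      rw [hy]
      simp only
      rw [hend b (fun s => by rw [(he s).2, (he 0).2]), inner_zero_right]
    have hgi : IntervalIntegrable (fun t => fderiv ℝ g (0, t) (1, 0)) volume a b := by
      have q1 : Continuous (fun z : ℝ × ℝ => fderiv ℝ g z (1, 0)) :=
        (hgc.continuous_fderiv one_ne_zero).clm_apply continuous_const
      exact (q1.comp (continuous_const.prodMk continuous_id)).intervalIntegrable _ _
    have k5 := intervalIntegral.integral_eq_sub_of_hasDerivAt_of_le hab.le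
      (f := y) (f' := fun t => fderiv ℝ g (0, t) (1, 0))
      (fun t ht => (hyd t (lt_of_lt_of_le ha ht.1)).continuousAt.continuousWithinAt)
      (fun t ht => by
        have ht' : t ∈ Icc a b := Ioo_subset_Icc_self ht
        have q1 : X (0, t) = x t := h0 t ht'
        have q2 : deriv x t = fderiv ℝ X (0, t) (0, 1) := by
          have q3 : (fun t' => X (0, t')) =ᶠ[𝓝 t] x := by
            filter_upwards [Icc_mem_nhds ht.1 ht.2] with s hs
            exact h0 s hs
          rw [← q3.deriv_eq]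
          exact (hdt 0 t).deriv
        have q4 := hyd t (ha.trans ht.1)
        rw [hgs t, ← q2, q1, add_comm]
        exact q4)
      hgi
    rw [k5, hya, hyb, sub_zero]
  rw [e2] at h1
  exact h1

end EscM
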