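import Pool.Agent.EscM.A11
import Pool.Agent.EscM.A12a
import Pool.Agent.EscM.A12b

set_option autoImplicit false

/-!
Project EscM, module A12c: orbits on `N` are extremals of `L + f` on `N`.
`contDiffOn_two` and `stationary` for `lf (Lt N r ρ Λ L) f` (`gu (lf l f) = gu l`, strong convexity from `Tb.Lt_conv`). For `(x, v) ∈ TN N r`: `Lt N r ρ Λ L x v t = L x v t`. For `X` with values in `N`: `r (X q) = X q`, so
`∂t X` is tangent.
-/

noncomputable section

namespace EscM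

open MeasureTheory Set Filter Topology Esc EscF EscG EscK
open scoped ContDiff

variable {ι : Type} [Fintype ι] {E : Type*} [NormedAddCommGroup E] [InnerProductSpace ℝ E]
  [FiniteDimensional ℝ E] {β : Module.Basis ι ℝ E} {N : Set E} {r : E → E} {R : ℝ}
variable {F : E → E → ℝ} {mF MF m M : ℝ} {L : E → E → ℝ → ℝ} {ρ : ℝ} {l : E → E → ℝ → ℝ}

theorem A12c_gu_lf (l : E → E → ℝ → ℝ) (f : E → ℝ → ℝ) (x v : E) (t : ℝ) :
    gu (lf l f) x v t = gu l x v t := by
  unfold gu lf gradient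
  rw [fderiv_add_const]

/-- the gradient in the position is continuous -/
theorem A12c_gx_cont (hl : ContDiff ℝ 2 (fun p : E × E × ℝ => l p.1 p.2.1 p.2.2)) :
    Continuous (fun p : E × E × ℝ => gx l p.1 p.2.1 p.2.2) := by
  have h1 : Continuous (fderiv ℝ (fun p : E × E × ℝ => l p.1 p.2.1 p.2.2)) :=
    hl.continuous_fderiv (by norm_num)
  have h2 : ∀ p : E × E × ℝ, gx l p.1 p.2.1 p.2.2 =
      (InnerProductSpace.toDual ℝ E).symm
        ((fderiv ℝ (fun p : E × E × ℝ => l p.1 p.2.1 p.2.2) p).comp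
          (ContinuousLinearMap.inl ℝ E (E × ℝ))) := by
    rintro ⟨x, v, t⟩
    have h3 : HasFDerivAt (fun p : E × E × ℝ => l p.1 p.2.1 p.2.2)
        (fderiv ℝ (fun p : E × E × ℝ => l p.1 p.2.1 p.2.2) (x, v, t)) (x, v, t) :=
      ((hl.differentiable (by norm_num)) _).hasFDerivAt
    have h4 : HasFDerivAt (fun y : E => (y, v, t)) (ContinuousLinearMap.inl ℝ E (E × ℝ)) x :=
      hasFDerivAt_prodMk_left x (v, t)
    have h5' : HasFDerivAt (fun y => l y v t)
        ((fderiv ℝ (fun p : E × E × ℝ => l p.1 p.2.1 p.2.2) (x, v, t)).comp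
          (ContinuousLinearMap.inl ℝ E (E × ℝ))) x :=
      HasFDerivAt.comp (g := fun p : E × E × ℝ => l p.1 p.2.1 p.2.2) x h3 h4
    have h5 := h5'.fderiv
    show gradient (fun y => l y v t) x = _
    unfold gradient
    rw [h5]
  have h6 : (fun p : E × E × ℝ => gx l p.1 p.2.1 p.2.2) = fun p =>
      (InnerProductSpace.toDual ℝ E).symm
        ((fderiv ℝ (fun p : E × E × ℝ => l p.1 p.2.1 p.2.2) p).comp
          (ContinuousLinearMap.inl ℝ E (E × ℝ))) := funext h2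
  rw [h6]
  exact (InnerProductSpace.toDual ℝ E).symm.continuous.comp (h1.clm_comp continuous_const)

theorem Tb.Lt_tan (h : Tb β N r R) (hρ : 0 < ρ) (hR : 2 * ρ < R) (Λ : ℝ) {x v : E}
    (hv : (x, v) ∈ TN N r) (t : ℝ) : Lt N r ρ Λ L x v t = L x v t := by
  obtain ⟨hx, hv⟩ := hv
  have h0 : Metric.infDist x N = 0 := Metric.infDist_zero_of_mem hx
  have h1 : chi N r ρ (2 * ρ) x = 1 :=
    h.chi_one hρ.le (by linarith) hR (by rw [h0]; exact hρ.le)
  have h2 : r x = x := h.r_eq hx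
  have h3 : fderiv ℝ r x v = v := hv
  unfold Lt Lg
  rw [h1, h2, h3]
  simp

/-- the velocity of a curve in `N` is tangent -/
theorem A12c_tangent (h : Tb β N r R) {y : ℝ → E} (hy : ∀ t, y t ∈ N) {t : ℝ}
    (hd : DifferentiableAt ℝ y t) : (y t, deriv y t) ∈ TN N r := by
  refine ⟨hy t, ?_⟩
  have h0 : Metric.infDist (y t) N < R := by
    rw [Metric.infDist_zero_of_mem (hy t)]
    exact h.R_pos
  have h1 : HasDerivAt (fun s => r (y s)) (fderiv ℝ r (y t) (deriv y t)) t :=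
    (h.diff h0).hasFDerivAt.comp_hasDerivAt t hd.hasDerivAt
  have h2 : (fun s => r (y s)) = y := funext fun s => h.r_eq (hy s)
  rw [h2] at h1
  exact (h1.deriv).symm

/-- an orbit of an abstract Lagrangian is of class `C²` and the action is stationary -/
theorem A12c_abs (hl : ContDiff ℝ 2 (fun p : E × E × ℝ => l p.1 p.2.1 p.2.2)) {m' : ℝ} (hm : 0 < m')
    (hc : ∀ x u v t, l x v t + inner ℝ (gu l x v t) (u - v) + m' / 2 * ‖u - v‖ ^ 2 ≤ l x u t)
    {x v : ℝ → E} (hx : ∀ t, 0 < t → HasDerivAt x (v t) t) (hv : ContinuousOn v (Ioi 0))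
    (hp : ∀ t, 0 < t → HasDerivAt (fun s => gu l (x s) (v s) s) (gx l (x t) (v t) t) t) :
    ContDiffOn ℝ 2 x (Ioi 0) ∧
      ∀ (a b : ℝ) (X : ℝ × ℝ → E), 0 < a → a < b → ContDiff ℝ 2 X →
        (∀ t ∈ Icc a b, X (0, t) = x t) → (∀ s, X (s, a) = x a ∧ X (s, b) = x b) →
        HasDerivAt (fun s => ∫ t in a..b, l (X (s, t)) (deriv (fun t' => X (s, t')) t) t) 0 0 := by
  have hdx' : ∀ t, 0 < t → deriv x t = v t := fun t ht => (hx t ht).deriv
  have hxc : ContinuousOn x (Ioi 0) := fun t ht => (hx t ht).continuousAt.continuousWithinAt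
  have hq : ContinuousOn (fun t => gx l (x t) (v t) t) (Ioi 0) := by
    have h1 : ContinuousOn (fun t : ℝ => (x t, v t, t)) (Ioi 0) :=
      hxc.prodMk (hv.prodMk continuousOn_id)
    exact (A12c_gx_cont hl).comp_continuousOn h1
  have hc2 : ContDiffOn ℝ 2 x (Ioi 0) := contDiffOn_two hl hm hc hx hv hq hp
  have hp' : ∀ t, 0 < t → HasDerivAt (fun s => gu l (x s) (deriv x s) s)
      (gx l (x t) (deriv x t) t) t := by
    intro t ht
    rw [hdx' t ht]
    refine (hp t ht).congr_of_eventuallyEq ?_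
    filter_upwards [lt_mem_nhds ht] with s hs
    rw [hdx' s hs]
  exact ⟨hc2, fun a b X ha hab hX h0 he => stationary hl hc2 hp' ha hab hX h0 he⟩

/-- variations with values in `N` -/
theorem A12c_int (h : Tb β N r R) (hρ : 0 < ρ) (hR : 2 * ρ < R) (Λ : ℝ) (f : E → ℝ → ℝ)
    {X : ℝ × ℝ → E} (hX : ContDiff ℝ 2 X) (hXN : ∀ q, X q ∈ N) (s t : ℝ) :
    L (X (s, t)) (deriv (fun t' => X (s, t')) t) t + f (X (s, t)) t =
      lf (Lt N r ρ Λ L) f (X (s, t)) (deriv (fun t' => X (s, t')) t) t := by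
  have h3 : DifferentiableAt ℝ (fun t' => X (s, t')) t := by
    have h4 : DifferentiableAt ℝ X (s, t) := (hX.differentiable (by norm_num)) _
    have h5 : DifferentiableAt ℝ (fun t' : ℝ => (s, t')) t :=
      (hasFDerivAt_prodMk_right s t).differentiableAt
    exact DifferentiableAt.comp t h4 h5
  have h6 : (X (s, t), deriv (fun t' => X (s, t')) t) ∈ TN N r :=
    A12c_tangent h (y := fun t' => X (s, t')) (fun t' => hXN _) h3
  have h7 : Lt N r ρ Λ L (X (s, t)) (deriv (fun t' => X (s, t')) t) t =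
      L (X (s, t)) (deriv (fun t' => X (s, t')) t) t := h.Lt_tan hρ hR Λ h6 t
  unfold lf
  rw [h7]

theorem Tb.extremal (h : Tb β N r R) (hL : LagN β N r R F m M L) (hρ : 0 < ρ) (hR : 2 * ρ < R) {Λ : ℝ}
    (hΛ : 0 < Λ) {f : E → ℝ → ℝ} (hf : Pt β f) {x0 : E} (he : EscapesFrom (Lt N r ρ Λ L) f x0 N) :
    ∃ x : ℝ → E, ContDiffOn ℝ 2 x (Ioi 0) ∧ (∀ t, 0 < t → x t ∈ N) ∧
      (∀ (a b : ℝ) (X : ℝ × ℝ → E), 0 < a → a < b → ContDiff ℝ 2 X → (∀ q, X q ∈ N) →
        (∀ t ∈ Icc a b, X (0, t) = x t) → (∀ s, X (s, a) = x a ∧ X (s, b) = x b) →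
        HasDerivAt (fun s => ∫ t in a..b,
          (L (X (s, t)) (deriv (fun t' => X (s, t')) t) t + f (X (s, t)) t)) 0 0) ∧
      Tendsto (fun t => ‖deriv x t‖) atTop atTop := by
  obtain ⟨t0, x, v, ht0, -, -, hxv, hvc, hgu, hxN, hvt⟩ := he
  have hpos : ∀ t : ℝ, 0 < t → t0 < t := fun t ht => lt_of_le_of_lt ht0 ht
  have hls : ContDiff ℝ 2 (fun p : E × E × ℝ => lf (Lt N r ρ Λ L) f p.1 p.2.1 p.2.2) := by
    have h1 : ContDiff ℝ 2 (fun p : E × E × ℝ => f p.1 p.2.2) :=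
      hf.smooth.comp (contDiff_fst.prodMk (contDiff_snd.comp contDiff_snd))
    exact (h.Lt_smooth hL hρ hR Λ).add h1
  obtain ⟨m', hm', hconv⟩ := h.Lt_conv hL hρ hR hΛ
  have hdx : ∀ t, 0 < t → HasDerivAt x (v t) t := fun t ht => hxv t (hpos t ht)
  have hsub : Ioi (0:ℝ) ⊆ Ici t0 := fun t ht => (hpos t ht).le
  have hp : ∀ t, 0 < t → HasDerivAt (fun s => gu (lf (Lt N r ρ Λ L) f) (x s) (v s) s)
      (gx (lf (Lt N r ρ Λ L) f) (x t) (v t) t) t := by
    intro t ht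
    have h1 := hgu t (hpos t ht)
    have h2 : (fun s => gu (lf (Lt N r ρ Λ L) f) (x s) (v s) s) =
        fun s => gu (Lt N r ρ Λ L) (x s) (v s) s := funext fun s => A12c_gu_lf _ _ _ _ _
    rw [h2]
    exact h1
  have hconv' : ∀ x u v t, lf (Lt N r ρ Λ L) f x v t +
      inner ℝ (gu (lf (Lt N r ρ Λ L) f) x v t) (u - v) + m' / 2 * ‖u - v‖ ^ 2 ≤
        lf (Lt N r ρ Λ L) f x u t := by
    intro x u v t
    rw [A12c_gu_lf]
    have h1 := hconv x u v t
    have h2 : ∀ w, lf (Lt N r ρ Λ L) f x w t = Lt N r ρ Λ L x w t + f x t := fun w => rfl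
    rw [h2, h2]
    linarith
  obtain ⟨hc2, hst⟩ := A12c_abs hls hm' hconv' hdx (hvc.mono hsub) hp
  refine ⟨x, hc2, fun t ht => hxN t (hpos t ht).le, ?_, ?_⟩
  · intro a b X ha hab hX hXN h0 he
    have h1 := hst a b X ha hab hX h0 he
    have h2 : (fun s => ∫ t in a..b,
        (L (X (s, t)) (deriv (fun t' => X (s, t')) t) t + f (X (s, t)) t)) =
        fun s => ∫ t in a..b,
          lf (Lt N r ρ Λ L) f (X (s, t)) (deriv (fun t' => X (s, t')) t) t := by
      funext s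
      exact intervalIntegral.integral_congr fun t _ => A12c_int h hρ hR Λ f hX hXN s t
    rw [h2]
    exact h1
  · refine hvt.congr' ?_
    filter_upwards [eventually_gt_atTop (0:ℝ)] with t ht
    rw [(hdx t ht).deriv]

end EscM
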