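import Pool.Agent.EscM.A6
import Pool.Agent.EscG.B2
import Pool.Agent.EscG.C1
import Pool.Agent.EscG.C2

set_option autoImplicit false

/-!
Project EscM, module A8c: bound of the cost of the second direction.
`JoinedIn N`: a continuous path in `N` from `x0` to `x0 + v0`; uniform continuity gives points `p 0, ..., p n` in `N` with steps `≤ ρ`. On the segment from `p i` to `p (i+1)` `infDist ≤ ρ`, so
`Ft² = Gt ≤ C ‖v‖²` (`Ft_near`, `Ext.gt`): `fd (p i) (p (i+1)) ≤ √C ρ` (`fd_sq_le` with the constant control), and `|Bt - Bt| ≤ C ρ` (`Ext.bt`). `j_le` with `n = 0`, `j_tri`. `K = 2 n ρ`.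
-/

noncomputable section

namespace EscM

open MeasureTheory Set Filter Topology Esc EscF EscG EscK
open scoped ContDiff

variable {ι : Type} [Fintype ι] {E : Type*} [NormedAddCommGroup E] [InnerProductSpace ℝ E]
  [FiniteDimensional ℝ E] {β : Module.Basis ι ℝ E} {N : Set E} {r : E → E} {R : ℝ}
variable {k0 : ι} {ρ : ℝ}

omit [InnerProductSpace ℝ E] [FiniteDimensional ℝ E] in
/-- a chain of points in `N` along a path in `N` -/
theorem A8c_chain {x y : E} (h : JoinedIn N x y) (hρ : 0 < ρ) : ∃ (n : ℕ) (p : ℕ → E), p 0 = x ∧ p n = y ∧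
    (∀ i, p i ∈ N) ∧ ∀ i, ‖p (i + 1) - p i‖ ≤ ρ := by
  obtain ⟨γ, hγ⟩ := h
  have hu : UniformContinuous γ := CompactSpace.uniformContinuous_of_continuous γ.continuous
  obtain ⟨δ, hδ, hu⟩ := Metric.uniformContinuous_iff.mp hu ρ hρ
  obtain ⟨n, hn⟩ := exists_nat_one_div_lt hδ
  have hn0 : (0:ℝ) < n + 1 := by positivity
  refine ⟨n + 1, fun i => γ (projIcc 0 1 zero_le_one ((i : ℝ) / (n + 1))), ?_, ?_, fun i => hγ _,
    fun i => ?_⟩
  · have h1 : projIcc (0:ℝ) 1 zero_le_one (((0:ℕ) : ℝ) / (n + 1)) = 0 := by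
      rw [Nat.cast_zero, zero_div]
      exact projIcc_left _
    show γ (projIcc (0:ℝ) 1 zero_le_one (((0:ℕ) : ℝ) / (n + 1))) = x
    rw [h1, γ.source]
  · have h1 : projIcc (0:ℝ) 1 zero_le_one (((n + 1 : ℕ) : ℝ) / (n + 1)) = 1 := by
      push_cast
      rw [div_self hn0.ne']
      exact projIcc_right _
    show γ (projIcc (0:ℝ) 1 zero_le_one (((n + 1 : ℕ) : ℝ) / (n + 1))) = y
    rw [h1, γ.target]
  · rw [← dist_eq_norm]
    refine (hu ?_).le
    have h1 := (LipschitzWith.projIcc (a := (0:ℝ)) (b := 1) zero_le_one).dist_le_mul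
      (((i + 1 : ℕ) : ℝ) / (n + 1)) ((i : ℝ) / (n + 1))
    refine h1.trans_lt ?_
    rw [NNReal.coe_one, one_mul, Real.dist_eq]
    have h2 : ((i + 1 : ℕ) : ℝ) / (n + 1) - (i : ℝ) / (n + 1) = 1 / (n + 1) := by
      push_cast
      ring
    rw [h2, abs_of_pos (by positivity)]
    exact hn

/-- the metric near `N` -/
theorem A8c_Ft {F : E → E → ℝ} {mF MF : ℝ} {B : E → ℝ} {len : ℝ} {c c' : ℝ → E} {ℓ : E →L[ℝ] ℝ} {C Λ : ℝ}
    (h : Ext β N r R F mF MF B k0 len c c' ℓ ρ C Λ) {x : E} (hx : Metric.infDist x N ≤ ρ) (v : E) :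
    Ft N r ρ Λ F x v ^ 2 ≤ C * ‖v‖ ^ 2 := by
  have h1 := h.ρ_pos
  have h2 := h.ρ_lt
  rw [h.tb.Ft_near h1 (by linarith) Λ hx v, Real.sq_sqrt (Gt_nonneg r ρ F x v)]
  exact h.gt x v (by linarith)

/-- the distance of near points of `N` -/
theorem A8c_fd {F : E → E → ℝ} {mF MF : ℝ} {B : E → ℝ} {len : ℝ} {c c' : ℝ → E} {ℓ : E →L[ℝ] ℝ}
    {C Λ mF' MF' : ℝ} (h : Ext β N r R F mF MF B k0 len c c' ℓ ρ C Λ)
    (hf : Fins β (Ft N r ρ Λ F) mF' MF') {p q : E} (hp : p ∈ N) (hq : ‖q - p‖ ≤ ρ) :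
    fd (Ft N r ρ Λ F) p q ≤ C * ρ := by
  have h1 : traj 0 p (fun _ => q - p) 1 = q := by simp [traj]
  have h2 := fd_sq_le hf one_pos p (Adm.const (q - p))
  rw [h1] at h2
  have h3 : (∫ t in (0:ℝ)..1, Ft N r ρ Λ F (traj 0 p (fun _ => q - p) t) (q - p) ^ 2) ≤
      ∫ _t in (0:ℝ)..1, C * ‖q - p‖ ^ 2 := by
    refine intervalIntegral.integral_mono_on zero_le_one ?_ (by simp) fun t ht => ?_
    · have := (A5a_iiQ hf 0 (Adm.const (q - p)) 0 p 0 1).const_mul 2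
      refine this.congr fun r _ => ?_
      ring
    · refine A8c_Ft h ?_ _
      refine (Metric.infDist_le_dist_of_mem hp).trans ?_
      have h4 : traj 0 p (fun _ => q - p) t = p + t • (q - p) := by
        simp [traj, smul_sub]
      rw [h4, dist_eq_norm, add_sub_cancel_left, norm_smul, Real.norm_eq_abs, abs_of_nonneg ht.1]
      exact (mul_le_of_le_one_left (norm_nonneg _) ht.2).trans hq
  rw [intervalIntegral.integral_const, sub_zero, one_smul] at h3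
  rw [sub_zero, one_mul] at h2
  have hC := h.C_ge
  have hρ := h.ρ_pos
  refine le_of_sq_le_sq ?_ (by positivity)
  calc fd (Ft N r ρ Λ F) p q ^ 2 ≤ C * ‖q - p‖ ^ 2 := h2.trans h3
    _ ≤ C * ρ ^ 2 := by gcongr
    _ ≤ (C * ρ) ^ 2 := by
      rw [mul_pow]
      exact mul_le_mul_of_nonneg_right (by nlinarith) (by positivity)

/-- the calibrating function is Lipschitz -/
theorem A8c_Bt {F : E → E → ℝ} {mF MF : ℝ} {B : E → ℝ} {len : ℝ} {c c' : ℝ → E} {ℓ : E →L[ℝ] ℝ}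
    {C Λ : ℝ} (h : Ext β N r R F mF MF B k0 len c c' ℓ ρ C Λ) {p q : E} (hq : ‖q - p‖ ≤ ρ) :
    Bt N r ρ B ℓ p - Bt N r ρ B ℓ q ≤ C * ρ := by
  have h1 := h.ρ_pos
  have h2 := h.ρ_lt
  have hs := h.tb.Bt_smooth h.cl h1 (by linarith) ℓ
  have hC : 0 ≤ C := zero_le_one.trans h.C_ge
  have h3 := convex_univ.norm_image_sub_le_of_norm_fderiv_le (f := Bt N r ρ B ℓ) (C := C)
    (fun x _ => (hs.differentiable one_ne_zero).differentiableAt)
    (fun x _ => ContinuousLinearMap.opNorm_le_bound _ hC fun v => h.bt x v) (mem_univ p) (mem_univ q)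
  rw [norm_sub_rev, Real.norm_eq_abs] at h3
  exact (le_abs_self _).trans (h3.trans (mul_le_mul_of_nonneg_left hq hC))

theorem Sec.bound (h : Tb β N r R) {x0 v0 : E} (hs : Sec β N k0 x0 v0) (hρ : 0 < ρ) :
    ∃ K : ℝ, 0 ≤ K ∧ ∀ (R : ℝ) (F : E → E → ℝ) (mF MF : ℝ) (B : E → ℝ) (len : ℝ) (c c' : ℝ → E)
      (ℓ : E →L[ℝ] ℝ) (C Λ mF' MF' : ℝ) (g : E), Ext β N r R F mF MF B k0 len c c' ℓ ρ C Λ →
        Fins β (Ft N r ρ Λ F) mF' MF' →
          (gdC β (Ft N r ρ Λ F) mF' MF' (Bt N r ρ B ℓ) k0 len c g).j x0 (x0 + v0) ≤ K * C := by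
  obtain ⟨n, p, h0, hn, hp, hd⟩ := A8c_chain hs.joined hρ
  refine ⟨2 * n * ρ, by positivity, fun R F mF MF B len c c' ℓ C Λ mF' MF' g h hf => ?_⟩
  have h1 := EscG.B2.j_le (h.calC hf) g x0 (x0 + v0) 0
  have h2 : lv (fun _ : Fin 1 => β k0) 0 = 0 := by simp [lv]
  rw [h2, add_zero] at h1
  have h3 : ∀ i : ℕ, fd (Ft N r ρ Λ F) (p 0) (p i) - (Bt N r ρ B ℓ (p i) - Bt N r ρ B ℓ (p 0)) ≤
      i * (2 * (C * ρ)) := by
    intro i
    induction i with
    | zero => simp [C1_self hf]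
    | succ i ih =>
      have h4 := fd_tri hf (p 0) (p i) (p (i + 1))
      have h5 := A8c_fd h hf (hp i) (hd i)
      have h6 := A8c_Bt h (hd i)
      push_cast
      linarith
  have h4 := h3 n
  rw [h0, hn] at h4
  linarith

end EscM
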