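import Pool.Agent.EscM.A8d
import Pool.Agent.EscK.C4b

set_option autoImplicit false

/-!
Project EscM, module A8e: parameters for which everything happens near `N`.
`Near`, `Nr`: `EscK/KDefs.lean`. Take `δ0` from `Ext.tube` and `p` from `EscK.exists_par_small` with `p.ηc ≤ δ0`, `2 p.κ ≤ δ0`. `infDist · N` is invariant under the lattice (`Tb.infDist_Lam`).
`x0 = c 0 + lv D.b n` with `n` from `p.Ok.bnd` (`k = 0`, `c 0 ∈ D.Rm p.ηc`): `x0 ∈ range c` (closed curve: `c (t + len) = c t + β k0`), so `x0 ∈ D.Rm p.η1 ∩ closedBall 0 p.ρ`.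
-/

noncomputable section

namespace EscM

open MeasureTheory Set Filter Topology Esc EscF EscG EscK
open scoped ContDiff

variable {ι : Type} [Fintype ι] {E : Type*} [NormedAddCommGroup E] [InnerProductSpace ℝ E]
  [FiniteDimensional ℝ E] {β : Module.Basis ι ℝ E} {N : Set E} {r : E → E} {R : ℝ}
variable {F : E → E → ℝ} {mF MF : ℝ} {B : E → ℝ} {k0 : ι} {len : ℝ} {c c' : ℝ → E} {ℓ : E →L[ℝ] ℝ}
  {ρ C Λ mF' MF' : ℝ}

theorem Ext.near_small (h : Ext β N r R F mF MF B k0 len c c' ℓ ρ C Λ)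
    (hf : Fins β (Ft N r ρ Λ F) mF' MF') {g : E}
    (hD : (gdC β (Ft N r ρ Λ F) mF' MF' (Bt N r ρ B ℓ) k0 len c g).Ok)
    (hU : (gdC β (Ft N r ρ Λ F) mF' MF' (Bt N r ρ B ℓ) k0 len c g).U < √Λ / 2 * ρ) {δ : ℝ} (hδ : 0 < δ) :
    ∃ p : GP, p.Ok (gdC β (Ft N r ρ Λ F) mF' MF' (Bt N r ρ B ℓ) k0 len c g) ∧
      Near (gdC β (Ft N r ρ Λ F) mF' MF' (Bt N r ρ B ℓ) k0 len c g) p ⊆ {x | Metric.infDist x N < δ} ∧
      ∃ x0 ∈ (gdC β (Ft N r ρ Λ F) mF' MF' (Bt N r ρ B ℓ) k0 len c g).C p, x0 ∈ N := by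
  have hg : g ∈ Submodule.span ℤ (Set.range β) := hD.g_mem
  obtain ⟨δ0, hδ0, htube⟩ := h.tube hf hg hU hδ
  obtain ⟨p, hp, hηc, hκ⟩ := exists_par_small hD (half_pos hδ0)
  refine ⟨p, hp, ?_, ?_⟩
  · rintro x ⟨v, hv, hx⟩
    have hv' : v ∈ Submodule.span ℤ (Set.range β) := hv
    show Metric.infDist x N < δ
    rcases hx with hx | hx
    · have h1 : ∃ v' ∈ (gdC β (Ft N r ρ Λ F) mF' MF' (Bt N r ρ B ℓ) k0 len c g).Lam,
          Metric.infDist (x + v + v') (Set.range c) < p.ηc / 2 := by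
        by_contra hcon
        push Not at hcon
        exact hx hcon
      obtain ⟨v', hv1, h2⟩ := h1
      have hv1' : v' ∈ Submodule.span ℤ (Set.range β) := hv1
      have h3 := htube (x + v + v') (Or.inl (by linarith [hp.ηc_pos]))
      rw [h.tb.infDist_Lam hv1', h.tb.infDist_Lam hv'] at h3
      exact h3
    · have h2 : (gdC β (Ft N r ρ Λ F) mF' MF' (Bt N r ρ B ℓ) k0 len c g).j (c 0) (x + v) +
          (gdC β (Ft N r ρ Λ F) mF' MF' (Bt N r ρ B ℓ) k0 len c g).j (x + v) (c 0 + g) ≤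
          (gdC β (Ft N r ρ Λ F) mF' MF' (Bt N r ρ B ℓ) k0 len c g).U + 2 * p.κ := hx.2
      have h3 := htube (x + v) (Or.inr (by linarith))
      rw [h.tb.infDist_Lam hv'] at h3
      exact h3
  · have h0 : c 0 ∈ (gdC β (Ft N r ρ Λ F) mF' MF' (Bt N r ρ B ℓ) k0 len c g).Rm p.ηc := by
      show Metric.infDist (c 0) (Set.range c) ≤ p.ηc
      rw [Metric.infDist_zero_of_mem (Set.mem_range_self 0)]
      exact hp.ηc_pos.le
    obtain ⟨n, hn⟩ := hp.bnd (c 0) (Or.inl h0) 0 (by norm_num)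
    have hn' : ‖c 0 + lv (gdC β (Ft N r ρ Λ F) mF' MF' (Bt N r ρ B ℓ) k0 len c g).b n‖ ≤ p.ρ := by
      rw [Int.cast_zero, zero_smul, add_zero] at hn
      exact hn
    have hr : c 0 + lv (gdC β (Ft N r ρ Λ F) mF' MF' (Bt N r ρ B ℓ) k0 len c g).b n ∈ Set.range c :=
      hD.Z_J n (c 0) (Set.mem_range_self 0)
    refine ⟨c 0 + lv (gdC β (Ft N r ρ Λ F) mF' MF' (Bt N r ρ B ℓ) k0 len c g).b n, ⟨?_, ?_⟩, ?_⟩
    · show Metric.infDist _ (Set.range c) ≤ p.η1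
      rw [Metric.infDist_zero_of_mem hr]
      exact hp.η1_pos.le
    · rw [Metric.mem_closedBall, dist_zero_right]
      exact hn'
    · obtain ⟨t, ht⟩ := hr
      rw [← ht]
      exact h.cl.mem t

end EscM
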