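import Pool.Agent.EscM.A7c
import Pool.Agent.EscM.A8c
import Pool.Agent.EscM.A8e
import Pool.Agent.EscK.B3b
import Pool.Agent.EscK.EF

set_option autoImplicit false

/-!
Project EscM, module A13: the gap data of a closed submanifold.
`K` from `Sec.bound`, `ℓ`, `C` from `exists_ext`; `Λ > 4 C²` with `K C < √Λ/2 ρ`; `mF'`, `MF'` from `Tb.Ft_fins`; `Ext.calC`; `g` from `EscK.gdC_ok_min` (there is an index `k1 ≠ k0`, since `v0` is a lattice vector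
which is not a multiple of `β k0`), `D.U ≤ D.j (c 0) (c 0 + v0) ≤ K C`; `Tb.Lt_te`, `EscK.FL_of_CalC`; `Ext.near_small`.
-/

noncomputable section

namespace EscM

open MeasureTheory Set Filter Topology Esc EscF EscG EscK
open scoped ContDiff

variable {ι : Type} [Fintype ι] {E : Type*} [NormedAddCommGroup E] [InnerProductSpace ℝ E]
  [FiniteDimensional ℝ E] {β : Module.Basis ι ℝ E} {N : Set E} {r : E → E} {R : ℝ}
variable {F : E → E → ℝ} {mF MF m M : ℝ} {L : E → E → ℝ → ℝ} {B : E → ℝ} {k0 : ι} {len : ℝ}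
  {c c' : ℝ → E} {ρ : ℝ}

/-- a lattice vector which is not a multiple of `β k0` needs a second basis vector -/
theorem A13_exists_ne {x0 v0 : E} (hs : Sec β N k0 x0 v0) : ∃ k1 : ι, k1 ≠ k0 := by
  by_contra hcon
  push Not at hcon
  have h1 : Set.range β ⊆ {β k0} := by
    rintro _ ⟨i, rfl⟩
    rw [hcon i]
    exact Set.mem_singleton _
  have h2 := Submodule.span_mono (R := ℤ) h1 hs.v0_mem
  obtain ⟨k, hk⟩ := Submodule.mem_span_singleton.mp h2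
  refine hs.v0_not k ?_
  rw [← hk]
  exact (Int.cast_smul_eq_zsmul ℝ k (β k0)).symm

theorem exists_data (h : Tb β N r R) (hF : FinsN β N r F mF MF) (hc : CalN β N r R F B k0 len c c')
    {v0 : E} (hs : Sec β N k0 (c 0) v0) (hL : LagN β N r R F m M L) (hρ : 0 < ρ) (hR : 5 * ρ < R) :
    ∃ (Λ m' : ℝ) (D : GD ι 1 E) (L' : LP), 0 < Λ ∧ D.β = β ∧ D.Ok ∧ FL D m' L' (Lt N r ρ Λ L) ∧
      ∀ δ : ℝ, 0 < δ → ∃ p : GP, p.Ok D ∧ Near D p ⊆ {x | Metric.infDist x N < δ} ∧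
        ∃ x0 ∈ D.C p, x0 ∈ N := by
  obtain ⟨K, hK0, hK⟩ := hs.bound h hρ
  obtain ⟨ℓ, C, hext⟩ := exists_ext h hF hc hρ hR
  obtain ⟨Λ, hΛ0, hΛ1, hΛ2⟩ : ∃ Λ : ℝ, 0 < Λ ∧ 4 * C ^ 2 < Λ ∧ K * C < √Λ / 2 * ρ := by
    refine ⟨4 * C ^ 2 + (2 * |K * C| / ρ + 1) ^ 2, by positivity, ?_, ?_⟩
    · have : (0 : ℝ) < (2 * |K * C| / ρ + 1) ^ 2 := by positivity
      linarith
    · have h1 : 2 * |K * C| / ρ + 1 ≤ √(4 * C ^ 2 + (2 * |K * C| / ρ + 1) ^ 2) := by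
        refine Real.le_sqrt_of_sq_le ?_
        have : (0 : ℝ) ≤ 4 * C ^ 2 := by positivity
        linarith
      have h2 : (2 * |K * C| / ρ + 1) / 2 * ρ ≤
          √(4 * C ^ 2 + (2 * |K * C| / ρ + 1) ^ 2) / 2 * ρ := by
        gcongr
      have h3 : (2 * |K * C| / ρ + 1) / 2 * ρ = |K * C| + ρ / 2 := by
        field_simp
      rw [h3] at h2
      have h4 := le_abs_self (K * C)
      linarith
  have hE := hext Λ hΛ1
  have hR2 : 2 * ρ < R := by linarith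
  obtain ⟨mF', MF', hf⟩ := h.Ft_fins hF hρ hR2 hΛ0
  have hcal := hE.calC hf
  obtain ⟨k1, hk1⟩ := A13_exists_ne hs
  obtain ⟨g, hOk, hmin⟩ := gdC_ok_min hcal hk1
  have hU : (gdC β (Ft N r ρ Λ F) mF' MF' (Bt N r ρ B ℓ) k0 len c g).U < √Λ / 2 * ρ := by
    refine lt_of_le_of_lt (hmin v0 ?_ ?_) (lt_of_le_of_lt (hK _ _ _ _ _ _ _ _ _ _ _ _ _ g hE hf) hΛ2)
    · exact hs.v0_mem
    · rintro ⟨n, hn⟩
      refine hs.v0_not (n 0) ?_
      rw [hn]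
      simp [lv, gdC]
  obtain ⟨m', M', hTE, hAL⟩ := h.Lt_te hF hL hρ hR2 hΛ0 hf
  obtain ⟨L', hFL⟩ := FL_of_CalC hcal hTE hAL
  exact ⟨Λ, m', _, L', hΛ0, rfl, hOk, hFL g, fun δ hδ => hE.near_small hf hOk hU hδ⟩

end EscM
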