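import Pool.Agent.EscM.NDefs

/-!
Module N1 of project EscM: elementary facts on `Sub` (nearest point map, periodicity, distance to `N`,
normal segments).
-/

noncomputable section

namespace EscM

open Filter Topology Set Esc EscG EscF.T
open scoped ContDiff UniformConvergence

variable {m : ℕ} {k : ℕ∞}

theorem vz_zero' : (vz (0 : Fin m → ℤ) : Vec m) = 0 := by
  ext i
  simp [vz]

theorem vz_add' (n n' : Fin m → ℤ) : (vz (n + n') : Vec m) = vz n + vz n' := by
  ext i
  simp [vz]

theorem vz_neg' (n : Fin m → ℤ) : (vz (-n) : Vec m) = -vz n := by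
  ext i
  simp [vz]

theorem bas_apply (i : Fin m) : bas m i = vz (Pi.single i 1) := by
  ext j
  by_cases h : j = i
  · subst h
    simp [vz, bas]
  · simp [vz, bas, h]

theorem N1_vz_sum (n : Fin m → ℤ) : (vz n : Vec m) = ∑ i, n i • bas m i := by
  have h : n = ∑ i, n i • (Pi.single i 1 : Fin m → ℤ) := by
    ext j
    simp [Finset.sum_apply, Pi.single_apply]
  have h1 : ∀ s : Finset (Fin m), (vz (∑ i ∈ s, n i • (Pi.single i 1 : Fin m → ℤ)) : Vec m) =
      ∑ i ∈ s, n i • bas m i := by
    classical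
    intro s
    induction s using Finset.induction_on with
    | empty => simpa using vz_zero'
    | insert a s ha ih =>
      rw [Finset.sum_insert ha, Finset.sum_insert ha, vz_add', ih, bas_apply]
      congr 1
      ext j
      simp [vz]
  rw [h1 Finset.univ |>.symm, ← h]

/-- a function invariant under the basis vectors is invariant under the lattice -/
theorem per_vz {W : Type*} {g : Vec m → W} (h : ∀ i x, g (x + bas m i) = g x) (n : Fin m → ℤ) (x : Vec m) :
    g (x + vz n) = g x := by
  classical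
  have h1 : ∀ (i : Fin m) (l : ℤ) (x : Vec m), g (x + l • bas m i) = g x := by
    intro i l
    induction l using Int.induction_on with
    | zero => intro x; simp
    | succ l ih =>
      intro x
      rw [add_smul, one_smul, ← add_assoc, h, ih]
    | pred l ih =>
      intro x
      have h2 := h i (x + (-(l : ℤ) - 1) • bas m i)
      rw [← h2, add_assoc, sub_smul, one_smul, sub_add_cancel, ih]
  rw [N1_vz_sum]
  have h3 : ∀ (s : Finset (Fin m)) (x : Vec m), g (x + ∑ i ∈ s, n i • bas m i) = g x := by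
    intro s
    induction s using Finset.induction_on with
    | empty => intro x; simp
    | insert a s ha ih =>
      intro x
      rw [Finset.sum_insert ha, ← add_assoc, ih, h1]
  exact h3 _ x

theorem N1_add_neg (n : Fin m → ℤ) (x : Vec m) : x + vz n + vz (-n) = x := by
  rw [vz_neg', add_neg_cancel_right]

theorem perN_iff (M : Sub m) (n : Fin m → ℤ) (x : Vec m) : x + vz n ∈ M.N ↔ x ∈ M.N :=
  ⟨fun h => by
    have := M.perN (-n) _ h
    rwa [N1_add_neg] at this, M.perN n x⟩

theorem perU_iff (M : Sub m) (n : Fin m → ℤ) (x : Vec m) : x + vz n ∈ M.U ↔ x ∈ M.U :=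
  ⟨fun h => by
    have := M.perU (-n) _ h
    rwa [N1_add_neg] at this, M.perU n x⟩

theorem r_self (M : Sub m) {x : Vec m} (hx : x ∈ M.N) : M.r x = x := by
  by_contra hne
  have h := M.nearest x (M.sub hx) x hx (Ne.symm hne)
  rw [dist_self] at h
  exact absurd h (not_lt.2 dist_nonneg)

theorem N1_nearest_le (M : Sub m) {x : Vec m} (hx : x ∈ M.U) {p : Vec m} (hp : p ∈ M.N) :
    dist x (M.r x) ≤ dist x p := by
  by_cases h : p = M.r x
  · rw [h]
  · exact (M.nearest x hx p hp h).le

theorem r_vz (M : Sub m) (n : Fin m → ℤ) {x : Vec m} (hx : x ∈ M.U) : M.r (x + vz n) = M.r x + vz n := by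
  by_contra hne
  have hx' : x + vz n ∈ M.U := M.perU n x hx
  have h1 := M.nearest _ hx' (M.r x + vz n) (M.perN n _ (M.mem x hx)) (fun h => hne h.symm)
  rw [dist_add_right] at h1
  have hq : M.r (x + vz n) + vz (-n) ∈ M.N := M.perN (-n) _ (M.mem _ hx')
  have h2 := N1_nearest_le M hx hq
  have h3 : dist x (M.r (x + vz n) + vz (-n)) = dist (x + vz n) (M.r (x + vz n)) := by
    rw [← dist_add_right (x + vz n) (M.r (x + vz n)) (vz (-n)), N1_add_neg]
  rw [h3] at h2
  exact absurd h1 (not_lt.2 h2)

theorem infDist_eq (M : Sub m) {x : Vec m} (hx : x ∈ M.U) : Metric.infDist x M.N = ‖x - M.r x‖ := by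
  rw [← dist_eq_norm]
  refine le_antisymm (Metric.infDist_le_dist_of_mem (M.mem x hx)) ?_
  exact (Metric.le_infDist ⟨_, M.mem x hx⟩).2 fun p hp => N1_nearest_le M hx hp

theorem infDist_vz (M : Sub m) (n : Fin m → ℤ) (x : Vec m) :
    Metric.infDist (x + vz n) M.N = Metric.infDist x M.N := by
  have himg : (fun y => y + vz n) '' M.N = M.N := by
    ext y
    constructor
    · rintro ⟨z, hz, rfl⟩
      exact M.perN n z hz
    · intro hy
      refine ⟨y + vz (-n), M.perN (-n) y hy, ?_⟩
      change y + vz (-n) + vz n = y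
      rw [vz_neg', neg_add_cancel_right]
  have h := Metric.infDist_image (Φ := fun y : Vec m => y + vz n) (x := x) (t := M.N)
    (isometry_add_right (vz n))
  rw [himg] at h
  exact h

/-- the nearest point map along normal segments -/
theorem r_seg (M : Sub m) {x : Vec m} (hx : x ∈ M.U) {s : ℝ} (hs : 0 ≤ s) (hs1 : s ≤ 1)
    (hU : M.r x + s • (x - M.r x) ∈ M.U) : M.r (M.r x + s • (x - M.r x)) = M.r x := by
  by_contra hne
  set y : Vec m := M.r x + s • (x - M.r x) with hy
  have h1 := M.nearest y hU (M.r x) (M.mem x hx) (fun h => hne h.symm)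
  have h2 := M.nearest x hx (M.r y) (M.mem y hU) hne
  have h3 : dist y (M.r x) = s * dist x (M.r x) := by
    rw [dist_eq_norm, dist_eq_norm, hy, add_sub_cancel_left, norm_smul, Real.norm_of_nonneg hs]
  have h4 : dist x y = (1 - s) * dist x (M.r x) := by
    rw [dist_eq_norm, dist_eq_norm, hy]
    have : x - (M.r x + s • (x - M.r x)) = (1 - s) • (x - M.r x) := by
      rw [sub_smul, one_smul]; abel
    rw [this, norm_smul, Real.norm_of_nonneg (by linarith)]
  have h5 := dist_triangle x y (M.r y)
  nlinarith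

/-- the normal vector is in the kernel of the derivative of `r` -/
theorem fderiv_r_normal (M : Sub m) {x : Vec m} (hx : x ∈ M.U) : fderiv ℝ M.r x (x - M.r x) = 0 := by
  have hdiff : DifferentiableAt ℝ M.r x :=
    ((M.smooth x hx).contDiffAt (M.isOpen.mem_nhds hx)).differentiableAt (by simp)
  set l : ℝ → Vec m := fun s => M.r x + s • (x - M.r x) with hl
  have hl1 : l 1 = x := by simp [hl]
  have hld : HasDerivAt l (x - M.r x) 1 := by
    have := ((hasDerivAt_id (1 : ℝ)).smul_const (x - M.r x)).const_add (M.r x)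
    simpa [hl] using this
  have hcomp : HasDerivAt (fun s => M.r (l s)) (fderiv ℝ M.r x (x - M.r x)) 1 := by
    have h1 : HasFDerivAt M.r (fderiv ℝ M.r x) (l 1) := by rw [hl1]; exact hdiff.hasFDerivAt
    exact h1.comp_hasDerivAt 1 hld
  have hcont : Continuous l := by
    rw [hl]; fun_prop
  have hev : ∀ᶠ s in 𝓝[≤] (1 : ℝ), M.r (l s) = M.r x := by
    have h1 : ∀ᶠ s in 𝓝 (1 : ℝ), l s ∈ M.U := by
      apply hcont.continuousAt.eventually_mem
      rw [hl1]
      exact M.isOpen.mem_nhds hx
    have h2 : ∀ᶠ s in 𝓝 (1 : ℝ), 0 ≤ s := by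
      filter_upwards [lt_mem_nhds (show (0 : ℝ) < 1 by norm_num)] with s hs using hs.le
    filter_upwards [nhdsWithin_le_nhds h1, nhdsWithin_le_nhds h2, self_mem_nhdsWithin] with s h3 h4 h5
    exact r_seg M hx h4 h5 h3
  have hconst : HasDerivWithinAt (fun s => M.r (l s)) 0 (Iic 1) 1 := by
    refine (hasDerivWithinAt_const (1 : ℝ) (Iic 1) (M.r x)).congr_of_eventuallyEq hev ?_
    rw [hl1]
  exact (uniqueDiffWithinAt_Iic (1 : ℝ)).eq_deriv _ hcomp.hasDerivWithinAt hconst

end EscM
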