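import Pool.Agent.EscM.A1
import Pool.Agent.EscM.N1

set_option autoImplicit false

/-!
Project EscM, module A14a: translation of the hypotheses.
`β = bas d` is the standard basis (`bas_apply`), the lattice `Submodule.span ℤ (Set.range (bas d))` consists of the vectors `vz n`. `TN M.N M.r = {p | p.1 ∈ M.N ∧ IsTangent M p.1 p.2}`. `finsN`: minimum and maximum of `F` on the unit tangent vectors over a
compact cell (`TN` is closed: `fderiv ℝ M.r` is continuous on `U ⊇ N`). `calN`: `c' = deriv c`; `cal`: derivative of `B (r (c t)) = B (c t) = B (c 0) + t`; `(c t, deriv c t)` is tangent since `r ∘ c = c`.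
-/

noncomputable section

namespace EscM

open MeasureTheory Set Filter Topology Esc EscF EscG EscK EscF.T
open scoped ContDiff

variable {d : ℕ} {M : Sub d} {k : ℕ∞} {ρ : ℝ} {χ : Vec d → ℝ} {Rr : Vec d → Vec d} {F : Vec d → Vec d → ℝ}
  {B : Vec d → ℝ} {i : Fin d} {len : ℝ} {c : ℝ → Vec d} {L : Lag d}
theorem mem_span_bas {w : Vec d} : w ∈ Submodule.span ℤ (Set.range (bas d)) ↔ ∃ n : Fin d → ℤ, w = vz n := by
  rw [Submodule.mem_span_range_iff_exists_fun]
  constructor
  · rintro ⟨n, rfl⟩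
    exact ⟨n, (N1_vz_sum n).symm⟩
  · rintro ⟨n, rfl⟩
    exact ⟨n, (N1_vz_sum n).symm⟩

theorem TubeD.tb (hT : TubeD M ρ χ Rr) : Tb (bas d) M.N M.r (5 * ρ) where
  ne := hT.ne
  closed := M.closed
  perN i x := by
    rw [bas_apply]
    exact perN_iff M _ x
  R_pos := by
    have := hT.ρ_pos
    linarith
  smooth := M.smooth.mono fun x hx => hT.tube x hx
  mem x hx := M.mem x (hT.tube x hx)
  nearest x hx p hp hne := M.nearest x (hT.tube x hx) p hp hne

theorem A14a_closed (M : Sub d) : IsClosed (TN M.N M.r) := by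
  have h1 : ContinuousOn (fderiv ℝ M.r) M.U :=
    M.smooth.continuousOn_fderiv_of_isOpen M.isOpen (by simp)
  have hs : IsClosed {p : Vec d × Vec d | p.1 ∈ M.N} := M.closed.preimage continuous_fst
  have hf : ContinuousOn (fun p : Vec d × Vec d => fderiv ℝ M.r p.1 p.2 - p.2)
      {p : Vec d × Vec d | p.1 ∈ M.N} := by
    have h2 : ContinuousOn (fun p : Vec d × Vec d => fderiv ℝ M.r p.1)
        {p : Vec d × Vec d | p.1 ∈ M.N} :=
      h1.comp continuousOn_fst fun p hp => M.sub hp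
    exact (h2.clm_apply continuousOn_snd).sub continuousOn_snd
  have h3 := hf.preimage_isClosed_of_isClosed hs (isClosed_singleton (x := (0 : Vec d)))
  have h4 : TN M.N M.r = {p : Vec d × Vec d | p.1 ∈ M.N} ∩
      (fun p : Vec d × Vec d => fderiv ℝ M.r p.1 p.2 - p.2) ⁻¹' {0} := by
    ext p
    simp only [TN, mem_ofPred_eq, mem_inter_iff, mem_preimage, mem_singleton_iff, sub_eq_zero]
  rw [h4]
  exact h3

theorem IsFinsler.finsN (hT : TubeD M ρ χ Rr) (hF : IsFinsler M F) :
    ∃ mF MF : ℝ, FinsN (bas d) M.N M.r F mF MF := by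
  classical
  have htb := hT.tb
  set R0 : ℝ := ∑ i, ‖bas d i‖ with hR0
  set S : Set (Vec d × Vec d) := TN M.N M.r ∩ {p | ‖p.1‖ ≤ R0 ∧ ‖p.2‖ = 1} with hS
  have hSc : IsCompact S := by
    apply Metric.isCompact_of_isClosed_isBounded
    · refine (A14a_closed M).inter (IsClosed.inter ?_ ?_)
      · exact isClosed_le (continuous_norm.comp continuous_fst) continuous_const
      · exact isClosed_eq (continuous_norm.comp continuous_snd) continuous_const
    · have h1 : S ⊆ Metric.closedBall (0 : Vec d × Vec d) (max R0 1) := by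
        rintro ⟨x, v⟩ ⟨-, hx, hv⟩
        rw [mem_closedBall_zero_iff, Prod.norm_def]
        exact max_le_max hx hv.le
      exact Metric.isBounded_closedBall.subset h1
  have hFc : ContinuousOn (fun p : Vec d × Vec d => F p.1 p.2) S :=
    hF.cont.mono fun p hp => hp.1
  -- reduction to `S`
  have hred : ∀ x v, (x, v) ∈ TN M.N M.r → v ≠ 0 → ∃ p ∈ S, F x v = ‖v‖ * F p.1 p.2 := by
    intro x v hxv hv
    obtain ⟨n, hn⟩ := mem_span_bas.1 (ZSpan.floor (bas d) x).2
    set x' : Vec d := ZSpan.fract (bas d) x with hx'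
    have hxx : x = x' + vz n := by
      rw [hx', ZSpan.fract_apply, hn]
      abel
    have hxN : x ∈ M.N := hxv.1
    have hx'N : x' ∈ M.N := by
      rw [hxx] at hxN
      exact (perN_iff M n x').1 hxN
    have hfd : fderiv ℝ M.r x = fderiv ℝ M.r x' := by
      rw [hxx]
      refine htb.fd_Lam (mem_span_bas.2 ⟨n, rfl⟩) ?_
      rw [Metric.infDist_zero_of_mem hx'N]
      exact htb.R_pos
    have hnv : 0 < ‖v‖ := norm_pos_iff.2 hv
    have hu : (x', ‖v‖⁻¹ • v) ∈ TN M.N M.r := by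
      refine ⟨hx'N, ?_⟩
      show fderiv ℝ M.r x' (‖v‖⁻¹ • v) = ‖v‖⁻¹ • v
      have h2 : fderiv ℝ M.r x v = v := hxv.2
      rw [← hfd, map_smul, h2]
    refine ⟨(x', ‖v‖⁻¹ • v), ⟨hu, ?_, ?_⟩, ?_⟩
    · show ‖x'‖ ≤ R0
      exact ZSpan.norm_fract_le (bas d) x
    · show ‖‖v‖⁻¹ • v‖ = 1
      rw [norm_smul, norm_inv, norm_norm, inv_mul_cancel₀ hnv.ne']
    · show F x v = ‖v‖ * F x' (‖v‖⁻¹ • v)
      have h3 := hF.hom x' hx'N (‖v‖⁻¹ • v) hu.2 ‖v‖ hnv.le
      rw [smul_inv_smul₀ hnv.ne'] at h3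
      rw [← h3]
      have h4 : IsTangent M x' v := by
        show fderiv ℝ M.r x' v = v
        rw [← hfd]
        exact hxv.2
      have h5 := hF.periodic n x' hx'N v h4
      rw [← hxx] at h5
      exact h5
  have hzero : ∀ x v, (x, v) ∈ TN M.N M.r → F x 0 = 0 := by
    intro x v hxv
    have h1 := hF.hom x hxv.1 v hxv.2 0 le_rfl
    rwa [zero_smul, zero_mul] at h1
  have hmk : ∀ mF MF : ℝ, 0 < mF → mF ≤ MF → (∀ p ∈ S, mF ≤ F p.1 p.2 ∧ F p.1 p.2 ≤ MF) →
      FinsN (bas d) M.N M.r F mF MF := by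
    intro mF MF h0 h1 h2
    refine ⟨h0, h1, hF.cont, ?_, ?_, ?_, ?_⟩
    · intro i x v hxv
      rw [bas_apply]
      exact hF.periodic _ x hxv.1 v hxv.2
    · intro x v c hxv hc
      exact hF.hom x hxv.1 v hxv.2 c hc
    · intro x v hxv
      by_cases hv : v = 0
      · subst hv
        rw [hzero x 0 hxv, norm_zero, mul_zero]
      · obtain ⟨p, hp, he⟩ := hred x v hxv hv
        rw [he, mul_comm]
        exact mul_le_mul_of_nonneg_left (h2 p hp).1 (norm_nonneg v)
    · intro x v hxv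
      by_cases hv : v = 0
      · subst hv
        rw [hzero x 0 hxv, norm_zero, mul_zero]
      · obtain ⟨p, hp, he⟩ := hred x v hxv hv
        rw [he, mul_comm MF]
        exact mul_le_mul_of_nonneg_left (h2 p hp).2 (norm_nonneg v)
  rcases S.eq_empty_or_nonempty with hSe | hSn
  · refine ⟨1, 1, hmk 1 1 one_pos le_rfl fun p hp => ?_⟩
    rw [hSe] at hp
    exact absurd hp (notMem_empty p)
  · obtain ⟨p1, hp1, hm⟩ := hSc.exists_isMinOn hSn hFc
    obtain ⟨p2, hp2, hM⟩ := hSc.exists_isMaxOn hSn hFc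
    refine ⟨F p1.1 p1.2, F p2.1 p2.2, hmk _ _ ?_ (hm hp2) fun p hp => ⟨hm hp, hM hp⟩⟩
    apply hF.pos p1.1 hp1.1.1 p1.2 hp1.1.2
    intro h0
    have h1 := hp1.2.2
    rw [h0, norm_zero] at h1
    exact zero_ne_one h1

theorem IsCalibrated.calN (hT : TubeD M ρ χ Rr) (hc : IsCalibrated M F B i len c) :
    CalN (bas d) M.N M.r (5 * ρ) F B i len c (deriv c) where
  smooth := hc.smooth.mono fun x hx => hT.tube x hx
  per j := by
    obtain ⟨a, ha⟩ := hc.periods (Pi.single j 1)
    refine ⟨a, fun x hx => ?_⟩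
    rw [bas_apply]
    exact ha x hx
  le x v hxv := hc.le x hxv.1 v hxv.2
  len_pos := hc.len_pos
  mem := hc.mem
  hasDeriv t := (hc.curve.differentiable (by simp) t).hasDerivAt
  contDeriv := hc.curve.continuous_deriv le_rfl
  closed t := by
    rw [bas_apply]
    exact hc.closed t
  unit := hc.unit
  cal t := by
    have h0 : c t ∈ M.U := M.sub (hc.mem t)
    have h1 : DifferentiableAt ℝ (fun y => B (M.r y)) (c t) :=
      ((hc.smooth (c t) h0).contDiffAt (M.isOpen.mem_nhds h0)).differentiableAt (by simp)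
    have h2 : HasDerivAt c (deriv c t) t := (hc.curve.differentiable (by simp) t).hasDerivAt
    have h3 : HasDerivAt (fun s => B (M.r (c s))) (fderiv ℝ (fun y => B (M.r y)) (c t) (deriv c t)) t :=
      h1.hasFDerivAt.comp_hasDerivAt t h2
    have h4 : (fun s => B (M.r (c s))) = fun s => B (c 0) + s := by
      funext s
      rw [r_self M (hc.mem s), hc.cal s]
    rw [h4] at h3
    have h5 : HasDerivAt (fun s : ℝ => B (c 0) + s) 1 t := (hasDerivAt_id t).const_add _
    exact h3.unique h5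
  only x v hxv hv he := by
    obtain ⟨t, n, hn⟩ := hc.only x hxv.1 v hxv.2 hv he
    exact ⟨t, vz n, mem_span_bas.2 ⟨n, rfl⟩, hn⟩
  simple s t hst := by
    obtain ⟨n, hn⟩ := mem_span_bas.1 hst
    exact hc.simple s t n (by rw [← hn]; abel)

theorem HasSecondDirection.sec {x : Vec d} (hs : HasSecondDirection M i x) :
    ∃ v0 : Vec d, Sec (bas d) M.N i x v0 := by
  obtain ⟨n, hn, hj⟩ := hs
  refine ⟨vz n, mem_span_bas.2 ⟨n, rfl⟩, fun k hk => hn k ?_, hj⟩
  funext j
  have h1 : (vz n : Vec d) j = ((k : ℝ) • bas d i) j := by rw [hk]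
  rw [bas_apply] at h1
  have h2 : (n j : ℝ) = (k : ℝ) * ((Pi.single i (1 : ℤ) : Fin d → ℤ) j : ℝ) := h1
  by_cases h : j = i
  · subst h
    rw [Pi.single_eq_same] at h2 ⊢
    push_cast at h2
    rw [mul_one] at h2
    exact_mod_cast h2
  · rw [Pi.single_eq_of_ne h] at h2 ⊢
    push_cast at h2
    rw [mul_zero] at h2
    exact_mod_cast h2

end EscM
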