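import Pool.Agent.EscM.A1
import Pool.Agent.EscM.N1

set_option autoImplicit false

/-!
Project EscM, module A14b: translation of the hypotheses on the Lagrangian.
`conv`: for tangent vectors `u`, `v` at `x ∈ N` the function `s ↦ L (x, fderiv ℝ r x (v + s • (u - v)), t)` is `C²` with second derivative at least `c ‖u - v‖²` (`iteratedFDeriv_two_apply`; compare the proof for `EscG.T` in `EscG/O1*.lean` or `EscF`).
-/

noncomputable section

namespace EscM

open MeasureTheory Set Filter Topology Esc EscF EscG EscK EscF.T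
open scoped ContDiff

/-- Taylor estimate -/
theorem A14b_t2 {φ φ' φ'' : ℝ → ℝ} (h1 : ∀ s, HasDerivAt φ (φ' s) s)
    (h2 : ∀ s, HasDerivAt φ' (φ'' s) s) {κ : ℝ} (h : ∀ s, κ ≤ φ'' s) :
    φ 0 + φ' 0 + κ / 2 ≤ φ 1 := by
  have h3 : Monotone fun s => φ' s - κ * s := by
    refine monotone_of_deriv_nonneg (fun s => ?_) (fun s => ?_)
    · exact ((h2 s).sub ((hasDerivAt_id s).const_mul κ)).differentiableAt
    · have h4 : HasDerivAt (fun s => φ' s - κ * s) (φ'' s - κ * 1) s :=
        (h2 s).sub ((hasDerivAt_id s).const_mul κ)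
      rw [h4.deriv]
      linarith [h s]
  have h5 : MonotoneOn (fun s => φ s - φ' 0 * s - κ / 2 * s ^ 2) (Ici 0) := by
    have hd : ∀ s, HasDerivAt (fun s => φ s - φ' 0 * s - κ / 2 * s ^ 2)
        (φ' s - φ' 0 * 1 - κ / 2 * (2 * s)) s := by
      intro s
      have h6 : HasDerivAt (fun s : ℝ => s ^ 2) (2 * s) s := by
        simpa using hasDerivAt_pow 2 s
      exact ((h1 s).sub ((hasDerivAt_id s).const_mul _)).sub (h6.const_mul _)
    refine monotoneOn_of_deriv_nonneg (convex_Ici 0) ?_ ?_ ?_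
    · exact fun s _ => (hd s).continuousAt.continuousWithinAt
    · exact fun s _ => (hd s).differentiableAt.differentiableWithinAt
    · intro s hs
      rw [interior_Ici] at hs
      rw [(hd s).deriv]
      have h7 := h3 (le_of_lt hs)
      simp only at h7
      linarith
  have h8 := h5 (mem_Ici.2 le_rfl) (mem_Ici.2 zero_le_one) zero_le_one
  simp only at h8
  linarith

section line

variable {W : Type*} [NormedAddCommGroup W] [NormedSpace ℝ W] {G : W → ℝ} (hG : ContDiff ℝ 2 G)
include hG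

theorem A14b_line1 (q p : W) (s : ℝ) :
    HasDerivAt (fun s : ℝ => G (q + s • p)) (fderiv ℝ G (q + s • p) p) s := by
  have h1 : HasFDerivAt G (fderiv ℝ G (q + s • p)) (q + s • p) :=
    (hG.differentiable (by norm_num) _).hasFDerivAt
  have h2 : HasDerivAt (fun s : ℝ => q + s • p) p s := by
    simpa using ((hasDerivAt_id s).smul_const p).const_add q
  exact h1.comp_hasDerivAt s h2

theorem A14b_line2 (q p : W) (s : ℝ) : HasDerivAt (fun s : ℝ => fderiv ℝ G (q + s • p) p)
    (fderiv ℝ (fderiv ℝ G) (q + s • p) p p) s := by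
  have h0 : ContDiff ℝ 1 (fderiv ℝ G) := hG.fderiv_right (by norm_num)
  have h1 : HasFDerivAt (fderiv ℝ G) (fderiv ℝ (fderiv ℝ G) (q + s • p)) (q + s • p) :=
    (h0.differentiable (by norm_num) _).hasFDerivAt
  have h2 : HasDerivAt (fun s : ℝ => q + s • p) p s := by
    simpa using ((hasDerivAt_id s).smul_const p).const_add q
  have h3 := h1.comp_hasDerivAt s h2
  exact h3.clm_apply (hasDerivAt_const s p) |>.congr_deriv (by simp)

theorem A14b_taylor {c : ℝ} (q w : W)
    (hc : ∀ s : ℝ, c * ‖w‖ ^ 2 ≤ iteratedFDeriv ℝ 2 G (q + s • w) ![w, w]) :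
    G q + fderiv ℝ G q w + c * ‖w‖ ^ 2 / 2 ≤ G (q + w) := by
  have h1 := A14b_t2 (A14b_line1 hG q w) (A14b_line2 hG q w) (κ := c * ‖w‖ ^ 2) (fun s => by
    have h2 := hc s
    rw [iteratedFDeriv_two_apply] at h2
    exact h2)
  simpa only [zero_smul, add_zero, one_smul] using h1

end line

variable {d : ℕ} {M : Sub d} {k : ℕ∞} {ρ : ℝ} {χ : Vec d → ℝ} {Rr : Vec d → Vec d} {F : Vec d → Vec d → ℝ}
  {B : Vec d → ℝ} {i : Fin d} {len : ℝ} {c : ℝ → Vec d} {L : Lag d}

/-- the Lagrangian on the vectors at a point of `N` is of class `C²` -/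
theorem A14b_smooth (hL : IsNear M F L) {x : Vec d} (hx : x ∈ M.N) (t : ℝ) :
    ContDiff ℝ 2 (fun w => L (x, fderiv ℝ M.r x w, t)) := by
  have h1 : ContDiff ℝ 2 (fun w : Vec d => ((x, w, t) : Vec d × Vec d × ℝ)) :=
    contDiff_const.prodMk (contDiff_id.prodMk contDiff_const)
  have h2 := hL.smooth.comp_contDiff h1 (fun w => M.sub hx)
  have h3 : (fun q : Vec d × Vec d × ℝ => L (M.r q.1, fderiv ℝ M.r q.1 q.2.1, q.2.2)) ∘
      (fun w : Vec d => ((x, w, t) : Vec d × Vec d × ℝ)) =
      fun w => L (x, fderiv ℝ M.r x w, t) := by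
    funext w
    show L (M.r x, fderiv ℝ M.r x w, t) = L (x, fderiv ℝ M.r x w, t)
    rw [r_self M hx]
  rwa [h3] at h2

theorem IsNear.lagN (hT : TubeD M ρ χ Rr) (hL : IsNear M F L) :
    ∃ m' M' : ℝ, LagN (bas d) M.N M.r (5 * ρ) F m' M' (fun x v t => L (x, v, t)) := by
  obtain ⟨c, hc, hconv⟩ := hL.convex
  obtain ⟨C, hC⟩ := hL.near
  refine ⟨c, max C 0, ?_⟩
  refine
    { m_pos := hc
      M_nonneg := le_max_right _ _
      smooth := hL.smooth.mono fun p hp => hT.tube p.1 hp
      per := ?_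
      pert := ?_
      conv := ?_
      al := ?_ }
  · intro i x v t hxv
    have h1 := hL.periodic (Pi.single i 1) 0 x hxv.1 v t hxv.2
    rw [Int.cast_zero, add_zero] at h1
    rw [bas_apply]
    exact h1
  · intro x v t hxv
    have h1 := hL.periodic 0 1 x hxv.1 v t hxv.2
    rw [Int.cast_one, vz_zero', add_zero] at h1
    exact h1
  · intro x u v t hxu hxv
    have hsm := A14b_smooth hL hxu.1 t
    have h1 := A14b_taylor hsm (c := c) v (u - v) (fun s => by
      refine hconv x hxu.1 (v + s • (u - v)) (u - v) t ?_ ?_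
      · show fderiv ℝ M.r x (v + s • (u - v)) = v + s • (u - v)
        have e1 : fderiv ℝ M.r x v = v := hxv.2
        have e2 : fderiv ℝ M.r x u = u := hxu.2
        rw [map_add, map_smul, map_sub, e1, e2]
      · show fderiv ℝ M.r x (u - v) = u - v
        have e1 : fderiv ℝ M.r x v = v := hxv.2
        have e2 : fderiv ℝ M.r x u = u := hxu.2
        rw [map_sub, e1, e2])
    have e1 : fderiv ℝ M.r x v = v := hxv.2
    have e2 : fderiv ℝ M.r x u = u := hxu.2
    have e3 : v + (u - v) = u := by abel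
    rw [e3] at h1
    simp only [e1, e2] at h1
    linarith
  · intro x v t x' v' t' hxv hxv'
    refine (hC x hxv.1 v t hxv.2 x' hxv'.1 v' t' hxv'.2).trans ?_
    refine mul_le_mul_of_nonneg_right (le_max_left _ _) ?_
    positivity

end EscM
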