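import Pool.Agent.EscM.N1

/-!
Project EscM, module N2: the `C^k` topology on `Pot M k`.
-/

noncomputable section

set_option linter.unusedSectionVars false

namespace EscM

open Filter Topology Set Esc EscG EscF.T Uniformity
open scoped ContDiff UniformConvergence

variable {m : ℕ} {k : ℕ∞}

/-- the slab over `K` -/
def N2_slab (M : Sub m) (K : Set (Vec m)) : Set (Dom M) := {q | q.1.1 ∈ K}

/-- the open set on which potentials are differentiable -/
def N2_Om (M : Sub m) : Set (Vec m × ℝ) := M.U ×ˢ univ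

lemma N2_isOpen_Om (M : Sub m) : IsOpen (N2_Om M) := M.isOpen.prod isOpen_univ

lemma N2_mem_Om {M : Sub m} {q : Vec m × ℝ} : q ∈ N2_Om M ↔ q.1 ∈ M.U := by
  simp [N2_Om]

lemma N2_mem_slabs {M : Sub m} {K : Set (Vec m)} (hc : IsCompact K) (hK : K ⊆ M.U) :
    N2_slab M K ∈ slabs M := ⟨K, hc, hK, rfl⟩

lemma N2_slabs_nonempty (M : Sub m) : (slabs M).Nonempty :=
  ⟨_, N2_mem_slabs isCompact_empty (empty_subset _)⟩

lemma N2_slabs_directed (M : Sub m) : DirectedOn (· ⊆ ·) (slabs M) := by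
  rintro _ ⟨K, hc, hK, rfl⟩ _ ⟨K', hc', hK', rfl⟩
  refine ⟨_, N2_mem_slabs (hc.union hc') (union_subset hK hK'), ?_, ?_⟩
  · exact fun q hq => subset_union_left hq
  · exact fun q hq => subset_union_right hq

/-- compact exhaustion of `U` -/
lemma N2_exists_exhaustion (M : Sub m) : ∃ t : ℕ → Set (Vec m), Monotone t ∧
    (∀ i, IsCompact (t i) ∧ t i ⊆ M.U) ∧ ∀ K : Set (Vec m), IsCompact K → K ⊆ M.U → ∃ i, K ⊆ t i := by
  have : LocallyCompactSpace M.U := M.isOpen.locallyCompactSpace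
  set K0 : CompactExhaustion M.U := CompactExhaustion.choice M.U with hK0
  refine ⟨fun i => (fun x : M.U => (x : Vec m)) '' (K0 i), ?_, fun i => ⟨?_, ?_⟩, fun K hc hK => ?_⟩
  · intro i j hij
    exact image_mono (K0.subset hij)
  · exact (K0.isCompact i).image continuous_subtype_val
  · rintro _ ⟨x, _, rfl⟩
    exact x.2
  · have h1 : IsCompact ((fun x : M.U => (x : Vec m)) ⁻¹' K) := by
      rw [IsInducing.subtypeVal.isCompact_preimage_iff]
      · exact hc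
      · rw [Subtype.range_coe]; exact hK
    obtain ⟨i, hi⟩ := K0.exists_superset_of_isCompact h1
    refine ⟨i, fun x hx => ⟨⟨x, hK hx⟩, hi hx, rfl⟩⟩

lemma N2_min (k : ℕ∞) (r : ℕ) : ∃ r' : ℕ, (r' : ℕ∞) ≤ k ∧ ∀ j ≤ r, (j : ℕ∞) ≤ k → j ≤ r' := by
  by_cases h : (r : ℕ∞) ≤ k
  · exact ⟨r, h, fun j hj _ => hj⟩
  · push Not at h
    obtain ⟨k', rfl⟩ := ENat.ne_top_iff_exists.1 (ne_top_of_lt h)
    exact ⟨k', le_rfl, fun j _ hj => by exact_mod_cast hj⟩

theorem pot_nhds {M : Sub m} (f : Pot M k) {O : Set (Pot M k)} (hO : O ∈ 𝓝 f) :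
    ∃ (r : ℕ) (K : Set (Vec m)) (ε : ℝ), 0 < ε ∧ (r : ℕ∞) ≤ k ∧ IsCompact K ∧ K ⊆ M.U ∧ ∀ f' : Pot M k,
      (∀ j ≤ r, ∀ x ∈ K, ∀ t, ‖iteratedFDeriv ℝ j f'.toFun (x, t) - iteratedFDeriv ℝ j f.toFun (x, t)‖ < ε) →
        f' ∈ O := by
  rw [nhds_induced, mem_comap] at hO
  obtain ⟨t, ht, htO⟩ := hO
  rw [nhds_pi, Filter.mem_pi] at ht
  obtain ⟨I, hI, s, hs, hst⟩ := ht
  have hε : ∀ j : {j : ℕ // (j : ℕ∞) ≤ k}, ∃ K : Set (Vec m), IsCompact K ∧ K ⊆ M.U ∧ ∃ ε > 0, ∀ F' : Pot M k,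
      (∀ x ∈ K, ∀ t, ‖iteratedFDeriv ℝ j.1 F'.toFun (x, t) -
        iteratedFDeriv ℝ j.1 f.toFun (x, t)‖ < ε) → jet F' j ∈ s j := by
    intro j
    have hb := UniformOnFun.hasBasis_nhds_of_basis (Dom M)
      (ContinuousMultilinearMap ℝ (fun _ : Fin j.1 => Vec m × ℝ) ℝ) (slabs M) (jet f j)
      (N2_slabs_nonempty M) (N2_slabs_directed M) Metric.uniformity_basis_dist
    obtain ⟨⟨S, ε⟩, ⟨⟨K, hc, hK, rfl⟩, hε⟩, h⟩ := hb.mem_iff.1 (hs j)
    refine ⟨K, hc, hK, ε, hε, fun F' hF' => h ?_⟩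
    rintro ⟨⟨x, t⟩, hU⟩ hq
    have := hF' x hq t
    rw [← dist_eq_norm] at this
    exact this
  choose K hKc hKU ε hεp hεs using hε
  obtain ⟨r, hr⟩ : ∃ r : ℕ, ∀ j ∈ I, j.1 ≤ r := by
    obtain ⟨r, hr⟩ := (hI.image (fun j : {j : ℕ // (j : ℕ∞) ≤ k} => j.1)).bddAbove
    exact ⟨r, fun j hj => hr ⟨j, hj, rfl⟩⟩
  obtain ⟨e, he, hle⟩ : ∃ e > 0, ∀ j ∈ I, e ≤ ε j := by
    rcases I.eq_empty_or_nonempty with rfl | hne
    · exact ⟨1, one_pos, by simp⟩
    · obtain ⟨j0, hj0, hmin⟩ := hI.exists_minimalFor ε I hne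
      exact ⟨ε j0, hεp j0, fun j hj => by
        by_contra hlt
        push Not at hlt
        exact absurd (hmin hj hlt.le) (not_le.2 hlt)⟩
  obtain ⟨r', hr', hjr⟩ := N2_min k r
  refine ⟨r', ⋃ j ∈ I, K j, e, he, hr', hI.isCompact_biUnion fun j _ => hKc j,
    iUnion₂_subset fun j _ => hKU j,
    fun F' hF' => htO (hst fun j hj => hεs j F' fun x hx t => ?_)⟩
  exact (hF' j.1 (hjr j.1 (hr j hj) j.2) x (mem_biUnion hj hx) t).trans_le (hle j hj)

lemma N2_cube_compact (M : Sub m) : IsCompact (M.N ∩ {x : Vec m | ∀ i, x i ∈ Icc (0 : ℝ) 1}) := by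
  have h1 : IsCompact {x : Vec m | ∀ i, x i ∈ Icc (0 : ℝ) 1} := by
    have h2 : {x : Vec m | ∀ i, x i ∈ Icc (0 : ℝ) 1} =
        (EuclideanSpace.equiv (Fin m) ℝ).toHomeomorph ⁻¹' (Set.pi univ fun _ => Icc (0 : ℝ) 1) := by
      ext x
      constructor
      · intro h i _
        exact h i
      · intro h i
        exact h i (mem_univ i)
    rw [h2, Homeomorph.isCompact_preimage]
    exact isCompact_univ_pi fun _ => isCompact_Icc
  exact h1.inter_left M.closed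

/-- closeness in the sup norm, on all of `U` by periodicity -/
theorem pot_ball {M : Sub m} (f : Pot M k) {ρ : ℝ} (hρ : 0 < ρ) :
    {f' : Pot M k | ∀ q, |f.toFun q - f'.toFun q| ≤ ρ} ∈ 𝓝 f := by
  set C : Set (Vec m) := M.N ∩ {x : Vec m | ∀ i, x i ∈ Icc (0 : ℝ) 1} with hC
  have hCU : C ⊆ M.U := fun x hx => M.sub hx.1
  have hc : Continuous (jet : Pot M k → _) := continuous_induced_dom
  have h0 : Continuous fun f : Pot M k => jet f ⟨0, by simp⟩ := (continuous_pi_iff.1 hc) _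
  have hb := UniformOnFun.gen_mem_nhds (ContinuousMultilinearMap ℝ (fun _ : Fin 0 => Vec m × ℝ) ℝ)
    (slabs M) (jet f ⟨0, by simp⟩) (N2_mem_slabs (N2_cube_compact M) hCU) (Metric.dist_mem_uniformity hρ)
  have h1 := h0.continuousAt.preimage_mem_nhds hb
  refine mem_of_superset h1 fun F' hF' => ?_
  have hcase : ∀ x ∈ C, ∀ t, |f.toFun (x, t) - F'.toFun (x, t)| ≤ ρ := by
    intro x hx t
    have h2 := hF' ⟨(x, t), hCU hx⟩ hx
    have h3 : dist (iteratedFDeriv ℝ 0 f.toFun (x, t)) (iteratedFDeriv ℝ 0 F'.toFun (x, t)) =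
        |f.toFun (x, t) - F'.toFun (x, t)| := by
      rw [dist_eq_norm, iteratedFDeriv_zero_eq_comp, iteratedFDeriv_zero_eq_comp]
      simp only [Function.comp]
      rw [← map_sub, LinearIsometryEquiv.norm_map, Real.norm_eq_abs]
    rw [← h3]
    exact le_of_lt h2
  rintro ⟨x, t⟩
  by_cases hx : x ∈ M.U
  · have hr : M.r x ∈ M.N := M.mem x hx
    set n : Fin m → ℤ := fun i => -⌊(M.r x) i⌋ with hn
    have h2 : M.r x + vz n ∈ C := by
      refine ⟨M.perN n _ hr, fun i => ?_⟩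
      have h3 : (M.r x + vz n) i = Int.fract ((M.r x) i) := by
        simp only [vz, hn, PiLp.add_apply, Int.cast_neg, Int.fract]
        ring
      rw [h3]
      exact ⟨Int.fract_nonneg _, (Int.fract_lt_one _).le⟩
    have h4 : ∀ g : Pot M k, g.toFun (x, t) = g.toFun (M.r x + vz n, t) := by
      intro g
      rw [g.ext x hx t, ← g.periodic n 0 (M.r x) (M.sub hr) t, Int.cast_zero, add_zero]
    rw [h4 f, h4 F']
    exact hcase _ h2 t
  · rw [f.out x hx t, F'.out x hx t, sub_zero, abs_zero]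
    exact hρ.le

/-- The space `C^k(M × 𝕋)` is complete for the uniform structure defined by the jets. -/
theorem N2_pot_complete (M : Sub m) (k : ℕ∞) (l : Filter (Pot M k)) [hne : l.NeBot]
    (Ψ : ∀ j : {j : ℕ // (j : ℕ∞) ≤ k},
      Dom M →ᵤ[slabs M] ContinuousMultilinearMap ℝ (fun _ : Fin j.1 => Vec m × ℝ) ℝ)
    (htend : Tendsto (jet : Pot M k → _) l (𝓝 Ψ)) : ∃ F : Pot M k, l ≤ 𝓝 F := by
  classical
  have hunif : ∀ j (hj : ((j : ℕ) : ℕ∞) ≤ k), ∀ S ∈ slabs M, TendstoUniformlyOn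
      (fun (f : Pot M k) (q : Dom M) => iteratedFDeriv ℝ j f.toFun q)
      (UniformOnFun.toFun (slabs M) (Ψ ⟨j, hj⟩)) l S := by
    intro j hj
    exact UniformOnFun.tendsto_iff_tendstoUniformlyOn.1 ((tendsto_pi_nhds.1 htend) ⟨j, hj⟩)
  set p : Vec m × ℝ → FormalMultilinearSeries ℝ (Vec m × ℝ) ℝ := fun q j =>
    if hj : ((j : ℕ) : ℕ∞) ≤ k then
      (if hq : q.1 ∈ M.U then UniformOnFun.toFun (slabs M) (Ψ ⟨j, hj⟩) ⟨q, hq⟩ else 0) else 0 with hp
  have hpj : ∀ j (hj : ((j : ℕ) : ℕ∞) ≤ k) (q : Dom M),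
      p q j = UniformOnFun.toFun (slabs M) (Ψ ⟨j, hj⟩) q :=
    fun j hj q => by simp only [hp, dif_pos hj, dif_pos q.2]
  have hloc : ∀ j (hj : ((j : ℕ) : ℕ∞) ≤ k), TendstoLocallyUniformlyOn
      (fun (f : Pot M k) q => iteratedFDeriv ℝ j f.toFun q) (fun q => p q j) l (N2_Om M) := by
    intro j hj u hu q hq
    obtain ⟨K, hK, hKU⟩ : ∃ K ∈ 𝓝 q.1, IsCompact K ∧ K ⊆ M.U := by
      obtain ⟨K, h1, h2, h3⟩ := exists_compact_subset M.isOpen (N2_mem_Om.1 hq)
      exact ⟨K, mem_interior_iff_mem_nhds.1 h2, h1, h3⟩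
    refine ⟨K ×ˢ univ, ?_, ?_⟩
    · apply mem_nhdsWithin_of_mem_nhds
      have : q = (q.1, q.2) := rfl
      rw [this]
      exact prod_mem_nhds hK univ_mem
    · filter_upwards [hunif j hj _ (N2_mem_slabs hKU.1 hKU.2) u hu] with f hf y hy
      have hyU : y.1 ∈ M.U := hKU.2 hy.1
      have h1 := hf ⟨y, hyU⟩ hy.1
      rw [← hpj j hj ⟨y, hyU⟩] at h1
      exact h1
  have hpt : ∀ j (hj : ((j : ℕ) : ℕ∞) ≤ k), ∀ q ∈ N2_Om M,
      Tendsto (fun f : Pot M k => iteratedFDeriv ℝ j f.toFun q) l (𝓝 (p q j)) :=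
    fun j hj q hq => (hloc j hj).tendsto_at hq
  have hcast : ∀ {j : ℕ}, ((j : WithTop ℕ∞) ≤ (k : WithTop ℕ∞)) → ((j : ℕ∞) ≤ k) :=
    fun h => WithTop.coe_le_coe.1 h
  have hfd : ∀ (f : Pot M k) (j : ℕ), (j : ℕ∞) ≤ k → ContDiffOn ℝ j f.toFun (N2_Om M) :=
    fun f j hm => (f.contDiff.of_le (WithTop.coe_le_coe.2 hm)).mono fun q hq => N2_mem_Om.1 hq
  have hUD : UniqueDiffOn ℝ (N2_Om M) := (N2_isOpen_Om M).uniqueDiffOn
  have htay : HasFTaylorSeriesUpToOn k (fun q => (p q 0).curry0) p (N2_Om M) := by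
    refine ⟨fun _ _ => rfl, fun j hm x hx => ?_, fun j hm => ?_⟩
    · have hm1 : ((j + 1 : ℕ) : ℕ∞) ≤ k := by
        have h1 : (j : ℕ∞) < k := WithTop.coe_lt_coe.1 hm
        push_cast
        exact Order.add_one_le_of_lt h1
      have hm0 : ((j : ℕ) : ℕ∞) ≤ k := hcast hm.le
      have h1 : TendstoLocallyUniformlyOn
          (fun (f : Pot M k) x => (iteratedFDeriv ℝ (j + 1) f.toFun x).curryLeft)
          (fun x => (p x (j + 1)).curryLeft) l (N2_Om M) := by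
        exact (continuousMultilinearCurryLeftEquiv ℝ
          (fun _ : Fin (j + 1) => Vec m × ℝ) ℝ).isometry.uniformContinuous.comp_tendstoLocallyUniformlyOn
            (hloc (j + 1) hm1)
      refine HasFDerivAt.hasFDerivWithinAt (hasFDerivAt_of_tendstoLocallyUniformlyOn
        (f := fun (f : Pot M k) x => iteratedFDeriv ℝ j f.toFun x)
        (g := fun x => p x j) (N2_isOpen_Om M) h1 (fun f x hx => ?_) (fun x hx => ?_) hx)
      · have h5 : ContDiffOn ℝ (j + 1 : ℕ) f.toFun (N2_Om M) := hfd f (j + 1) hm1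
        have h6 := (h5.ftaylorSeriesWithin hUD).fderivWithin j (by exact_mod_cast Nat.lt_succ_self j) x hx
        have h7 := h6.hasFDerivAt ((N2_isOpen_Om M).mem_nhds hx)
        have h8 : ftaylorSeriesWithin ℝ f.toFun (N2_Om M) x (j + 1) = iteratedFDeriv ℝ (j + 1) f.toFun x :=
          iteratedFDerivWithin_of_isOpen (j + 1) (N2_isOpen_Om M) hx
        have h9 : (fun y => ftaylorSeriesWithin ℝ f.toFun (N2_Om M) y j) =ᶠ[𝓝 x]
            fun y => iteratedFDeriv ℝ j f.toFun y := by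
          filter_upwards [(N2_isOpen_Om M).mem_nhds hx] with y hy
          exact iteratedFDerivWithin_of_isOpen j (N2_isOpen_Om M) hy
        have h10 := h7.congr_of_eventuallyEq h9.symm
        rw [← h8]
        exact h10
      · exact hpt j hm0 x hx
    · have hm0 : ((j : ℕ) : ℕ∞) ≤ k := hcast hm
      refine (hloc j hm0).continuousOn (Frequently.of_forall fun f => ?_)
      have h5 := (hfd f j hm0).continuousOn_iteratedFDerivWithin le_rfl hUD
      refine h5.congr fun x hx => (iteratedFDerivWithin_of_isOpen j (N2_isOpen_Om M) hx).symm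
  set φ : Fun m := fun q => if q.1 ∈ M.U then (p q 0).curry0 else 0 with hφ
  have hφ1 : ∀ q ∈ N2_Om M, φ q = (p q 0).curry0 := fun q hq => by
    simp only [hφ, if_pos (N2_mem_Om.1 hq)]
  have htay' : HasFTaylorSeriesUpToOn k φ p (N2_Om M) := htay.congr hφ1
  have hφc : ContDiffOn ℝ k φ {q | q.1 ∈ M.U} := htay'.contDiffOn.mono fun q hq => N2_mem_Om.2 hq
  have h00 : ((0 : ℕ) : ℕ∞) ≤ k := by simp
  have hval : ∀ q ∈ N2_Om M, Tendsto (fun f : Pot M k => f.toFun q) l (𝓝 (φ q)) := by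
    intro q hq
    rw [hφ1 q hq]
    have h1 := hpt 0 h00 q hq
    have h2 : Continuous fun c : ContinuousMultilinearMap ℝ (fun _ : Fin 0 => Vec m × ℝ) ℝ => c.curry0 :=
      (continuousMultilinearCurryFin0 ℝ (Vec m × ℝ) ℝ).continuous
    have h3 := (h2.tendsto _).comp h1
    refine h3.congr fun f => ?_
    simp only [Function.comp, ContinuousMultilinearMap.curry0_apply, iteratedFDeriv_zero_apply]
  have hφe : ∀ x ∈ M.U, ∀ t, φ (x, t) = φ (M.r x, t) := by
    intro x hx t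
    have h1 := hval (x, t) (N2_mem_Om.2 hx)
    have h2 := hval (M.r x, t) (N2_mem_Om.2 (M.sub (M.mem x hx)))
    refine tendsto_nhds_unique h1 (h2.congr fun f => (f.ext x hx t).symm)
  have hφo : ∀ x, x ∉ M.U → ∀ t, φ (x, t) = 0 := fun x hx t => by
    simp only [hφ, if_neg hx]
  have hφp : ∀ (n : Fin m → ℤ) (l : ℤ), ∀ x ∈ M.U, ∀ t, φ (x + vz n, t + l) = φ (x, t) := by
    intro n l x hx t
    have h1 := hval (x, t) (N2_mem_Om.2 hx)
    have h2 := hval (x + vz n, t + l) (N2_mem_Om.2 (M.perU n x hx))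
    refine tendsto_nhds_unique h2 (h1.congr fun f => (f.periodic n l x hx t).symm)
  refine ⟨⟨φ, hφc, hφe, hφo, hφp⟩, ?_⟩
  rw [nhds_induced, ← tendsto_iff_comap]
  rw [tendsto_pi_nhds]
  intro j
  rw [UniformOnFun.tendsto_iff_tendstoUniformlyOn]
  intro S hS
  refine (hunif j.1 j.2 S hS).congr_right fun q _ => ?_
  have hqO : (q : Vec m × ℝ) ∈ N2_Om M := N2_mem_Om.2 q.2
  have h2 := htay'.eq_iteratedFDerivWithin_of_uniqueDiffOn (WithTop.coe_le_coe.2 j.2) hUD hqO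
  rw [iteratedFDerivWithin_of_isOpen j.1 (N2_isOpen_Om M) hqO, hpj j.1 j.2] at h2
  exact h2

theorem baire (M : Sub m) (k : ℕ∞) : BaireSpace (Pot M k) := by
  let U : UniformSpace (Pot M k) := UniformSpace.comap jet inferInstance
  obtain ⟨t, ht, htc, hte⟩ := N2_exists_exhaustion M
  have hu : ∀ j : {j : ℕ // (j : ℕ∞) ≤ k}, (𝓤 (Dom M →ᵤ[slabs M]
      ContinuousMultilinearMap ℝ (fun _ : Fin j.1 => Vec m × ℝ) ℝ)).IsCountablyGenerated := by
    intro j
    refine UniformOnFun.isCountablyGenerated_uniformity (slabs M)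
      (t := fun i => N2_slab M (t i))
      (fun i => N2_mem_slabs (htc i).1 (htc i).2)
      (fun i i' h q hq => ht h hq) ?_
    rintro _ ⟨K, hc, hK, rfl⟩
    obtain ⟨i, hi⟩ := hte K hc hK
    exact ⟨i, fun q hq => hi hq⟩
  have : (𝓤 (Pot M k)).IsCountablyGenerated := by
    have : 𝓤 (Pot M k) = Filter.comap (fun q : Pot M k × Pot M k => (jet q.1, jet q.2)) (𝓤 _) := rfl
    rw [this]
    infer_instance
  have : CompleteSpace (Pot M k) := by
    refine ⟨fun {l} hl => ?_⟩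
    have := hl.1
    have h1 : Cauchy (map (jet : Pot M k → _) l) := hl.map uniformContinuous_comap
    obtain ⟨Ψ, hΨ⟩ := CompleteSpace.complete h1
    exact N2_pot_complete M k l Ψ hΨ
  exact (inferInstance : BaireSpace (Pot M k))

end EscM
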