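import Pool.Agent.EscM.N1
import Pool.Agent.EscM.N2
import Pool.Agent.EscF.TT

/-!
Module N5a of project EscM: the extended potential is periodic of class `C^2`, and depends continuously on the
two parts.
-/

noncomputable section

namespace EscM

open Filter Topology Set Esc EscG EscF.T
open scoped ContDiff UniformConvergence

variable {m : ℕ} {k : ℕ∞}

theorem N5a_two {k : ℕ∞} (hk : 2 ≤ k) : (2 : WithTop ℕ∞) ≤ (k : WithTop ℕ∞) := by
  have h : (((2 : ℕ∞)) : WithTop ℕ∞) ≤ (k : WithTop ℕ∞) := WithTop.coe_le_coe.2 hk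
  exact h

theorem N5a_per {M : Sub m} (f : Pot M k) (n : Fin m → ℤ) (l : ℤ) (x : Vec m) (t : ℝ) :
    f.toFun (x + vz n, t + l) = f.toFun (x, t) := by
  by_cases hx : x ∈ M.U
  · exact f.periodic n l x hx t
  · rw [f.out x hx t, f.out _ (fun h => hx ((perU_iff M n x).1 h)) _]

theorem N5a_smooth (hk : 2 ≤ k) {M : Sub m} {ρ : ℝ} {χ : Vec m → ℝ} {R : Vec m → Vec m}
    (hT : TubeD M ρ χ R) (f : Pot M k) :
    ContDiff ℝ 2 (fun p : Vec m × ℝ => χ p.1 * f.toFun p) := by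
  have hk' : (2 : WithTop ℕ∞) ≤ (k : WithTop ℕ∞) := N5a_two hk
  rw [contDiff_iff_contDiffAt]
  rintro ⟨x, t⟩
  by_cases hx : x ∈ M.U
  · have hopen : IsOpen {q : Vec m × ℝ | q.1 ∈ M.U} := M.isOpen.preimage continuous_fst
    have h1 : ContDiffAt ℝ 2 f.toFun (x, t) :=
      ((f.contDiff (x, t) hx).contDiffAt (hopen.mem_nhds hx)).of_le hk'
    have h2 : ContDiff ℝ 2 (fun p : Vec m × ℝ => χ p.1) :=
      (hT.sχ.of_le (N5a_two le_top)).comp contDiff_fst
    exact h2.contDiffAt.mul h1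
  · have hd : 4 * ρ < Metric.infDist x M.N := by
      have h5 : ¬ Metric.infDist x M.N < 5 * ρ := fun h => hx (hT.tube x h)
      have := hT.ρ_pos
      linarith [not_lt.1 h5]
    have hcont : Continuous fun q : Vec m × ℝ => Metric.infDist q.1 M.N :=
      (Metric.continuous_infDist_pt M.N).comp continuous_fst
    have hev : (fun p : Vec m × ℝ => χ p.1 * f.toFun p) =ᶠ[𝓝 (x, t)] fun _ => (0 : ℝ) := by
      have h6 : ∀ᶠ q : Vec m × ℝ in 𝓝 (x, t), 4 * ρ < Metric.infDist q.1 M.N :=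
        hcont.continuousAt.eventually (lt_mem_nhds hd)
      filter_upwards [h6] with q hq
      rw [hT.zero q.1 hq.le, zero_mul]
    exact contDiffAt_const.congr_of_eventuallyEq hev

theorem fh_pt (hk : 2 ≤ k) {M : Sub m} {ρ : ℝ} {χ : Vec m → ℝ} {R : Vec m → Vec m} (hT : TubeD M ρ χ R)
    (f : Pot M k) (h : EscF.T.Pot m k) : Pt (bas m) (fh χ f h) := by
  have hk' : (2 : WithTop ℕ∞) ≤ (k : WithTop ℕ∞) := N5a_two hk
  refine ⟨?_, ?_, ?_⟩
  · exact (N5a_smooth hk hT f).add (h.contDiff.of_le hk')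
  · intro i x t
    have h1 := N5a_per f (Pi.single i 1) 0 x t
    have h2 := h.periodic (Pi.single i 1) 0 x t
    rw [Int.cast_zero, add_zero] at h1 h2
    unfold fh extf
    rw [bas_apply, hT.perχ, h1, h2]
  · intro x t
    have h1 := N5a_per f 0 1 x t
    have h2 := h.periodic 0 1 x t
    rw [Int.cast_one, vz_zero', add_zero] at h1 h2
    unfold fh extf
    rw [h1, h2]

theorem fh_ball {M : Sub m} {ρ : ℝ} {χ : Vec m → ℝ} {R : Vec m → Vec m} (hT : TubeD M ρ χ R)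
    (f : Pot M k) (h : YS M k) {e : ℝ} (he : 0 < e) :
    {p : Pot M k × YS M k | ∀ x t, |fh χ f h.1 x t - fh χ p.1 p.2.1 x t| ≤ e} ∈ 𝓝 (f, h) := by
  have h1 := pot_ball f (half_pos he)
  have h2 := EscF.T.mem_nhds_zero h.1 (half_pos he)
  have h3 : {h' : YS M k | ∀ q, |h.1.toFun q - h'.1.toFun q| ≤ e / 2} ∈ 𝓝 h :=
    continuous_subtype_val.continuousAt.preimage_mem_nhds h2
  refine mem_of_superset (prod_mem_nhds h1 h3) ?_
  rintro ⟨f', h'⟩ ⟨hf, hh⟩ x t
  have h4 := hf (x, t)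
  have h5 := hh (x, t)
  have h6 := hT.χ01 x
  unfold fh extf
  have h7 : χ x * f.toFun (x, t) + h.1.toFun (x, t) - (χ x * f'.toFun (x, t) + h'.1.toFun (x, t)) =
      χ x * (f.toFun (x, t) - f'.toFun (x, t)) + (h.1.toFun (x, t) - h'.1.toFun (x, t)) := by ring
  change |χ x * f.toFun (x, t) + h.1.toFun (x, t) - (χ x * f'.toFun (x, t) + h'.1.toFun (x, t))| ≤ e
  rw [h7]
  refine (abs_add_le _ _).trans ?_
  have h8 : |χ x * (f.toFun (x, t) - f'.toFun (x, t))| ≤ 1 * (e / 2) := by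
    rw [abs_mul, abs_of_nonneg h6.1]
    exact mul_le_mul h6.2 h4 (abs_nonneg _) (by norm_num)
  linarith

end EscM
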