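import Pool.Agent.EscM.A12c
import Pool.Agent.EscM.A14a
import Pool.Agent.EscM.A14b
import Pool.Agent.EscM.N5a

set_option autoImplicit false

/-!
Project EscM, module A14c: orbits on `M`.
`Tb.stays` (`VC M ρ` gives the sign hypothesis; `ρ' ≤ ρ`), `Tb.extremal`, `fh_pt`. For `x ∈ N`: `fh χ f h x t = f (x, t)` since `χ x = 1` and `h (x, t) = 0`.
-/

noncomputable section

namespace EscM

open MeasureTheory Set Filter Topology Esc EscF EscG EscK EscF.T
open scoped ContDiff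

variable {d : ℕ} {M : Sub d} {k : ℕ∞} {ρ : ℝ} {χ : Vec d → ℝ} {Rr : Vec d → Vec d} {F : Vec d → Vec d → ℝ}
  {B : Vec d → ℝ} {i : Fin d} {len : ℝ} {c : ℝ → Vec d} {L : Lag d}

theorem A14c_fh_eq (hT : TubeD M ρ χ Rr) (f : Pot M k) (h : YS M k) {x : Vec d} (hx : x ∈ M.N) (t : ℝ) :
    fh χ f h.1 x t = f.toFun (x, t) := by
  have h1 : χ x = 1 := hT.one x (by
    rw [Metric.infDist_zero_of_mem hx]
    have := hT.ρ_pos
    positivity)
  have h2 : h.1.toFun (x, t) = 0 := (h.2 x hx t).1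
  simp only [fh, extf, h1, h2, one_mul, add_zero]

theorem back (hk : 2 ≤ k) (hT : TubeD M ρ χ Rr) (hL : IsNear M F L) {ρ' Λ : ℝ} (hρ' : 0 < ρ')
    (hle : ρ' ≤ ρ) (hΛ : 0 < Λ) (f : Pot M k) (h : YS M k) (hv : VC M ρ (fh χ f h.1)) {x0 : Vec d}
    (hx0 : x0 ∈ M.N) (he : EscapesFrom (Lt M.N M.r ρ' Λ (fun x v t => L (x, v, t))) (fh χ f h.1) x0
      {x | Metric.infDist x M.N < ρ'}) :
    EscapesToInfinity M (fun q => L q + f.toFun (q.1, q.2.2)) := by
  obtain ⟨m', M', hlag⟩ := IsNear.lagN hT hL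
  have htb := TubeD.tb hT
  have hpt := fh_pt hk hT f h.1
  have hR : 2 * ρ' < 5 * ρ := by nlinarith
  obtain ⟨ε, hε, hv⟩ := hv
  have he2 := Tb.stays htb hlag hρ' hR Λ hpt (fun x hx t =>
    le_trans (by positivity) (hv x (hx.le.trans hle) t)) hx0 he
  obtain ⟨x, hx1, hx2, hx3, hx4⟩ := Tb.extremal htb hlag hρ' hR hΛ hpt he2
  refine ⟨x, ⟨hx1, hx2, fun a b X ha hab hX hXN h1 h2 => ?_⟩, hx4⟩
  have h3 := hx3 a b X ha hab hX hXN h1 h2
  have h4 : (fun s => ∫ t in a..b, (L (X (s, t), deriv (fun t' => X (s, t')) t, t) +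
      fh χ f h.1 (X (s, t)) t)) =
      fun s => ∫ t in a..b, (L (X (s, t), deriv (fun t' => X (s, t')) t, t) +
        f.toFun (X (s, t), t)) := by
    funext s
    refine intervalIntegral.integral_congr fun t _ => ?_
    show _ + _ = _ + _
    rw [A14c_fh_eq hT f h (hXN (s, t)) t]
  rw [h4] at h3
  exact h3

end EscM
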