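import Pool.Agent.EscM.A9
import Pool.Agent.EscM.A13
import Pool.Agent.EscM.A14c

set_option autoImplicit false

/-!
Project EscM, module A15: result of the analysis part.
`exists_data` for `ρ' = ρ / 2`, `l = Lt M.N M.r ρ' Λ L`, and `p` for `δ = ρ'`; `back` (`EscapesFrom` is monotone in the set).
-/

noncomputable section

namespace EscM

open MeasureTheory Set Filter Topology Esc EscF EscG EscK EscF.T
open scoped ContDiff

variable {d : ℕ} {M : Sub d} {k : ℕ∞} {ρ : ℝ} {χ : Vec d → ℝ} {Rr : Vec d → Vec d} {F : Vec d → Vec d → ℝ}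
  {B : Vec d → ℝ} {i : Fin d} {len : ℝ} {c : ℝ → Vec d} {L : Lag d}
theorem main_geo (hk : 2 ≤ k) (hT : TubeD M ρ χ Rr) (hF : IsFinsler M F)
    (hc : IsCalibrated M F B i len c) (hs : HasSecondDirection M i (c 0)) (hL : IsNear M F L) :
    ∃ (l : Vec d → Vec d → ℝ → ℝ) (m' : ℝ) (D : GD (Fin d) 1 (Vec d)) (L' : LP) (p : GP) (x0 : Vec d),
      D.β = bas d ∧ D.Ok ∧ FL D m' L' l ∧ p.Ok D ∧ x0 ∈ D.C p ∧
      ∀ (f : Pot M k) (h : YS M k), VC M ρ (fh χ f h.1) →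
        EscapesFrom l (fh χ f h.1) x0 (Near D p) →
        EscapesToInfinity M (fun q => L q + f.toFun (q.1, q.2.2)) := by
  have hρ := hT.ρ_pos
  obtain ⟨mF, MF, hFN⟩ := hF.finsN hT
  obtain ⟨v0, hsec⟩ := hs.sec
  obtain ⟨m', M', hLN⟩ := hL.lagN hT
  obtain ⟨Λ, m1, D, L', hΛ, hβ, hOk, hFL, hp⟩ :=
    exists_data hT.tb hFN (hc.calN hT) hsec hLN (ρ := ρ / 2) (by linarith) (by linarith)
  obtain ⟨p, hpOk, hnear, x0, hx0, hx0N⟩ := hp (ρ / 2) (by linarith)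
  refine ⟨_, m1, D, L', p, x0, hβ, hOk, hFL, hpOk, hx0, ?_⟩
  intro f h hv he
  refine back hk hT hL (ρ' := ρ / 2) (by linarith) (by linarith) hΛ f h hv hx0N ?_
  obtain ⟨t0, x, v, h1, h2, h3, h4, h5, h6, h7, h8⟩ := he
  exact ⟨t0, x, v, h1, h2, h3, h4, h5, h6, fun t ht => hnear (h7 t ht), h8⟩

theorem exists_SM (hT : TubeD M ρ χ Rr) : ∃ S : SCl (bas d), ∀ G, S.mem G ↔ MCl M G := by
  obtain ⟨S, hS⟩ := hT.tb.exists_scl
  exact ⟨S, hS⟩

end EscM
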