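import Pool.Agent.EscM.A1

set_option autoImplicit false

/-!
Project EscM, module A2: bounds and Lipschitz constants in the tube.
`bdd`: the set `{infDist ≤ a}` is closed and periodic, a fundamental cell of the lattice is bounded, so its
intersection with a closed ball is compact. `r_lip`: near points by the bounds of the first and second derivative
of `r` (continuous, periodic) and `Convex.norm_image_sub_le_of_norm_fderiv_le`; the other points are trivial.
-/

noncomputable section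

namespace EscM

open MeasureTheory Set Filter Topology Esc EscF EscG EscK
open scoped ContDiff

variable {ι : Type} [Fintype ι] {E : Type*} [NormedAddCommGroup E] [InnerProductSpace ℝ E]
  [FiniteDimensional ℝ E] {β : Module.Basis ι ℝ E} {N : Set E} {r : E → E} {R : ℝ}

omit [FiniteDimensional ℝ E] in
/-- every point is moved into a fixed ball by a lattice vector -/
theorem A2_cell (β : Module.Basis ι ℝ E) : ∃ ρ : ℝ, ∀ x : E,
    ∃ w ∈ Submodule.span ℤ (Set.range β), x + w ∈ Metric.closedBall (0 : E) ρ := by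
  obtain ⟨ρ, hρ⟩ := (ZSpan.fundamentalDomain_isBounded β).subset_closedBall (0 : E)
  refine ⟨ρ, fun x => ⟨-(ZSpan.floor β x : E), ?_, ?_⟩⟩
  · exact Submodule.neg_mem _ (ZSpan.floor β x).2
  · refine hρ ?_
    have h1 := ZSpan.fract_mem_fundamentalDomain β x
    rwa [ZSpan.fract_apply, sub_eq_add_neg] at h1

/-- continuous periodic functions on a closed tube are bounded -/
theorem Tb.bdd (h : Tb β N r R) {a : ℝ} {G : E → ℝ} (hG : ContinuousOn G {x | Metric.infDist x N ≤ a})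
    (hp : ∀ x, Metric.infDist x N ≤ a → ∀ w ∈ Submodule.span ℤ (Set.range β), G (x + w) = G x) :
    ∃ C : ℝ, ∀ x, Metric.infDist x N ≤ a → |G x| ≤ C := by
  obtain ⟨ρ, hρ⟩ := A2_cell β
  have hcl : IsClosed {x | Metric.infDist x N ≤ a} :=
    isClosed_le (Metric.continuous_infDist_pt N) continuous_const
  have hK : IsCompact (Metric.closedBall (0 : E) ρ ∩ {x | Metric.infDist x N ≤ a}) :=
    (isCompact_closedBall 0 ρ).inter_right hcl
  obtain ⟨C, hC⟩ := hK.exists_bound_of_continuousOn (hG.mono inter_subset_right)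
  refine ⟨C, fun x hx => ?_⟩
  obtain ⟨w, hw, hxw⟩ := hρ x
  have h1 : Metric.infDist (x + w) N ≤ a := by rw [h.infDist_Lam hw x]; exact hx
  have h2 := hC (x + w) ⟨hxw, h1⟩
  rw [hp x hx w hw, Real.norm_eq_abs] at h2
  exact h2

omit [InnerProductSpace ℝ E] [FiniteDimensional ℝ E] in
theorem A2_sub {N : Set E} {R a : ℝ} (ha : a < R) :
    {x : E | Metric.infDist x N ≤ a} ⊆ {x | Metric.infDist x N < R} :=
  fun _ hx => lt_of_le_of_lt hx ha

theorem Tb.fd_bd (h : Tb β N r R) {a : ℝ} (ha : a < R) : ∃ C : ℝ, 0 < C ∧ ∀ x,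
    Metric.infDist x N ≤ a → ‖fderiv ℝ r x‖ ≤ C := by
  have h1 : ContinuousOn (fderiv ℝ r) {x | Metric.infDist x N < R} :=
    h.smooth.continuousOn_fderiv_of_isOpen h.isOpen_tube (by simp)
  obtain ⟨C, hC⟩ := h.bdd (a := a) (G := fun x => ‖fderiv ℝ r x‖)
    ((h1.mono (A2_sub ha)).norm)
    (fun x hx w hw => by
      show ‖fderiv ℝ r (x + w)‖ = ‖fderiv ℝ r x‖
      rw [h.fd_Lam hw (lt_of_le_of_lt hx ha)])
  refine ⟨max C 1, lt_max_of_lt_right one_pos, fun x hx => ?_⟩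
  have h2 := hC x hx
  rw [abs_norm] at h2
  exact h2.trans (le_max_left _ _)

theorem A2_two_le : (1 : WithTop ℕ∞) + 1 ≤ ((⊤ : ℕ∞) : WithTop ℕ∞) := by
  have h1 : (1 : WithTop ℕ∞) + 1 = ((2 : ℕ∞) : WithTop ℕ∞) := by norm_num
  rw [h1]
  exact WithTop.coe_le_coe.2 le_top

/-- the derivative of `r` is smooth in the tube -/
theorem A2_fd_smooth (h : Tb β N r R) :
    ContDiffOn ℝ 1 (fderiv ℝ r) {x | Metric.infDist x N < R} :=
  h.smooth.fderiv_of_isOpen h.isOpen_tube A2_two_le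

theorem A2_fd2_Lam (h : Tb β N r R) {w : E} (hw : w ∈ Submodule.span ℤ (Set.range β)) {x : E}
    (hx : Metric.infDist x N < R) :
    fderiv ℝ (fderiv ℝ r) (x + w) = fderiv ℝ (fderiv ℝ r) x := by
  have h1 : (fun y => fderiv ℝ r (y + w)) =ᶠ[𝓝 x] fderiv ℝ r := by
    filter_upwards [h.isOpen_tube.mem_nhds hx] with y hy
    exact h.fd_Lam hw hy
  rw [← fderiv_comp_add_right w, h1.fderiv_eq]

theorem A2_fd2_bd (h : Tb β N r R) {a : ℝ} (ha : a < R) : ∃ C : ℝ, 0 < C ∧ ∀ x,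
    Metric.infDist x N ≤ a → ‖fderiv ℝ (fderiv ℝ r) x‖ ≤ C := by
  have h1 : ContinuousOn (fderiv ℝ (fderiv ℝ r)) {x | Metric.infDist x N < R} :=
    (A2_fd_smooth h).continuousOn_fderiv_of_isOpen h.isOpen_tube le_rfl
  have h4 : ContinuousOn (fderiv ℝ (fderiv ℝ r)) {x | Metric.infDist x N ≤ a} :=
    h1.mono (A2_sub ha)
  have h3 : ContinuousOn (fun x => ‖fderiv ℝ (fderiv ℝ r) x‖) {x | Metric.infDist x N ≤ a} := by
    exact @ContinuousOn.norm E (E →L[ℝ] E →L[ℝ] E) _ _ _ _ h4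
  obtain ⟨C, hC⟩ := h.bdd (a := a) (G := fun x => ‖fderiv ℝ (fderiv ℝ r) x‖) h3
    (fun x hx w hw => by
      show ‖fderiv ℝ (fderiv ℝ r) (x + w)‖ = ‖fderiv ℝ (fderiv ℝ r) x‖
      rw [A2_fd2_Lam h hw (lt_of_le_of_lt hx ha)])
  refine ⟨max C 1, lt_max_of_lt_right one_pos, fun x hx => ?_⟩
  exact ((le_abs_self _).trans (hC x hx)).trans (le_max_left _ _)

omit [InnerProductSpace ℝ E] [FiniteDimensional ℝ E] in
theorem A2_near {N : Set E} {a δ : ℝ} {x z : E} (hx : Metric.infDist x N ≤ a)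
    (hz : z ∈ Metric.ball x δ) : Metric.infDist z N ≤ a + δ := by
  have h1 := Metric.infDist_le_infDist_add_dist (s := N) (x := z) (y := x)
  have h2 : dist z x < δ := hz
  linarith

theorem Tb.r_lip (h : Tb β N r R) {a : ℝ} (ha : a < R) : ∃ C : ℝ, 0 < C ∧ ∀ x x',
    Metric.infDist x N ≤ a → Metric.infDist x' N ≤ a →
      ‖r x - r x'‖ ≤ C * ‖x - x'‖ ∧ ‖fderiv ℝ r x - fderiv ℝ r x'‖ ≤ C * ‖x - x'‖ := by
  set δ : ℝ := (R - a) / 2 with hδ
  have hδ0 : 0 < δ := by rw [hδ]; linarith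
  have hb : a + δ < R := by rw [hδ]; linarith
  obtain ⟨C1, hC1, h1⟩ := h.fd_bd hb
  obtain ⟨C2, hC2, h2⟩ := A2_fd2_bd h hb
  have hR := h.R_pos
  have hc1 : 0 < 2 * R / δ := by positivity
  have hc2 : 0 < 2 * C1 / δ := by positivity
  refine ⟨C1 + C2 + 1 + 2 * R / δ + 2 * C1 / δ, by positivity, fun x x' hx hx' => ?_⟩
  have hn : 0 ≤ ‖x - x'‖ := norm_nonneg _
  rcases lt_or_ge ‖x - x'‖ δ with hlt | hge
  · have hx0 : x ∈ Metric.ball x' δ := by rwa [Metric.mem_ball, dist_eq_norm]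
    have hx1 : x' ∈ Metric.ball x' δ := Metric.mem_ball_self hδ0
    have h3 : ‖r x - r x'‖ ≤ C1 * ‖x - x'‖ :=
      (convex_ball x' δ).norm_image_sub_le_of_norm_fderiv_le (𝕜 := ℝ) (f := r)
        (fun z hz => h.diff (lt_of_le_of_lt (A2_near hx' hz) hb))
        (fun z hz => h1 z (A2_near hx' hz)) hx1 hx0
    have h4 : ‖fderiv ℝ r x - fderiv ℝ r x'‖ ≤ C2 * ‖x - x'‖ :=
      (convex_ball x' δ).norm_image_sub_le_of_norm_fderiv_le (𝕜 := ℝ) (f := fderiv ℝ r)
        (fun z hz => ((A2_fd_smooth h).differentiableOn one_ne_zero).differentiableAt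
          (h.isOpen_tube.mem_nhds (lt_of_le_of_lt (A2_near hx' hz) hb)))
        (fun z hz => h2 z (A2_near hx' hz)) hx1 hx0
    refine ⟨h3.trans (mul_le_mul_of_nonneg_right ?_ hn),
      h4.trans (mul_le_mul_of_nonneg_right ?_ hn)⟩ <;> linarith
  · have hx2 : Metric.infDist x N ≤ a + δ := by linarith
    have hx3 : Metric.infDist x' N ≤ a + δ := by linarith
    have e1 : ‖x - r x‖ ≤ R := by
      rw [← h.dist_eq (lt_of_le_of_lt hx ha)]; linarith
    have e2 : ‖x' - r x'‖ ≤ R := by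
      rw [← h.dist_eq (lt_of_le_of_lt hx' ha)]; linarith
    have e3 : ‖r x - r x'‖ ≤ ‖x - x'‖ + 2 * R := by
      have : r x - r x' = (x - x') - (x - r x) + (x' - r x') := by abel
      rw [this]
      have := norm_add_le ((x - x') - (x - r x)) (x' - r x')
      have := norm_sub_le (x - x') (x - r x)
      linarith
    have e4 : ‖fderiv ℝ r x - fderiv ℝ r x'‖ ≤ 2 * C1 := by
      have := norm_sub_le (fderiv ℝ r x) (fderiv ℝ r x')
      have := h1 x hx2
      have := h1 x' hx3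
      linarith
    have e5 : 1 ≤ ‖x - x'‖ / δ := by rwa [le_div_iff₀ hδ0, one_mul]
    have e6 : 2 * R ≤ 2 * R / δ * ‖x - x'‖ := by
      have : 2 * R / δ * ‖x - x'‖ = 2 * R * (‖x - x'‖ / δ) := by ring
      rw [this]
      nlinarith
    have e7 : 2 * C1 ≤ 2 * C1 / δ * ‖x - x'‖ := by
      have : 2 * C1 / δ * ‖x - x'‖ = 2 * C1 * (‖x - x'‖ / δ) := by ring
      rw [this]
      nlinarith
    have e8 : 0 ≤ C1 * ‖x - x'‖ := by positivity
    have e9 : 0 ≤ C2 * ‖x - x'‖ := by positivity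
    have e10 : 0 ≤ 2 * R / δ * ‖x - x'‖ := by positivity
    have e11 : 0 ≤ 2 * C1 / δ * ‖x - x'‖ := by positivity
    constructor <;> nlinarith

end EscM
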