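import Pool.Agent.EscM.A2

set_option autoImplicit false
set_option linter.unusedSectionVars false

/-!
Project EscM, module A3: cut-off functions.
`chi` is given by the smooth formula in the tube `{infDist < R}`, and it vanishes on the open set
`{infDist > b}`; these two open sets cover the space, since `b < R`.
-/

noncomputable section

namespace EscM

open MeasureTheory Set Filter Topology Esc EscF EscG EscK
open scoped ContDiff

variable {ι : Type} [Fintype ι] {E : Type*} [NormedAddCommGroup E] [InnerProductSpace ℝ E]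
  [FiniteDimensional ℝ E] {β : Module.Basis ι ℝ E} {N : Set E} {r : E → E} {R : ℝ}

theorem chi_nonneg (N : Set E) (r : E → E) (a b : ℝ) (x : E) : 0 ≤ chi N r a b x := by
  unfold chi
  split_ifs
  · exact Real.smoothTransition.nonneg _
  · exact le_rfl

theorem chi_le_one (N : Set E) (r : E → E) (a b : ℝ) (x : E) : chi N r a b x ≤ 1 := by
  unfold chi
  split_ifs
  · exact Real.smoothTransition.le_one _
  · exact zero_le_one

theorem A3_den {a b : ℝ} (ha : 0 ≤ a) (hab : a < b) : 0 < b ^ 2 - a ^ 2 := by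
  nlinarith

theorem Tb.chi_one (h : Tb β N r R) {a b : ℝ} (ha : 0 ≤ a) (hab : a < b) (hb : b < R) {x : E}
    (hx : Metric.infDist x N ≤ a) : chi N r a b x = 1 := by
  have hxb : Metric.infDist x N < b := hx.trans_lt hab
  have hd : Metric.infDist x N = ‖x - r x‖ := h.dist_eq (hxb.trans hb)
  unfold chi
  rw [if_pos hxb]
  apply Real.smoothTransition.one_of_one_le
  rw [le_div_iff₀ (A3_den ha hab), one_mul, ← hd]
  have h0 : 0 ≤ Metric.infDist x N := Metric.infDist_nonneg
  have : Metric.infDist x N ^ 2 ≤ a ^ 2 := pow_le_pow_left₀ h0 hx 2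
  linarith

theorem chi_zero (N : Set E) (r : E → E) (a b : ℝ) {x : E} (hx : b ≤ Metric.infDist x N) :
    chi N r a b x = 0 := by
  unfold chi
  rw [if_neg (not_lt.2 hx)]

/-- the formula in the tube -/
theorem A3_tube (h : Tb β N r R) {a b : ℝ} (ha : 0 ≤ a) (hab : a < b) {x : E}
    (hx : Metric.infDist x N < R) :
    chi N r a b x = Real.smoothTransition ((b ^ 2 - ‖x - r x‖ ^ 2) / (b ^ 2 - a ^ 2)) := by
  by_cases hxb : Metric.infDist x N < b
  · unfold chi
    rw [if_pos hxb]
  · rw [chi_zero N r a b (not_lt.1 hxb)]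
    symm
    apply Real.smoothTransition.zero_of_nonpos
    apply div_nonpos_of_nonpos_of_nonneg _ (A3_den ha hab).le
    rw [← h.dist_eq hx]
    have hb0 : 0 ≤ b := ha.trans hab.le
    have := pow_le_pow_left₀ hb0 (not_lt.1 hxb) 2
    linarith

theorem A3_nhds (h : Tb β N r R) {x : E} (hx : Metric.infDist x N < R) :
    ∀ᶠ y in 𝓝 x, Metric.infDist y N < R := h.isOpen_tube.mem_nhds hx

theorem A3_far {b : ℝ} {x : E} (hx : b < Metric.infDist x N) :
    ∀ᶠ y in 𝓝 x, b < Metric.infDist y N :=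
  (isOpen_lt continuous_const (Metric.continuous_infDist_pt N)).mem_nhds hx

theorem A3_smoothAt (h : Tb β N r R) {a b : ℝ} (ha : 0 ≤ a) (hab : a < b) {x : E}
    (hx : Metric.infDist x N < R) : ContDiffAt ℝ ∞ (chi N r a b) x := by
  have hr : ContDiffAt ℝ ∞ r x := h.smooth.contDiffAt (h.isOpen_tube.mem_nhds hx)
  have h1 : ContDiffAt ℝ ∞ (fun y => ‖y - r y‖ ^ 2) x := (contDiffAt_id.sub hr).norm_sq ℝ
  have h2 : ContDiffAt ℝ ∞ (fun y => (b ^ 2 - ‖y - r y‖ ^ 2) / (b ^ 2 - a ^ 2)) x :=
    (contDiffAt_const.sub h1).div_const _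
  have h3 : ContDiffAt ℝ ∞ (fun y => Real.smoothTransition
      ((b ^ 2 - ‖y - r y‖ ^ 2) / (b ^ 2 - a ^ 2))) x :=
    Real.smoothTransition.contDiff.contDiffAt.comp x h2
  refine h3.congr_of_eventuallyEq ?_
  filter_upwards [A3_nhds h hx] with y hy
  exact A3_tube h ha hab hy

theorem Tb.chi_smooth (h : Tb β N r R) {a b : ℝ} (ha : 0 ≤ a) (hab : a < b) (hb : b < R) :
    ContDiff ℝ ∞ (chi N r a b) := by
  rw [contDiff_iff_contDiffAt]
  intro x
  rcases lt_or_ge (Metric.infDist x N) R with hx | hx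
  · exact A3_smoothAt h ha hab hx
  · refine (contDiffAt_const (c := (0:ℝ))).congr_of_eventuallyEq ?_
    filter_upwards [A3_far (hb.trans_le hx)] with y hy
    exact chi_zero N r a b hy.le

theorem Tb.chi_Lam (h : Tb β N r R) {a b : ℝ} (hb : b < R) {w : E}
    (hw : w ∈ Submodule.span ℤ (Set.range β)) (x : E) : chi N r a b (x + w) = chi N r a b x := by
  unfold chi
  rw [h.infDist_Lam hw x]
  by_cases hx : Metric.infDist x N < b
  · rw [if_pos hx, if_pos hx, h.r_Lam hw (hx.trans hb), add_sub_add_right_eq_sub]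
  · rw [if_neg hx, if_neg hx]

theorem A3_fd_Lam (h : Tb β N r R) {a b : ℝ} (hb : b < R) {w : E}
    (hw : w ∈ Submodule.span ℤ (Set.range β)) (x : E) :
    fderiv ℝ (chi N r a b) (x + w) = fderiv ℝ (chi N r a b) x := by
  rw [← fderiv_comp_add_right]
  congr 1
  funext y
  exact h.chi_Lam hb hw y

theorem Tb.chi_lip (h : Tb β N r R) {a b : ℝ} (ha : 0 ≤ a) (hab : a < b) (hb : b < R) :
    ∃ C : ℝ, 0 < C ∧ ∀ x x', |chi N r a b x - chi N r a b x'| ≤ C * ‖x - x'‖ := by
  have hs := h.chi_smooth ha hab hb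
  have hc : Continuous (fderiv ℝ (chi N r a b)) := hs.continuous_fderiv (by simp)
  obtain ⟨C, hC⟩ := h.bdd (a := (b + R) / 2) (G := fun x => ‖fderiv ℝ (chi N r a b) x‖)
    hc.norm.continuousOn (fun x _ w hw => by
      show ‖fderiv ℝ (chi N r a b) (x + w)‖ = ‖fderiv ℝ (chi N r a b) x‖
      rw [A3_fd_Lam h hb hw x])
  refine ⟨max C 0 + 1, by positivity, ?_⟩
  have hbd : ∀ x, ‖fderiv ℝ (chi N r a b) x‖ ≤ max C 0 + 1 := by
    intro x
    rcases le_or_gt (Metric.infDist x N) ((b + R) / 2) with hx | hx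
    · have h1 := hC x hx
      rw [abs_of_nonneg (norm_nonneg _)] at h1
      have h2 := le_max_left C 0
      linarith
    · have h1 : fderiv ℝ (chi N r a b) x = 0 := by
        have h2 : chi N r a b =ᶠ[𝓝 x] fun _ => (0:ℝ) := by
          filter_upwards [A3_far (b := b) (by linarith)] with y hy
          exact chi_zero N r a b hy.le
        rw [h2.fderiv_eq]
        simp
      rw [h1, norm_zero]
      have := le_max_right C 0
      linarith
  intro x x'
  have := (convex_univ (𝕜 := ℝ) (E := E)).norm_image_sub_le_of_norm_fderiv_le (f := chi N r a b)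
    (fun y _ => (hs.differentiable (by simp)) y) (fun y _ => hbd y) (mem_univ x') (mem_univ x)
  rwa [Real.norm_eq_abs] at this

/-- functions which are smooth in the tube, multiplied by the cut-off -/
theorem Tb.chi_mul (h : Tb β N r R) {a b : ℝ} (ha : 0 ≤ a) (hab : a < b) (hb : b < R)
    {V : Type*} [NormedAddCommGroup V] [NormedSpace ℝ V] {X : Type*} [NormedAddCommGroup X]
    [NormedSpace ℝ X] {k : WithTop ℕ∞} (hk : k ≤ ∞) {G : E × X → V}
    (hG : ContDiffOn ℝ k G {p | Metric.infDist p.1 N < R}) :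
    ContDiff ℝ k (fun p : E × X => chi N r a b p.1 • G p) := by
  rw [contDiff_iff_contDiffAt]
  intro p
  rcases lt_or_ge (Metric.infDist p.1 N) R with hx | hx
  · have h1 : ContDiffAt ℝ k (fun q : E × X => chi N r a b q.1) p :=
      (((h.chi_smooth ha hab hb).of_le hk).comp contDiff_fst).contDiffAt
    have hop : IsOpen {q : E × X | Metric.infDist q.1 N < R} :=
      h.isOpen_tube.preimage continuous_fst
    exact h1.smul (hG.contDiffAt (hop.mem_nhds hx))
  · refine (contDiffAt_const (c := (0:V))).congr_of_eventuallyEq ?_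
    have hfst : Tendsto (Prod.fst : E × X → E) (𝓝 p) (𝓝 p.1) := continuous_fst.continuousAt
    filter_upwards [hfst.eventually (A3_far (hb.trans_le hx))] with q hq
    rw [chi_zero N r a b hq.le, zero_smul]

theorem A3_t1 (h : Tb β N r R) :
    ContDiffOn ℝ ∞ (fun p : E × ℝ => p.1 - r p.1) {p | Metric.infDist p.1 N < R} := by
  have hf : ContDiffOn ℝ ∞ (fun p : E × ℝ => p.1) {p | Metric.infDist p.1 N < R} :=
    contDiff_fst.contDiffOn
  have hg : ContDiffOn ℝ ∞ (fun p : E × ℝ => r p.1) {p | Metric.infDist p.1 N < R} :=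
    h.smooth.comp hf (fun p hp => hp)
  exact hf.sub hg

theorem A3_t2 (h : Tb β N r R) {a b : ℝ} (ha : 0 ≤ a) (hab : a < b) (hb : b < R) :
    ContDiff ℝ ∞ (fun x : E => chi N r a b x • (x - r x)) := by
  have h2 := h.chi_mul ha hab hb le_rfl (A3_t1 h)
  have h3 : ContDiff ℝ ∞ (fun x : E => (x, (0:ℝ))) := contDiff_id.prodMk contDiff_const
  have h4 := h2.comp h3
  exact h4

theorem Tb.tau_smooth (h : Tb β N r R) {a b : ℝ} (ha : 0 ≤ a) (hab : a < b) (hb : b < R) :
    ContDiff ℝ ∞ (tau N r a b) := by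
  have h4 := A3_t2 h ha hab hb
  have h5 : ContDiff ℝ ∞ (fun x : E => x) := contDiff_id
  have h6 : tau N r a b = fun x => x - chi N r a b x • (x - r x) := rfl
  rw [h6]
  exact h5.sub h4

theorem Tb.tau_Lam (h : Tb β N r R) {a b : ℝ} (hb : b < R) {w : E}
    (hw : w ∈ Submodule.span ℤ (Set.range β)) (x : E) : tau N r a b (x + w) = tau N r a b x + w := by
  unfold tau
  rw [h.chi_Lam hb hw x]
  rcases lt_or_ge (Metric.infDist x N) R with hx | hx
  · rw [h.r_Lam hw hx, add_sub_add_right_eq_sub]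
    abel
  · rw [chi_zero N r a b (hb.le.trans hx), zero_smul, zero_smul, sub_zero, sub_zero]

theorem Tb.tau_near (h : Tb β N r R) {a b : ℝ} (hb0 : 0 ≤ b) (hb : b < R) (x : E) :
    ‖tau N r a b x - x‖ ≤ b := by
  have h1 : tau N r a b x - x = - (chi N r a b x • (x - r x)) := by
    unfold tau
    abel
  rw [h1, norm_neg, norm_smul, Real.norm_of_nonneg (chi_nonneg N r a b x)]
  rcases lt_or_ge (Metric.infDist x N) b with hx | hx
  · have h2 : ‖x - r x‖ ≤ b := by
      rw [← h.dist_eq (hx.trans hb)]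
      exact hx.le
    calc chi N r a b x * ‖x - r x‖ ≤ 1 * b :=
          mul_le_mul (chi_le_one N r a b x) h2 (norm_nonneg _) zero_le_one
      _ = b := one_mul b
  · rw [chi_zero N r a b hx, zero_mul]
    exact hb0

theorem Tb.tau_eq (h : Tb β N r R) {a b : ℝ} (ha : 0 ≤ a) (hab : a < b) (hb : b < R) {x : E}
    (hx : Metric.infDist x N ≤ a) : tau N r a b x = r x := by
  unfold tau
  rw [h.chi_one ha hab hb hx, one_smul, sub_sub_cancel]

end EscM
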