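import Pool.Agent.EscM.A3

set_option autoImplicit false

/-!
Project EscM, module A4: the extended metric.
`Gt_low`: `F (r x) (D v) ≥ mF ‖D v‖` with `D = fderiv ℝ r x` (`Tb.tan`), and `‖D v‖² + ‖v - D v‖² ≥ ‖v‖²/2`. `Gt_upp`: `Tb.fd_bd`. Continuity: `FinsN.cont` composed with
`(x, v) ↦ (r x, D v) ∈ TN` on the tube; at points with `infDist > 2 ρ` the function is `√(Λ ‖v‖²)` near the point.
`Ft_fins`: bounds from `Gt_low`, `Gt_upp` (with `a = 2 ρ`); where `chi = 0` only the second term.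
-/

noncomputable section

namespace EscM

open MeasureTheory Set Filter Topology Esc EscF EscG EscK
open scoped ContDiff

variable {ι : Type} [Fintype ι] {E : Type*} [NormedAddCommGroup E] [InnerProductSpace ℝ E]
  [FiniteDimensional ℝ E] {β : Module.Basis ι ℝ E} {N : Set E} {r : E → E} {R : ℝ}
variable {F : E → E → ℝ} {mF MF : ℝ}

theorem A4_kap_nonneg (ρ : ℝ) : 0 ≤ kap ρ := by
  unfold kap
  positivity

theorem Gt_nonneg (r : E → E) (ρ : ℝ) (F : E → E → ℝ) (x v : E) : 0 ≤ Gt r ρ F x v := by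
  unfold Gt
  have h := A4_kap_nonneg ρ
  positivity

theorem A4_F_nonneg (hF : FinsN β N r F mF MF) {x v : E} (hv : (x, v) ∈ TN N r) : 0 ≤ F x v :=
  (mul_nonneg hF.mF_pos.le (norm_nonneg v)).trans (hF.low x v hv)

theorem Tb.Gt_low (h : Tb β N r R) (hF : FinsN β N r F mF MF) (ρ : ℝ) {x : E}
    (hx : Metric.infDist x N < R) (v : E) : min (mF ^ 2) 1 / 2 * ‖v‖ ^ 2 ≤ Gt r ρ F x v := by
  unfold Gt
  have h1 := hF.low _ _ (h.tan hx v)
  have h0 := hF.mF_pos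
  have h2 : (mF * ‖fderiv ℝ r x v‖) ^ 2 ≤ F (r x) (fderiv ℝ r x v) ^ 2 :=
    pow_le_pow_left₀ (by positivity) h1 2
  have h3 : 0 ≤ kap ρ * ‖x - r x‖ ^ 2 * ‖v‖ ^ 2 := by
    have := A4_kap_nonneg ρ
    positivity
  have h4 : ‖v‖ ≤ ‖fderiv ℝ r x v‖ + ‖v - fderiv ℝ r x v‖ := by
    have := norm_add_le (fderiv ℝ r x v) (v - fderiv ℝ r x v)
    rwa [add_sub_cancel] at this
  have h5 : ‖v‖ ^ 2 ≤ 2 * (‖fderiv ℝ r x v‖ ^ 2 + ‖v - fderiv ℝ r x v‖ ^ 2) := by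
    have h6 := pow_le_pow_left₀ (norm_nonneg v) h4 2
    nlinarith [sq_nonneg (‖fderiv ℝ r x v‖ - ‖v - fderiv ℝ r x v‖)]
  have h7 : min (mF ^ 2) 1 ≤ mF ^ 2 := min_le_left _ _
  have h8 : min (mF ^ 2) 1 ≤ 1 := min_le_right _ _
  have h9 : 0 ≤ min (mF ^ 2) 1 := le_min (by positivity) zero_le_one
  have h10 := mul_le_mul_of_nonneg_right h7 (sq_nonneg ‖fderiv ℝ r x v‖)
  have h11 := mul_le_mul_of_nonneg_right h8 (sq_nonneg ‖v - fderiv ℝ r x v‖)
  have h12 := mul_le_mul_of_nonneg_left h5 h9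
  rw [mul_pow] at h2
  nlinarith

theorem Tb.Gt_upp (h : Tb β N r R) (hF : FinsN β N r F mF MF) (ρ : ℝ) {a : ℝ} (ha : a < R) :
    ∃ C : ℝ, 1 ≤ C ∧ ∀ x v, Metric.infDist x N ≤ a → Gt r ρ F x v ≤ C * ‖v‖ ^ 2 := by
  obtain ⟨C, hC, hb⟩ := h.fd_bd ha
  have hk := A4_kap_nonneg ρ
  have hM : 0 ≤ MF := hF.mF_pos.le.trans hF.mF_le
  refine ⟨MF ^ 2 * C ^ 2 + (1 + C) ^ 2 + kap ρ * R ^ 2, ?_, ?_⟩
  · have h1 : 0 ≤ MF ^ 2 * C ^ 2 := by positivity
    have h2 : 0 ≤ kap ρ * R ^ 2 := by positivity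
    nlinarith
  · intro x v hx
    have hxR : Metric.infDist x N < R := lt_of_le_of_lt hx ha
    have h1 := (fderiv ℝ r x).le_of_opNorm_le (hb x hx) v
    have h2 : F (r x) (fderiv ℝ r x v) ≤ MF * (C * ‖v‖) :=
      (hF.upp _ _ (h.tan hxR v)).trans (mul_le_mul_of_nonneg_left h1 hM)
    have h3 : F (r x) (fderiv ℝ r x v) ^ 2 ≤ (MF * (C * ‖v‖)) ^ 2 :=
      pow_le_pow_left₀ (A4_F_nonneg hF (h.tan hxR v)) h2 2
    have h4 : ‖v - fderiv ℝ r x v‖ ≤ (1 + C) * ‖v‖ := by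
      have := norm_sub_le v (fderiv ℝ r x v)
      linarith
    have h5 : ‖v - fderiv ℝ r x v‖ ^ 2 ≤ ((1 + C) * ‖v‖) ^ 2 :=
      pow_le_pow_left₀ (norm_nonneg _) h4 2
    have h6 : ‖x - r x‖ ≤ R := by
      rw [← h.dist_eq hxR]
      exact hxR.le
    have h7 : ‖x - r x‖ ^ 2 ≤ R ^ 2 := pow_le_pow_left₀ (norm_nonneg _) h6 2
    have h8 : kap ρ * ‖x - r x‖ ^ 2 * ‖v‖ ^ 2 ≤ kap ρ * R ^ 2 * ‖v‖ ^ 2 :=
      mul_le_mul_of_nonneg_right (mul_le_mul_of_nonneg_left h7 hk) (sq_nonneg _)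
    unfold Gt
    calc _ ≤ (MF * (C * ‖v‖)) ^ 2 + ((1 + C) * ‖v‖) ^ 2 + kap ρ * R ^ 2 * ‖v‖ ^ 2 := by linarith
      _ = (MF ^ 2 * C ^ 2 + (1 + C) ^ 2 + kap ρ * R ^ 2) * ‖v‖ ^ 2 := by ring

theorem Tb.Gt_cont (h : Tb β N r R) (hF : FinsN β N r F mF MF) (ρ : ℝ) :
    ContinuousOn (fun p : E × E => Gt r ρ F p.1 p.2) {p | Metric.infDist p.1 N < R} := by
  have hm : MapsTo (Prod.fst : E × E → E) {p | Metric.infDist p.1 N < R}
      {x | Metric.infDist x N < R} := fun p hp => hp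
  have h1 : ContinuousOn (fun p : E × E => r p.1) {p | Metric.infDist p.1 N < R} :=
    h.smooth.continuousOn.comp continuousOn_fst hm
  have h2 : ContinuousOn (fun p : E × E => fderiv ℝ r p.1) {p | Metric.infDist p.1 N < R} :=
    (h.smooth.continuousOn_fderiv_of_isOpen h.isOpen_tube (by simp)).comp continuousOn_fst hm
  have h3 : ContinuousOn (fun p : E × E => fderiv ℝ r p.1 p.2) {p | Metric.infDist p.1 N < R} :=
    h2.clm_apply continuousOn_snd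
  have h4 : ContinuousOn (fun p : E × E => F (r p.1) (fderiv ℝ r p.1 p.2))
      {p | Metric.infDist p.1 N < R} :=
    hF.cont.comp (h1.prodMk h3) fun p hp => h.tan hp p.2
  unfold Gt
  exact ((h4.pow 2).add ((continuousOn_snd.sub h3).norm.pow 2)).add
    ((continuousOn_const.mul ((continuousOn_fst.sub h1).norm.pow 2)).mul (continuousOn_snd.norm.pow 2))

theorem A4_TN_Lam (h : Tb β N r R) {w : E} (hw : w ∈ Submodule.span ℤ (Set.range β)) {x v : E}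
    (hv : (x, v) ∈ TN N r) : (x + w, v) ∈ TN N r := by
  have hx : x ∈ N := hv.1
  have h0 : Metric.infDist x N < R := by
    rw [Metric.infDist_zero_of_mem hx]
    exact h.R_pos
  refine ⟨(h.perN_Lam hw x).2 hx, ?_⟩
  show fderiv ℝ r (x + w) v = v
  rw [h.fd_Lam hw h0]
  exact hv.2

theorem A4_F_Lam (h : Tb β N r R) (hF : FinsN β N r F mF MF) {w : E}
    (hw : w ∈ Submodule.span ℤ (Set.range β)) : ∀ x v : E, (x, v) ∈ TN N r → F (x + w) v = F x v := by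
  induction hw using Submodule.span_induction with
  | mem w hw =>
    obtain ⟨i, rfl⟩ := hw
    exact hF.per i
  | zero =>
    intro x v _
    rw [add_zero]
  | add w w' hw hw' ih ih' =>
    intro x v hv
    rw [← add_assoc, ih' _ v (A4_TN_Lam h hw hv), ih x v hv]
  | smul n w hw ih =>
    have hneg : ∀ x v : E, (x, v) ∈ TN N r → F (x + -w) v = F x v := by
      intro x v hv
      have h1 := A4_TN_Lam h (Submodule.neg_mem _ hw) hv
      have h2 := ih _ v h1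
      rw [neg_add_cancel_right] at h2
      exact h2.symm
    induction n using Int.induction_on with
    | zero =>
      intro x v _
      rw [zero_smul, add_zero]
    | succ n ihn =>
      intro x v hv
      have hn : (n : ℤ) • w ∈ Submodule.span ℤ (Set.range β) := Submodule.smul_mem _ _ hw
      rw [add_smul, one_smul, ← add_assoc, ih _ v (A4_TN_Lam h hn hv), ihn x v hv]
    | pred n ihn =>
      intro x v hv
      have hn : (-(n : ℤ)) • w ∈ Submodule.span ℤ (Set.range β) := Submodule.smul_mem _ _ hw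
      rw [sub_smul, one_smul, sub_eq_add_neg, ← add_assoc, hneg _ v (A4_TN_Lam h hn hv), ihn x v hv]

theorem Tb.Gt_Lam (h : Tb β N r R) (hF : FinsN β N r F mF MF) (ρ : ℝ) {w : E}
    (hw : w ∈ Submodule.span ℤ (Set.range β)) {x : E} (hx : Metric.infDist x N < R) (v : E) :
    Gt r ρ F (x + w) v = Gt r ρ F x v := by
  unfold Gt
  rw [h.fd_Lam hw hx, h.r_Lam hw hx, A4_F_Lam h hF hw _ _ (h.tan hx v), add_sub_add_right_eq_sub]

theorem Gt_tan (hF : FinsN β N r F mF MF) (ρ : ℝ) {x v : E} (hrx : r x = x) (hv : (x, v) ∈ TN N r) :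
    Gt r ρ F x v = F x v ^ 2 := by
  have h1 : fderiv ℝ r x v = v := hv.2
  unfold Gt
  rw [h1, hrx, sub_self, sub_self, norm_zero]
  ring

theorem A4_inner_nonneg (N : Set E) (r : E → E) (ρ : ℝ) {Λ : ℝ} (hΛ : 0 ≤ Λ) (F : E → E → ℝ)
    (x v : E) :
    0 ≤ chi N r ρ (2 * ρ) x * Gt r ρ F x v + (1 - chi N r ρ (2 * ρ) x) * (Λ * ‖v‖ ^ 2) := by
  have h1 := chi_nonneg N r ρ (2 * ρ) x
  have h2 := chi_le_one N r ρ (2 * ρ) x
  have h3 := Gt_nonneg r ρ F x v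
  have h4 : 0 ≤ 1 - chi N r ρ (2 * ρ) x := by linarith
  positivity

theorem Ft_sq (N : Set E) (r : E → E) (ρ : ℝ) {Λ : ℝ} (hΛ : 0 ≤ Λ) (F : E → E → ℝ) (x v : E) :
    Ft N r ρ Λ F x v ^ 2 =
      chi N r ρ (2 * ρ) x * Gt r ρ F x v + (1 - chi N r ρ (2 * ρ) x) * (Λ * ‖v‖ ^ 2) := by
  unfold Ft
  exact Real.sq_sqrt (A4_inner_nonneg N r ρ hΛ F x v)

theorem Ft_nonneg (N : Set E) (r : E → E) (ρ Λ : ℝ) (F : E → E → ℝ) (x v : E) : 0 ≤ Ft N r ρ Λ F x v :=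
  Real.sqrt_nonneg _

theorem Ft_far (r : E → E) (F : E → E → ℝ) {ρ : ℝ} (Λ : ℝ) {x : E}
    (hx : 2 * ρ ≤ Metric.infDist x N) (v : E) : Ft N r ρ Λ F x v = √Λ * ‖v‖ := by
  unfold Ft
  rw [chi_zero N r ρ (2 * ρ) hx, zero_mul, zero_add, sub_zero, one_mul,
    Real.sqrt_mul' Λ (sq_nonneg ‖v‖), Real.sqrt_sq (norm_nonneg v)]

theorem A4_Gt_smul (h : Tb β N r R) (hF : FinsN β N r F mF MF) (ρ : ℝ) {x : E}
    (hx : Metric.infDist x N < R) (v : E) {c : ℝ} (hc : 0 ≤ c) :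
    Gt r ρ F x (c • v) = c ^ 2 * Gt r ρ F x v := by
  unfold Gt
  rw [map_smul, hF.hom _ _ c (h.tan hx v) hc, ← smul_sub, norm_smul, norm_smul, Real.norm_eq_abs,
    abs_of_nonneg hc]
  ring

theorem A4_Ft_cont (h : Tb β N r R) (hF : FinsN β N r F mF MF) {ρ : ℝ} (Λ : ℝ) (hρ : 0 < ρ)
    (hR : 2 * ρ < R) : Continuous (fun p : E × E => Ft N r ρ Λ F p.1 p.2) := by
  have hchi : Continuous (chi N r ρ (2 * ρ)) :=
    (h.chi_smooth hρ.le (by linarith) hR).continuous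
  have hd : Continuous (fun p : E × E => Metric.infDist p.1 N) :=
    (Metric.continuous_infDist_pt N).comp continuous_fst
  have hn : Continuous (fun p : E × E => Λ * ‖p.2‖ ^ 2) :=
    continuous_const.mul (continuous_snd.norm.pow 2)
  have hc1 : Continuous (fun p : E × E => chi N r ρ (2 * ρ) p.1) := hchi.comp continuous_fst
  rw [continuous_iff_continuousAt]
  intro p
  by_cases hp : Metric.infDist p.1 N < R
  · have ho : {p : E × E | Metric.infDist p.1 N < R} ∈ 𝓝 p :=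
      (isOpen_lt hd continuous_const).mem_nhds hp
    have hG : ContinuousAt (fun p : E × E => Gt r ρ F p.1 p.2) p :=
      (h.Gt_cont hF ρ).continuousAt ho
    unfold Ft
    exact ((hc1.continuousAt.mul hG).add
      ((continuousAt_const.sub hc1.continuousAt).mul hn.continuousAt)).sqrt
  · have hp2 : 2 * ρ < Metric.infDist p.1 N := lt_of_lt_of_le hR (not_lt.1 hp)
    have ho : {p : E × E | 2 * ρ < Metric.infDist p.1 N} ∈ 𝓝 p :=
      (isOpen_lt continuous_const hd).mem_nhds hp2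
    have hc : ContinuousAt (fun p : E × E => √Λ * ‖p.2‖) p :=
      (continuous_const.mul continuous_snd.norm).continuousAt
    refine hc.congr ?_
    filter_upwards [ho] with q hq
    exact (Ft_far r F Λ (le_of_lt hq) q.2).symm

theorem Tb.Ft_fins (h : Tb β N r R) (hF : FinsN β N r F mF MF) {ρ Λ : ℝ} (hρ : 0 < ρ) (hR : 2 * ρ < R)
    (hΛ : 0 < Λ) : ∃ mF' MF' : ℝ, Fins β (Ft N r ρ Λ F) mF' MF' := by
  obtain ⟨C, hC1, hC⟩ := h.Gt_upp hF ρ hR
  have h0 := hF.mF_pos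
  have hc1 : 0 < min (mF ^ 2) 1 / 2 := by
    have : 0 < min (mF ^ 2) 1 := lt_min (by positivity) one_pos
    positivity
  have hmin : 0 < min (min (mF ^ 2) 1 / 2) Λ := lt_min hc1 hΛ
  have hmm : min (min (mF ^ 2) 1 / 2) Λ ≤ max C Λ := (min_le_right _ _).trans (le_max_right _ _)
  refine ⟨√(min (min (mF ^ 2) 1 / 2) Λ), √(max C Λ), Real.sqrt_pos.2 hmin, Real.sqrt_le_sqrt hmm,
    A4_Ft_cont h hF Λ hρ hR, ?_, ?_, ?_, ?_⟩
  · intro i x v
    have hw : β i ∈ Submodule.span ℤ (Set.range β) := Submodule.subset_span ⟨i, rfl⟩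
    unfold Ft
    rw [h.chi_Lam hR hw x]
    by_cases hx : Metric.infDist x N < R
    · rw [h.Gt_Lam hF ρ hw hx v]
    · rw [chi_zero N r ρ (2 * ρ) (hR.le.trans (not_lt.1 hx)), zero_mul, zero_mul]
  · intro x v c hc
    by_cases hx : Metric.infDist x N < R
    · unfold Ft
      have e : chi N r ρ (2 * ρ) x * Gt r ρ F x (c • v) +
          (1 - chi N r ρ (2 * ρ) x) * (Λ * ‖c • v‖ ^ 2) =
          c ^ 2 * (chi N r ρ (2 * ρ) x * Gt r ρ F x v +
          (1 - chi N r ρ (2 * ρ) x) * (Λ * ‖v‖ ^ 2)) := by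
        rw [A4_Gt_smul h hF ρ hx v hc, norm_smul, Real.norm_eq_abs, abs_of_nonneg hc]
        ring
      rw [e, Real.sqrt_mul (sq_nonneg c), Real.sqrt_sq hc]
    · have hx2 : 2 * ρ ≤ Metric.infDist x N := hR.le.trans (not_lt.1 hx)
      rw [Ft_far r F Λ hx2, Ft_far r F Λ hx2, norm_smul, Real.norm_eq_abs, abs_of_nonneg hc]
      ring
  · intro x v
    have e : √(min (min (mF ^ 2) 1 / 2) Λ) * ‖v‖ = √(min (min (mF ^ 2) 1 / 2) Λ * ‖v‖ ^ 2) := by
      rw [Real.sqrt_mul' _ (sq_nonneg ‖v‖), Real.sqrt_sq (norm_nonneg v)]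
    rw [e]
    unfold Ft
    apply Real.sqrt_le_sqrt
    have k1 := chi_nonneg N r ρ (2 * ρ) x
    have k2 := chi_le_one N r ρ (2 * ρ) x
    have k3 : chi N r ρ (2 * ρ) x * (min (min (mF ^ 2) 1 / 2) Λ * ‖v‖ ^ 2) ≤
        chi N r ρ (2 * ρ) x * Gt r ρ F x v := by
      by_cases hx : Metric.infDist x N < R
      · refine mul_le_mul_of_nonneg_left ?_ k1
        exact (mul_le_mul_of_nonneg_right (min_le_left _ _) (sq_nonneg _)).trans (h.Gt_low hF ρ hx v)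
      · rw [chi_zero N r ρ (2 * ρ) (hR.le.trans (not_lt.1 hx)), zero_mul, zero_mul]
    have k4 : (1 - chi N r ρ (2 * ρ) x) * (min (min (mF ^ 2) 1 / 2) Λ * ‖v‖ ^ 2) ≤
        (1 - chi N r ρ (2 * ρ) x) * (Λ * ‖v‖ ^ 2) :=
      mul_le_mul_of_nonneg_left (mul_le_mul_of_nonneg_right (min_le_right _ _) (sq_nonneg _))
        (by linarith)
    linarith
  · intro x v
    have e : √(max C Λ) * ‖v‖ = √(max C Λ * ‖v‖ ^ 2) := by
      rw [Real.sqrt_mul' _ (sq_nonneg ‖v‖), Real.sqrt_sq (norm_nonneg v)]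
    rw [e]
    unfold Ft
    apply Real.sqrt_le_sqrt
    have k1 := chi_nonneg N r ρ (2 * ρ) x
    have k2 := chi_le_one N r ρ (2 * ρ) x
    have k3 : chi N r ρ (2 * ρ) x * Gt r ρ F x v ≤
        chi N r ρ (2 * ρ) x * (max C Λ * ‖v‖ ^ 2) := by
      by_cases hx : Metric.infDist x N ≤ 2 * ρ
      · refine mul_le_mul_of_nonneg_left ?_ k1
        exact (hC x v hx).trans (mul_le_mul_of_nonneg_right (le_max_left _ _) (sq_nonneg _))
      · rw [chi_zero N r ρ (2 * ρ) (not_le.1 hx).le, zero_mul, zero_mul]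
    have k4 : (1 - chi N r ρ (2 * ρ) x) * (Λ * ‖v‖ ^ 2) ≤
        (1 - chi N r ρ (2 * ρ) x) * (max C Λ * ‖v‖ ^ 2) :=
      mul_le_mul_of_nonneg_left (mul_le_mul_of_nonneg_right (le_max_right _ _) (sq_nonneg _))
        (by linarith)
    linarith

theorem Tb.Ft_near (h : Tb β N r R) {ρ : ℝ} (hρ : 0 < ρ) (hR : 2 * ρ < R) (Λ : ℝ) {x : E}
    (hx : Metric.infDist x N ≤ ρ) (v : E) : Ft N r ρ Λ F x v = √(Gt r ρ F x v) := by
  unfold Ft
  rw [h.chi_one hρ.le (by linarith) hR hx, one_mul, sub_self, zero_mul, add_zero]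

theorem Tb.Ft_tan (h : Tb β N r R) (hF : FinsN β N r F mF MF) {ρ : ℝ} (hρ : 0 < ρ) (hR : 2 * ρ < R)
    (Λ : ℝ) {x v : E} (hv : (x, v) ∈ TN N r) : Ft N r ρ Λ F x v = F x v := by
  have hx : x ∈ N := hv.1
  have h0 : Metric.infDist x N ≤ ρ := by
    rw [Metric.infDist_zero_of_mem hx]
    exact hρ.le
  rw [h.Ft_near hρ hR Λ h0 v, Gt_tan hF ρ (h.r_eq hx) hv, Real.sqrt_sq (A4_F_nonneg hF hv)]

end EscM
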