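import Pool.Agent.EscM.A4

set_option autoImplicit false

/-!
Project EscM, module A5: the extended calibrating function.
`exists_ell`: linear functional with prescribed values on the basis. `Bt_fd`: on the open set `{infDist < 3 ρ}` we have `Bt = B ∘ r`, and `B ∘ r = (B ∘ r) ∘ r` on the tube; for
`infDist x N = 3 ρ` by continuity (points `r x + s • (x - r x)`, `s < 1`, `Tb.ray`). `Bt_bd`: the derivative is continuous and periodic (equal to `ℓ` outside the tube).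
-/

noncomputable section

namespace EscM

open MeasureTheory Set Filter Topology Esc EscF EscG EscK
open scoped ContDiff

variable {ι : Type} [Fintype ι] {E : Type*} [NormedAddCommGroup E] [InnerProductSpace ℝ E]
  [FiniteDimensional ℝ E] {β : Module.Basis ι ℝ E} {N : Set E} {r : E → E} {R : ℝ}
variable {F : E → E → ℝ} {mF MF : ℝ} {B : E → ℝ} {k0 : ι} {len : ℝ} {c c' : ℝ → E} {ρ : ℝ}

/-- periodic continuous functions are bounded -/
theorem A5_bdd {W : Type*} [NormedAddCommGroup W] (β : Module.Basis ι ℝ E) {Φ : E → W}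
    (hc : Continuous Φ) (hx : ∀ i x, Φ (x + β i) = Φ x) : ∃ C : ℝ, 0 ≤ C ∧ ∀ x, ‖Φ x‖ ≤ C := by
  have hsp : ∀ y ∈ Submodule.span ℤ (Set.range β), ∀ x, Φ (x + y) = Φ x := by
    intro y hy
    induction hy using Submodule.span_induction with
    | mem y hy =>
      obtain ⟨i, rfl⟩ := hy
      exact hx i
    | zero => intro x; rw [add_zero]
    | add y z _ _ h1 h2 => intro x; rw [← add_assoc, h2, h1]
    | smul n y _ h1 =>
      intro x
      induction n using Int.induction_on generalizing x with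
      | zero => rw [zero_smul, add_zero]
      | succ k ih => rw [add_smul, one_smul, ← add_assoc, h1, ih]
      | pred k ih =>
        rw [sub_smul, one_smul]
        have := h1 (x + (-(k : ℤ) • y - y))
        rw [add_assoc, sub_add_cancel] at this
        rw [← this, ih]
  obtain ⟨C, hC⟩ := (isCompact_closedBall (0 : E) (∑ i, ‖β i‖)).exists_bound_of_continuousOn
    hc.continuousOn
  refine ⟨max C 0, le_max_right _ _, fun x => ?_⟩
  have h2 : Φ (ZSpan.fract β x + (ZSpan.floor β x : E)) = Φ (ZSpan.fract β x) :=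
    hsp _ (ZSpan.floor β x).2 _
  have h3 : ZSpan.fract β x + (ZSpan.floor β x : E) = x := by
    rw [ZSpan.fract_apply, sub_add_cancel]
  rw [h3] at h2
  rw [h2]
  refine (hC _ ?_).trans (le_max_left _ _)
  rw [mem_closedBall_zero_iff]
  exact ZSpan.norm_fract_le β x

theorem CalN.exists_ell (hc : CalN β N r R F B k0 len c c') :
    ∃ ℓ : E →L[ℝ] ℝ, ∀ i, ∀ x ∈ N, B (x + β i) = B x + ℓ (β i) := by
  choose a ha using hc.per
  refine ⟨LinearMap.toContinuousLinearMap (β.constr ℝ a), fun i x hx => ?_⟩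
  rw [ha i x hx]
  congr 1
  exact (β.constr_basis ℝ a i).symm

theorem A5_s1 (hc : CalN β N r R F B k0 len c c') (ℓ : E →L[ℝ] ℝ) :
    ContDiffOn ℝ 1 (fun p : E × ℝ => B (r p.1) - ℓ p.1) {p | Metric.infDist p.1 N < R} := by
  have e1 : ContDiffOn ℝ 1 (fun p : E × ℝ => B (r p.1)) {p | Metric.infDist p.1 N < R} :=
    ContDiffOn.comp (g := fun x => B (r x)) (f := fun p : E × ℝ => p.1)
      (t := {x | Metric.infDist x N < R}) hc.smooth contDiff_fst.contDiffOn (fun p hp => hp)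
  have e2 : ContDiffOn ℝ 1 (fun p : E × ℝ => ℓ p.1) {p | Metric.infDist p.1 N < R} :=
    (ContDiff.comp (g := ℓ) (f := fun p : E × ℝ => p.1) ℓ.contDiff contDiff_fst).contDiffOn
  exact e1.sub e2

theorem A5_s2 (h : Tb β N r R) (hρ : 0 < ρ) (hR : 4 * ρ < R) {G : E × ℝ → ℝ}
    (h1 : ContDiffOn ℝ 1 G {p | Metric.infDist p.1 N < R}) :
    ContDiff ℝ 1 (fun p : E × ℝ => chi N r (3 * ρ) (4 * ρ) p.1 • G p) := by
  have hk : (1 : WithTop ℕ∞) ≤ ∞ := by exact_mod_cast le_top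
  exact Tb.chi_mul h (by linarith) (by linarith) hR hk h1

theorem A5_s3 {G : E × ℝ → ℝ} (h1 : ContDiff ℝ 1 G) : ContDiff ℝ 1 (fun x : E => G (x, 0)) := by
  have e : ContDiff ℝ 1 (fun x : E => (x, (0:ℝ))) := contDiff_id.prodMk contDiff_const
  exact h1.comp e

theorem Tb.Bt_smooth (h : Tb β N r R) (hc : CalN β N r R F B k0 len c c') (hρ : 0 < ρ) (hR : 4 * ρ < R)
    (ℓ : E →L[ℝ] ℝ) : ContDiff ℝ 1 (Bt N r ρ B ℓ) := by
  have h3 := A5_s3 (A5_s2 h hρ hR (A5_s1 hc ℓ))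
  have h4 : Bt N r ρ B ℓ = fun x => ℓ x + chi N r (3 * ρ) (4 * ρ) x • (B (r x) - ℓ x) := by
    funext x
    rw [Bt, smul_eq_mul]
  rw [h4]
  have h5 : ContDiff ℝ 1 (fun x => ℓ x) := ℓ.contDiff
  exact h5.add h3

theorem Tb.Bt_per (h : Tb β N r R) (hR : 4 * ρ < R) {ℓ : E →L[ℝ] ℝ}
    (hl : ∀ i, ∀ x ∈ N, B (x + β i) = B x + ℓ (β i)) (i : ι) (x : E) :
    Bt N r ρ B ℓ (x + β i) = Bt N r ρ B ℓ x + ℓ (β i) := by
  have hw : β i ∈ Submodule.span ℤ (Set.range β) := Submodule.subset_span ⟨i, rfl⟩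
  have h1 : chi N r (3 * ρ) (4 * ρ) (x + β i) = chi N r (3 * ρ) (4 * ρ) x := h.chi_Lam hR hw x
  rw [Bt, Bt, h1, map_add]
  by_cases h2 : 4 * ρ ≤ Metric.infDist x N
  · rw [chi_zero N r (3 * ρ) (4 * ρ) h2]
    ring
  · push Not at h2
    have h3 : Metric.infDist x N < R := h2.trans hR
    rw [h.r_Lam hw h3, hl i (r x) (h.mem x h3)]
    ring

theorem Tb.Bt_eq (h : Tb β N r R) (hρ : 0 < ρ) (hR : 4 * ρ < R) (ℓ : E →L[ℝ] ℝ) {x : E}
    (hx : Metric.infDist x N ≤ 3 * ρ) : Bt N r ρ B ℓ x = B (r x) := by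
  rw [Bt, h.chi_one (a := 3 * ρ) (b := 4 * ρ) (by linarith) (by linarith) hR hx]
  ring

theorem A5_diff (h : Tb β N r R) (hc : CalN β N r R F B k0 len c c') {x : E}
    (hx : Metric.infDist x N < R) : DifferentiableAt ℝ (fun y => B (r y)) x :=
  (hc.smooth.differentiableOn (by norm_num)).differentiableAt (h.isOpen_tube.mem_nhds hx)

theorem A5_infDist_mem (h : Tb β N r R) {x : E} (hx : x ∈ N) : Metric.infDist x N < R := by
  rw [Metric.infDist_zero_of_mem hx]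
  exact h.R_pos

/-- the function `B ∘ r` is invariant under `r` -/
theorem A5_fd (h : Tb β N r R) (hc : CalN β N r R F B k0 len c c') {x : E}
    (hx : Metric.infDist x N < R) (v : E) :
    fderiv ℝ (fun y => B (r y)) x v = fderiv ℝ (fun y => B (r y)) (r x) (fderiv ℝ r x v) := by
  have h1 : (fun y => B (r y)) =ᶠ[𝓝 x] (fun y => B (r y)) ∘ r := by
    filter_upwards [h.isOpen_tube.mem_nhds hx] with y hy
    show B (r y) = B (r (r y))
    rw [h.r_eq (h.mem y hy)]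
  rw [h1.fderiv_eq, fderiv_comp x (A5_diff h hc (A5_infDist_mem h (h.mem x hx))) (h.diff hx)]
  rfl

theorem Tb.Bt_fd (h : Tb β N r R) (hc : CalN β N r R F B k0 len c c') (hρ : 0 < ρ) (hR : 4 * ρ < R)
    (ℓ : E →L[ℝ] ℝ) {x : E} (hx : Metric.infDist x N ≤ 3 * ρ) (v : E) :
    fderiv ℝ (Bt N r ρ B ℓ) x v = fderiv ℝ (fun y => B (r y)) (r x) (fderiv ℝ r x v) := by
  have hxR : Metric.infDist x N < R := by linarith
  rw [← A5_fd h hc hxR v]
  have key : fderiv ℝ (Bt N r ρ B ℓ) x = fderiv ℝ (fun y => B (r y)) x := by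
    have hopen : IsOpen {y : E | Metric.infDist y N < 3 * ρ} :=
      isOpen_lt (Metric.continuous_infDist_pt N) continuous_const
    have heq : ∀ y, Metric.infDist y N < 3 * ρ →
        fderiv ℝ (Bt N r ρ B ℓ) y = fderiv ℝ (fun y => B (r y)) y := by
      intro y hy
      refine Filter.EventuallyEq.fderiv_eq ?_
      filter_upwards [hopen.mem_nhds hy] with z hz
      exact h.Bt_eq hρ hR ℓ (le_of_lt hz)
    let γ : ℝ → E := fun s => r x + s • (x - r x)
    have hγ : Continuous γ := continuous_const.add (continuous_id.smul continuous_const)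
    have hγ1 : γ 1 = x := by
      show r x + (1 : ℝ) • (x - r x) = x
      rw [one_smul, add_sub_cancel]
    have htend : Tendsto γ (𝓝[<] (1:ℝ)) (𝓝 x) := by
      have := hγ.tendsto 1
      rw [hγ1] at this
      exact this.mono_left nhdsWithin_le_nhds
    have hc1 : ContinuousAt (fderiv ℝ (Bt N r ρ B ℓ)) x :=
      ((h.Bt_smooth hc hρ hR ℓ).continuous_fderiv (by norm_num)).continuousAt
    have hc2 : ContinuousAt (fderiv ℝ (fun y => B (r y))) x :=
      (hc.smooth.continuousOn_fderiv_of_isOpen h.isOpen_tube (by norm_num)).continuousAt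
        (h.isOpen_tube.mem_nhds hxR)
    have ht1 : Tendsto (fun s => fderiv ℝ (Bt N r ρ B ℓ) (γ s)) (𝓝[<] (1:ℝ))
        (𝓝 (fderiv ℝ (Bt N r ρ B ℓ) x)) := hc1.tendsto.comp htend
    have ht2 : Tendsto (fun s => fderiv ℝ (fun y => B (r y)) (γ s)) (𝓝[<] (1:ℝ))
        (𝓝 (fderiv ℝ (fun y => B (r y)) x)) := hc2.tendsto.comp htend
    refine tendsto_nhds_unique ht1 (ht2.congr' ?_)
    have hI : Ioo (0:ℝ) 1 ∈ 𝓝[<] (1:ℝ) := Ioo_mem_nhdsLT (by norm_num)
    filter_upwards [hI] with s hs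
    refine (heq (γ s) ?_).symm
    have h2 := (h.ray hxR ⟨hs.1.le, hs.2.le⟩).2
    show Metric.infDist (r x + s • (x - r x)) N < 3 * ρ
    rw [h2]
    calc s * Metric.infDist x N ≤ s * (3 * ρ) := mul_le_mul_of_nonneg_left hx hs.1.le
      _ < 1 * (3 * ρ) := mul_lt_mul_of_pos_right hs.2 (by linarith)
      _ = 3 * ρ := one_mul _
  rw [key]

theorem Tb.Bt_bd (h : Tb β N r R) (hc : CalN β N r R F B k0 len c c') (hρ : 0 < ρ) (hR : 4 * ρ < R)
    {ℓ : E →L[ℝ] ℝ} (hl : ∀ i, ∀ x ∈ N, B (x + β i) = B x + ℓ (β i)) :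
    ∃ C : ℝ, ∀ x v, |fderiv ℝ (Bt N r ρ B ℓ) x v| ≤ C * ‖v‖ := by
  obtain ⟨C, _, hC⟩ := A5_bdd β
    ((h.Bt_smooth hc hρ hR ℓ).continuous_fderiv (by norm_num)) (by
      intro i x
      rw [← fderiv_comp_add_right]
      have e : (fun y => Bt N r ρ B ℓ (y + β i)) = fun y => Bt N r ρ B ℓ y + ℓ (β i) :=
        funext (h.Bt_per hR hl i)
      rw [e, fderiv_add_const])
  refine ⟨C, fun x v => ?_⟩
  rw [← Real.norm_eq_abs]
  exact ((fderiv ℝ (Bt N r ρ B ℓ) x).le_opNorm v).trans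
    (mul_le_mul_of_nonneg_right (hC x) (norm_nonneg _))

theorem exists_ext (h : Tb β N r R) (hF : FinsN β N r F mF MF) (hc : CalN β N r R F B k0 len c c')
    (hρ : 0 < ρ) (hR : 5 * ρ < R) : ∃ (ℓ : E →L[ℝ] ℝ) (C : ℝ), ∀ Λ : ℝ, 4 * C ^ 2 < Λ →
      Ext β N r R F mF MF B k0 len c c' ℓ ρ C Λ := by
  have hR4 : 4 * ρ < R := by linarith
  obtain ⟨ℓ, hl⟩ := hc.exists_ell
  obtain ⟨C1, hC1, h1⟩ := h.Gt_upp hF ρ hR4
  obtain ⟨C2, h2⟩ := h.Bt_bd hc hρ hR4 hl
  refine ⟨ℓ, max C1 C2, fun Λ hΛ => ⟨h, hF, hc, hρ, hR, hl, hC1.trans (le_max_left _ _),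
    fun x v hx => (h1 x v hx).trans
      (mul_le_mul_of_nonneg_right (le_max_left _ _) (sq_nonneg _)),
    fun x v => (h2 x v).trans (mul_le_mul_of_nonneg_right (le_max_right _ _) (norm_nonneg _)), hΛ⟩⟩

end EscM
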