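import Pool.Agent.EscM.A5

set_option autoImplicit false

/-!
Project EscM, module A6: pointwise inequalities of the extended data.
`sq_ge`: `Λ > 4 C² ≥ C`. `gain`: with `D = fderiv ℝ r x`, `ν = x - r x`: `Ft² - F(r x, D v)² ≥ ‖v - D v‖² + κ ‖ν‖² ‖v‖² ≥ 2 √κ ‖ν‖ ‖v‖ ‖v - D v‖ ≥ 2 √κ ‖v‖ |⟪ν, v⟫|` (`Tb.orth`), `√κ = 1/(2ρ)`;
divide by `Ft + F ≤ 2 MF' ‖v‖`. `calC`: `le` from `Bt_fd`, `CalN.le`, `sq_ge` for `infDist ≤ 3 ρ`, from `far` otherwise; `only`: equality forces `infDist < 2 ρ` (by `far`), then `‖v - D v‖ = 0`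
and `κ ‖ν‖² ‖v‖² = 0`, so `x ∈ N`, `v` tangent. `unit`, `cal`: `(c t, c' t) ∈ TN` since `r ∘ c = c`.
-/

noncomputable section

namespace EscM

open MeasureTheory Set Filter Topology Esc EscF EscG EscK
open scoped ContDiff

variable {ι : Type} [Fintype ι] {E : Type*} [NormedAddCommGroup E] [InnerProductSpace ℝ E]
  [FiniteDimensional ℝ E] {β : Module.Basis ι ℝ E} {N : Set E} {r : E → E} {R : ℝ}
variable {F : E → E → ℝ} {mF MF : ℝ} {B : E → ℝ} {k0 : ι} {len : ℝ} {c c' : ℝ → E} {ℓ : E →L[ℝ] ℝ}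
  {ρ C Λ mF' MF' : ℝ}

theorem A6_Λ_pos (h : Ext β N r R F mF MF B k0 len c c' ℓ ρ C Λ) : 0 < Λ := by
  have h1 := h.Λ_gt
  have h2 := sq_nonneg C
  linarith

theorem Ext.sq_ge (h : Ext β N r R F mF MF B k0 len c c' ℓ ρ C Λ) {x : E}
    (hx : Metric.infDist x N ≤ 4 * ρ) (v : E) : Gt r ρ F x v ≤ Ft N r ρ Λ F x v ^ 2 := by
  rw [Ft_sq N r ρ (A6_Λ_pos h).le F x v]
  have h1 := h.gt x v hx
  have h2 := chi_le_one N r ρ (2 * ρ) x
  have h3 := h.C_ge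
  have h4 := h.Λ_gt
  have h5 : C ≤ Λ := by nlinarith
  have h6 : C * ‖v‖ ^ 2 ≤ Λ * ‖v‖ ^ 2 := mul_le_mul_of_nonneg_right h5 (by positivity)
  nlinarith [mul_le_mul_of_nonneg_left (h1.trans h6) (sub_nonneg.2 h2)]

theorem A6_lt (h : Ext β N r R F mF MF B k0 len c c' ℓ ρ C Λ) {x : E}
    (hx : Metric.infDist x N ≤ 4 * ρ) : Metric.infDist x N < R := by
  have h1 := h.ρ_pos
  have h2 := h.ρ_lt
  linarith

theorem A6_F_nonneg (h : Ext β N r R F mF MF B k0 len c c' ℓ ρ C Λ) {x : E}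
    (hx : Metric.infDist x N ≤ 4 * ρ) (v : E) : 0 ≤ F (r x) (fderiv ℝ r x v) := by
  have h1 := h.fn.low (r x) (fderiv ℝ r x v) (h.tb.tan (A6_lt h hx) v)
  have h2 := h.fn.mF_pos
  have h3 : 0 ≤ mF * ‖fderiv ℝ r x v‖ := by positivity
  linarith

theorem A6_F_le (h : Ext β N r R F mF MF B k0 len c c' ℓ ρ C Λ) {x : E}
    (hx : Metric.infDist x N ≤ 4 * ρ) (v : E) :
    F (r x) (fderiv ℝ r x v) ≤ Ft N r ρ Λ F x v := by
  have h1 := h.sq_ge hx v
  have h2 := Ft_nonneg N r ρ Λ F x v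
  refine abs_le_of_sq_le_sq' ?_ h2 |>.2
  unfold Gt kap at h1
  have h3 : 0 ≤ ‖v - fderiv ℝ r x v‖ ^ 2 := by positivity
  have h4 : 0 ≤ 1 / (4 * ρ ^ 2) * ‖x - r x‖ ^ 2 * ‖v‖ ^ 2 := by positivity
  linarith

theorem Ext.gain (h : Ext β N r R F mF MF B k0 len c c' ℓ ρ C Λ) (hf : Fins β (Ft N r ρ Λ F) mF' MF')
    {x : E} (hx : Metric.infDist x N ≤ 4 * ρ) (v : E) :
    F (r x) (fderiv ℝ r x v) + 1 / (2 * ρ * MF') * |inner ℝ (x - r x) v| ≤ Ft N r ρ Λ F x v := by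
  have hρ := h.ρ_pos
  have hM : 0 < MF' := hf.mF_pos.trans_le hf.mF_le
  have h1 := h.sq_ge hx v
  have h2 := A6_F_nonneg h hx v
  have h3 := A6_F_le h hx v
  have h4 := hf.upp x v
  have h5 : |inner ℝ (x - r x) v| ≤ ‖x - r x‖ * ‖v - fderiv ℝ r x v‖ := by
    have h6 : inner ℝ (x - r x) v = inner ℝ (x - r x) (v - fderiv ℝ r x v) := by
      rw [inner_sub_right, h.tb.orth (A6_lt h hx) v, sub_zero]
    rw [h6]
    exact abs_real_inner_le_norm _ _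
  rcases eq_or_ne v 0 with hv | hv
  · subst hv
    simpa using h3
  · have hv0 : 0 < ‖v‖ := norm_pos_iff.2 hv
    unfold Gt kap at h1
    obtain ⟨f, hfd⟩ : ∃ f, f = Ft N r ρ Λ F x v := ⟨_, rfl⟩
    obtain ⟨a, had⟩ : ∃ a, a = F (r x) (fderiv ℝ r x v) := ⟨_, rfl⟩
    obtain ⟨n, hn⟩ : ∃ n, n = ‖x - r x‖ := ⟨_, rfl⟩
    obtain ⟨w, hw⟩ : ∃ w, w = ‖v - fderiv ℝ r x v‖ := ⟨_, rfl⟩
    obtain ⟨q, hq⟩ : ∃ q, q = |inner ℝ (x - r x) v| := ⟨_, rfl⟩
    rw [← hfd, ← had, ← hn, ← hw] at h1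
    rw [← had] at h2
    rw [← hfd, ← had] at h3
    rw [← hfd] at h4
    rw [← hq, ← hn, ← hw] at h5
    rw [← hfd, ← had, ← hq]
    have h7 : 1 / (4 * ρ ^ 2) * n ^ 2 * ‖v‖ ^ 2 = (n * ‖v‖ / (2 * ρ)) ^ 2 := by
      field_simp
      ring
    rw [h7] at h1
    have h8 : n * w / ρ * ‖v‖ ≤ f ^ 2 - a ^ 2 := by
      have h9 : 2 * w * (n * ‖v‖ / (2 * ρ)) ≤ w ^ 2 + (n * ‖v‖ / (2 * ρ)) ^ 2 := two_mul_le_add_sq _ _
      have h10 : 2 * w * (n * ‖v‖ / (2 * ρ)) = n * w / ρ * ‖v‖ := by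
        field_simp
      linarith
    have h11 : f ^ 2 - a ^ 2 ≤ (f - a) * (2 * MF' * ‖v‖) := by
      have h12 : f ^ 2 - a ^ 2 = (f - a) * (f + a) := by ring
      rw [h12]
      exact mul_le_mul_of_nonneg_left (by linarith) (by linarith)
    have h13 : q / ρ * ‖v‖ ≤ (f - a) * (2 * MF') * ‖v‖ := by
      have h14 : q / ρ * ‖v‖ ≤ n * w / ρ * ‖v‖ := by gcongr
      linarith
    have h15 : q / ρ ≤ (f - a) * (2 * MF') := le_of_mul_le_mul_right h13 hv0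
    have h16 : 1 / (2 * ρ * MF') * q = q / ρ / (2 * MF') := by
      field_simp
    have h17 : q / ρ / (2 * MF') ≤ f - a := by
      rw [div_le_iff₀ (by positivity)]
      exact h15
    linarith

theorem Ext.far (h : Ext β N r R F mF MF B k0 len c c' ℓ ρ C Λ) {x : E}
    (hx : 2 * ρ ≤ Metric.infDist x N) (v : E) :
    fderiv ℝ (Bt N r ρ B ℓ) x v + √Λ / 2 * ‖v‖ ≤ Ft N r ρ Λ F x v := by
  rw [Ft_far r F Λ hx v]
  have h1 := (le_abs_self _).trans (h.bt x v)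
  have h2 : 2 * C ≤ √Λ := by
    refine Real.le_sqrt_of_sq_le ?_
    have := h.Λ_gt
    nlinarith
  have h3 : C * ‖v‖ ≤ √Λ / 2 * ‖v‖ := mul_le_mul_of_nonneg_right (by linarith) (norm_nonneg v)
  linarith

theorem CalN.tan (h : Tb β N r R) (hc : CalN β N r R F B k0 len c c') (t : ℝ) : (c t, c' t) ∈ TN N r := by
  refine ⟨hc.mem t, ?_⟩
  have h0 : Metric.infDist (c t) N < R := by
    rw [Metric.infDist_zero_of_mem (hc.mem t)]
    exact h.R_pos
  have h1 : HasDerivAt (fun s => r (c s)) (fderiv ℝ r (c t) (c' t)) t :=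
    (h.diff h0).hasFDerivAt.comp_hasDerivAt t (hc.hasDeriv t)
  have h2 : (fun s => r (c s)) = c := by
    funext s
    exact h.r_eq (hc.mem s)
  rw [h2] at h1
  exact h1.unique (hc.hasDeriv t)

theorem Ext.calC (h : Ext β N r R F mF MF B k0 len c c' ℓ ρ C Λ) (hf : Fins β (Ft N r ρ Λ F) mF' MF') :
    CalC β (Ft N r ρ Λ F) mF' MF' (Bt N r ρ B ℓ) k0 len c c' := by
  have hρ := h.ρ_pos
  have hR := h.ρ_lt
  have hR4 : 4 * ρ < R := by linarith
  have hR2 : 2 * ρ < R := by linarith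
  have hnear : ∀ x v, Metric.infDist x N ≤ 3 * ρ →
      fderiv ℝ (Bt N r ρ B ℓ) x v ≤ F (r x) (fderiv ℝ r x v) := by
    intro x v hx
    rw [h.tb.Bt_fd h.cl hρ hR4 ℓ hx v]
    exact h.cl.le _ _ (h.tb.tan (by linarith) v)
  have hc0 : ∀ t, Metric.infDist (c t) N ≤ 3 * ρ := by
    intro t
    rw [Metric.infDist_zero_of_mem (h.cl.mem t)]
    positivity
  refine
    { fins := hf
      smooth := h.tb.Bt_smooth h.cl hρ hR4 ℓ
      per := fun i => ⟨ℓ (β i), fun x => h.tb.Bt_per hR4 h.ell i x⟩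
      le := ?_
      len_pos := h.cl.len_pos
      hasDeriv := h.cl.hasDeriv
      contDeriv := h.cl.contDeriv
      closed := h.cl.closed
      unit := ?_
      cal := ?_
      only := ?_
      simple := h.cl.simple }
  · intro x v
    rcases le_or_gt (Metric.infDist x N) (3 * ρ) with hx | hx
    · exact (hnear x v hx).trans (A6_F_le h (by linarith) v)
    · have h1 := h.far (x := x) (by linarith) v
      have h2 : 0 ≤ √Λ / 2 * ‖v‖ := by positivity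
      linarith
  · intro t
    rw [h.tb.Ft_tan h.fn hρ hR2 Λ (h.cl.tan h.tb t)]
    exact h.cl.unit t
  · intro t
    rw [h.tb.Bt_fd h.cl hρ hR4 ℓ (hc0 t) (c' t), h.tb.r_eq (h.cl.mem t), (h.cl.tan h.tb t).2]
    exact h.cl.cal t
  · intro x v hv heq
    have hv0 : 0 < ‖v‖ := norm_pos_iff.2 hv
    rcases le_or_gt (2 * ρ) (Metric.infDist x N) with hx | hx
    · have h1 := h.far hx v
      have h2 : 0 < √Λ / 2 * ‖v‖ := by
        have := A6_Λ_pos h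
        positivity
      linarith
    · have hx4 : Metric.infDist x N ≤ 4 * ρ := by linarith
      have hx3 : Metric.infDist x N ≤ 3 * ρ := by linarith
      have h1 := hnear x v hx3
      have h2 := A6_F_le h hx4 v
      have h3 : F (r x) (fderiv ℝ r x v) = Ft N r ρ Λ F x v := by linarith
      have h4 := h.sq_ge hx4 v
      unfold Gt kap at h4
      rw [h3] at h4
      have h5 : 0 ≤ ‖v - fderiv ℝ r x v‖ ^ 2 := by positivity
      have h6 : 0 ≤ 1 / (4 * ρ ^ 2) * ‖x - r x‖ ^ 2 * ‖v‖ ^ 2 := by positivity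
      have h7 : ‖v - fderiv ℝ r x v‖ ^ 2 = 0 := by linarith
      have h8 : 1 / (4 * ρ ^ 2) * ‖x - r x‖ ^ 2 * ‖v‖ ^ 2 = 0 := by linarith
      have h9 : fderiv ℝ r x v = v := by
        have h10 := norm_eq_zero.1 (pow_eq_zero_iff (two_ne_zero)|>.1 h7)
        exact (sub_eq_zero.1 h10).symm
      have h11 : r x = x := by
        have h12 : ‖x - r x‖ = 0 := by
          by_contra h13
          have h14 : 0 < ‖x - r x‖ := lt_of_le_of_ne (norm_nonneg _) (Ne.symm h13)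
          have h15 : 0 < 1 / (4 * ρ ^ 2) * ‖x - r x‖ ^ 2 * ‖v‖ ^ 2 := by positivity
          linarith
        exact (sub_eq_zero.1 (norm_eq_zero.1 h12)).symm
      have hxN : x ∈ N := by
        rw [← h11]
        exact h.tb.mem x (A6_lt h hx4)
      refine h.cl.only x v ⟨hxN, h9⟩ hv ?_
      have h16 := h.tb.Bt_fd h.cl hρ hR4 ℓ hx3 v
      rw [h11, h9] at h16
      rw [h11, h9] at h3
      rw [← h16, heq, h3]

end EscM
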