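import Pool.Agent.EscM.A4

set_option autoImplicit false
set_option linter.unusedSectionVars false

/-!
Project EscM, module A7b: the extended Lagrangian is near the energy.
`Lt_eq`: `Lt - Ft²/2 = chi x * φ (r x) (D v) t`, `φ = L - F²/2` on `TN`, `D = fderiv ℝ r x`. Bounds: `|φ (r x) (D v) t| ≤ C (1 + ‖v‖)` (from `LagN.al` with `v' = 0` and boundedness of
`L (r x) 0 t`, `Tb.bdd` for fixed `t` and `LagN.al` in `t`, or compactness). `Lt_al`: `|chi x - chi x'| ≤ C ‖x - x'‖` (`Tb.chi_lip`), `Tb.r_lip`, `Tb.fd_bd`. If `x` is outside of the tube and `x'` inside: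
`chi x' |φ (r x') (D v') t'| ≤ chi x' (|φ (r x') (D v) t'| + C ‖v - v'‖)` with `chi x' = |chi x' - chi x| ≤ C ‖x - x'‖` and `chi x' ≤ 1`.
-/

noncomputable section

namespace EscM

open MeasureTheory Set Filter Topology Esc EscF EscG EscK
open scoped ContDiff

variable {ι : Type} [Fintype ι] {E : Type*} [NormedAddCommGroup E] [InnerProductSpace ℝ E]
  [FiniteDimensional ℝ E] {β : Module.Basis ι ℝ E} {N : Set E} {r : E → E} {R : ℝ}
variable {F : E → E → ℝ} {mF MF m M : ℝ} {L : E → E → ℝ → ℝ} {ρ Λ mF' MF' : ℝ}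

theorem Lt_eq (N : Set E) (r : E → E) (ρ : ℝ) {Λ : ℝ} (hΛ : 0 ≤ Λ) (F : E → E → ℝ) (L : E → E → ℝ → ℝ)
    (x v : E) (t : ℝ) : Lt N r ρ Λ L x v t - Ft N r ρ Λ F x v ^ 2 / 2 =
      chi N r ρ (2 * ρ) x *
        (L (r x) (fderiv ℝ r x v) t - F (r x) (fderiv ℝ r x v) ^ 2 / 2) := by
  rw [Ft_sq N r ρ hΛ F x v]
  unfold Lt Lg Gt
  ring

/-- the Lagrangian on `TN` is periodic under the lattice -/
theorem A7b_L_Lam (h : Tb β N r R) (hL : LagN β N r R F m M L) {w : E}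
    (hw : w ∈ Submodule.span ℤ (Set.range β)) : ∀ (x v : E) (t : ℝ), (x, v) ∈ TN N r →
      L (x + w) v t = L x v t := by
  induction hw using Submodule.span_induction with
  | mem y hy =>
    obtain ⟨i, rfl⟩ := hy
    exact fun x v t hv => hL.per i x v t hv
  | zero => intro x v t _; rw [add_zero]
  | add y z hy hz h1 h2 =>
    intro x v t hv
    rw [← add_assoc, h2 _ _ _ (A4_TN_Lam h hy hv), h1 _ _ _ hv]
  | smul n y hy h1 =>
    intro x v t hv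
    induction n using Int.induction_on generalizing x with
    | zero => rw [zero_smul, add_zero]
    | succ k ih =>
      have h3 : (x + y, v) ∈ TN N r := A4_TN_Lam h hy hv
      have h2 := ih (x + y) h3
      have e : x + y + (k : ℤ) • y = x + ((k : ℤ) + 1) • y := by
        rw [add_smul, one_smul]; abel
      rw [e] at h2
      rw [h2]
      exact h1 x v t hv
    | pred k ih =>
      have hy' : -y ∈ Submodule.span ℤ (Set.range β) := neg_mem hy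
      have h3 : (x - y, v) ∈ TN N r := by
        have := A4_TN_Lam h hy' hv
        rwa [← sub_eq_add_neg] at this
      have h2 := ih (x - y) h3
      have e : x - y + (-(k : ℤ)) • y = x + (-(k : ℤ) - 1) • y := by
        rw [sub_smul, one_smul]; abel
      rw [e] at h2
      rw [h2]
      have h4 := h1 (x - y) v t h3
      rw [sub_add_cancel] at h4
      exact h4.symm

/-- the Lagrangian at zero velocity is bounded on `N` -/
theorem A7b_zero (h : Tb β N r R) (hF : FinsN β N r F mF MF) (hL : LagN β N r R F m M L) :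
    ∃ C : ℝ, 0 ≤ C ∧ ∀ x ∈ N, ∀ t, |L x 0 t - F x 0 ^ 2 / 2| ≤ C := by
  obtain ⟨a, ha⟩ := A2_cell β
  obtain ⟨x0, hx0⟩ := h.ne
  have h0 : ∀ x ∈ N, (x, (0 : E)) ∈ TN N r := fun x hx => ⟨hx, map_zero _⟩
  have hM := hL.M_nonneg
  have ha0 : 0 ≤ |a| + ‖x0‖ + 1 := by positivity
  refine ⟨|L x0 0 0 - F x0 0 ^ 2 / 2| + M * (|a| + ‖x0‖ + 1), by positivity, fun x hx t => ?_⟩
  obtain ⟨w, hw, hxw⟩ := ha x
  have hxN : x + w ∈ N := (h.perN_Lam hw x).2 hx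
  have e1 : L (x + w) 0 t = L x 0 t := A7b_L_Lam h hL hw x 0 t (h0 x hx)
  have e2 : F (x + w) 0 = F x 0 := A4_F_Lam h hF hw x 0 (h0 x hx)
  have hper : Function.Periodic (fun t => L x 0 t) 1 := fun t => hL.pert x 0 t (h0 x hx)
  have e3 : L x 0 (Int.fract t) = L x 0 t := by
    have := hper.sub_int_mul_eq (x := t) ⌊t⌋
    rw [mul_one] at this
    exact this
  have h1 := hL.al (x + w) 0 (Int.fract t) x0 0 0 (h0 _ hxN) (h0 _ hx0)
  have e4 : L (x + w) 0 (Int.fract t) = L x 0 t := by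
    rw [A7b_L_Lam h hL hw x 0 _ (h0 x hx), e3]
  rw [e4, e2] at h1
  have h2 : ‖x + w - x0‖ ≤ |a| + ‖x0‖ := by
    refine (norm_sub_le _ _).trans ?_
    have h3 : ‖x + w‖ ≤ a := by simpa using hxw
    have := le_abs_self a
    linarith
  have h3 : |Int.fract t - 0| ≤ 1 := by
    rw [sub_zero, abs_of_nonneg (Int.fract_nonneg t)]
    exact (Int.fract_lt_one t).le
  have h4 : M * (‖(0 : E) - 0‖ + (1 + ‖(0 : E)‖) * (‖x + w - x0‖ + |Int.fract t - 0|)) ≤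
      M * (|a| + ‖x0‖ + 1) := by
    refine mul_le_mul_of_nonneg_left ?_ hM
    rw [sub_zero, norm_zero]
    linarith
  have h5 := abs_sub_abs_le_abs_sub (L x 0 t - F x 0 ^ 2 / 2) (L x0 0 0 - F x0 0 ^ 2 / 2)
  linarith

/-- the function in the tube -/
theorem A7b_tube (h : Tb β N r R) (hF : FinsN β N r F mF MF) (hL : LagN β N r R F m M L) {a : ℝ}
    (ha : a < R) : ∃ C : ℝ, 0 ≤ C ∧ ∀ x v t, Metric.infDist x N ≤ a →
      |L (r x) (fderiv ℝ r x v) t - F (r x) (fderiv ℝ r x v) ^ 2 / 2| ≤ C * (1 + ‖v‖) := by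
  obtain ⟨C0, hC0, H0⟩ := A7b_zero h hF hL
  obtain ⟨Cd, hCd, Hd⟩ := h.fd_bd ha
  have hM := hL.M_nonneg
  refine ⟨C0 + M * Cd, by positivity, fun x v t hx => ?_⟩
  have hxR : Metric.infDist x N < R := lt_of_le_of_lt hx ha
  have hm := h.mem x hxR
  have h0 : (r x, (0 : E)) ∈ TN N r := ⟨hm, map_zero _⟩
  have h1 := hL.al (r x) (fderiv ℝ r x v) t (r x) 0 t (h.tan hxR v) h0
  rw [sub_zero, sub_self, sub_self, norm_zero, abs_zero, add_zero, mul_zero, add_zero] at h1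
  have h2 := H0 (r x) hm t
  have h3 : ‖fderiv ℝ r x v‖ ≤ Cd * ‖v‖ :=
    ((fderiv ℝ r x).le_opNorm v).trans (mul_le_mul_of_nonneg_right (Hd x hx) (norm_nonneg v))
  have h4 : M * ‖fderiv ℝ r x v‖ ≤ M * (Cd * ‖v‖) := mul_le_mul_of_nonneg_left h3 hM
  have h5 := abs_sub_abs_le_abs_sub (L (r x) (fderiv ℝ r x v) t - F (r x) (fderiv ℝ r x v) ^ 2 / 2)
    (L (r x) 0 t - F (r x) 0 ^ 2 / 2)
  have h6 : 0 ≤ C0 * ‖v‖ := mul_nonneg hC0 (norm_nonneg v)
  have h7 : 0 ≤ M * Cd := by positivity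
  nlinarith

theorem Tb.Lt_bd (h : Tb β N r R) (hF : FinsN β N r F mF MF) (hL : LagN β N r R F m M L) (hρ : 0 < ρ)
    (hR : 2 * ρ < R) (hΛ : 0 ≤ Λ) : ∃ C : ℝ, ∀ x v t,
      |Lt N r ρ Λ L x v t - Ft N r ρ Λ F x v ^ 2 / 2| ≤ C * (1 + ‖v‖) := by
  obtain ⟨C, hC, H⟩ := A7b_tube h hF hL hR
  refine ⟨C, fun x v t => ?_⟩
  rw [Lt_eq N r ρ hΛ F L x v t]
  by_cases hx : Metric.infDist x N ≤ 2 * ρ
  · rw [abs_mul, abs_of_nonneg (chi_nonneg N r ρ (2 * ρ) x)]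
    calc chi N r ρ (2 * ρ) x * |L (r x) (fderiv ℝ r x v) t - F (r x) (fderiv ℝ r x v) ^ 2 / 2|
        ≤ 1 * |L (r x) (fderiv ℝ r x v) t - F (r x) (fderiv ℝ r x v) ^ 2 / 2| :=
          mul_le_mul_of_nonneg_right (chi_le_one N r ρ (2 * ρ) x) (abs_nonneg _)
      _ ≤ C * (1 + ‖v‖) := by rw [one_mul]; exact H x v t hx
  · rw [not_le] at hx
    rw [chi_zero N r ρ (2 * ρ) hx.le, zero_mul, abs_zero]
    positivity

theorem Tb.Lt_al (h : Tb β N r R) (hF : FinsN β N r F mF MF) (hL : LagN β N r R F m M L) (hρ : 0 < ρ)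
    (hR : 2 * ρ < R) (hΛ : 0 ≤ Λ) : ∃ C : ℝ, AL (Ft N r ρ Λ F) C (Lt N r ρ Λ L) := by
  obtain ⟨C0, hC0, H0⟩ := A7b_tube h hF hL hR
  obtain ⟨C1, hC1, H1⟩ := h.chi_lip (a := ρ) (b := 2 * ρ) hρ.le (by linarith) hR
  obtain ⟨Cr, hCr, Hr⟩ := h.r_lip hR
  obtain ⟨Cd, hCd, Hd⟩ := h.fd_bd hR
  have hM := hL.M_nonneg
  refine ⟨C1 * C0 + C0 + M * (Cd + Cr + (1 + Cd) * (Cr + 1)), fun x v t x' v' t' => ?_⟩
  rw [Lt_eq N r ρ hΛ F L x v t, Lt_eq N r ρ hΛ F L x' v' t']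
  have hchi : 0 ≤ chi N r ρ (2 * ρ) x := chi_nonneg _ _ _ _ _
  have hchi' : 0 ≤ chi N r ρ (2 * ρ) x' := chi_nonneg _ _ _ _ _
  have hchi1' : chi N r ρ (2 * ρ) x' ≤ 1 := chi_le_one _ _ _ _ _
  have hL1 := H1 x x'
  have n1 : 0 ≤ ‖x - x'‖ := norm_nonneg _
  have n2 : 0 ≤ ‖v - v'‖ := norm_nonneg _
  have n3 : 0 ≤ |t - t'| := abs_nonneg _
  have n4 : 0 ≤ ‖v‖ := norm_nonneg _
  have hP : 0 ≤ M * (Cd + Cr + (1 + Cd) * (Cr + 1)) := by positivity
  have hS : 0 ≤ ‖v - v'‖ + (1 + ‖v‖) * (‖x - x'‖ + |t - t'|) := by positivity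
  -- lower bounds of the right-hand side
  have hS1 : (1 + ‖v‖) * ‖x - x'‖ ≤ ‖v - v'‖ + (1 + ‖v‖) * (‖x - x'‖ + |t - t'|) := by
    have : 0 ≤ (1 + ‖v‖) * |t - t'| := by positivity
    nlinarith
  have hS2 : ‖v - v'‖ ≤ ‖v - v'‖ + (1 + ‖v‖) * (‖x - x'‖ + |t - t'|) := by
    have : 0 ≤ (1 + ‖v‖) * (‖x - x'‖ + |t - t'|) := by positivity
    linarith
  have hK1 : C1 * C0 * ((1 + ‖v‖) * ‖x - x'‖) ≤
      C1 * C0 * (‖v - v'‖ + (1 + ‖v‖) * (‖x - x'‖ + |t - t'|)) :=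
    mul_le_mul_of_nonneg_left hS1 (by positivity)
  have hK2 : C0 * ‖v - v'‖ ≤ C0 * (‖v - v'‖ + (1 + ‖v‖) * (‖x - x'‖ + |t - t'|)) :=
    mul_le_mul_of_nonneg_left hS2 hC0
  have hK3 : 0 ≤ M * (Cd + Cr + (1 + Cd) * (Cr + 1)) *
      (‖v - v'‖ + (1 + ‖v‖) * (‖x - x'‖ + |t - t'|)) := mul_nonneg hP hS
  have hK4 : 0 ≤ C0 * (‖v - v'‖ + (1 + ‖v‖) * (‖x - x'‖ + |t - t'|)) := mul_nonneg hC0 hS
  have hK5 : 0 ≤ C1 * C0 * (‖v - v'‖ + (1 + ‖v‖) * (‖x - x'‖ + |t - t'|)) :=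
    mul_nonneg (by positivity) hS
  obtain ⟨S, hSdef⟩ : ∃ S, S = ‖v - v'‖ + (1 + ‖v‖) * (‖x - x'‖ + |t - t'|) := ⟨_, rfl⟩
  rw [← hSdef] at hS hS1 hS2 hK1 hK2 hK3 hK4 hK5 ⊢
  obtain ⟨p, hp⟩ : ∃ p, p = L (r x) (fderiv ℝ r x v) t - F (r x) (fderiv ℝ r x v) ^ 2 / 2 := ⟨_, rfl⟩
  obtain ⟨q, hq⟩ : ∃ q, q = L (r x') (fderiv ℝ r x' v') t' - F (r x') (fderiv ℝ r x' v') ^ 2 / 2 :=
    ⟨_, rfl⟩
  rw [← hp, ← hq]
  have e : (C1 * C0 + C0 + M * (Cd + Cr + (1 + Cd) * (Cr + 1))) * S =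
      C1 * C0 * S + C0 * S + M * (Cd + Cr + (1 + Cd) * (Cr + 1)) * S := by ring
  rw [e]
  by_cases hx : Metric.infDist x N ≤ 2 * ρ
  · have hp1 : |p| ≤ C0 * (1 + ‖v‖) := by rw [hp]; exact H0 x v t hx
    by_cases hx' : Metric.infDist x' N ≤ 2 * ρ
    · -- both in the tube
      have hxR : Metric.infDist x N < R := lt_of_le_of_lt hx hR
      have hxR' : Metric.infDist x' N < R := lt_of_le_of_lt hx' hR
      have h1 := hL.al (r x) (fderiv ℝ r x v) t (r x') (fderiv ℝ r x' v') t' (h.tan hxR v)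
        (h.tan hxR' v')
      rw [← hp, ← hq] at h1
      obtain ⟨g1, g2⟩ := Hr x x' hx hx'
      have g3 : ‖fderiv ℝ r x v - fderiv ℝ r x' v'‖ ≤ Cr * ‖x - x'‖ * ‖v‖ + Cd * ‖v - v'‖ := by
        have e1 : fderiv ℝ r x v - fderiv ℝ r x' v' =
            (fderiv ℝ r x - fderiv ℝ r x') v + fderiv ℝ r x' (v - v') := by
          rw [map_sub]
          show _ = (fderiv ℝ r x v - fderiv ℝ r x' v) + _
          abel
        rw [e1]
        refine (norm_add_le _ _).trans (add_le_add ?_ ?_)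
        · exact ((fderiv ℝ r x - fderiv ℝ r x').le_opNorm v).trans
            (mul_le_mul_of_nonneg_right g2 n4)
        · exact ((fderiv ℝ r x').le_opNorm _).trans (mul_le_mul_of_nonneg_right (Hd x' hx') n2)
      have g4 : ‖fderiv ℝ r x v‖ ≤ Cd * ‖v‖ :=
        ((fderiv ℝ r x).le_opNorm v).trans (mul_le_mul_of_nonneg_right (Hd x hx) n4)
      have g5 : ‖fderiv ℝ r x v - fderiv ℝ r x' v'‖ + (1 + ‖fderiv ℝ r x v‖) *
          (‖r x - r x'‖ + |t - t'|) ≤ (Cd + Cr + (1 + Cd) * (Cr + 1)) * S := by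
        have a1 : (1 + ‖fderiv ℝ r x v‖) * (‖r x - r x'‖ + |t - t'|) ≤
            ((1 + Cd) * (1 + ‖v‖)) * ((Cr + 1) * (‖x - x'‖ + |t - t'|)) := by
          refine mul_le_mul ?_ ?_ (by positivity) (by positivity)
          · nlinarith
          · nlinarith
        have a2 : ((1 + Cd) * (1 + ‖v‖)) * ((Cr + 1) * (‖x - x'‖ + |t - t'|)) ≤
            (1 + Cd) * (Cr + 1) * S := by
          have a3 : (1 + ‖v‖) * (‖x - x'‖ + |t - t'|) ≤ S := by rw [hSdef]; linarith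
          have a4 : 0 ≤ (1 + Cd) * (Cr + 1) := by positivity
          calc ((1 + Cd) * (1 + ‖v‖)) * ((Cr + 1) * (‖x - x'‖ + |t - t'|))
              = (1 + Cd) * (Cr + 1) * ((1 + ‖v‖) * (‖x - x'‖ + |t - t'|)) := by ring
            _ ≤ (1 + Cd) * (Cr + 1) * S := mul_le_mul_of_nonneg_left a3 a4
        have a5 : Cr * ‖x - x'‖ * ‖v‖ ≤ Cr * S := by
          have a6 : ‖x - x'‖ * ‖v‖ ≤ S := by
            refine le_trans ?_ hS1
            nlinarith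
          calc Cr * ‖x - x'‖ * ‖v‖ = Cr * (‖x - x'‖ * ‖v‖) := by ring
            _ ≤ Cr * S := mul_le_mul_of_nonneg_left a6 hCr.le
        have a7 : Cd * ‖v - v'‖ ≤ Cd * S := mul_le_mul_of_nonneg_left hS2 hCd.le
        have a8 : (Cd + Cr + (1 + Cd) * (Cr + 1)) * S = Cd * S + Cr * S + (1 + Cd) * (Cr + 1) * S := by
          ring
        rw [a8]
        linarith
      have h2 : |p - q| ≤ M * (Cd + Cr + (1 + Cd) * (Cr + 1)) * S := by
        refine h1.trans ?_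
        rw [mul_assoc]
        exact mul_le_mul_of_nonneg_left g5 hM
      have h3 : chi N r ρ (2 * ρ) x * p - chi N r ρ (2 * ρ) x' * q =
          (chi N r ρ (2 * ρ) x - chi N r ρ (2 * ρ) x') * p + chi N r ρ (2 * ρ) x' * (p - q) := by
        ring
      rw [h3]
      have h4 : |(chi N r ρ (2 * ρ) x - chi N r ρ (2 * ρ) x') * p| ≤ C1 * C0 * S := by
        rw [abs_mul]
        refine le_trans (mul_le_mul hL1 hp1 (abs_nonneg _) (by positivity)) ?_
        refine le_trans (le_of_eq ?_) hK1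
        ring
      have h5 : |chi N r ρ (2 * ρ) x' * (p - q)| ≤ M * (Cd + Cr + (1 + Cd) * (Cr + 1)) * S := by
        rw [abs_mul, abs_of_nonneg hchi']
        refine le_trans ?_ h2
        exact mul_le_of_le_one_left (abs_nonneg _) hchi1'
      refine (abs_add_le _ _).trans ?_
      linarith
    · -- `x'` outside
      rw [not_le] at hx'
      have hz : chi N r ρ (2 * ρ) x' = 0 := chi_zero N r ρ (2 * ρ) hx'.le
      rw [hz, zero_mul, sub_zero, abs_mul, abs_of_nonneg hchi]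
      rw [hz, sub_zero, abs_of_nonneg hchi] at hL1
      have h4 : chi N r ρ (2 * ρ) x * |p| ≤ C1 * C0 * S := by
        refine le_trans (mul_le_mul hL1 hp1 (abs_nonneg _) (by positivity)) ?_
        refine le_trans (le_of_eq ?_) hK1
        ring
      linarith
  · rw [not_le] at hx
    have hz : chi N r ρ (2 * ρ) x = 0 := chi_zero N r ρ (2 * ρ) hx.le
    rw [hz, zero_mul, zero_sub, abs_neg]
    by_cases hx' : Metric.infDist x' N ≤ 2 * ρ
    · have hq1 : |q| ≤ C0 * (1 + ‖v'‖) := by rw [hq]; exact H0 x' v' t' hx'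
      have h1 : ‖v'‖ ≤ ‖v‖ + ‖v - v'‖ := by
        have := norm_sub_norm_le v' v
        rw [norm_sub_rev] at this
        linarith
      have hL2 : chi N r ρ (2 * ρ) x' ≤ C1 * ‖x - x'‖ := by
        rw [hz, zero_sub, abs_neg, abs_of_nonneg hchi'] at hL1
        exact hL1
      rw [abs_mul, abs_of_nonneg hchi']
      have h2 : chi N r ρ (2 * ρ) x' * |q| ≤
          chi N r ρ (2 * ρ) x' * (C0 * (1 + ‖v‖)) + chi N r ρ (2 * ρ) x' * (C0 * ‖v - v'‖) := by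
        rw [← mul_add]
        refine mul_le_mul_of_nonneg_left ?_ hchi'
        refine hq1.trans ?_
        have := mul_le_mul_of_nonneg_left h1 hC0
        nlinarith
      have h3 : chi N r ρ (2 * ρ) x' * (C0 * (1 + ‖v‖)) ≤ C1 * C0 * S := by
        refine le_trans (mul_le_mul_of_nonneg_right hL2 (by positivity)) ?_
        refine le_trans (le_of_eq ?_) hK1
        ring
      have h4 : chi N r ρ (2 * ρ) x' * (C0 * ‖v - v'‖) ≤ C0 * S := by
        refine le_trans (mul_le_of_le_one_left (by positivity) hchi1') hK2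
      linarith
    · rw [not_le] at hx'
      have hz' : chi N r ρ (2 * ρ) x' = 0 := chi_zero N r ρ (2 * ρ) hx'.le
      rw [hz', zero_mul, abs_zero]
      linarith

end EscM
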