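import Pool.Agent.EscM.A7a
import Pool.Agent.EscM.A7b

set_option autoImplicit false
set_option linter.unusedSectionVars false

/-!
Project EscM, module A7c: the extended Lagrangian satisfies `TE` and `AL`.
Assembly of `A4` (`Ft_fins` is a hypothesis here), `A7a`, `A7b`. `l_t` follows from `AL` with `x = x'`, `v = v'`. Take for `M'` the maximum of all constants and `0` (`AL` is monotone in its constant). Periodicity: `Tb.chi_Lam`,
`Tb.r_Lam`, `Tb.fd_Lam`, `LagN.per`; outside of the tube `chi = 0`.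
-/

noncomputable section

namespace EscM

open MeasureTheory Set Filter Topology Esc EscF EscG EscK
open scoped ContDiff

variable {ι : Type} [Fintype ι] {E : Type*} [NormedAddCommGroup E] [InnerProductSpace ℝ E]
  [FiniteDimensional ℝ E] {β : Module.Basis ι ℝ E} {N : Set E} {r : E → E} {R : ℝ}
variable {F : E → E → ℝ} {mF MF m M : ℝ} {L : E → E → ℝ → ℝ} {ρ Λ mF' MF' : ℝ}

theorem A7c_basis (β : Module.Basis ι ℝ E) (i : ι) : β i ∈ Submodule.span ℤ (Set.range β) :=
  Submodule.subset_span (Set.mem_range_self i)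

theorem A7c_per (h : Tb β N r R) (hL : LagN β N r R F m M L) (hR : 2 * ρ < R) (i : ι) (x v : E)
    (t : ℝ) : Lt N r ρ Λ L (x + β i) v t = Lt N r ρ Λ L x v t := by
  have hw := A7c_basis β i
  have hc := h.chi_Lam (a := ρ) hR hw x
  unfold Lt
  rw [hc]
  by_cases hx : Metric.infDist x N < R
  · have e1 := h.r_Lam hw hx
    have e2 := h.fd_Lam hw hx
    have e3 := hL.per i (r x) (fderiv ℝ r x v) t (h.tan hx v)
    have e4 : Lg r ρ L (x + β i) v t = Lg r ρ L x v t := by
      unfold Lg
      rw [e1, e2, e3, add_sub_add_right_eq_sub]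
    rw [e4]
  · have h0 : chi N r ρ (2 * ρ) x = 0 := chi_zero N r ρ (2 * ρ) (by linarith [not_lt.1 hx])
    rw [h0, zero_mul, zero_mul]

theorem A7c_pert (h : Tb β N r R) (hL : LagN β N r R F m M L) (hR : 2 * ρ < R) (x v : E)
    (t : ℝ) : Lt N r ρ Λ L x v (t + 1) = Lt N r ρ Λ L x v t := by
  unfold Lt
  by_cases hx : Metric.infDist x N < R
  · have e3 := hL.pert (r x) (fderiv ℝ r x v) t (h.tan hx v)
    have e4 : Lg r ρ L x v (t + 1) = Lg r ρ L x v t := by
      unfold Lg
      rw [e3]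
    rw [e4]
  · have h0 : chi N r ρ (2 * ρ) x = 0 := chi_zero N r ρ (2 * ρ) (by linarith [not_lt.1 hx])
    rw [h0, zero_mul, zero_mul]

theorem Tb.Lt_te (h : Tb β N r R) (hF : FinsN β N r F mF MF) (hL : LagN β N r R F m M L) (hρ : 0 < ρ)
    (hR : 2 * ρ < R) (hΛ : 0 < Λ) (hf : Fins β (Ft N r ρ Λ F) mF' MF') :
    ∃ m' M' : ℝ, TE β (Ft N r ρ Λ F) mF' MF' m' M' (Lt N r ρ Λ L) ∧
      AL (Ft N r ρ Λ F) M' (Lt N r ρ Λ L) := by
  obtain ⟨m', hm', hconv⟩ := h.Lt_conv hL hρ hR hΛ
  obtain ⟨C1, hC1⟩ := h.Lt_bd hF hL hρ hR hΛ.le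
  obtain ⟨C2, hC2⟩ := h.Lt_al hF hL hρ hR hΛ.le
  have hAL : AL (Ft N r ρ Λ F) (max (max C1 C2) 0) (Lt N r ρ Λ L) := by
    intro x v t x' v' t'
    refine (hC2 x v t x' v' t').trans (mul_le_mul_of_nonneg_right ?_ (by positivity))
    exact (le_max_right C1 C2).trans (le_max_left _ _)
  refine ⟨m', max (max C1 C2) 0, ?_, hAL⟩
  exact
    { fins := hf
      m_pos := hm'
      M_nonneg := le_max_right _ _
      smooth := h.Lt_smooth hL hρ hR Λ
      per := fun i x v t => A7c_per h hL hR i x v t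
      pert := fun x v t => A7c_pert h hL hR x v t
      conv := hconv
      l_t := fun x v t t' => by
        have h1 := hAL x v t x v t'
        rw [sub_self, sub_self, norm_zero, zero_add, zero_add, sub_sub_sub_cancel_right] at h1
        rw [mul_assoc]
        exact h1
      l_F := fun x v t => by
        refine (hC1 x v t).trans (mul_le_mul_of_nonneg_right ?_ (by positivity))
        exact (le_max_left C1 C2).trans (le_max_left _ _) }

end EscM
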