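import Pool.Agent.EscM.A6
import Pool.Agent.EscG.B1
import Pool.Agent.EscG.B2

set_option autoImplicit false

/-!
Project EscM, module A8a: projection of paths to `N`, cost of leaving the tube.
-/

noncomputable section

namespace EscM

open MeasureTheory Set Filter Topology Esc EscF EscG EscK
open scoped ContDiff

variable {ι : Type} [Fintype ι] {E : Type*} [NormedAddCommGroup E] [InnerProductSpace ℝ E]
  [FiniteDimensional ℝ E] {β : Module.Basis ι ℝ E} {N : Set E} {r : E → E} {R : ℝ}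
variable {F : E → E → ℝ} {mF MF : ℝ} {B : E → ℝ} {k0 : ι} {len : ℝ} {c c' : ℝ → E} {ℓ : E →L[ℝ] ℝ}
  {ρ C Λ mF' MF' : ℝ}

/-- continuous functions are integrable along trajectories -/
theorem A8a_ii {V : Type*} [NormedAddCommGroup V] {Φ : E × E → V} (hΦ : Continuous Φ) {u : ℝ → E}
    (hu : Adm u) (a : ℝ) (z : E) (p q : ℝ) :
    IntervalIntegrable (fun t => Φ (traj a z u t, u t)) volume p q := by
  have hc := traj_cont hu a z
  obtain ⟨hm, C, hC⟩ := hu
  have hK : IsCompact ((traj a z u '' (uIcc p q)) ×ˢ Metric.closedBall (0 : E) C) :=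
    (isCompact_uIcc.image hc).prod (isCompact_closedBall _ _)
  obtain ⟨M, hM⟩ := hK.exists_bound_of_continuousOn hΦ.continuousOn
  rw [intervalIntegrable_iff]
  refine Measure.integrableOn_of_bounded (M := M) (by simp)
    (hΦ.comp_stronglyMeasurable (hc.stronglyMeasurable.prodMk hm)).aestronglyMeasurable ?_
  refine (ae_restrict_iff' measurableSet_uIoc).2 (ae_of_all _ fun t ht => hM _ ?_)
  refine ⟨⟨t, uIoc_subset_uIcc ht, rfl⟩, ?_⟩
  simpa using hC t

/-- cost of a piece of path far from `N` -/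
theorem A8a_cost (h : Ext β N r R F mF MF B k0 len c c' ℓ ρ C Λ)
    (hf : Fins β (Ft N r ρ Λ F) mF' MF') {z : E} {u : ℝ → E} (hu : Adm u) {a b p q : ℝ}
    (hap : a ≤ p) (hpq : p ≤ q) (hqb : q ≤ b)
    (hfar : ∀ t ∈ Ioo p q, 2 * ρ ≤ Metric.infDist (traj a z u t) N) :
    √Λ / 2 * ‖traj a z u q - traj a z u p‖ ≤ (∫ t in a..b, Ft N r ρ Λ F (traj a z u t) (u t)) -
      (Bt N r ρ B ℓ (traj a z u b) - Bt N r ρ B ℓ z) := by
  have hcal := h.calC hf
  have hsm : ContDiff ℝ 1 (Bt N r ρ B ℓ) := hcal.smooth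
  rw [ftc_traj hsm hu a z b]
  have hc1 : Continuous (fun y : E × E => Ft N r ρ Λ F y.1 y.2) := hf.cont
  have hc2 : Continuous (fun y : E × E => fderiv ℝ (Bt N r ρ B ℓ) y.1 y.2) :=
    ((hsm.continuous_fderiv one_ne_zero).comp continuous_fst).clm_apply continuous_snd
  have i1 : ∀ p q : ℝ, IntervalIntegrable (fun t => Ft N r ρ Λ F (traj a z u t) (u t)) volume p q :=
    fun p q => A8a_ii hc1 hu a z p q
  have i2 : ∀ p q : ℝ, IntervalIntegrable
      (fun t => fderiv ℝ (Bt N r ρ B ℓ) (traj a z u t) (u t)) volume p q :=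
    fun p q => A8a_ii hc2 hu a z p q
  rw [← intervalIntegral.integral_sub (i1 a b) (i2 a b)]
  have h1 : (∫ t in p..q, (Ft N r ρ Λ F (traj a z u t) (u t) -
      fderiv ℝ (Bt N r ρ B ℓ) (traj a z u t) (u t))) ≤
      ∫ t in a..b, (Ft N r ρ Λ F (traj a z u t) (u t) -
      fderiv ℝ (Bt N r ρ B ℓ) (traj a z u t) (u t)) := by
    refine intervalIntegral.integral_mono_interval hap hpq hqb (ae_of_all _ fun t => ?_)
      ((i1 a b).sub (i2 a b))
    have := hcal.le (traj a z u t) (u t)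
    simp only [Pi.zero_apply]
    linarith
  have hun : ∀ p q : ℝ, IntervalIntegrable (fun t => ‖u t‖) volume p q := fun p q =>
    (hu.ii p q).norm
  have h2 : (∫ t in p..q, √Λ / 2 * ‖u t‖) ≤
      ∫ t in p..q, (Ft N r ρ Λ F (traj a z u t) (u t) -
      fderiv ℝ (Bt N r ρ B ℓ) (traj a z u t) (u t)) := by
    refine intervalIntegral.integral_mono_on_of_le_Ioo hpq ((hun p q).const_mul _)
      ((i1 p q).sub (i2 p q)) fun t ht => ?_
    have := h.far (hfar t ht) (u t)
    linarith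
  have h3 : ‖traj a z u q - traj a z u p‖ ≤ ∫ t in p..q, ‖u t‖ := by
    have e : traj a z u q - traj a z u p = ∫ t in p..q, u t := by
      unfold traj
      rw [← intervalIntegral.integral_interval_sub_left (hu.ii a q) (hu.ii a p)]
      abel
    rw [e]
    exact intervalIntegral.norm_integral_le_integral_norm hpq
  rw [intervalIntegral.integral_const_mul] at h2
  have h4 : √Λ / 2 * ‖traj a z u q - traj a z u p‖ ≤ √Λ / 2 * ∫ t in p..q, ‖u t‖ :=
    mul_le_mul_of_nonneg_left h3 (by positivity)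
  linarith

theorem Ext.shell (h : Ext β N r R F mF MF B k0 len c c' ℓ ρ C Λ) (hf : Fins β (Ft N r ρ Λ F) mF' MF')
    {z : E} {u : ℝ → E} (hu : Adm u) {a b s s' : ℝ} (hab : a ≤ b) (hs : s ∈ Icc a b) (hs' : s' ∈ Icc a b)
    (h1 : traj a z u s ∈ N) (h2 : 3 * ρ ≤ Metric.infDist (traj a z u s') N) :
    √Λ / 2 * ρ ≤ (∫ t in a..b, Ft N r ρ Λ F (traj a z u t) (u t)) -
      (Bt N r ρ B ℓ (traj a z u b) - Bt N r ρ B ℓ z) := by
  have hρ := h.ρ_pos
  have hD : Continuous (fun t => Metric.infDist (traj a z u t) N) :=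
    (Metric.continuous_infDist_pt N).comp (traj_cont hu a z)
  have hs0 : Metric.infDist (traj a z u s) N = 0 := Metric.infDist_zero_of_mem h1
  have key : ∀ p q : ℝ, a ≤ p → p ≤ q → q ≤ b →
      (∀ t ∈ Ioo p q, 2 * ρ ≤ Metric.infDist (traj a z u t) N) →
      ρ ≤ ‖traj a z u q - traj a z u p‖ →
      √Λ / 2 * ρ ≤ (∫ t in a..b, Ft N r ρ Λ F (traj a z u t) (u t)) -
      (Bt N r ρ B ℓ (traj a z u b) - Bt N r ρ B ℓ z) := by
    intro p q hp hpq hq hfar hle
    have := A8a_cost h hf hu hp hpq hq hfar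
    have h4 : √Λ / 2 * ρ ≤ √Λ / 2 * ‖traj a z u q - traj a z u p‖ :=
      mul_le_mul_of_nonneg_left hle (by positivity)
    linarith
  have hdist : ∀ p q : ℝ, Metric.infDist (traj a z u q) N ≤
      Metric.infDist (traj a z u p) N + ‖traj a z u q - traj a z u p‖ := by
    intro p q
    rw [← dist_eq_norm]
    exact Metric.infDist_le_infDist_add_dist
  rcases le_total s s' with hss | hss
  · -- the last time at distance at most `2 ρ`
    have hcl : IsClosed {t | t ∈ Icc s s' ∧ Metric.infDist (traj a z u t) N ≤ 2 * ρ} :=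
      isClosed_Icc.inter (isClosed_le hD continuous_const)
    have hcp : IsCompact {t | t ∈ Icc s s' ∧ Metric.infDist (traj a z u t) N ≤ 2 * ρ} :=
      isCompact_Icc.of_isClosed_subset hcl fun t ht => ht.1
    have hne : {t | t ∈ Icc s s' ∧ Metric.infDist (traj a z u t) N ≤ 2 * ρ}.Nonempty :=
      ⟨s, ⟨le_rfl, hss⟩, by rw [hs0]; positivity⟩
    obtain ⟨p, hp⟩ := hcp.exists_isGreatest hne
    obtain ⟨⟨hpI, hpD⟩, hpmax⟩ := hp
    refine key p s' (hs.1.trans hpI.1) hpI.2 hs'.2 (fun t ht => ?_) ?_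
    · by_contra hcon
      have := hpmax ⟨⟨hpI.1.trans ht.1.le, ht.2.le⟩, (not_le.1 hcon).le⟩
      exact absurd this (not_le.2 ht.1)
    · have := hdist p s'
      linarith
  · have hcl : IsClosed {t | t ∈ Icc s' s ∧ Metric.infDist (traj a z u t) N ≤ 2 * ρ} :=
      isClosed_Icc.inter (isClosed_le hD continuous_const)
    have hcp : IsCompact {t | t ∈ Icc s' s ∧ Metric.infDist (traj a z u t) N ≤ 2 * ρ} :=
      isCompact_Icc.of_isClosed_subset hcl fun t ht => ht.1
    have hne : {t | t ∈ Icc s' s ∧ Metric.infDist (traj a z u t) N ≤ 2 * ρ}.Nonempty :=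
      ⟨s, ⟨hss, le_rfl⟩, by rw [hs0]; positivity⟩
    obtain ⟨p, hp⟩ := hcp.exists_isLeast hne
    obtain ⟨⟨hpI, hpD⟩, hpmin⟩ := hp
    refine key s' p hs'.1 hpI.1 (hpI.2.trans hs.2) (fun t ht => ?_) ?_
    · by_contra hcon
      have := hpmin ⟨⟨ht.1.le, ht.2.le.trans hpI.2⟩, (not_le.1 hcon).le⟩
      exact absurd this (not_le.2 ht.2)
    · have := hdist p s'
      rw [norm_sub_rev] at this
      linarith

/-- the derivative of `tau` in the tube -/
theorem A8a_fd (h : Tb β N r R) {a b : ℝ} (ha : 0 < a) (hab : a < b) (hb : b < R) {x : E}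
    (hx : Metric.infDist x N ≤ a) : fderiv ℝ (tau N r a b) x = fderiv ℝ r x := by
  have hlt : ∀ y, Metric.infDist y N < a → fderiv ℝ (tau N r a b) y = fderiv ℝ r y := by
    intro y hy
    refine Filter.EventuallyEq.fderiv_eq ?_
    have ho : IsOpen {y | Metric.infDist y N < a} :=
      isOpen_lt (Metric.continuous_infDist_pt N) continuous_const
    filter_upwards [ho.mem_nhds hy] with w hw
    exact h.tau_eq ha.le hab hb (le_of_lt hw)
  rcases hx.lt_or_eq with hx1 | hx1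
  · exact hlt x hx1
  · have hxR : Metric.infDist x N < R := by rw [hx1]; exact hab.trans hb
    have hcurve : Continuous (fun s : ℝ => r x + s • (x - r x)) := by fun_prop
    have ht1 : Tendsto (fun s : ℝ => r x + s • (x - r x)) (𝓝[<] 1) (𝓝 x) := by
      have h1 : Tendsto (fun s : ℝ => r x + s • (x - r x)) (𝓝 1) (𝓝 (r x + (1 : ℝ) • (x - r x))) :=
        hcurve.tendsto 1
      have h2 : r x + (1 : ℝ) • (x - r x) = x := by rw [one_smul]; abel
      rw [h2] at h1
      exact h1.mono_left nhdsWithin_le_nhds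
    have hT : ContinuousAt (fderiv ℝ (tau N r a b)) x :=
      ((h.tau_smooth ha.le hab hb).continuous_fderiv (by simp)).continuousAt
    have hr : ContinuousAt (fderiv ℝ r) x :=
      (h.smooth.continuousOn_fderiv_of_isOpen h.isOpen_tube (by simp)).continuousAt
        (h.isOpen_tube.mem_nhds hxR)
    have t1 := hT.tendsto.comp ht1
    have t2 := hr.tendsto.comp ht1
    refine tendsto_nhds_unique_of_eventuallyEq t1 t2 ?_
    have hI : Ioo (0 : ℝ) 1 ∈ 𝓝[<] (1 : ℝ) := Ioo_mem_nhdsLT one_pos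
    filter_upwards [hI] with s hs
    refine hlt _ ?_
    rw [(h.ray hxR ⟨hs.1.le, hs.2.le⟩).2, hx1]
    nlinarith [hs.2]

/-- the derivative of `tau` is bounded -/
theorem A8a_bd (h : Tb β N r R) {a b : ℝ} (ha : 0 < a) (hab : a < b) (hb : b < R) :
    ∃ K : ℝ, 0 ≤ K ∧ ∀ x, ‖fderiv ℝ (tau N r a b) x‖ ≤ K := by
  have hT : Continuous (fderiv ℝ (tau N r a b)) :=
    (h.tau_smooth ha.le hab hb).continuous_fderiv (by simp)
  obtain ⟨K, hK⟩ := h.bdd (a := b) (G := fun x => ‖fderiv ℝ (tau N r a b) x‖)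
    hT.norm.continuousOn (fun x _ w hw => by
      have e1 : (fun y => tau N r a b (y + w)) = fun y => tau N r a b y + w := by
        funext y
        exact h.tau_Lam hb hw y
      have e2 : fderiv ℝ (tau N r a b) (x + w) = fderiv ℝ (tau N r a b) x := by
        rw [← fderiv_comp_add_right, e1, fderiv_add_const]
      simp only [e2])
  refine ⟨max K 1, le_max_of_le_right zero_le_one, fun x => ?_⟩
  rcases le_or_gt (Metric.infDist x N) b with hx | hx
  · exact (le_abs_self _).trans ((hK x hx).trans (le_max_left _ _))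
  · have ho : IsOpen {y | b < Metric.infDist y N} :=
      isOpen_lt continuous_const (Metric.continuous_infDist_pt N)
    have he : tau N r a b =ᶠ[𝓝 x] fun y => y := by
      filter_upwards [ho.mem_nhds hx] with y hy
      unfold tau
      rw [chi_zero N r a b (le_of_lt hy), zero_smul, sub_zero]
    rw [he.fderiv_eq, fderiv_fun_id]
    exact (ContinuousLinearMap.norm_id_le).trans (le_max_right _ _)

/-- fundamental theorem of calculus along trajectories, vector version -/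
theorem A8a_ftc {T : E → E} (hT : ContDiff ℝ 1 T) {u : ℝ → E} (hu : Adm u) (a : ℝ) (z : E) (b : ℝ) :
    T (traj a z u b) = T z + ∫ t in a..b, fderiv ℝ T (traj a z u t) (u t) := by
  have hc : Continuous (fun y : E × E => fderiv ℝ T y.1 y.2) :=
    ((hT.continuous_fderiv one_ne_zero).comp continuous_fst).clm_apply continuous_snd
  have hi := A8a_ii hc hu a z a b
  refine ext_inner_left ℝ fun w => ?_
  have h1 := ftc_traj (B := fun y => inner ℝ w (T y)) (contDiff_const.inner ℝ hT) hu a z b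
  have h2 : ∀ x v, fderiv ℝ (fun y => inner ℝ w (T y)) x v = inner ℝ w (fderiv ℝ T x v) := by
    intro x v
    have hd : HasFDerivAt T (fderiv ℝ T x) x :=
      (hT.differentiable one_ne_zero).differentiableAt.hasFDerivAt
    have h3 := ((innerSL ℝ w).hasFDerivAt (x := T x)).comp x hd
    have h4 : fderiv ℝ (fun y => inner ℝ w (T y)) x = (innerSL ℝ w).comp (fderiv ℝ T x) := h3.fderiv
    rw [h4]
    rfl
  simp only [h2] at h1
  rw [inner_add_right]
  have h5 := (innerSL ℝ w).intervalIntegral_comp_comm hi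
  simp only [innerSL_apply_apply] at h5
  rw [← h5, ← h1]
  ring

/-- derivative of the square of the distance -/
theorem A8a_Wd {T : E → E} (hT : ContDiff ℝ 1 T) (y v : E) :
    fderiv ℝ (fun y : E => ‖y - T y‖ ^ 2 / 2) y v = inner ℝ (y - T y) (v - fderiv ℝ T y v) := by
  have hd : HasFDerivAt T (fderiv ℝ T y) y :=
    (hT.differentiable one_ne_zero).differentiableAt.hasFDerivAt
  have h2 : HasFDerivAt (fun y => y - T y) (ContinuousLinearMap.id ℝ E - fderiv ℝ T y) y :=
    (hasFDerivAt_id y).sub hd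
  have h4 := h2.norm_sq.mul_const (1 / 2 : ℝ)
  have e : (fun y : E => ‖y - T y‖ ^ 2 / 2) = fun y => ‖y - T y‖ ^ 2 * (1 / 2 : ℝ) := by
    funext w
    ring
  rw [e, h4.fderiv]
  simp only [ContinuousLinearMap.smul_apply, ContinuousLinearMap.comp_apply,
    ContinuousLinearMap.sub_apply, ContinuousLinearMap.id_apply, innerSL_apply_apply, smul_eq_mul,
    nsmul_eq_mul]
  push_cast
  ring

/-- integral of the absolute value -/
theorem A8a_abs {g : ℝ → ℝ} {a b s s' : ℝ} (hg : IntervalIntegrable g volume a b) (hab : a ≤ b)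
    (hs : s ∈ Icc a b) (hs' : s' ∈ Icc a b) : |∫ t in s..s', g t| ≤ ∫ t in a..b, |g t| := by
  have main : ∀ p q : ℝ, a ≤ p → p ≤ q → q ≤ b → |∫ t in p..q, g t| ≤ ∫ t in a..b, |g t| := by
    intro p q hp hpq hq
    refine (intervalIntegral.abs_integral_le_integral_abs hpq).trans ?_
    exact intervalIntegral.integral_mono_interval hp hpq hq
      (ae_of_all _ fun t => by simp) hg.abs
  rcases le_total s s' with h | h
  · exact main s s' hs.1 h hs'.2
  · rw [intervalIntegral.integral_symm, abs_neg]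
    exact main s' s hs'.1 h hs.2

/-- the integrated inequality for a map `T` -/
theorem A8a_gen {Ff : E → E → ℝ} (hFf : Continuous fun p : E × E => Ff p.1 p.2) {T : E → E}
    (hT1 : ContDiff ℝ 1 T) {u : ℝ → E} (hu : Adm u) {a b : ℝ} (hab : a ≤ b) {z : E} {κ : ℝ}
    (hκ : 0 ≤ κ) {D : ℝ → ℝ}
    (hW : ∀ t ∈ Icc a b, ‖traj a z u t - T (traj a z u t)‖ ^ 2 / 2 = D t ^ 2 / 2)
    (hpt : ∀ t ∈ Icc a b, Ff (T (traj a z u t)) (fderiv ℝ T (traj a z u t) (u t)) +
      κ * |(inner ℝ (traj a z u t - T (traj a z u t))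
        (u t - fderiv ℝ T (traj a z u t) (u t)) : ℝ)| ≤ Ff (traj a z u t) (u t))
    {s s' : ℝ} (hs : s ∈ Icc a b) (hs' : s' ∈ Icc a b) :
    (∫ t in a..b, Ff (T (traj a z u t)) (fderiv ℝ T (traj a z u t) (u t))) +
      κ / 2 * |D s ^ 2 - D s' ^ 2| ≤ ∫ t in a..b, Ff (traj a z u t) (u t) := by
  have hcT : Continuous (fun y : E × E => fderiv ℝ T y.1 y.2) :=
    ((hT1.continuous_fderiv one_ne_zero).comp continuous_fst).clm_apply continuous_snd
  have hc1 : Continuous (fun y : E × E => Ff (T y.1) (fderiv ℝ T y.1 y.2)) :=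
    hFf.comp ((hT1.continuous.comp continuous_fst).prodMk hcT)
  have hc2 : Continuous (fun y : E × E => (inner ℝ (y.1 - T y.1) (y.2 - fderiv ℝ T y.1 y.2) : ℝ)) :=
    (continuous_fst.sub (hT1.continuous.comp continuous_fst)).inner (continuous_snd.sub hcT)
  have i1 := A8a_ii hc1 hu a z a b
  have i2 : ∀ p q, IntervalIntegrable (fun t => (inner ℝ (traj a z u t - T (traj a z u t))
      (u t - fderiv ℝ T (traj a z u t) (u t)) : ℝ)) volume p q := fun p q => A8a_ii hc2 hu a z p q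
  have i3 := A8a_ii hFf hu a z a b
  have hint : (∫ t in a..b, Ff (T (traj a z u t)) (fderiv ℝ T (traj a z u t) (u t))) +
      κ * (∫ t in a..b, |(inner ℝ (traj a z u t - T (traj a z u t))
        (u t - fderiv ℝ T (traj a z u t) (u t)) : ℝ)|) ≤
      ∫ t in a..b, Ff (traj a z u t) (u t) := by
    rw [← intervalIntegral.integral_const_mul,
      ← intervalIntegral.integral_add i1 ((i2 a b).abs.const_mul _)]
    exact intervalIntegral.integral_mono_on hab (i1.add ((i2 a b).abs.const_mul _)) i3 hpt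
  have hWs : ContDiff ℝ 1 (fun y : E => ‖y - T y‖ ^ 2 / 2) :=
    ((contDiff_id.sub hT1).norm_sq ℝ).div_const 2
  have f1 := ftc_traj hWs hu a z s
  have f2 := ftc_traj hWs hu a z s'
  simp only [A8a_Wd hT1] at f1 f2
  rw [hW s hs] at f1
  rw [hW s' hs'] at f2
  have f3 := intervalIntegral.integral_interval_sub_left (i2 a s') (i2 a s)
  have f4 := A8a_abs (i2 a b) hab hs hs'
  rw [← f3, ← f1, ← f2] at f4
  have f5 : |D s ^ 2 - D s' ^ 2| = 2 * |D s' ^ 2 / 2 - ‖z - T z‖ ^ 2 / 2 -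
      (D s ^ 2 / 2 - ‖z - T z‖ ^ 2 / 2)| := by
    have e : D s' ^ 2 / 2 - ‖z - T z‖ ^ 2 / 2 - (D s ^ 2 / 2 - ‖z - T z‖ ^ 2 / 2) =
        (D s' ^ 2 - D s ^ 2) / 2 := by ring
    rw [e, abs_div, abs_sub_comm, abs_two]
    ring
  rw [f5]
  have f6 : κ / 2 * (2 * |D s' ^ 2 / 2 - ‖z - T z‖ ^ 2 / 2 -
      (D s ^ 2 / 2 - ‖z - T z‖ ^ 2 / 2)|) = κ * |D s' ^ 2 / 2 - ‖z - T z‖ ^ 2 / 2 -
      (D s ^ 2 / 2 - ‖z - T z‖ ^ 2 / 2)| := by ring
  rw [f6]
  exact (add_le_add_right (mul_le_mul_of_nonneg_left f4 hκ) _).trans hint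

/-- the pointwise inequality -/
theorem A8a_pt (h : Ext β N r R F mF MF B k0 len c c' ℓ ρ C Λ)
    (hf : Fins β (Ft N r ρ Λ F) mF' MF') {y : E} (hy : Metric.infDist y N ≤ 3 * ρ) (v : E) :
    Ft N r ρ Λ F (tau N r (3 * ρ) (4 * ρ) y) (fderiv ℝ (tau N r (3 * ρ) (4 * ρ)) y v) +
      1 / (2 * ρ * MF') * |(inner ℝ (y - tau N r (3 * ρ) (4 * ρ) y)
        (v - fderiv ℝ (tau N r (3 * ρ) (4 * ρ)) y v) : ℝ)| ≤ Ft N r ρ Λ F y v := by
  have hρ := h.ρ_pos
  have hR5 := h.ρ_lt
  have htb := h.tb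
  have q0 : 0 < 3 * ρ := by linarith
  have q1 : 3 * ρ < 4 * ρ := by linarith
  have q2 : 4 * ρ < R := by linarith
  have q3 : 2 * ρ < R := by linarith
  have hyR : Metric.infDist y N < R := by linarith
  have hy4 : Metric.infDist y N ≤ 4 * ρ := by linarith
  rw [htb.tau_eq q0.le q1 q2 hy, A8a_fd htb q0 q1 q2 hy,
    htb.Ft_tan h.fn hρ q3 Λ (htb.tan hyR v), inner_sub_right, htb.orth hyR v, sub_zero]
  exact h.gain hf hy4 v

theorem Ext.proj (h : Ext β N r R F mF MF B k0 len c c' ℓ ρ C Λ) (hf : Fins β (Ft N r ρ Λ F) mF' MF')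
    {z : E} {u : ℝ → E} (hu : Adm u) {a b : ℝ} (hab : a ≤ b)
    (hx : ∀ t ∈ Icc a b, Metric.infDist (traj a z u t) N ≤ 3 * ρ) :
    ∃ u' : ℝ → E, Adm u' ∧ (∀ t ∈ Icc a b, traj a (r z) u' t = r (traj a z u t)) ∧
      ∀ s ∈ Icc a b, ∀ s' ∈ Icc a b,
        (∫ t in a..b, Ft N r ρ Λ F (traj a (r z) u' t) (u' t)) -
            (Bt N r ρ B ℓ (r (traj a z u b)) - Bt N r ρ B ℓ (r z)) +
          1 / (4 * ρ * MF') * |Metric.infDist (traj a z u s) N ^ 2 - Metric.infDist (traj a z u s') N ^ 2| ≤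
        (∫ t in a..b, Ft N r ρ Λ F (traj a z u t) (u t)) -
          (Bt N r ρ B ℓ (traj a z u b) - Bt N r ρ B ℓ z) := by
  have hρ := h.ρ_pos
  have hR5 := h.ρ_lt
  have htb := h.tb
  have hMF : 0 < MF' := hf.mF_pos.trans_le hf.mF_le
  have q0 : 0 < 3 * ρ := by linarith
  have q1 : 3 * ρ < 4 * ρ := by linarith
  have q2 : 4 * ρ < R := by linarith
  have hT1 : ContDiff ℝ 1 (tau N r (3 * ρ) (4 * ρ)) :=
    (htb.tau_smooth q0.le q1 q2).of_le (by simp)
  obtain ⟨K, hK0, hK⟩ := A8a_bd htb q0 q1 q2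
  have hcT : Continuous (fun y : E × E => fderiv ℝ (tau N r (3 * ρ) (4 * ρ)) y.1 y.2) :=
    ((hT1.continuous_fderiv one_ne_zero).comp continuous_fst).clm_apply continuous_snd
  have hza : traj a z u a = z := by simp [traj]
  have hz3 : Metric.infDist z N ≤ 3 * ρ := by
    have := hx a (left_mem_Icc.2 hab)
    rwa [hza] at this
  have hTz : tau N r (3 * ρ) (4 * ρ) z = r z := htb.tau_eq q0.le q1 q2 hz3
  have htr : ∀ t, traj a (r z)
      (fun t => fderiv ℝ (tau N r (3 * ρ) (4 * ρ)) (traj a z u t) (u t)) t =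
      tau N r (3 * ρ) (4 * ρ) (traj a z u t) := by
    intro t
    rw [A8a_ftc hT1 hu a z t, hTz]
    rfl
  have hu' : Adm (fun t => fderiv ℝ (tau N r (3 * ρ) (4 * ρ)) (traj a z u t) (u t)) := by
    obtain ⟨hum, Cu, hCu⟩ := id hu
    refine ⟨hcT.comp_stronglyMeasurable ((traj_cont hu a z).stronglyMeasurable.prodMk hum),
      K * Cu, fun t => ?_⟩
    exact (ContinuousLinearMap.le_opNorm _ (u t)).trans
      (mul_le_mul (hK _) (hCu t) (norm_nonneg _) hK0)
  refine ⟨_, hu', fun t ht => (htr t).trans (htb.tau_eq q0.le q1 q2 (hx t ht)),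
    fun s hs s' hs' => ?_⟩
  -- the endpoints
  have hBr : ∀ y, Metric.infDist y N ≤ 3 * ρ → Bt N r ρ B ℓ (r y) = Bt N r ρ B ℓ y := by
    intro y hy
    have hyR : Metric.infDist y N < R := by linarith
    have hry : r y ∈ N := htb.mem y hyR
    rw [htb.Bt_eq hρ q2 ℓ hy, htb.Bt_eq hρ q2 ℓ (by rw [Metric.infDist_zero_of_mem hry]; exact q0.le),
      htb.r_eq hry]
  rw [hBr _ (hx b (right_mem_Icc.2 hab)), hBr z hz3]
  have hgen := A8a_gen (Ff := Ft N r ρ Λ F) hf.cont hT1 hu hab (z := z) (κ := 1 / (2 * ρ * MF'))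
    (by positivity) (D := fun t => Metric.infDist (traj a z u t) N)
    (fun t ht => by
      have hy := hx t ht
      have hyR : Metric.infDist (traj a z u t) N < R := by linarith
      rw [htb.tau_eq q0.le q1 q2 hy, htb.dist_eq hyR])
    (fun t ht => A8a_pt h hf (hx t ht) (u t)) hs hs'
  have e1 : 1 / (2 * ρ * MF') / 2 = 1 / (4 * ρ * MF') := by
    rw [div_div]
    congr 1
    ring
  rw [e1] at hgen
  have e2 : (∫ t in a..b, Ft N r ρ Λ F (traj a (r z)
      (fun t => fderiv ℝ (tau N r (3 * ρ) (4 * ρ)) (traj a z u t) (u t)) t)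
      (fderiv ℝ (tau N r (3 * ρ) (4 * ρ)) (traj a z u t) (u t))) =
      ∫ t in a..b, Ft N r ρ Λ F (tau N r (3 * ρ) (4 * ρ) (traj a z u t))
      (fderiv ℝ (tau N r (3 * ρ) (4 * ρ)) (traj a z u t) (u t)) := by
    refine intervalIntegral.integral_congr fun t _ => ?_
    simp only [htr t]
  have e3 := e2.symm ▸ hgen
  have e4 := sub_le_sub_right e3 (Bt N r ρ B ℓ (traj a z u b) - Bt N r ρ B ℓ z)
  rwa [add_sub_right_comm] at e4

end EscM
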