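import Pool.Agent.EscM.A8a
import Pool.Agent.EscG.C1
import Pool.Agent.EscG.C2
import Pool.Agent.EscK.Len

set_option autoImplicit false

/-!
Project EscM, module A8b: passing costs and the projection.
`D = gdC ...`, `D.j x y` is the infimum over the fast lattice of `fd - (B-increment)`. For `ε > 0` take `n` (`exists_j_lt`) and a control with length at most `fd + ε` (`EscG.exists_path_fd`), from `x` to `y + lv n`;
its cost is `< √Λ/2 ρ` for small `ε`, so by `Ext.shell` it stays in `{infDist < 3 ρ}` (one of its end points is in `N`: `Tb.perN_Lam`); `Ext.proj`; the length of the projected path is at least `fd (r x) (r y + lv n)`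
(`EscK.fd_le_len`), `r (y + lv n) = r y + lv n`. Let `ε → 0`.
-/

noncomputable section

namespace EscM

open MeasureTheory Set Filter Topology Esc EscF EscG EscK
open scoped ContDiff

variable {ι : Type} [Fintype ι] {E : Type*} [NormedAddCommGroup E] [InnerProductSpace ℝ E]
  [FiniteDimensional ℝ E] {β : Module.Basis ι ℝ E} {N : Set E} {r : E → E} {R : ℝ}
variable {F : E → E → ℝ} {mF MF : ℝ} {B : E → ℝ} {k0 : ι} {len : ℝ} {c c' : ℝ → E} {ℓ : E →L[ℝ] ℝ}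
  {ρ C Λ mF' MF' : ℝ}

/-- the statement up to `2 ε` -/
theorem A8b_key (h : Ext β N r R F mF MF B k0 len c c' ℓ ρ C Λ) (hf : Fins β (Ft N r ρ Λ F) mF' MF')
    (g : E) {x y : E} (hxy : x ∈ N ∨ y ∈ N) {ε : ℝ} (hε : 0 < ε)
    (hj : (gdC β (Ft N r ρ Λ F) mF' MF' (Bt N r ρ B ℓ) k0 len c g).j x y + 2 * ε < √Λ / 2 * ρ) :
    Metric.infDist x N < 3 * ρ ∧ Metric.infDist y N < 3 * ρ ∧
      (gdC β (Ft N r ρ Λ F) mF' MF' (Bt N r ρ B ℓ) k0 len c g).j (r x) (r y) +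
          1 / (4 * ρ * MF') * |Metric.infDist x N ^ 2 - Metric.infDist y N ^ 2| ≤
        (gdC β (Ft N r ρ Λ F) mF' MF' (Bt N r ρ B ℓ) k0 len c g).j x y + 2 * ε := by
  have hC := h.calC hf
  obtain ⟨n, hn⟩ : ∃ n : Fin 1 → ℤ,
      fd (Ft N r ρ Λ F) x (y + lv (fun _ : Fin 1 => β k0) n) -
        (Bt N r ρ B ℓ (y + lv (fun _ : Fin 1 => β k0) n) - Bt N r ρ B ℓ x) <
        (gdC β (Ft N r ρ Λ F) mF' MF' (Bt N r ρ B ℓ) k0 len c g).j x y + ε :=
    exists_lt_of_ciInf_lt (show (gdC β (Ft N r ρ Λ F) mF' MF' (Bt N r ρ B ℓ) k0 len c g).j x y <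
      (gdC β (Ft N r ρ Λ F) mF' MF' (Bt N r ρ B ℓ) k0 len c g).j x y + ε by linarith)
  obtain ⟨w, hw⟩ : ∃ w, w = lv (fun _ : Fin 1 => β k0) n := ⟨_, rfl⟩
  have hwL : w ∈ Submodule.span ℤ (Set.range β) := by
    rw [hw]
    unfold lv
    refine Submodule.sum_mem _ fun i _ => ?_
    rw [Int.cast_smul_eq_zsmul]
    exact Submodule.smul_mem _ _ (Submodule.subset_span ⟨k0, rfl⟩)
  rw [← hw] at hn
  obtain ⟨u, hu, hx1, -, hi⟩ := exists_path_fd hf hε x (y + w)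
  have hx0 : traj 0 x u 0 = x := by simp [traj]
  have hcost : (∫ t in (0:ℝ)..1, Ft N r ρ Λ F (traj 0 x u t) (u t)) -
      (Bt N r ρ B ℓ (traj 0 x u 1) - Bt N r ρ B ℓ x) <
        (gdC β (Ft N r ρ Λ F) mF' MF' (Bt N r ρ B ℓ) k0 len c g).j x y + 2 * ε := by
    rw [hx1]
    linarith
  have hin : ∀ t ∈ Icc (0:ℝ) 1, Metric.infDist (traj 0 x u t) N < 3 * ρ := by
    intro t ht
    by_contra hcon
    push Not at hcon
    have h0 : (0:ℝ) ∈ Icc (0:ℝ) 1 := ⟨le_rfl, zero_le_one⟩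
    have h1 : (1:ℝ) ∈ Icc (0:ℝ) 1 := ⟨zero_le_one, le_rfl⟩
    rcases hxy with hN | hN
    · have := h.shell hf hu (z := x) zero_le_one h0 ht (by rw [hx0]; exact hN) hcon
      linarith
    · have := h.shell hf hu (z := x) zero_le_one h1 ht
        (by rw [hx1]; exact (h.tb.perN_Lam hwL y).2 hN) hcon
      linarith
  have hix : Metric.infDist x N < 3 * ρ := by
    have := hin 0 ⟨le_rfl, zero_le_one⟩
    rwa [hx0] at this
  have hiyw : Metric.infDist (y + w) N = Metric.infDist y N := h.tb.infDist_Lam hwL y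
  have hiy : Metric.infDist y N < 3 * ρ := by
    have := hin 1 ⟨zero_le_one, le_rfl⟩
    rwa [hx1, hiyw] at this
  refine ⟨hix, hiy, ?_⟩
  obtain ⟨u', hu', htr, hpr⟩ := h.proj hf hu (z := x) zero_le_one fun t ht => (hin t ht).le
  have hp := hpr 0 ⟨le_rfl, zero_le_one⟩ 1 ⟨zero_le_one, le_rfl⟩
  have hρ := h.ρ_pos
  have hρR := h.ρ_lt
  have hry : r (y + w) = r y + w := h.tb.r_Lam hwL (by linarith)
  have ht1 : traj 0 (r x) u' 1 = r y + w := by
    rw [htr 1 ⟨zero_le_one, le_rfl⟩, hx1, hry]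
  have hlen := fd_le_len hf hu' (zero_le_one' ℝ) (r x)
  rw [ht1] at hlen
  rw [hx0, hx1, hiyw, hry] at hp
  have hjl := B2.j_le hC g (r x) (r y) n
  rw [← hw] at hjl
  rw [hx1] at hcost
  linarith

theorem Ext.leg (h : Ext β N r R F mF MF B k0 len c c' ℓ ρ C Λ) (hf : Fins β (Ft N r ρ Λ F) mF' MF')
    (g : E) {x y : E} (hxy : x ∈ N ∨ y ∈ N)
    (hj : (gdC β (Ft N r ρ Λ F) mF' MF' (Bt N r ρ B ℓ) k0 len c g).j x y < √Λ / 2 * ρ) :
    Metric.infDist x N < 3 * ρ ∧ Metric.infDist y N < 3 * ρ ∧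
      (gdC β (Ft N r ρ Λ F) mF' MF' (Bt N r ρ B ℓ) k0 len c g).j (r x) (r y) +
          1 / (4 * ρ * MF') * |Metric.infDist x N ^ 2 - Metric.infDist y N ^ 2| ≤
        (gdC β (Ft N r ρ Λ F) mF' MF' (Bt N r ρ B ℓ) k0 len c g).j x y := by
  obtain ⟨δ, hδ⟩ : ∃ δ, δ = √Λ / 2 * ρ -
    (gdC β (Ft N r ρ Λ F) mF' MF' (Bt N r ρ B ℓ) k0 len c g).j x y := ⟨_, rfl⟩
  have hδ0 : 0 < δ := by linarith
  have h1 := A8b_key h hf g hxy (ε := δ / 4) (by linarith) (by linarith)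
  refine ⟨h1.1, h1.2.1, le_of_forall_pos_le_add fun ε hε => ?_⟩
  have hm : 0 < min (ε / 2) (δ / 4) := lt_min (by linarith) (by linarith)
  have hm1 : min (ε / 2) (δ / 4) ≤ ε / 2 := min_le_left _ _
  have hm2 : min (ε / 2) (δ / 4) ≤ δ / 4 := min_le_right _ _
  have h2 := A8b_key h hf g hxy hm (by linarith)
  linarith [h2.2.2]

end EscM
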