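import Pool.Agent.EscM.A8b

set_option autoImplicit false

/-!
Project EscM, module A8d: optimal passages are near `N`.
`D = gdC ...`, `D.Z = range c ⊆ N`, `D.q0 = D.q1 = c 0 ∈ N`, `D.U = D.j (c 0) (c 0 + g)`, `g` a lattice vector (so `c 0 + g ∈ N`, `r (c 0 + g) = c 0 + g`). If `j (c 0) x + j x (c 0 + g) ≤ U + δ0`, `δ0` small, both terms are `< √Λ/2 ρ` (`j ≥ 0`), so `Ext.leg` twice:
`U ≤ j (c 0) (r x) + j (r x) (c 0 + g) ≤ U + δ0 - 2/(4 ρ MF') infDist x ²` (`j_tri`).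
-/

noncomputable section

namespace EscM

open MeasureTheory Set Filter Topology Esc EscF EscG EscK
open scoped ContDiff

variable {ι : Type} [Fintype ι] {E : Type*} [NormedAddCommGroup E] [InnerProductSpace ℝ E]
  [FiniteDimensional ℝ E] {β : Module.Basis ι ℝ E} {N : Set E} {r : E → E} {R : ℝ}
variable {F : E → E → ℝ} {mF MF : ℝ} {B : E → ℝ} {k0 : ι} {len : ℝ} {c c' : ℝ → E} {ℓ : E →L[ℝ] ℝ}
  {ρ C Λ mF' MF' : ℝ}

theorem Ext.tube (h : Ext β N r R F mF MF B k0 len c c' ℓ ρ C Λ) (hf : Fins β (Ft N r ρ Λ F) mF' MF')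
    {g : E} (hg : g ∈ Submodule.span ℤ (Set.range β))
    (hU : (gdC β (Ft N r ρ Λ F) mF' MF' (Bt N r ρ B ℓ) k0 len c g).U < √Λ / 2 * ρ) {δ : ℝ} (hδ : 0 < δ) :
    ∃ δ0 : ℝ, 0 < δ0 ∧ ∀ x, (Metric.infDist x (Set.range c) ≤ δ0 ∨
      (gdC β (Ft N r ρ Λ F) mF' MF' (Bt N r ρ B ℓ) k0 len c g).j (c 0) x +
          (gdC β (Ft N r ρ Λ F) mF' MF' (Bt N r ρ B ℓ) k0 len c g).j x (c 0 + g) ≤
        (gdC β (Ft N r ρ Λ F) mF' MF' (Bt N r ρ B ℓ) k0 len c g).U + δ0) → Metric.infDist x N < δ := by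
  have hok := gdC_ok0 (h.calC hf) g
  have hUd : (gdC β (Ft N r ρ Λ F) mF' MF' (Bt N r ρ B ℓ) k0 len c g).U =
    (gdC β (Ft N r ρ Λ F) mF' MF' (Bt N r ρ B ℓ) k0 len c g).j (c 0) (c 0 + g) := rfl
  have hleg := fun {x y : E} => h.leg hf g (x := x) (y := y)
  generalize hD : gdC β (Ft N r ρ Λ F) mF' MF' (Bt N r ρ B ℓ) k0 len c g = D at *
  have hMF : 0 < MF' := lt_of_lt_of_le hf.mF_pos hf.mF_le
  have hρ := h.ρ_pos
  have hc0 : c 0 ∈ N := h.cl.mem 0
  have hcg : c 0 + g ∈ N := (h.tb.perN_Lam hg (c 0)).2 hc0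
  have hk : 0 < 2 * ρ * MF' := by positivity
  refine ⟨min (δ / 2) (min ((√Λ / 2 * ρ - D.U) / 2) (δ ^ 2 / 2 / (2 * ρ * MF'))), ?_, ?_⟩
  · refine lt_min (by linarith) (lt_min (by linarith) (by positivity))
  · intro x hx
    set δ0 := min (δ / 2) (min ((√Λ / 2 * ρ - D.U) / 2) (δ ^ 2 / 2 / (2 * ρ * MF')))
    have e1 : δ0 ≤ δ / 2 := min_le_left _ _
    have e2 : δ0 ≤ (√Λ / 2 * ρ - D.U) / 2 := (min_le_right _ _).trans (min_le_left _ _)
    have e3 : δ0 ≤ δ ^ 2 / 2 / (2 * ρ * MF') := (min_le_right _ _).trans (min_le_right _ _)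
    rcases hx with hx | hx
    · have : Metric.infDist x N ≤ Metric.infDist x (Set.range c) :=
        Metric.infDist_le_infDist_of_subset (by rintro _ ⟨t, rfl⟩; exact h.cl.mem t) ⟨c 0, 0, rfl⟩
      linarith
    · have n1 := j_nonneg hok (c 0) x
      have n2 := j_nonneg hok x (c 0 + g)
      have l1 := hleg (x := c 0) (y := x) (Or.inl hc0) (by linarith)
      have l2 := hleg (x := x) (y := c 0 + g) (Or.inr hcg) (by linarith)
      rw [h.tb.r_eq hc0, Metric.infDist_zero_of_mem hc0] at l1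
      rw [h.tb.r_eq hcg, Metric.infDist_zero_of_mem hcg] at l2
      have t := j_tri hok (c 0) (r x) (c 0 + g)
      have a1 := l1.2.2
      have a2 := l2.2.2
      have b1 : |(0:ℝ) ^ 2 - Metric.infDist x N ^ 2| = Metric.infDist x N ^ 2 := by
        rw [zero_pow two_ne_zero, zero_sub, abs_neg, abs_of_nonneg (sq_nonneg _)]
      have b2 : |Metric.infDist x N ^ 2 - (0:ℝ) ^ 2| = Metric.infDist x N ^ 2 := by
        rw [zero_pow two_ne_zero, sub_zero, abs_of_nonneg (sq_nonneg _)]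
      rw [b1] at a1
      rw [b2] at a2
      have s : 2 * (1 / (4 * ρ * MF') * Metric.infDist x N ^ 2) ≤ δ0 := by linarith
      have s2 : Metric.infDist x N ^ 2 / (2 * ρ * MF') ≤ δ0 := by
        refine le_trans (le_of_eq ?_) s
        field_simp
        ring
      have s3 : Metric.infDist x N ^ 2 ≤ δ ^ 2 / 2 := by
        have := s2.trans e3
        rwa [div_le_div_iff_of_pos_right hk] at this
      have s4 : Metric.infDist x N ^ 2 < δ ^ 2 := by nlinarith [sq_pos_of_pos hδ]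
      exact lt_of_pow_lt_pow_left₀ 2 hδ.le s4

end EscM
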