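import Pool.Agent.EscM.A3
import Pool.Agent.EscG.F2a

set_option autoImplicit false

/-!
Project EscM, module A9: the class of potentials.
`S.mem G := Sm β G ∧ ∃ δ, ...`. `add`, `smul`, `zero`: minimum of the two `δ`. `bump`: for `r' ≤ r0` take `b = min (r'/10) (R/2)`, `a = b/2`, `τ = tau N r a b`, so `‖τ x - x‖ ≤ r'/10`, `τ = r` for `infDist ≤ a`,
`τ ∘ r = r`; `g = g0 ∘ τ` where `g0` is a periodic bump with radii `2.2 r'` and `2.8 r'` (`exists_sbump2`, proof as `EscG.exists_sbump` in `EscG/F2a.lean`, with `ContDiffBump` of radii `a < b`).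
-/

noncomputable section

namespace EscM

open MeasureTheory Set Filter Topology Esc EscF EscG EscK
open scoped ContDiff

variable {ι : Type} [Fintype ι] {E : Type*} [NormedAddCommGroup E] [InnerProductSpace ℝ E]
  [FiniteDimensional ℝ E] {β : Module.Basis ι ℝ E} {N : Set E} {r : E → E} {R : ℝ}

/-- periodic bumps with arbitrary radii -/
theorem exists_sbump2 (β : Module.Basis ι ℝ E) : ∃ r0 : ℝ, 0 < r0 ∧ ∀ a b, 0 < a → a < b → b ≤ r0 →
    ∀ c : E, ∃ g : E → ℝ, ContDiff ℝ ∞ g ∧ (∀ i x, g (x + β i) = g x) ∧ (∀ x, 0 ≤ g x ∧ g x ≤ 1) ∧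
      (∀ x, (∃ v ∈ Submodule.span ℤ (Set.range β), ‖x + v - c‖ ≤ a) → g x = 1) ∧
      ∀ x, (∀ v ∈ Submodule.span ℤ (Set.range β), b ≤ ‖x + v - c‖) → g x = 0 := by
  classical
  obtain ⟨δ, hδ, hdis⟩ := F2a_discrete β
  refine ⟨δ / 16, by positivity, fun a b ha hab hb0 c => ?_⟩
  have hb : 0 < b := ha.trans hab
  set Λ := Submodule.span ℤ (Set.range β) with hΛ
  let φ : ContDiffBump c := ⟨a, b, ha, hab⟩
  have hφ1 : ∀ y, ‖y - c‖ ≤ a → φ y = 1 := by
    intro y hy
    apply φ.one_of_mem_closedBall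
    rw [mem_closedBall_iff_norm]
    exact hy
  have hφ0 : ∀ y, b ≤ ‖y - c‖ → φ y = 0 := by
    intro y hy
    apply φ.zero_of_le_dist
    rw [dist_eq_norm]
    exact hy
  -- uniqueness of the translate
  have huq : ∀ x, ∀ v ∈ Λ, ∀ v' ∈ Λ, ‖x + v - c‖ < 3 * b → ‖x + v' - c‖ < 3 * b → v = v' := by
    intro x v hv v' hv' h1 h2
    have h3 : v - v' = 0 := by
      apply hdis _ (Λ.sub_mem hv hv')
      have e : v - v' = (x + v - c) - (x + v' - c) := by abel
      rw [e]
      calc ‖(x + v - c) - (x + v' - c)‖ ≤ ‖x + v - c‖ + ‖x + v' - c‖ := norm_sub_le _ _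
        _ < 3 * b + 3 * b := add_lt_add h1 h2
        _ ≤ δ := by linarith
    exact sub_eq_zero.mp h3
  let g : E → ℝ := fun x => if h : ∃ v ∈ Λ, ‖x + v - c‖ < b then φ (x + h.choose) else 0
  have hA : ∀ x, ∀ v ∈ Λ, ‖x + v - c‖ < 3 * b → g x = φ (x + v) := by
    intro x v hv h
    by_cases h' : ∃ v ∈ Λ, ‖x + v - c‖ < b
    · have e : g x = φ (x + h'.choose) := dif_pos h'
      have h1 := h'.choose_spec
      have h2 : h'.choose = v := huq x _ h1.1 _ hv (h1.2.trans (by linarith)) h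
      rw [e, h2]
    · have e : g x = 0 := dif_neg h'
      rw [e, hφ0]
      by_contra hc
      exact h' ⟨v, hv, not_le.mp hc⟩
  have hB : ∀ x, (∀ v ∈ Λ, b ≤ ‖x + v - c‖) → g x = 0 := by
    intro x h
    exact dif_neg fun ⟨v, hv, h1⟩ => absurd (h v hv) (not_le.mpr h1)
  refine ⟨g, ?_, ?_, ?_, ?_, hB⟩
  · rw [contDiff_iff_contDiffAt]
    intro x0
    have hnb : ∀ᶠ x in 𝓝 x0, ‖x - x0‖ < b / 2 := by
      have h1 := Metric.ball_mem_nhds x0 (half_pos hb)
      filter_upwards [h1] with x hx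
      rwa [← dist_eq_norm]
    by_cases h : ∃ v ∈ Λ, ‖x0 + v - c‖ < 2 * b
    · obtain ⟨v, hv, h1⟩ := h
      have h2 : g =ᶠ[𝓝 x0] fun x => φ (x + v) := by
        filter_upwards [hnb] with x hx
        apply hA x v hv
        have e : x + v - c = (x - x0) + (x0 + v - c) := by abel
        rw [e]
        calc ‖(x - x0) + (x0 + v - c)‖ ≤ ‖x - x0‖ + ‖x0 + v - c‖ := norm_add_le _ _
          _ < b / 2 + 2 * b := add_lt_add hx h1
          _ ≤ 3 * b := by linarith
      refine ContDiffAt.congr_of_eventuallyEq ?_ h2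
      have h3 : ContDiff ℝ ∞ (fun x : E => φ (x + v)) := by
        apply φ.contDiff.comp
        exact contDiff_id.add contDiff_const
      exact h3.contDiffAt
    · have h2 : g =ᶠ[𝓝 x0] fun _ => 0 := by
        filter_upwards [hnb] with x hx
        apply hB x
        intro v hv
        by_contra hc
        apply h
        refine ⟨v, hv, ?_⟩
        have e : x0 + v - c = (x + v - c) - (x - x0) := by abel
        rw [e]
        calc ‖(x + v - c) - (x - x0)‖ ≤ ‖x + v - c‖ + ‖x - x0‖ := norm_sub_le _ _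
          _ < b + b / 2 := add_lt_add (not_le.mp hc) hx
          _ ≤ 2 * b := by linarith
      exact contDiffAt_const.congr_of_eventuallyEq h2
  · intro i x
    have hi : β i ∈ Λ := Submodule.subset_span ⟨i, rfl⟩
    by_cases h : ∃ v ∈ Λ, ‖x + v - c‖ < 3 * b
    · obtain ⟨v, hv, h1⟩ := h
      have e : x + β i + (v - β i) = x + v := by abel
      rw [hA x v hv h1, hA (x + β i) (v - β i) (Λ.sub_mem hv hi) (by rw [e]; exact h1), e]
    · rw [hB x, hB (x + β i)]
      · intro v hv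
        by_contra hc
        apply h
        refine ⟨β i + v, Λ.add_mem hi hv, ?_⟩
        rw [← add_assoc]
        exact (not_le.mp hc).trans (by linarith)
      · intro v hv
        by_contra hc
        exact h ⟨v, hv, (not_le.mp hc).trans (by linarith)⟩
  · intro x
    by_cases h : ∃ v ∈ Λ, ‖x + v - c‖ < 3 * b
    · obtain ⟨v, hv, h1⟩ := h
      rw [hA x v hv h1]
      exact ⟨φ.nonneg, φ.le_one⟩
    · rw [hB x]
      · exact ⟨le_rfl, zero_le_one⟩
      · intro v hv
        by_contra hc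
        exact h ⟨v, hv, (not_le.mp hc).trans (by linarith)⟩
  · rintro x ⟨v, hv, h1⟩
    rw [hA x v hv (h1.trans_lt (by linarith))]
    exact hφ1 _ h1

/-- the bumps of the class -/
theorem Tb.A9_bump (h : Tb β N r R) : ∃ r0 : ℝ, 0 < r0 ∧ ∀ r', 0 < r' → r' ≤ r0 → ∀ c : E,
    ∃ g : E → ℝ, ContDiff ℝ ∞ g ∧ (∀ i x, g (x + β i) = g x) ∧ (∀ x, 0 ≤ g x ∧ g x ≤ 1) ∧
      (∀ x, (∃ v ∈ Submodule.span ℤ (Set.range β), ‖x + v - c‖ ≤ 2 * r') → g x = 1) ∧
      (∀ x, (∀ v ∈ Submodule.span ℤ (Set.range β), 3 * r' ≤ ‖x + v - c‖) → g x = 0) ∧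
      ∃ δ : ℝ, 0 < δ ∧ ∀ x, Metric.infDist x N < δ → g x = g (r x) := by
  obtain ⟨r0, hr0, hbump⟩ := exists_sbump2 β
  refine ⟨r0 / 3, by positivity, fun r' hr' hle c => ?_⟩
  obtain ⟨g0, hg0, hper0, h01, hone, hzero⟩ := hbump (2.2 * r') (2.8 * r') (by positivity)
    (by linarith) (by linarith) c
  set b := min (r' / 10) (R / 2) with hbdef
  have hb0 : 0 < b := lt_min (by positivity) (half_pos h.R_pos)
  have hb1 : b ≤ r' / 10 := min_le_left _ _
  have hbR : b < R := (min_le_right _ _).trans_lt (by linarith [h.R_pos])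
  have ha0 : 0 < b / 2 := half_pos hb0
  have hab : b / 2 < b := by linarith
  have hnear : ∀ x, ‖tau N r (b / 2) b x - x‖ ≤ r' / 10 := fun x =>
    (h.tau_near hb0.le hbR x).trans hb1
  refine ⟨fun x => g0 (tau N r (b / 2) b x), hg0.comp (h.tau_smooth ha0.le hab hbR), ?_,
    fun x => h01 _, ?_, ?_, b / 2, ha0, ?_⟩
  · intro i x
    have hi : β i ∈ Submodule.span ℤ (Set.range β) := Submodule.subset_span ⟨i, rfl⟩
    simp only [h.tau_Lam hbR hi x, hper0]
  · rintro x ⟨v, hv, h1⟩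
    refine hone _ ⟨v, hv, ?_⟩
    have e : tau N r (b / 2) b x + v - c = (tau N r (b / 2) b x - x) + (x + v - c) := by abel
    rw [e]
    refine (norm_add_le _ _).trans ?_
    have := hnear x
    linarith
  · intro x hx
    refine hzero _ fun v hv => ?_
    have h1 := hx v hv
    have e : x + v - c = (tau N r (b / 2) b x + v - c) - (tau N r (b / 2) b x - x) := by abel
    have h2 : ‖x + v - c‖ ≤ ‖tau N r (b / 2) b x + v - c‖ + ‖tau N r (b / 2) b x - x‖ := by
      conv_lhs => rw [e]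
      exact norm_sub_le _ _
    have := hnear x
    linarith
  · intro x hx
    have hxR : Metric.infDist x N < R := hx.trans (by linarith)
    have hrx : r x ∈ N := h.mem x hxR
    have h1 : tau N r (b / 2) b x = r x := h.tau_eq ha0.le hab hbR hx.le
    have h2 : tau N r (b / 2) b (r x) = r (r x) := by
      apply h.tau_eq ha0.le hab hbR
      rw [Metric.infDist_zero_of_mem hrx]
      exact ha0.le
    simp only [h1, h2, h.r_eq hrx]

theorem Tb.exists_scl (h : Tb β N r R) : ∃ S : SCl β, ∀ G, S.mem G ↔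
    (Sm β G ∧ ∃ δ : ℝ, 0 < δ ∧ ∀ x, Metric.infDist x N < δ → ∀ t, G x t = G (r x) t) := by
  refine ⟨{ mem := fun G => Sm β G ∧ ∃ δ : ℝ, 0 < δ ∧ ∀ x, Metric.infDist x N < δ →
              ∀ t, G x t = G (r x) t
            sm := fun G hG => hG.1
            zero := ⟨⟨contDiff_const, fun _ _ _ => rfl, fun _ _ => rfl⟩, 1, one_pos,
              fun _ _ _ => rfl⟩
            add := ?_
            smul := ?_
            bump := ?_ }, fun G => Iff.rfl⟩
  · rintro G G' ⟨hG, δ, hδ, h1⟩ ⟨hG', δ', hδ', h2⟩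
    refine ⟨⟨hG.smooth.add hG'.smooth, fun i x t => ?_, fun x t => ?_⟩, min δ δ',
      lt_min hδ hδ', fun x hx t => ?_⟩
    · simp only [hG.per, hG'.per]
    · simp only [hG.pert, hG'.pert]
    · simp only [h1 x (hx.trans_le (min_le_left _ _)) t, h2 x (hx.trans_le (min_le_right _ _)) t]
  · rintro c G ⟨hG, δ, hδ, h1⟩
    refine ⟨⟨contDiff_const.mul hG.smooth, fun i x t => ?_, fun x t => ?_⟩, δ, hδ,
      fun x hx t => ?_⟩
    · simp only [hG.per]
    · simp only [hG.pert]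
    · simp only [h1 x hx t]
  · obtain ⟨r0, hr0, hb⟩ := h.A9_bump
    refine ⟨r0, hr0, fun r' hr' hle c => ?_⟩
    obtain ⟨g, hg, hper, h01, hone, hzero, δ, hδ, hrad⟩ := hb r' hr' hle c
    refine ⟨g, hg, hper, h01, hone, hzero, fun θ hθ hθp => ⟨⟨?_, ?_, ?_⟩, δ, hδ, ?_⟩⟩
    · exact (hθ.comp contDiff_snd).mul (hg.comp contDiff_fst)
    · intro i x t
      simp only [hper]
    · intro x t
      simp only [hθp]
    · intro x hx t
      simp only [hrad x hx]

end EscM
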