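import Pool.Agent.EscF.TDefs
import Pool.Agent.EscN.TDefs

/-!
Outer definitions of project EscM: closed submanifolds `M` of the torus `𝕋ᵐ`, the space `C^k(M × 𝕋)`,
Finsler metrics and Lagrangians on `M`, calibrated closed geodesics, Euler-Lagrange orbits.
-/

namespace EscM

open Filter Topology Set EscF.T
open scoped ContDiff UniformConvergence

/-- A closed submanifold `M` of the torus `𝕋ᵐ = ℝᵐ / ℤᵐ`, given by its preimage `N` in `ℝᵐ`: every point of
a neighbourhood `U` of `N` has a unique nearest point `r x` in `N`, which depends smoothly on `x`. Both `N` and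
`U` are invariant under integer vectors. -/
structure Sub (m : ℕ) where
  N : Set (Vec m)
  U : Set (Vec m)
  r : Vec m → Vec m
  closed : IsClosed N
  isOpen : IsOpen U
  sub : N ⊆ U
  perN : ∀ (n : Fin m → ℤ), ∀ x ∈ N, x + vz n ∈ N
  perU : ∀ (n : Fin m → ℤ), ∀ x ∈ U, x + vz n ∈ U
  smooth : ContDiffOn ℝ ∞ r U
  mem : ∀ x ∈ U, r x ∈ N
  nearest : ∀ x ∈ U, ∀ p ∈ N, p ≠ r x → dist x (r x) < dist x p

variable {m : ℕ}

/-- `v` is tangent to `M` at `x`. -/
def IsTangent (M : Sub m) (x v : Vec m) : Prop := fderiv ℝ M.r x v = v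

/-- A continuous Finsler metric on `M` (not assumed symmetric or convex): a function of the points `x` of `M` and
the tangent vectors `v`. -/
structure IsFinsler (M : Sub m) (F : Vec m → Vec m → ℝ) : Prop where
  cont : ContinuousOn (fun p : Vec m × Vec m => F p.1 p.2) {p | p.1 ∈ M.N ∧ IsTangent M p.1 p.2}
  periodic : ∀ (n : Fin m → ℤ), ∀ x ∈ M.N, ∀ v, IsTangent M x v → F (x + vz n) v = F x v
  hom : ∀ x ∈ M.N, ∀ v, IsTangent M x v → ∀ c : ℝ, 0 ≤ c → F x (c • v) = c * F x v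
  pos : ∀ x ∈ M.N, ∀ v, IsTangent M x v → v ≠ 0 → 0 < F x v

/-- `c` is a simple closed curve in `M`, of unit speed and of length `len`, in the class of the `i`-th basis
vector of `ℤᵐ`. The function `B` on the covering `N` of `M` is of class `C¹`, its differential descends to a
closed one-form on `M` which is bounded by the metric `F`; the one-form and `F` agree along `c`, and, for
nonzero vectors, at no other point of `M`. -/
structure IsCalibrated (M : Sub m) (F : Vec m → Vec m → ℝ) (B : Vec m → ℝ) (i : Fin m) (len : ℝ)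
    (c : ℝ → Vec m) : Prop where
  smooth : ContDiffOn ℝ 1 (fun x => B (M.r x)) M.U
  periods : ∀ n : Fin m → ℤ, ∃ a : ℝ, ∀ x ∈ M.N, B (x + vz n) = B x + a
  le : ∀ x ∈ M.N, ∀ v, IsTangent M x v → fderiv ℝ (fun y => B (M.r y)) x v ≤ F x v
  len_pos : 0 < len
  curve : ContDiff ℝ 1 c
  mem : ∀ t, c t ∈ M.N
  closed : ∀ t, c (t + len) = c t + vz (Pi.single i 1)
  unit : ∀ t, F (c t) (deriv c t) = 1
  cal : ∀ t, B (c t) = B (c 0) + t
  only : ∀ x ∈ M.N, ∀ v, IsTangent M x v → v ≠ 0 → fderiv ℝ (fun y => B (M.r y)) x v = F x v →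
    ∃ (t : ℝ) (n : Fin m → ℤ), x = c t + vz n
  simple : ∀ (s t : ℝ) (n : Fin m → ℤ), c s = c t + vz n → ∃ k : ℤ, s - t = k * len

/-- Some curve in `N` joins `x` to `x + n`, where the integer vector `n` is not a multiple of the `i`-th basis
vector. -/
def HasSecondDirection (M : Sub m) (i : Fin m) (x : Vec m) : Prop :=
  ∃ n : Fin m → ℤ, (∀ k : ℤ, n ≠ Pi.single i k) ∧ JoinedIn M.N x (x + vz n)

/-- `L` is a Lagrangian on `TM × 𝕋` of class `C²`, uniformly convex in the velocity, and `L - F²/2` is Lipschitz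
in the velocity, with Lipschitz constant `O(1 + |v|)` in position and time. -/
structure IsNear (M : Sub m) (F : Vec m → Vec m → ℝ) (L : Lag m) : Prop where
  smooth : ContDiffOn ℝ 2 (fun q : Vec m × Vec m × ℝ => L (M.r q.1, fderiv ℝ M.r q.1 q.2.1, q.2.2))
    {q | q.1 ∈ M.U}
  periodic : ∀ (n : Fin m → ℤ) (l : ℤ), ∀ x ∈ M.N, ∀ v t, IsTangent M x v →
    L (x + vz n, v, t + l) = L (x, v, t)
  convex : ∃ c : ℝ, 0 < c ∧ ∀ x ∈ M.N, ∀ v w t, IsTangent M x v → IsTangent M x w →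
    c * ‖w‖ ^ 2 ≤ iteratedFDeriv ℝ 2 (fun u => L (x, fderiv ℝ M.r x u, t)) v ![w, w]
  near : ∃ C : ℝ, ∀ x ∈ M.N, ∀ v t, IsTangent M x v → ∀ x' ∈ M.N, ∀ v' t', IsTangent M x' v' →
    |(L (x, v, t) - F x v ^ 2 / 2) - (L (x', v', t') - F x' v' ^ 2 / 2)| ≤
      C * (‖v - v'‖ + (1 + ‖v‖) * (‖x - x'‖ + |t - t'|))

/-- The space `C^k(M × 𝕋)`, `k = ∞` allowed. An element is a function on `N × ℝ`, extended to `U × ℝ` by
`f(x, t) = f(r x, t)` and by zero outside. -/
structure Pot (M : Sub m) (k : ℕ∞) where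
  toFun : Fun m
  contDiff : ContDiffOn ℝ k toFun {q | q.1 ∈ M.U}
  ext : ∀ x ∈ M.U, ∀ t, toFun (x, t) = toFun (M.r x, t)
  out : ∀ x, x ∉ M.U → ∀ t, toFun (x, t) = 0
  periodic : ∀ (n : Fin m → ℤ) (l : ℤ), ∀ x ∈ M.U, ∀ t, toFun (x + vz n, t + l) = toFun (x, t)

/-- the manifold `U × ℝ` -/
abbrev Dom (M : Sub m) := {q : Vec m × ℝ // q.1 ∈ M.U}

/-- the sets `K × ℝ`, `K` a compact subset of `U` -/
def slabs (M : Sub m) : Set (Set (Dom M)) :=
  {A | ∃ K : Set (Vec m), IsCompact K ∧ K ⊆ M.U ∧ A = {q | q.1.1 ∈ K}}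

/-- The derivatives of order `j ≤ k` on `U × ℝ`. -/
noncomputable def jet {M : Sub m} {k : ℕ∞} (f : Pot M k) : EscN.T.Jets (Vec m × ℝ) (slabs M) k :=
  EscN.T.jets Subtype.val (slabs M) k f.toFun

/-- The `C^k` topology: uniform convergence of the derivatives of order `j ≤ k` on the sets `K × ℝ`,
`K ⊆ U` compact. -/
noncomputable instance (M : Sub m) (k : ℕ∞) : TopologicalSpace (Pot M k) :=
  TopologicalSpace.induced jet (EscN.T.jetsTop (Vec m × ℝ) (slabs M) k)

/-- `x` is an orbit, on `(0,∞)`, of the Euler-Lagrange flow of `L` on `M`: it is a `C²` curve in `N`, and the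
action is stationary for all `C²` variations in `N` on compact time intervals with fixed end points. -/
def IsExtremal (M : Sub m) (L : Lag m) (x : ℝ → Vec m) : Prop :=
  ContDiffOn ℝ 2 x (Ioi 0) ∧ (∀ t, 0 < t → x t ∈ M.N) ∧
    ∀ (a b : ℝ) (X : ℝ × ℝ → Vec m), 0 < a → a < b → ContDiff ℝ 2 X → (∀ q, X q ∈ M.N) →
      (∀ t ∈ Icc a b, X (0, t) = x t) → (∀ s, X (s, a) = x a ∧ X (s, b) = x b) →
      HasDerivAt (fun s => ∫ t in a..b, L (X (s, t), deriv (fun t' => X (s, t')) t, t)) 0 0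

/-- The Euler-Lagrange flow of `L` on `M` has an orbit that tends to infinity. -/
def EscapesToInfinity (M : Sub m) (L : Lag m) : Prop :=
  ∃ x : ℝ → Vec m, IsExtremal M L x ∧ Tendsto (fun t => ‖deriv x t‖) atTop atTop

end EscM
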