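import Pool.Agent.EscK.KDefs
import Pool.Agent.EscM.MDefs

set_option autoImplicit false

/-!
Project EscM (MP_6acca1_an): closed submanifolds of flat tori. `N` is the preimage in the vector space `E` of
a closed submanifold of the torus with lattice `β`, `r` the nearest point map. Extension of the metric, the
calibrating function and the Lagrangian to `E`. Definitions.
-/

noncomputable section

namespace EscM

open MeasureTheory Set Filter Topology Esc EscF EscG EscK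
open scoped ContDiff

variable {ι : Type} [Fintype ι] {E : Type*} [NormedAddCommGroup E] [InnerProductSpace ℝ E]

/-- `N` is closed and periodic; every point at distance less than `R` of `N` has a unique nearest point
`r x` in `N`, which depends smoothly on `x` -/
structure Tb (β : Module.Basis ι ℝ E) (N : Set E) (r : E → E) (R : ℝ) : Prop where
  ne : N.Nonempty
  closed : IsClosed N
  perN : ∀ i x, x + β i ∈ N ↔ x ∈ N
  R_pos : 0 < R
  smooth : ContDiffOn ℝ ∞ r {x | Metric.infDist x N < R}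
  mem : ∀ x, Metric.infDist x N < R → r x ∈ N
  nearest : ∀ x, Metric.infDist x N < R → ∀ p ∈ N, p ≠ r x → dist x (r x) < dist x p

/-- the tangent bundle of `N` -/
def TN (N : Set E) (r : E → E) : Set (E × E) := {p | p.1 ∈ N ∧ fderiv ℝ r p.1 p.2 = p.2}

/-- a continuous Finsler metric on `N`, periodic under the lattice with basis `β` -/
structure FinsN (β : Module.Basis ι ℝ E) (N : Set E) (r : E → E) (F : E → E → ℝ) (mF MF : ℝ) : Prop where
  mF_pos : 0 < mF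
  mF_le : mF ≤ MF
  cont : ContinuousOn (fun p : E × E => F p.1 p.2) (TN N r)
  per : ∀ i x v, (x, v) ∈ TN N r → F (x + β i) v = F x v
  hom : ∀ x v (c : ℝ), (x, v) ∈ TN N r → 0 ≤ c → F x (c • v) = c * F x v
  low : ∀ x v, (x, v) ∈ TN N r → mF * ‖v‖ ≤ F x v
  upp : ∀ x v, (x, v) ∈ TN N r → F x v ≤ MF * ‖v‖

/-- The closed one-form `d (B ∘ r)` on `N` is bounded by the metric `F`, and they agree for some nonzero
tangent vector exactly at the points of the simple closed curve `c` in `N` with homology class `β k0`. -/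
structure CalN (β : Module.Basis ι ℝ E) (N : Set E) (r : E → E) (R : ℝ) (F : E → E → ℝ) (B : E → ℝ)
    (k0 : ι) (len : ℝ) (c c' : ℝ → E) : Prop where
  smooth : ContDiffOn ℝ 1 (fun x => B (r x)) {x | Metric.infDist x N < R}
  per : ∀ i, ∃ a : ℝ, ∀ x ∈ N, B (x + β i) = B x + a
  le : ∀ x v, (x, v) ∈ TN N r → fderiv ℝ (fun y => B (r y)) x v ≤ F x v
  len_pos : 0 < len
  mem : ∀ t, c t ∈ N
  hasDeriv : ∀ t, HasDerivAt c (c' t) t
  contDeriv : Continuous c'
  closed : ∀ t, c (t + len) = c t + β k0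
  unit : ∀ t, F (c t) (c' t) = 1
  cal : ∀ t, fderiv ℝ (fun y => B (r y)) (c t) (c' t) = 1
  only : ∀ x v, (x, v) ∈ TN N r → v ≠ 0 → fderiv ℝ (fun y => B (r y)) x v = F x v →
    ∃ t : ℝ, ∃ w ∈ Submodule.span ℤ (Set.range β), x = c t + w
  simple : ∀ s t, c s - c t ∈ Submodule.span ℤ (Set.range β) → ∃ k : ℤ, s - t = k * len

/-- a path in `N` from `x0` to `x0 + v0`, `v0` a lattice vector which is not a multiple of `β k0` -/
structure Sec (β : Module.Basis ι ℝ E) (N : Set E) (k0 : ι) (x0 v0 : E) : Prop where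
  v0_mem : v0 ∈ Submodule.span ℤ (Set.range β)
  v0_not : ∀ k : ℤ, v0 ≠ (k : ℝ) • β k0
  joined : JoinedIn N x0 (x0 + v0)

/-- a Lagrangian on `N` near the energy of `F`: of class `C^2`, periodic, strongly convex in the velocity,
`L - F²/2` Lipschitz in the velocity -/
structure LagN (β : Module.Basis ι ℝ E) (N : Set E) (r : E → E) (R : ℝ) (F : E → E → ℝ) (m M : ℝ)
    (L : E → E → ℝ → ℝ) : Prop where
  m_pos : 0 < m
  M_nonneg : 0 ≤ M
  smooth : ContDiffOn ℝ 2 (fun p : E × E × ℝ => L (r p.1) (fderiv ℝ r p.1 p.2.1) p.2.2)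
    {p | Metric.infDist p.1 N < R}
  per : ∀ i x v t, (x, v) ∈ TN N r → L (x + β i) v t = L x v t
  pert : ∀ x v t, (x, v) ∈ TN N r → L x v (t + 1) = L x v t
  conv : ∀ x u v t, (x, u) ∈ TN N r → (x, v) ∈ TN N r →
    L x v t + fderiv ℝ (fun w => L x (fderiv ℝ r x w) t) v (u - v) + m / 2 * ‖u - v‖ ^ 2 ≤ L x u t
  al : ∀ x v t x' v' t', (x, v) ∈ TN N r → (x', v') ∈ TN N r →
    |(L x v t - F x v ^ 2 / 2) - (L x' v' t' - F x' v' ^ 2 / 2)| ≤
      M * (‖v - v'‖ + (1 + ‖v‖) * (‖x - x'‖ + |t - t'|))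

/-- cut-off: one at distance at most `a` of `N`, zero at distance at least `b` -/
def chi (N : Set E) (r : E → E) (a b : ℝ) (x : E) : ℝ :=
  if Metric.infDist x N < b then Real.smoothTransition ((b ^ 2 - ‖x - r x‖ ^ 2) / (b ^ 2 - a ^ 2)) else 0

/-- a smooth map near the identity which is `r` at distance at most `a` of `N` -/
def tau (N : Set E) (r : E → E) (a b : ℝ) (x : E) : E := x - chi N r a b x • (x - r x)

/-- weight of the normal part of the metric -/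
def kap (ρ : ℝ) : ℝ := 1 / (4 * ρ ^ 2)

/-- square of the metric in the tube -/
def Gt (r : E → E) (ρ : ℝ) (F : E → E → ℝ) (x v : E) : ℝ :=
  F (r x) (fderiv ℝ r x v) ^ 2 + ‖v - fderiv ℝ r x v‖ ^ 2 + kap ρ * ‖x - r x‖ ^ 2 * ‖v‖ ^ 2

/-- the extended metric -/
def Ft (N : Set E) (r : E → E) (ρ Λ : ℝ) (F : E → E → ℝ) (x v : E) : ℝ :=
  √(chi N r ρ (2 * ρ) x * Gt r ρ F x v + (1 - chi N r ρ (2 * ρ) x) * (Λ * ‖v‖ ^ 2))

/-- the extended calibrating function, `ℓ` linear with the periods of `B` -/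
def Bt (N : Set E) (r : E → E) (ρ : ℝ) (B : E → ℝ) (ℓ : E → ℝ) (x : E) : ℝ :=
  ℓ x + chi N r (3 * ρ) (4 * ρ) x * (B (r x) - ℓ x)

/-- the Lagrangian in the tube -/
def Lg (r : E → E) (ρ : ℝ) (L : E → E → ℝ → ℝ) (x v : E) (t : ℝ) : ℝ :=
  L (r x) (fderiv ℝ r x v) t + ‖v - fderiv ℝ r x v‖ ^ 2 / 2 + kap ρ * ‖x - r x‖ ^ 2 * ‖v‖ ^ 2 / 2

/-- the extended Lagrangian -/
def Lt (N : Set E) (r : E → E) (ρ Λ : ℝ) (L : E → E → ℝ → ℝ) (x v : E) (t : ℝ) : ℝ :=
  chi N r ρ (2 * ρ) x * Lg r ρ L x v t + (1 - chi N r ρ (2 * ρ) x) * (Λ * ‖v‖ ^ 2 / 2)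

/-- the hypotheses on the extended data; `C` is a bound, `ρ` the size of the tube, `Λ` the weight outside -/
structure Ext (β : Module.Basis ι ℝ E) (N : Set E) (r : E → E) (R : ℝ) (F : E → E → ℝ) (mF MF : ℝ)
    (B : E → ℝ) (k0 : ι) (len : ℝ) (c c' : ℝ → E) (ℓ : E →L[ℝ] ℝ) (ρ C Λ : ℝ) : Prop where
  tb : Tb β N r R
  fn : FinsN β N r F mF MF
  cl : CalN β N r R F B k0 len c c'
  ρ_pos : 0 < ρ
  ρ_lt : 5 * ρ < R
  ell : ∀ i, ∀ x ∈ N, B (x + β i) = B x + ℓ (β i)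
  C_ge : 1 ≤ C
  gt : ∀ x v, Metric.infDist x N ≤ 4 * ρ → Gt r ρ F x v ≤ C * ‖v‖ ^ 2
  bt : ∀ x v, |fderiv ℝ (Bt N r ρ B ℓ) x v| ≤ C * ‖v‖
  Λ_gt : 4 * C ^ 2 < Λ

end EscM
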