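import Pool.Agent.EscM.N1

/-!
Project EscM (MP_6acca1_an), module N0: uniform tube, cut-off, global smooth map (helper46).
-/

set_option autoImplicit false

noncomputable section

namespace EscM

open Filter Topology Set Esc EscG EscF.T
open scoped ContDiff UniformConvergence

variable {m : ℕ} {k : ℕ∞}

/-- every point has a translate in a fixed ball -/
theorem N0_fund (m : ℕ) : ∃ C : ℝ, ∀ x : Vec m, ∃ n : Fin m → ℤ, ‖x + vz n‖ ≤ C := by
  refine ⟨Real.sqrt m, fun x => ⟨fun i => -⌊x i⌋, ?_⟩⟩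
  rw [EuclideanSpace.norm_eq]
  apply Real.sqrt_le_sqrt
  calc ∑ i, ‖(x + vz fun i => -⌊x i⌋) i‖ ^ 2 ≤ ∑ _i : Fin m, (1 : ℝ) := by
        refine Finset.sum_le_sum fun i _ => ?_
        have h1 : (x + vz fun i => -⌊x i⌋) i = Int.fract (x i) := by
          simp only [vz, PiLp.add_apply, Int.cast_neg]
          rw [Int.fract]
          ring
        rw [h1, Real.norm_eq_abs, abs_of_nonneg (Int.fract_nonneg _)]
        exact pow_le_one₀ (Int.fract_nonneg _) (Int.fract_lt_one _).le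
    _ = m := by simp

/-- uniform tube -/
theorem N0_tube (M : Sub m) (hne : M.N.Nonempty) :
    ∃ δ : ℝ, 0 < δ ∧ ∀ x, Metric.infDist x M.N < δ → x ∈ M.U := by
  obtain ⟨C, hC⟩ := N0_fund m
  have hK : IsCompact (Metric.closedBall (0 : Vec m) C ∩ M.Uᶜ) :=
    (isCompact_closedBall _ _).inter_right M.isOpen.isClosed_compl
  have hpos : ∀ x ∈ Metric.closedBall (0 : Vec m) C ∩ M.Uᶜ, 0 < Metric.infDist x M.N := by
    intro x hx
    exact (M.closed.notMem_iff_infDist_pos hne).1 fun h => hx.2 (M.sub h)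
  obtain ⟨δ, hδ, hmin⟩ : ∃ δ : ℝ, 0 < δ ∧ ∀ x ∈ Metric.closedBall (0 : Vec m) C ∩ M.Uᶜ,
      δ ≤ Metric.infDist x M.N := by
    rcases (Metric.closedBall (0 : Vec m) C ∩ M.Uᶜ).eq_empty_or_nonempty with h | h
    · exact ⟨1, one_pos, fun x hx => by rw [h] at hx; exact absurd hx (notMem_empty x)⟩
    · obtain ⟨x0, hx0, h0⟩ := hK.exists_isMinOn h (Metric.continuous_infDist_pt M.N).continuousOn
      exact ⟨_, hpos x0 hx0, fun x hx => h0 hx⟩
  refine ⟨δ, hδ, fun x hx => ?_⟩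
  by_contra hU
  obtain ⟨n, hn⟩ := hC x
  have h1 : x + vz n ∉ M.U := fun h => hU ((perU_iff M n x).1 h)
  have h2 := hmin (x + vz n) ⟨by rw [mem_closedBall_zero_iff]; exact hn, h1⟩
  rw [infDist_vz] at h2
  linarith

/-- cut-off: one for `infDist ≤ p`, zero for `infDist ≥ q` -/
def N0_c (M : Sub m) (p q : ℝ) (x : Vec m) : ℝ :=
  Real.smoothTransition ((q ^ 2 - Metric.infDist x M.N ^ 2) / (q ^ 2 - p ^ 2))

theorem N0_c_one {M : Sub m} {p q : ℝ} (hp : 0 ≤ p) (hpq : p < q) {x : Vec m}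
    (hx : Metric.infDist x M.N ≤ p) : N0_c M p q x = 1 := by
  have h1 : 0 < q ^ 2 - p ^ 2 := by nlinarith
  have h2 : Metric.infDist x M.N ^ 2 ≤ p ^ 2 := pow_le_pow_left₀ Metric.infDist_nonneg hx 2
  apply Real.smoothTransition.one_of_one_le
  rw [le_div_iff₀ h1]
  linarith

theorem N0_c_zero {M : Sub m} {p q : ℝ} (hp : 0 ≤ p) (hpq : p < q) {x : Vec m}
    (hx : q ≤ Metric.infDist x M.N) : N0_c M p q x = 0 := by
  have h1 : 0 < q ^ 2 - p ^ 2 := by nlinarith
  have h2 : q ^ 2 ≤ Metric.infDist x M.N ^ 2 := pow_le_pow_left₀ (by linarith) hx 2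
  apply Real.smoothTransition.zero_of_nonpos
  exact div_nonpos_of_nonpos_of_nonneg (by linarith) h1.le

theorem N0_c_per (M : Sub m) (p q : ℝ) (n : Fin m → ℤ) (x : Vec m) :
    N0_c M p q (x + vz n) = N0_c M p q x := by
  rw [N0_c, N0_c, infDist_vz]

theorem N0_r_at (M : Sub m) {x : Vec m} (hx : x ∈ M.U) : ContDiffAt ℝ ∞ M.r x :=
  M.smooth.contDiffAt (M.isOpen.mem_nhds hx)

theorem N0_c_at (M : Sub m) (p q : ℝ) {x : Vec m} (hx : x ∈ M.U) : ContDiffAt ℝ ∞ (N0_c M p q) x := by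
  have h1 : ContDiffAt ℝ ∞ (fun y => Real.smoothTransition
      ((q ^ 2 - ‖y - M.r y‖ ^ 2) / (q ^ 2 - p ^ 2))) x := by
    have h2 : ContDiffAt ℝ ∞ (fun y : Vec m => ‖y - M.r y‖ ^ 2) x :=
      (contDiffAt_id.sub (N0_r_at M hx)).norm_sq ℝ
    exact Real.smoothTransition.contDiff.contDiffAt.comp x
      ((contDiffAt_const.sub h2).div_const _)
  refine h1.congr_of_eventuallyEq ?_
  filter_upwards [M.isOpen.mem_nhds hx] with y hy
  rw [N0_c, infDist_eq M hy]

theorem N0_far {M : Sub m} {q : ℝ} {x : Vec m} (hx : q < Metric.infDist x M.N) :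
    ∀ᶠ y in 𝓝 x, q ≤ Metric.infDist y M.N := by
  have h := (Metric.continuous_infDist_pt M.N).continuousAt.eventually (lt_mem_nhds hx)
  exact h.mono fun y hy => le_of_lt hy

/-- uniform tube, cut-off, global smooth map. Compactness of `N` modulo the lattice gives `ρ`; `χ = ψ ∘ (|ν|² / ρ²)`,
`ν x = x - r x`, with a smooth step `ψ`, is smooth on `{infDist < 5 ρ}` and zero for `infDist > 4 ρ - small`, extended by
zero; `R x = x - χ' x • (x - r x)` with a second cut-off `χ' = 1` for `infDist ≤ 4 ρ`, zero for `infDist ≥ 4.5 ρ`. -/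
theorem exists_tube (M : Sub m) (hne : M.N.Nonempty) :
    ∃ (ρ : ℝ) (χ : Vec m → ℝ) (R : Vec m → Vec m), TubeD M ρ χ R := by
  obtain ⟨δ, hδ, hU⟩ := N0_tube M hne
  obtain ⟨ρ, hρ, hρδ⟩ : ∃ ρ : ℝ, 0 < ρ ∧ 5 * ρ = δ := ⟨δ / 5, by linarith, by ring⟩
  have hU' : ∀ x, Metric.infDist x M.N < 5 * ρ → x ∈ M.U := fun x hx => hU x (hρδ ▸ hx)
  have hc : ∀ p q : ℝ, 0 ≤ p → p < q → q < 5 * ρ → ContDiff ℝ ∞ (N0_c M p q) := by
    intro p q hp hpq hq
    rw [contDiff_iff_contDiffAt]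
    intro x
    rcases lt_or_ge (Metric.infDist x M.N) (5 * ρ) with h | h
    · exact N0_c_at M p q (hU' x h)
    · refine (contDiffAt_const (c := (0 : ℝ))).congr_of_eventuallyEq ?_
      filter_upwards [N0_far (lt_of_lt_of_le hq h)] with y hy
      exact N0_c_zero hp hpq hy
  refine ⟨ρ, N0_c M (3 * ρ) (4 * ρ), fun x => x - N0_c M (4 * ρ) (9 / 2 * ρ) x • (x - M.r x),
    ⟨hρ, hne, hU', hc _ _ (by linarith) (by linarith) (by linarith), N0_c_per M _ _,
      fun x => ⟨Real.smoothTransition.nonneg _, Real.smoothTransition.le_one _⟩,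
      fun x hx => N0_c_one (by linarith) (by linarith) hx,
      fun x hx => N0_c_zero (by linarith) (by linarith) hx, ?_, fun n x => ?_, fun x hx => ?_⟩⟩
  · rw [contDiff_iff_contDiffAt]
    intro x
    rcases lt_or_ge (Metric.infDist x M.N) (5 * ρ) with h | h
    · exact contDiffAt_id.sub ((N0_c_at M _ _ (hU' x h)).smul
        (contDiffAt_id.sub (N0_r_at M (hU' x h))))
    · refine contDiffAt_id.congr_of_eventuallyEq ?_
      filter_upwards [N0_far (lt_of_lt_of_le (by linarith : 9 / 2 * ρ < 5 * ρ) h)] with y hy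
      rw [N0_c_zero (by linarith) (by linarith) hy, zero_smul, sub_zero]
      rfl
  · rw [N0_c_per]
    by_cases hx : x ∈ M.U
    · rw [r_vz M n hx, add_sub_add_right_eq_sub]
      abel
    · have h1 : 9 / 2 * ρ ≤ Metric.infDist x M.N := by
        by_contra h
        push Not at h
        exact hx (hU' x (by linarith))
      rw [N0_c_zero (by linarith) (by linarith) h1, zero_smul, zero_smul, sub_zero, sub_zero]
  · rw [N0_c_one (by linarith) (by linarith) hx, one_smul, sub_sub_cancel]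

end EscM
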