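import Pool.Agent.EscM.N1
import Pool.Agent.EscF.TT

/-!
Module N3a of project EscM: the set `Y` of potentials on the torus which vanish on `N` together with their
gradient is closed, and a Baire space.
-/

noncomputable section

namespace EscM

open Filter Topology Set Esc EscG EscF.T
open scoped ContDiff UniformConvergence

variable {m : ℕ} {k : ℕ∞}

theorem N3a_cont_jet (j : {j : ℕ // (j : ℕ∞) ≤ k}) :
    Continuous fun f : EscF.T.Pot m k => EscF.T.jet f j := by
  have hc : Continuous (EscF.T.jet : EscF.T.Pot m k → _) := continuous_induced_dom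
  exact (continuous_pi_iff.1 hc) j

theorem N3a_cont_eval (j : {j : ℕ // (j : ℕ∞) ≤ k}) (q : Vec m × ℝ) :
    Continuous fun f : EscF.T.Pot m k => iteratedFDeriv ℝ j.1 f.toFun q :=
  (UniformFun.uniformContinuous_eval
    (ContinuousMultilinearMap ℝ (fun _ : Fin j.1 => Vec m × ℝ) ℝ) q).continuous.comp (N3a_cont_jet j)

theorem N3a_cont_apply (j : {j : ℕ // (j : ℕ∞) ≤ k}) (q : Vec m × ℝ) (w : Fin j.1 → Vec m × ℝ) :
    Continuous fun f : EscF.T.Pot m k => iteratedFDeriv ℝ j.1 f.toFun q w := by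
  have h := N3a_cont_eval (k := k) j q
  exact (ContinuousMultilinearMap.apply ℝ (fun _ : Fin j.1 => Vec m × ℝ) ℝ w).continuous.comp h

theorem N3a_grad (f : EscF.T.Pot m k) (hk : 1 ≤ k) (x : Vec m) (t : ℝ) (v : Vec m) :
    fderiv ℝ (fun y => f.toFun (y, t)) x v = iteratedFDeriv ℝ 1 f.toFun (x, t) (fun _ => (v, 0)) := by
  have hd : DifferentiableAt ℝ f.toFun (x, t) :=
    (f.contDiff.differentiable (by
      intro h
      have : (k : ℕ∞) = 0 := by exact_mod_cast h
      rw [this] at hk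
      exact absurd hk (by simp))).differentiableAt
  have h1 : HasFDerivAt (fun y : Vec m => (y, t)) (ContinuousLinearMap.inl ℝ (Vec m) ℝ) x :=
    (hasFDerivAt_id x).prodMk (hasFDerivAt_const t x)
  have h2 := (hd.hasFDerivAt.comp x h1).fderiv
  have h3 : fderiv ℝ (fun y => f.toFun (y, t)) x = (fderiv ℝ f.toFun (x, t)).comp
      (ContinuousLinearMap.inl ℝ (Vec m) ℝ) := h2
  rw [h3, iteratedFDeriv_one_apply]
  simp

theorem isClosed_YS (M : Sub m) {k : ℕ∞} (hk : 2 ≤ k) : IsClosed (YS M k) := by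
  have hk1 : (1 : ℕ∞) ≤ k := le_trans (by norm_num) hk
  have h1 : ((1 : ℕ) : ℕ∞) ≤ k := by simpa using hk1
  have h0 : ((0 : ℕ) : ℕ∞) ≤ k := by simp
  have he : YS M k = ⋂ x ∈ M.N, ⋂ t : ℝ,
      ({h : EscF.T.Pot m k | iteratedFDeriv ℝ 0 h.toFun (x, t) (fun _ => 0) = 0} ∩
        ⋂ v : Vec m, {h : EscF.T.Pot m k | iteratedFDeriv ℝ 1 h.toFun (x, t) (fun _ => (v, 0)) = 0}) := by
    ext h
    simp only [YS, mem_setOf_eq, mem_iInter, mem_inter_iff, iteratedFDeriv_zero_apply]
    refine forall_congr' fun x => forall_congr' fun hx => forall_congr' fun t => and_congr_right fun _ => ?_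
    constructor
    · intro h2 v
      rw [← N3a_grad h hk1 x t v, h2]
      rfl
    · intro h2
      ext v
      rw [N3a_grad h hk1 x t v, h2 v]
      rfl
  rw [he]
  refine isClosed_biInter fun x _ => isClosed_iInter fun t => IsClosed.inter ?_ (isClosed_iInter fun v => ?_)
  · exact isClosed_eq (N3a_cont_apply (k := k) ⟨0, h0⟩ (x, t) _) continuous_const
  · exact isClosed_eq (N3a_cont_apply (k := k) ⟨1, h1⟩ (x, t) _) continuous_const

/-- the space `C^k(𝕋ⁿ × 𝕋)` is completely pseudometrizable -/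
theorem N3a_complete (n : ℕ) (k : ℕ∞) :
    TopologicalSpace.IsCompletelyPseudoMetrizableSpace (EscF.T.Pot n k) := by
  have hu : ∀ j : {j : ℕ // (j : ℕ∞) ≤ k}, TopologicalSpace.IsCompletelyPseudoMetrizableSpace
      ((Vec n × ℝ) →ᵤ ContinuousMultilinearMap ℝ (fun _ : Fin j.1 => Vec n × ℝ) ℝ) := fun j => by
    have : (uniformity ((Vec n × ℝ) →ᵤ
      ContinuousMultilinearMap ℝ (fun _ : Fin j.1 => Vec n × ℝ) ℝ)).IsCountablyGenerated :=
        inferInstance
    infer_instance
  have hind : IsInducing (EscF.T.jet : EscF.T.Pot n k → _) := ⟨rfl⟩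
  have hinj : Function.Injective (EscF.T.jet : EscF.T.Pot n k → _) := by
    intro f f' h
    have key : f.toFun = f'.toFun := funext fun q => ?_
    · cases f; cases f'; simp only [EscF.T.Pot.mk.injEq]; exact key
    have h0 := congrFun h ⟨0, by simp⟩
    have h1 : iteratedFDeriv ℝ 0 f.toFun q = iteratedFDeriv ℝ 0 f'.toFun q :=
      congrFun (UniformFun.ofFun.injective h0) q
    rw [iteratedFDeriv_zero_eq_comp, iteratedFDeriv_zero_eq_comp] at h1
    exact (LinearIsometryEquiv.injective _) h1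
  have hcl : IsClosed (range (EscF.T.jet : EscF.T.Pot n k → _)) := by
    rw [← closure_subset_iff_isClosed]
    intro Ψ hΨ
    set l : Filter (EscF.T.Pot n k) := comap EscF.T.jet (𝓝 Ψ) with hl
    have hne : l.NeBot := by
      rw [hl, comap_neBot_iff]
      intro t ht
      obtain ⟨y, hy, f, rfl⟩ := mem_closure_iff_nhds.1 hΨ t ht
      exact ⟨f, hy⟩
    have htend : Tendsto (EscF.T.jet : EscF.T.Pot n k → _) l (𝓝 Ψ) := tendsto_comap
    have hunif : ∀ j (hj : ((j : ℕ) : ℕ∞) ≤ k), TendstoUniformly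
        (fun (f : EscF.T.Pot n k) q => iteratedFDeriv ℝ j f.toFun q) (UniformFun.toFun (Ψ ⟨j, hj⟩)) l := by
      intro j hj
      exact UniformFun.tendsto_iff_tendstoUniformly.1 ((tendsto_pi_nhds.1 htend) ⟨j, hj⟩)
    set p : Vec n × ℝ → FormalMultilinearSeries ℝ (Vec n × ℝ) ℝ := fun q j =>
      if hj : ((j : ℕ) : ℕ∞) ≤ k then UniformFun.toFun (Ψ ⟨j, hj⟩) q else 0 with hp
    have hpj : ∀ j (hj : ((j : ℕ) : ℕ∞) ≤ k) q, p q j = UniformFun.toFun (Ψ ⟨j, hj⟩) q :=
      fun j hj q => by simp only [hp, dif_pos hj]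
    set φ : EscF.T.Fun n := fun q => (p q 0).curry0 with hφ
    have hcast : ∀ {m : ℕ}, ((m : WithTop ℕ∞) ≤ (k : WithTop ℕ∞)) → ((m : ℕ∞) ≤ k) :=
      fun h => WithTop.coe_le_coe.1 h
    have hfd : ∀ (f : EscF.T.Pot n k) (m : ℕ), (m : ℕ∞) ≤ k →
        ContDiff ℝ m f.toFun := fun f m hm => f.contDiff.of_le (WithTop.coe_le_coe.2 hm)
    have htay : HasFTaylorSeriesUpTo k φ p := by
      refine ⟨fun _ => rfl, fun m hm x => ?_, fun m hm => ?_⟩
      · have hm1 : ((m + 1 : ℕ) : ℕ∞) ≤ k := by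
          have h1 : (m : ℕ∞) < k := WithTop.coe_lt_coe.1 hm
          push_cast
          exact Order.add_one_le_of_lt h1
        have hm0 : ((m : ℕ) : ℕ∞) ≤ k := hcast hm.le
        have h1 : TendstoUniformly (fun (f : EscF.T.Pot n k) x =>
            (iteratedFDeriv ℝ (m + 1) f.toFun x).curryLeft)
            (fun x => (p x (m + 1)).curryLeft) l := by
          have h2 := (continuousMultilinearCurryLeftEquiv ℝ
            (fun _ : Fin (m + 1) => Vec n × ℝ) ℝ).isometry.uniformContinuous.comp_tendstoUniformly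
              (hunif (m + 1) hm1)
          have e : (fun x => (p x (m + 1)).curryLeft) = (continuousMultilinearCurryLeftEquiv ℝ
              (fun _ : Fin (m + 1) => Vec n × ℝ) ℝ) ∘ (UniformFun.toFun (Ψ ⟨m + 1, hm1⟩)) := by
            funext x
            rw [hpj (m + 1) hm1]
            rfl
          rw [e]
          exact h2
        refine hasFDerivAt_of_tendstoUniformly (f := fun (f : EscF.T.Pot n k) x =>
          iteratedFDeriv ℝ m f.toFun x) (g := fun x => p x m) h1 (fun f x => ?_) (fun x => ?_) x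
        · have h5 : ContDiff ℝ (m + 1 : ℕ) f.toFun := hfd f (m + 1) hm1
          have h6 := (contDiff_iff_ftaylorSeries.1 h5).fderiv m (by exact_mod_cast Nat.lt_succ_self m) x
          exact h6
        · rw [hpj m hm0]
          exact (hunif m hm0).tendsto_at x
      · have hm0 : ((m : ℕ) : ℕ∞) ≤ k := hcast hm
        have e : (fun x => p x m) = UniformFun.toFun (Ψ ⟨m, hm0⟩) := funext fun x => hpj m hm0 x
        rw [e]
        refine (hunif m hm0).continuous (Frequently.of_forall fun f => ?_)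
        exact (hfd f m hm0).continuous_iteratedFDeriv le_rfl
    have hφc : ContDiff ℝ k φ := htay.contDiff
    have hφp : IsPeriodic φ := by
      intro m l' x t
      have h0 : ((0 : ℕ) : ℕ∞) ≤ k := by simp
      have h1 := (hunif 0 h0).tendsto_at (x + vz m, t + l')
      have h2 := (hunif 0 h0).tendsto_at (x, t)
      have h3 : (fun f : EscF.T.Pot n k => iteratedFDeriv ℝ 0 f.toFun
          (x + vz m, t + l')) =
          fun f : EscF.T.Pot n k => iteratedFDeriv ℝ 0 f.toFun (x, t) := by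
        funext f
        rw [iteratedFDeriv_zero_eq_comp]
        simp only [Function.comp]
        rw [f.periodic m l' x t]
      rw [h3] at h1
      have h4 := tendsto_nhds_unique h1 h2
      simp only [hφ, hpj 0 h0, h4]
    refine ⟨⟨φ, hφc, hφp⟩, funext fun j => ?_⟩
    have h5 : ∀ q, iteratedFDeriv ℝ j.1 φ q = UniformFun.toFun (Ψ j) q := fun q => by
      rw [← htay.eq_iteratedFDeriv (WithTop.coe_le_coe.2 j.2), hpj j.1 j.2]
    show UniformFun.ofFun (iteratedFDeriv ℝ j.1 φ) = Ψ j
    rw [show iteratedFDeriv ℝ j.1 φ = UniformFun.toFun (Ψ j) from funext h5, UniformFun.ofFun_toFun]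
  have hce : IsClosedEmbedding (EscF.T.jet : EscF.T.Pot n k → _) := ⟨⟨hind, hinj⟩, hcl⟩
  exact hce.IsCompletelyPseudoMetrizableSpace

theorem baireY (M : Sub m) {k : ℕ∞} (hk : 2 ≤ k) : BaireSpace (YS M k) := by
  have h1 := N3a_complete m k
  have h2 : IsClosedEmbedding (Subtype.val : YS M k → EscF.T.Pot m k) :=
    (isClosed_YS M hk).isClosedEmbedding_subtypeVal
  have := h2.IsCompletelyPseudoMetrizableSpace
  infer_instance

end EscM
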