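import Pool.Agent.EscM.NDefs

/-!
Project EscM, module N3b: the space `C^k(𝕋ᵐ × 𝕋)` is second countable.
-/

noncomputable section

namespace EscM

open Filter Topology Set Esc EscG EscF.T
open scoped ContDiff UniformConvergence

variable {m : ℕ} {k : ℕ∞}

/-- the multilinear maps -/
abbrev N3b_Y (m j : ℕ) := ContinuousMultilinearMap ℝ (fun _ : Fin j => Vec m × ℝ) ℝ

theorem N3b_fd (m j : ℕ) : FiniteDimensional ℝ (N3b_Y m j) :=
  FiniteDimensional.of_injective
    (ContinuousMultilinearMap.toMultilinearMapLinear :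
      N3b_Y m j →ₗ[ℝ] MultilinearMap ℝ (fun _ : Fin j => Vec m × ℝ) ℝ)
    ContinuousMultilinearMap.toMultilinearMap_injective

theorem N3b_sc (m j : ℕ) : SecondCountableTopology (N3b_Y m j) := by
  have h1 := N3b_fd m j
  have h2 : ProperSpace (N3b_Y m j) := FiniteDimensional.proper ℝ _
  infer_instance

/-- a compact set which contains a fundamental domain -/
def N3b_K (m : ℕ) : Set (Vec m × ℝ) := Metric.closedBall 0 (Real.sqrt m + 1)

instance (m : ℕ) : CompactSpace (N3b_K m) :=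
  isCompact_iff_compactSpace.1 (isCompact_closedBall _ _)

theorem N3b_mem (q : Vec m × ℝ) :
    (q.1 - vz (fun i => ⌊q.1 i⌋), q.2 - (⌊q.2⌋ : ℝ)) ∈ N3b_K m := by
  unfold N3b_K
  rw [mem_closedBall_zero_iff, Prod.norm_def]
  refine max_le ?_ ?_
  · rw [EuclideanSpace.norm_eq]
    have h1 : ∑ i : Fin m, ‖(q.1 - vz (fun i => ⌊q.1 i⌋)) i‖ ^ 2 ≤ (m : ℝ) := by
      have h2 : ∑ i : Fin m, ‖(q.1 - vz (fun i => ⌊q.1 i⌋)) i‖ ^ 2 ≤ ∑ _i : Fin m, (1 : ℝ) := by
        refine Finset.sum_le_sum fun i _ => ?_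
        have h3 : (q.1 - vz (fun i => ⌊q.1 i⌋)) i = Int.fract (q.1 i) := rfl
        rw [h3, Real.norm_eq_abs, abs_of_nonneg (Int.fract_nonneg _)]
        have h4 := Int.fract_nonneg (q.1 i)
        have h5 := (Int.fract_lt_one (q.1 i)).le
        nlinarith
      refine h2.trans (le_of_eq ?_)
      simp
    have h6 := Real.sqrt_le_sqrt h1
    have h7 : Real.sqrt (m : ℝ) ≤ Real.sqrt m + 1 := by linarith
    exact h6.trans h7
  · have h3 : q.2 - (⌊q.2⌋ : ℝ) = Int.fract q.2 := rfl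
    change ‖q.2 - (⌊q.2⌋ : ℝ)‖ ≤ _
    rw [h3, Real.norm_eq_abs, abs_of_nonneg (Int.fract_nonneg _)]
    have h5 := (Int.fract_lt_one q.2).le
    have h6 := Real.sqrt_nonneg (m : ℝ)
    linarith

/-- reduction modulo the lattice -/
def N3b_p (m : ℕ) (q : Vec m × ℝ) : N3b_K m :=
  ⟨(q.1 - vz (fun i => ⌊q.1 i⌋), q.2 - (⌊q.2⌋ : ℝ)), N3b_mem q⟩

theorem N3b_per (f : EscF.T.Pot m k) (j : ℕ) (q : Vec m × ℝ) :
    iteratedFDeriv ℝ j f.toFun (N3b_p m q : Vec m × ℝ) = iteratedFDeriv ℝ j f.toFun q := by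
  have h1 : (fun y : Vec m × ℝ => f.toFun (y + (vz (fun i => ⌊q.1 i⌋), (⌊q.2⌋ : ℝ)))) = f.toFun := by
    ext y
    exact f.periodic (fun i => ⌊q.1 i⌋) ⌊q.2⌋ y.1 y.2
  have h2 := iteratedFDeriv_comp_add_right (𝕜 := ℝ) (f := f.toFun) j
    ((vz (fun i => ⌊q.1 i⌋), (⌊q.2⌋ : ℝ)) : Vec m × ℝ) (N3b_p m q : Vec m × ℝ)
  rw [h1] at h2
  rw [h2]
  congr 1
  unfold N3b_p
  ext1
  · exact sub_add_cancel _ _
  · exact sub_add_cancel _ _

/-- the derivatives on the compact set -/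
def N3b_res (f : EscF.T.Pot m k) (j : {j : ℕ // (j : ℕ∞) ≤ k}) : C(N3b_K m, N3b_Y m j.1) :=
  ⟨fun x => iteratedFDeriv ℝ j.1 f.toFun x.1,
    (f.contDiff.continuous_iteratedFDeriv (by exact_mod_cast j.2)).comp continuous_subtype_val⟩

theorem N3b_ind (m j : ℕ) :
    IsInducing (fun φ : C(N3b_K m, N3b_Y m j) => UniformFun.ofFun (φ : N3b_K m → N3b_Y m j)) :=
  BoundedContinuousFunction.isInducing_coeFn.comp
    (ContinuousMap.isUniformInducing_equivBoundedOfCompact (N3b_K m) (N3b_Y m j)).isInducing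

theorem N3b_cont : Continuous (N3b_res : EscF.T.Pot m k → _) := by
  refine continuous_pi fun j => (N3b_ind m j.1).continuous_iff.2 ?_
  have h1 : Continuous (EscF.T.jet : EscF.T.Pot m k → _) := continuous_induced_dom
  have h2 : Continuous (fun f : EscF.T.Pot m k => EscF.T.jet f j) := (continuous_apply j).comp h1
  exact (UniformFun.precomp_uniformContinuous
    (f := (Subtype.val : N3b_K m → Vec m × ℝ))).continuous.comp h2

theorem N3b_inducing : IsInducing (N3b_res : EscF.T.Pot m k → _) := by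
  let G : (∀ j : {j : ℕ // (j : ℕ∞) ≤ k}, C(N3b_K m, N3b_Y m j.1)) →
      ∀ j : {j : ℕ // (j : ℕ∞) ≤ k}, (Vec m × ℝ) →ᵤ N3b_Y m j.1 :=
    fun φ j => UniformFun.ofFun (fun q => φ j (N3b_p m q))
  have hG : Continuous G := by
    refine continuous_pi fun j => ?_
    have h1 : Continuous (fun φ : ∀ j : {j : ℕ // (j : ℕ∞) ≤ k}, C(N3b_K m, N3b_Y m j.1) =>
        UniformFun.ofFun (φ j : N3b_K m → N3b_Y m j.1)) :=
      (N3b_ind m j.1).continuous.comp (continuous_apply j)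
    exact (UniformFun.precomp_uniformContinuous (f := N3b_p m)).continuous.comp h1
  have hG2 : G ∘ N3b_res = (EscF.T.jet : EscF.T.Pot m k → _) := by
    funext f j
    change UniformFun.ofFun (fun q => iteratedFDeriv ℝ j.1 f.toFun (N3b_p m q : Vec m × ℝ)) =
      UniformFun.ofFun (iteratedFDeriv ℝ j.1 f.toFun)
    congr 1
    funext q
    exact N3b_per f j.1 q
  refine IsInducing.of_comp N3b_cont hG ?_
  rw [hG2]
  exact ⟨rfl⟩

theorem second_pot (m : ℕ) (k : ℕ∞) : SecondCountableTopology (EscF.T.Pot m k) := by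
  have h1 : ∀ j : {j : ℕ // (j : ℕ∞) ≤ k},
      SecondCountableTopology C(N3b_K m, N3b_Y m j.1) := fun j => by
    have := N3b_sc m j.1
    infer_instance
  exact (N3b_inducing (m := m) (k := k)).secondCountableTopology

end EscM
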