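import Pool.Agent.EscM.NDefs

/-! Module N4 of project EscM: Kuratowski-Ulam for open dense sets (helper74). -/

noncomputable section

namespace EscM

open Filter Topology Set Esc EscG EscF.T
open scoped ContDiff UniformConvergence

theorem N4_open {X Y : Type*} [TopologicalSpace X] [TopologicalSpace Y] {G : Set (X × Y)}
    (hG : IsOpen G) {B : Set Y} (hB : IsOpen B) : IsOpen {x : X | ∃ y ∈ B, (x, y) ∈ G} := by
  have h1 : {x : X | ∃ y ∈ B, (x, y) ∈ G} = Prod.fst '' (G ∩ (Prod.snd ⁻¹' B)) := by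
    ext x
    constructor
    · rintro ⟨y, hy, hxy⟩
      exact ⟨(x, y), ⟨hxy, hy⟩, rfl⟩
    · rintro ⟨⟨x', y⟩, ⟨hxy, hy⟩, rfl⟩
      exact ⟨y, hy, hxy⟩
  rw [h1]
  exact isOpenMap_fst _ (hG.inter (hB.preimage continuous_snd))

theorem N4_dense {X Y : Type*} [TopologicalSpace X] [TopologicalSpace Y] {G : Set (X × Y)}
    (hd : Dense G) {B : Set Y} (hB : IsOpen B) (hne : B.Nonempty) :
    Dense {x : X | ∃ y ∈ B, (x, y) ∈ G} := by
  rw [dense_iff_inter_open]
  intro W hW hWne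
  obtain ⟨⟨x, y⟩, hxy, hG⟩ := hd.inter_open_nonempty (W ×ˢ B) (hW.prod hB) (hWne.prod hne)
  exact ⟨x, hxy.1, y, hxy.2, hG⟩

theorem KU {X Y : Type*} [TopologicalSpace X] [TopologicalSpace Y] [SecondCountableTopology Y]
    [BaireSpace Y] {ι : Type*} [Countable ι] {G : ι → Set (X × Y)} (hG : ∀ i, IsOpen (G i))
    (hd : ∀ i, Dense (G i)) {V : Set Y} (hV : IsOpen V) (hne : V.Nonempty) :
    {x | ∃ y ∈ V, ∀ i, (x, y) ∈ G i} ∈ residual X := by
  have hB := TopologicalSpace.isBasis_countableBasis Y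
  have hcount : Countable (TopologicalSpace.countableBasis Y) :=
    (TopologicalSpace.countable_countableBasis Y).to_subtype
  have hR : ∀ᶠ x in residual X, ∀ p : ι × TopologicalSpace.countableBasis Y,
      ∃ y ∈ (p.2 : Set Y), (x, y) ∈ G p.1 := by
    rw [eventually_countable_forall]
    intro p
    have hp : IsOpen (p.2 : Set Y) := hB.isOpen p.2.2
    have hpn : (p.2 : Set Y).Nonempty := TopologicalSpace.nonempty_of_mem_countableBasis p.2.2
    exact residual_of_dense_open (N4_open (hG p.1) hp) (N4_dense (hd p.1) hp hpn)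
  refine Filter.mem_of_superset hR fun x hx => ?_
  have hopen : ∀ i, IsOpen {y : Y | (x, y) ∈ G i} := fun i =>
    (hG i).preimage (Continuous.prodMk_right x)
  have hdense : ∀ i, Dense {y : Y | (x, y) ∈ G i} := by
    intro i
    rw [hB.dense_iff]
    intro o ho hone
    obtain ⟨y, hy, hxy⟩ := hx (i, ⟨o, ho⟩)
    exact ⟨y, hy, hxy⟩
  have hD : Dense (⋂ i, {y : Y | (x, y) ∈ G i}) := dense_iInter_of_isOpen hopen hdense
  obtain ⟨y, hyV, hy⟩ := hD.inter_open_nonempty V hV hne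
  exact ⟨y, hyV, fun i => Set.mem_iInter.1 hy i⟩

end EscM
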