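import Pool.Agent.EscM.N1
import Pool.Agent.EscM.N2
import Pool.Agent.EscG.O2

/-!
Project EscM, module N5b: small perturbations in the class `MCl` are small perturbations in the product of the
space of potentials on `M` and the space `YS`.
-/

noncomputable section

namespace EscM

open Filter Topology Set Esc EscG EscF.T
open scoped ContDiff UniformConvergence

variable {m : ℕ} {k : ℕ∞}

/-! ### bounds for derivatives -/

section General

variable {V W : Type*} [NormedAddCommGroup V] [NormedSpace ℝ V] [NormedAddCommGroup W] [NormedSpace ℝ W]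

theorem N5b_const {Φ : V → W} {i : ℕ} (hi : 1 ≤ i) {q : V} (hΦ : ContDiffAt ℝ i Φ q) (c : W) :
    iteratedFDeriv ℝ i (fun z => Φ z + c) q = iteratedFDeriv ℝ i Φ q := by
  rw [fun_iteratedFDeriv_add_apply hΦ (contDiffAt_const (c := c)),
    iteratedFDeriv_const_of_ne (by omega) c]
  simp

theorem N5b_shift {Φ : V → W} {i : ℕ} (hi : 1 ≤ i) {q : V} (hΦ : ContDiffAt ℝ i Φ q) {c : V} {c' : W}
    (h : ∀ z, Φ (z + c) = Φ z + c') : iteratedFDeriv ℝ i Φ (q + c) = iteratedFDeriv ℝ i Φ q := by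
  rw [← N5b_const hi hΦ c', ← iteratedFDeriv_comp_add_right (𝕜 := ℝ) (f := Φ) i c q]
  congr 1
  exact funext h

theorem N5b_comp {Φ : V → V} {Ω : Set V} (hΩ : IsOpen Ω)
    (hΦ : ContDiffOn ℝ ∞ Φ Ω) {g : V → ℝ} (hg : ContDiff ℝ ∞ g) {q : V} (hq : q ∈ Ω) {r : ℕ} {S D : ℝ}
    (hS : ∀ i ≤ r, ‖iteratedFDeriv ℝ i g (Φ q)‖ ≤ S) (hD1 : 1 ≤ D)
    (hD : ∀ i, 1 ≤ i → i ≤ r → ‖iteratedFDeriv ℝ i Φ q‖ ≤ D ^ i) {j : ℕ} (hj : j ≤ r) :
    ‖iteratedFDeriv ℝ j (fun z => g (Φ z)) q‖ ≤ (r.factorial : ℝ) * D ^ r * S := by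
  have hS0 : 0 ≤ S := (norm_nonneg _).trans (hS 0 (Nat.zero_le r))
  have h := norm_iteratedFDerivWithin_comp_le (𝕜 := ℝ) (g := g) (f := Φ) (n := j) (s := Ω) (t := univ)
    (x := q) (N := ∞) hg.contDiffOn hΦ (by exact_mod_cast le_top) uniqueDiffOn_univ hΩ.uniqueDiffOn
    (mapsTo_univ _ _) hq (C := S) (D := D)
    (fun i hi => by rw [iteratedFDerivWithin_univ]; exact hS i (hi.trans hj))
    (fun i h1 hi => by rw [iteratedFDerivWithin_of_isOpen i hΩ hq]; exact hD i h1 (hi.trans hj))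
  rw [iteratedFDerivWithin_of_isOpen j hΩ hq] at h
  refine h.trans ?_
  have h1 : (j.factorial : ℝ) ≤ r.factorial := by exact_mod_cast Nat.factorial_le hj
  have h2 : D ^ j ≤ D ^ r := pow_le_pow_right₀ hD1 hj
  have h3 : (0 : ℝ) ≤ D ^ j := by positivity
  calc (j.factorial : ℝ) * S * D ^ j = (j.factorial : ℝ) * D ^ j * S := by ring
    _ ≤ (r.factorial : ℝ) * D ^ r * S :=
      mul_le_mul_of_nonneg_right (mul_le_mul h1 h2 h3 (by positivity)) hS0

theorem N5b_mul {a g : V → ℝ} (ha : ContDiff ℝ ∞ a) (hg : ContDiff ℝ ∞ g) {q : V} {r : ℕ} {A S : ℝ}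
    (hA : ∀ i ≤ r, ‖iteratedFDeriv ℝ i a q‖ ≤ A) (hS : ∀ i ≤ r, ‖iteratedFDeriv ℝ i g q‖ ≤ S) {j : ℕ}
    (hj : j ≤ r) : ‖iteratedFDeriv ℝ j (fun z => a z * g z) q‖ ≤ 2 ^ r * A * S := by
  have hA0 : 0 ≤ A := (norm_nonneg _).trans (hA 0 (Nat.zero_le r))
  have hS0 : 0 ≤ S := (norm_nonneg _).trans (hS 0 (Nat.zero_le r))
  have h := norm_iteratedFDeriv_mul_le (𝕜 := ℝ) (N := ∞) ha hg q (n := j) (by exact_mod_cast le_top)
  refine h.trans ?_
  calc _ ≤ ∑ i ∈ Finset.range (j + 1), (j.choose i : ℝ) * A * S := by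
        refine Finset.sum_le_sum fun i hi => ?_
        have h1 := Finset.mem_range.1 hi
        exact mul_le_mul (mul_le_mul_of_nonneg_left (hA i (by omega)) (by positivity)) (hS _ (by omega))
          (norm_nonneg _) (by positivity)
    _ = 2 ^ j * A * S := by
        rw [← Finset.sum_mul, ← Finset.sum_mul, ← Nat.cast_sum, Nat.sum_range_choose]
        push_cast
        ring
    _ ≤ 2 ^ r * A * S := by
        have : (2 : ℝ) ^ j ≤ 2 ^ r := pow_le_pow_right₀ (by norm_num) hj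
        exact mul_le_mul_of_nonneg_right (mul_le_mul_of_nonneg_right this hA0) hS0

/-- a common bound for finitely many quantities -/
theorem N5b_max {X : Type*} (F : ℕ → X → ℝ) (r : ℕ) (h : ∀ i, 1 ≤ i → ∃ C : ℝ, ∀ x, F i x ≤ C) :
    ∃ D : ℝ, 1 ≤ D ∧ ∀ i, 1 ≤ i → i ≤ r → ∀ x, F i x ≤ D ^ i := by
  have h' : ∀ i, ∃ C : ℝ, 1 ≤ i → ∀ x, F i x ≤ C := by
    intro i
    by_cases hi : 1 ≤ i
    · obtain ⟨C, hC⟩ := h i hi
      exact ⟨C, fun _ => hC⟩
    · exact ⟨0, fun h => absurd h hi⟩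
  choose C hC using h'
  have hs : 0 ≤ ∑ i ∈ Finset.range (r + 1), |C i| := Finset.sum_nonneg fun i _ => abs_nonneg _
  refine ⟨1 + ∑ i ∈ Finset.range (r + 1), |C i|, by linarith, fun i h1 hi x => ?_⟩
  have h2 : |C i| ≤ ∑ i ∈ Finset.range (r + 1), |C i| :=
    Finset.single_le_sum (f := fun i => |C i|) (fun i _ => abs_nonneg _) (Finset.mem_range.2 (by omega))
  have h3 : (1 + ∑ i ∈ Finset.range (r + 1), |C i|) ≤ (1 + ∑ i ∈ Finset.range (r + 1), |C i|) ^ i :=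
    le_self_pow₀ (by linarith) (by omega)
  have h4 := hC i h1 x
  have h5 := le_abs_self (C i)
  linarith

end General

/-- the map `(x, t) ↦ (ψ x, t)` -/
def N5b_ext (ψ : Vec m → Vec m) : Vec m × ℝ → Vec m × ℝ := fun q => (ψ q.1, q.2)

theorem N5b_ext_smooth {ψ : Vec m → Vec m} {Ω : Set (Vec m)} (hψ : ContDiffOn ℝ ∞ ψ Ω) :
    ContDiffOn ℝ ∞ (N5b_ext ψ) {q | q.1 ∈ Ω} :=
  (hψ.comp contDiff_fst.contDiffOn (fun q hq => hq)).prodMk contDiff_snd.contDiffOn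

theorem N5b_open {Ω : Set (Vec m)} (hΩ : IsOpen Ω) : IsOpen {q : Vec m × ℝ | q.1 ∈ Ω} :=
  hΩ.preimage continuous_fst

theorem N5b_bdK {ψ : Vec m → Vec m} {Ω : Set (Vec m)} (hΩ : IsOpen Ω) (hψ : ContDiffOn ℝ ∞ ψ Ω)
    {K : Set (Vec m)} (hK : IsCompact K) (hKΩ : K ⊆ Ω) (r : ℕ) :
    ∃ D : ℝ, 1 ≤ D ∧ ∀ i, 1 ≤ i → i ≤ r → ∀ x ∈ K, ∀ t, ‖iteratedFDeriv ℝ i (N5b_ext ψ) (x, t)‖ ≤ D ^ i := by
  have hO := N5b_open hΩ
  have hs := N5b_ext_smooth hψ
  have h0 : ∀ i : ℕ, 1 ≤ i → ∃ C : ℝ, ∀ p : {x // x ∈ K} × ℝ,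
      ‖iteratedFDeriv ℝ i (N5b_ext ψ) (p.1.1, p.2)‖ ≤ C := by
    intro i hi
    have hc : ContinuousOn (iteratedFDeriv ℝ i (N5b_ext ψ)) {q | q.1 ∈ Ω} := by
      refine (hs.continuousOn_iteratedFDerivWithin (m := i) (by exact_mod_cast le_top)
        hO.uniqueDiffOn).congr fun q hq => ?_
      rw [iteratedFDerivWithin_of_isOpen i hO hq]
    have hK2 : IsCompact (K ×ˢ ({0} : Set ℝ)) := hK.prod isCompact_singleton
    obtain ⟨C, hC⟩ := hK2.exists_bound_of_continuousOn (hc.mono (fun q hq => hKΩ hq.1))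
    refine ⟨C, ?_⟩
    rintro ⟨⟨x, hx⟩, t⟩
    have h1 : ContDiffAt ℝ i (N5b_ext ψ) (x, 0) :=
      (hs.contDiffAt (hO.mem_nhds (hKΩ hx))).of_le (by exact_mod_cast le_top)
    have h2 := N5b_shift hi h1 (c := ((0 : Vec m), t)) (c' := ((0 : Vec m), t)) (fun z => by
      simp only [N5b_ext, Prod.fst_add, Prod.snd_add, add_zero, Prod.mk_add_mk])
    have h3 : ((x, (0 : ℝ)) : Vec m × ℝ) + ((0 : Vec m), t) = (x, t) := by simp
    rw [h3] at h2
    change ‖iteratedFDeriv ℝ i (N5b_ext ψ) (x, t)‖ ≤ C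
    rw [h2]
    exact hC _ ⟨hx, rfl⟩
  obtain ⟨D, hD1, hD⟩ := N5b_max (fun i (p : {x // x ∈ K} × ℝ) =>
    ‖iteratedFDeriv ℝ i (N5b_ext ψ) (p.1.1, p.2)‖) r h0
  exact ⟨D, hD1, fun i h1 hi x hx t => hD i h1 hi (⟨x, hx⟩, t)⟩

theorem N5b_bdR {R : Vec m → Vec m} (hR : ContDiff ℝ ∞ R) (hper : ∀ (n : Fin m → ℤ) x, R (x + vz n) = R x + vz n)
    (r : ℕ) : ∃ D : ℝ, 1 ≤ D ∧ ∀ i, 1 ≤ i → i ≤ r → ∀ q, ‖iteratedFDeriv ℝ i (N5b_ext R) q‖ ≤ D ^ i := by
  have hs : ContDiff ℝ ∞ (N5b_ext R) := (hR.comp contDiff_fst).prodMk contDiff_snd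
  refine N5b_max (fun i q => ‖iteratedFDeriv ℝ i (N5b_ext R) q‖) r fun i hi => ?_
  refine EscG.T.O2_bdd (bas m) (Φ := iteratedFDeriv ℝ i (N5b_ext R))
    (hs.continuous_iteratedFDeriv (m := i) (by exact_mod_cast le_top)) (fun l q => ?_) (fun q => ?_)
  · refine N5b_shift hi ((hs.of_le (by exact_mod_cast le_top)).contDiffAt) (c' := (bas m l, 0)) fun z => ?_
    simp only [N5b_ext, Prod.fst_add, Prod.snd_add, add_zero, bas_apply, hper, Prod.mk_add_mk]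
  · refine N5b_shift hi ((hs.of_le (by exact_mod_cast le_top)).contDiffAt) (c' := (0, 1)) fun z => ?_
    simp only [N5b_ext, Prod.fst_add, Prod.snd_add, add_zero, Prod.mk_add_mk]

/-! ### periodicity -/

theorem N5b_perG {G : Vec m → ℝ → ℝ} (hG : Sm (bas m) G) (n : Fin m → ℤ) (l : ℤ) (x : Vec m) (t : ℝ) :
    G (x + vz n) (t + l) = G x t := by
  have h2 : Function.Periodic (fun t => G x t) 1 := fun t => hG.pert x t
  have h3 := h2.zsmul l
  have h4 : G x (t + l) = G x t := by simpa using h3 t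
  rw [← h4]
  exact per_vz (g := fun x => G x (t + l)) (fun i x => hG.per i x (t + l)) n x

/-! ### restriction to `M` -/

theorem N5b_restr_pos {M : Sub m} (G : Vec m → ℝ → ℝ) {q : Vec m × ℝ} (hq : q.1 ∈ M.U) :
    restr M G q = G (M.r q.1) q.2 := by
  simp only [restr]
  exact if_pos hq

theorem N5b_restr_neg {M : Sub m} (G : Vec m → ℝ → ℝ) {q : Vec m × ℝ} (hq : q.1 ∉ M.U) :
    restr M G q = 0 := by
  simp only [restr]
  exact if_neg hq

/-- the restriction as a potential on `M` -/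
def N5b_res (M : Sub m) {G : Vec m → ℝ → ℝ} (hG : Sm (bas m) G) (k : ℕ∞) : Pot M k where
  toFun := restr M G
  contDiff := by
    have h1 : ContDiffOn ℝ ∞ (fun q : Vec m × ℝ => G (N5b_ext M.r q).1 (N5b_ext M.r q).2) {q | q.1 ∈ M.U} :=
      hG.smooth.comp_contDiffOn (N5b_ext_smooth M.smooth)
    exact (h1.of_le (by exact_mod_cast le_top)).congr fun q hq => N5b_restr_pos G hq
  ext x hx t := by
    have h1 : M.r x ∈ M.U := M.sub (M.mem x hx)
    rw [N5b_restr_pos G (q := (x, t)) hx, N5b_restr_pos G (q := (M.r x, t)) h1]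
    simp only [r_self M (M.mem x hx)]
  out x hx t := N5b_restr_neg G (q := (x, t)) hx
  periodic n l x hx t := by
    have h1 : x + vz n ∈ M.U := M.perU n x hx
    rw [N5b_restr_pos G (q := (x, t)) hx, N5b_restr_pos G (q := (x + vz n, t + l)) h1]
    simp only [r_vz M n hx]
    exact N5b_perG hG n l _ t

theorem N5b_chi {M : Sub m} {ρ : ℝ} {χ : Vec m → ℝ} {R : Vec m → Vec m} (hT : TubeD M ρ χ R)
    (G : Vec m → ℝ → ℝ) (x : Vec m) (t : ℝ) : χ x * restr M G (x, t) = χ x * G (R x) t := by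
  have hρ := hT.ρ_pos
  rcases le_or_gt (Metric.infDist x M.N) (4 * ρ) with h | h
  · have hx : x ∈ M.U := hT.tube x (by linarith)
    rw [N5b_restr_pos G (q := (x, t)) hx, hT.R_eq x h]
  · rw [hT.zero x h.le, zero_mul, zero_mul]

/-- the rest -/
def N5b_rest (χ : Vec m → ℝ) (R : Vec m → Vec m) (G : Vec m → ℝ → ℝ) : Fun m :=
  fun q => G q.1 q.2 - χ q.1 * G (R q.1) q.2

theorem N5b_rest_smooth {M : Sub m} {ρ : ℝ} {χ : Vec m → ℝ} {R : Vec m → Vec m} (hT : TubeD M ρ χ R)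
    {G : Vec m → ℝ → ℝ} (hG : Sm (bas m) G) : ContDiff ℝ ∞ (N5b_rest χ R G) :=
  hG.smooth.sub ((hT.sχ.comp contDiff_fst).mul
    (hG.smooth.comp ((hT.sR.comp contDiff_fst).prodMk contDiff_snd)))

theorem N5b_rest_per {M : Sub m} {ρ : ℝ} {χ : Vec m → ℝ} {R : Vec m → Vec m} (hT : TubeD M ρ χ R)
    {G : Vec m → ℝ → ℝ} (hG : Sm (bas m) G) : IsPeriodic (N5b_rest χ R G) := by
  intro n l x t
  simp only [N5b_rest, hT.perχ, hT.perR, N5b_perG hG]

theorem N5b_rest_zero {M : Sub m} {ρ : ℝ} {χ : Vec m → ℝ} {R : Vec m → Vec m} (hT : TubeD M ρ χ R)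
    {G : Vec m → ℝ → ℝ} (hG : MCl M G) {x : Vec m} (hx : x ∈ M.N) (t : ℝ) :
    (fun y => N5b_rest χ R G (y, t)) =ᶠ[𝓝 x] fun _ => 0 := by
  obtain ⟨_, δ, hδ, h⟩ := hG
  have hρ := hT.ρ_pos
  have h0 : Metric.infDist x M.N < min δ ρ := by
    rw [Metric.infDist_zero_of_mem hx]
    exact lt_min hδ hρ
  have h1 : ∀ᶠ y in 𝓝 x, Metric.infDist y M.N < min δ ρ :=
    (Metric.continuous_infDist_pt M.N).continuousAt.eventually_lt_const h0
  filter_upwards [h1] with y hy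
  have h2 : Metric.infDist y M.N < δ := hy.trans_le (min_le_left _ _)
  have h3 : Metric.infDist y M.N < ρ := hy.trans_le (min_le_right _ _)
  simp only [N5b_rest]
  rw [hT.one y (by linarith), hT.R_eq y (by linarith), h y h2 t]
  ring

/-- the second component of the perturbed pair -/
def N5b_add {M : Sub m} {ρ : ℝ} {χ : Vec m → ℝ} {R : Vec m → Vec m} (hT : TubeD M ρ χ R)
    {G : Vec m → ℝ → ℝ} (hG : MCl M G) (h : YS M k) : YS M k :=
  ⟨{ toFun := h.1.toFun + N5b_rest χ R G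
     contDiff := h.1.contDiff.add ((N5b_rest_smooth hT hG.1).of_le (by exact_mod_cast le_top))
     periodic := fun n l x t => by
      simp only [Pi.add_apply, h.1.periodic n l x t, N5b_rest_per hT hG.1 n l x t] },
    fun x hx t => by
      have h1 := N5b_rest_zero hT hG hx t
      have h2 := h.2 x hx t
      refine ⟨?_, ?_⟩
      · have h3 : N5b_rest χ R G (x, t) = 0 := h1.eq_of_nhds
        simp only [Pi.add_apply, h2.1, h3, add_zero]
      · have h3 : (fun y => (h.1.toFun + N5b_rest χ R G) (y, t)) =ᶠ[𝓝 x] fun y => h.1.toFun (y, t) := by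
          filter_upwards [h1] with y hy
          simp only [Pi.add_apply, hy, add_zero]
        rw [h3.fderiv_eq]
        exact h2.2⟩

/-- small perturbations in the class `MCl` are small perturbations in the product -/
theorem reach {M : Sub m} {ρ : ℝ} {χ : Vec m → ℝ} {R : Vec m → Vec m} (hT : TubeD M ρ χ R)
    {O : Set (Pot M k × YS M k)} (hO : IsOpen O) {f : Pot M k} {h : YS M k} (hf : (f, h) ∈ O) :
    ∃ (N : SmNorm (bas m)) (e : ℝ), 0 < e ∧ ∀ G, MCl M G → N.nm G < e →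
      ∃ p ∈ O, ∀ x t, fh χ p.1 p.2.1 x t = fh χ f h.1 x t + G x t := by
  obtain ⟨O1, hO1, O2, hO2, hsub⟩ := mem_nhds_prod_iff.1 (hO.mem_nhds hf)
  obtain ⟨O2', hO2', hsub2⟩ := mem_nhds_subtype _ _ _ |>.1 hO2
  obtain ⟨r1, K, ε1, hε1, hr1, hK, hKU, hp1⟩ := pot_nhds f hO1
  obtain ⟨r2, ε2, hε2, hr2, hp2⟩ := nhds_small h.1 hO2'
  set r : ℕ := max r1 r2 with hr
  obtain ⟨D, hD1, hD⟩ := N5b_bdK M.isOpen M.smooth hK hKU r
  obtain ⟨D', hD'1, hD'⟩ := N5b_bdR hT.sR hT.perR r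
  have hχs : Sm (bas m) (fun x _ => χ x) := ⟨hT.sχ.comp contDiff_fst, fun i x _ => by
    rw [bas_apply]
    exact hT.perχ _ x, fun x t => rfl⟩
  have hA : ∃ A : ℝ, 0 ≤ A ∧ ∀ i ≤ r, ∀ q, ‖iteratedFDeriv ℝ i (fun q : Vec m × ℝ => χ q.1) q‖ ≤ A := by
    refine ⟨∑ i ∈ Finset.range (r + 1), ⨆ q, ‖iteratedFDeriv ℝ i (fun q : Vec m × ℝ => χ q.1) q‖,
      Finset.sum_nonneg fun j _ => Real.iSup_nonneg fun p => norm_nonneg _, fun i hi q => ?_⟩
    exact (le_ciSup (EscG.T.O2_sm_bdd hχs i) q).trans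
      (Finset.single_le_sum (f := fun i => ⨆ q, ‖iteratedFDeriv ℝ i (fun q : Vec m × ℝ => χ q.1) q‖)
        (fun j _ => Real.iSup_nonneg fun p => norm_nonneg _) (Finset.mem_range.2 (Nat.lt_succ_of_le hi)))
  obtain ⟨A, hA0, hA⟩ := hA
  set N : SmNorm (bas m) := EscG.T.O2_cnm 1 le_rfl r with hN
  have hNle : ∀ G, Sm (bas m) G → ∀ i ≤ r, ∀ q,
      ‖iteratedFDeriv ℝ i (fun q : Vec m × ℝ => G q.1 q.2) q‖ ≤ N.nm G := by
    intro G hG i hi q
    have h1 := (le_ciSup (EscG.T.O2_sm_bdd hG i) q).trans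
      (Finset.single_le_sum (f := fun j => ⨆ p, ‖iteratedFDeriv ℝ j (fun p : Vec m × ℝ => G p.1 p.2) p‖)
        (fun j _ => Real.iSup_nonneg fun p => norm_nonneg _) (Finset.mem_range.2 (Nat.lt_succ_of_le hi)))
    simp only [hN, EscG.T.O2_cnm, one_mul]
    exact h1
  set C1 : ℝ := (r.factorial : ℝ) * D ^ r with hC1
  set C2 : ℝ := 1 + 2 ^ r * A * ((r.factorial : ℝ) * D' ^ r) with hC2
  have hC1p : 0 ≤ C1 := by positivity
  have hC2p : 0 ≤ C2 := by positivity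
  refine ⟨N, min (ε1 / (C1 + 1)) (ε2 / (C2 + 1)), by positivity, fun G hG hGe => ?_⟩
  have hG1 := hG.1
  have hn0 : 0 ≤ N.nm G := (norm_nonneg _).trans (hNle G hG1 0 (Nat.zero_le _) 0)
  have he1 : C1 * N.nm G < ε1 := by
    have h1 := (lt_div_iff₀ (by positivity)).1 (hGe.trans_le (min_le_left _ _))
    nlinarith
  have he2 : C2 * N.nm G < ε2 := by
    have h1 := (lt_div_iff₀ (by positivity)).1 (hGe.trans_le (min_le_right _ _))
    nlinarith
  refine ⟨(padd f (N5b_res M hG1 k), N5b_add hT hG h), hsub ⟨?_, hsub2 ?_⟩, fun x t => ?_⟩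
  · refine hp1 _ fun j hj x hx t => ?_
    have hjr : j ≤ r := hj.trans (le_max_left _ _)
    have hjk : (j : WithTop ℕ∞) ≤ (k : WithTop ℕ∞) :=
      WithTop.coe_le_coe.2 ((Nat.cast_le.2 hj).trans hr1)
    have hU := (N5b_open M.isOpen).mem_nhds (show ((x, t) : Vec m × ℝ) ∈ {q : Vec m × ℝ | q.1 ∈ M.U} from hKU hx)
    have hfa : ContDiffAt ℝ j f.toFun (x, t) := (f.contDiff.contDiffAt hU).of_le hjk
    have hga : ContDiffAt ℝ j (restr M G) (x, t) := ((N5b_res M hG1 k).contDiff.contDiffAt hU).of_le hjk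
    have h1 : iteratedFDeriv ℝ j (f.toFun + restr M G) (x, t) =
        iteratedFDeriv ℝ j f.toFun (x, t) + iteratedFDeriv ℝ j (restr M G) (x, t) :=
      iteratedFDeriv_add_apply hfa hga
    change ‖iteratedFDeriv ℝ j (f.toFun + restr M G) (x, t) - iteratedFDeriv ℝ j f.toFun (x, t)‖ < ε1
    rw [h1, add_sub_cancel_left]
    have h2 : restr M G =ᶠ[𝓝 (x, t)] fun z => (fun q : Vec m × ℝ => G q.1 q.2) (N5b_ext M.r z) := by
      filter_upwards [hU] with q hq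
      exact N5b_restr_pos G hq
    rw [(Filter.EventuallyEq.iteratedFDeriv ℝ h2 j).eq_of_nhds]
    refine (N5b_comp (N5b_open M.isOpen) (N5b_ext_smooth M.smooth) hG1.smooth (mem_of_mem_nhds hU)
      (fun i hi => hNle G hG1 i hi _) hD1 (fun i h1 hi => hD i h1 hi x hx t) hjr).trans_lt he1
  · refine hp2 _ fun j hj q => ?_
    have hjr : j ≤ r := hj.trans (le_max_right _ _)
    have hjk : (j : WithTop ℕ∞) ≤ (k : WithTop ℕ∞) :=
      WithTop.coe_le_coe.2 ((Nat.cast_le.2 hj).trans hr2)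
    have hGsm : ContDiff ℝ ∞ (fun q : Vec m × ℝ => G q.1 q.2) := hG1.smooth
    have hRs : ContDiff ℝ ∞ (N5b_ext R) := (hT.sR.comp contDiff_fst).prodMk contDiff_snd
    have hGR : ContDiff ℝ ∞ (fun z => (fun q : Vec m × ℝ => G q.1 q.2) (N5b_ext R z)) := hGsm.comp hRs
    have hχ1 : ContDiff ℝ ∞ (fun q : Vec m × ℝ => χ q.1) := hT.sχ.comp contDiff_fst
    have hrs : ContDiffAt ℝ j (N5b_rest χ R G) q :=
      ((N5b_rest_smooth hT hG1).of_le (by exact_mod_cast le_top)).contDiffAt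
    have h1 : iteratedFDeriv ℝ j (h.1.toFun + N5b_rest χ R G) q =
        iteratedFDeriv ℝ j h.1.toFun q + iteratedFDeriv ℝ j (N5b_rest χ R G) q :=
      iteratedFDeriv_add_apply ((h.1.contDiff.of_le hjk).contDiffAt) hrs
    change ‖iteratedFDeriv ℝ j (h.1.toFun + N5b_rest χ R G) q - iteratedFDeriv ℝ j h.1.toFun q‖ < ε2
    rw [h1, add_sub_cancel_left]
    have e1 : N5b_rest χ R G = (fun q : Vec m × ℝ => G q.1 q.2) -
        (fun z : Vec m × ℝ => (fun q : Vec m × ℝ => χ q.1) z *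
          (fun z => (fun q : Vec m × ℝ => G q.1 q.2) (N5b_ext R z)) z) := rfl
    have h2 := iteratedFDeriv_sub_apply (𝕜 := ℝ) (i := j) (x := q)
      ((hGsm.of_le (by exact_mod_cast le_top)).contDiffAt)
      (((hχ1.mul hGR).of_le (by exact_mod_cast le_top)).contDiffAt)
    rw [e1, h2]
    refine (norm_sub_le _ _).trans_lt ?_
    have h3 := hNle G hG1 j hjr q
    have h4 := N5b_mul (r := r) hχ1 hGR (q := q) (A := A)
      (S := (r.factorial : ℝ) * D' ^ r * N.nm G) (fun i hi => hA i hi q)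
      (fun i hi => N5b_comp isOpen_univ hRs.contDiffOn hG1.smooth (mem_univ q)
        (fun i hi => hNle G hG1 i hi _) hD'1 (fun i h1 hi => hD' i h1 hi q) hi) hjr
    have h5 : C2 * N.nm G = N.nm G + 2 ^ r * A * ((r.factorial : ℝ) * D' ^ r * N.nm G) := by
      rw [hC2]
      ring
    rw [h5] at he2
    exact (add_le_add h3 h4).trans_lt he2
  · change χ x * (f.toFun (x, t) + restr M G (x, t)) + (h.1.toFun (x, t) + (G x t - χ x * G (R x) t)) =
      (χ x * f.toFun (x, t) + h.1.toFun (x, t)) + G x t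
    rw [mul_add, N5b_chi hT G x t]
    ring

end EscM
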