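import Pool.Agent.EscM.N1

/-!
Project EscM (MP_6acca1_an), module N6: growth of the potentials in the normal directions.
-/

noncomputable section

namespace EscM

open Filter Topology Set Esc EscG EscF.T
open scoped ContDiff UniformConvergence

variable {m : ℕ} {k : ℕ∞}

/-- neighbourhoods given by the derivatives of order two -/
theorem N6_nhds_two (hk : 2 ≤ k) (f : EscF.T.Pot m k) {ρ : ℝ} (hρ : 0 < ρ) :
    {f' : EscF.T.Pot m k | ∀ q, ‖iteratedFDeriv ℝ 2 f.toFun q - iteratedFDeriv ℝ 2 f'.toFun q‖ ≤ ρ} ∈ 𝓝 f := by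
  have hk' : ((2 : ℕ) : ℕ∞) ≤ k := by exact_mod_cast hk
  have hc : Continuous (EscF.T.jet : EscF.T.Pot m k → _) := continuous_induced_dom
  have h0 : Continuous fun f : EscF.T.Pot m k => EscF.T.jet f ⟨2, hk'⟩ := (continuous_pi_iff.1 hc) _
  have hb := UniformFun.hasBasis_nhds_of_basis (Vec m × ℝ)
    (ContinuousMultilinearMap ℝ (fun _ : Fin 2 => Vec m × ℝ) ℝ) (EscF.T.jet f ⟨2, hk'⟩)
    Metric.uniformity_basis_dist
  have h1 := h0.continuousAt.preimage_mem_nhds (hb.mem_of_mem hρ)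
  refine mem_of_superset h1 fun f' hf' q => ?_
  have h2 := hf' q
  have h3 : dist (iteratedFDeriv ℝ 2 f.toFun q) (iteratedFDeriv ℝ 2 f'.toFun q) < ρ := h2
  rw [dist_eq_norm] at h3
  exact h3.le

/-- the derivative in position -/
theorem N6_slice {g : Vec m × ℝ → ℝ} (hg : Differentiable ℝ g) (x v : Vec m) (t : ℝ) :
    fderiv ℝ (fun y => g (y, t)) x v = fderiv ℝ g (x, t) (v, 0) := by
  have h1 : HasFDerivAt (fun y : Vec m => (y, t)) (ContinuousLinearMap.inl ℝ (Vec m) ℝ) x := by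
    have := (hasFDerivAt_id (𝕜 := ℝ) x).prodMk (hasFDerivAt_const t x)
    exact this
  have h2 := ((hg (x, t)).hasFDerivAt).comp x h1
  have h3 : fderiv ℝ (fun y => g (y, t)) x =
      (fderiv ℝ g (x, t)).comp (ContinuousLinearMap.inl ℝ (Vec m) ℝ) := h2.fderiv
  rw [h3]
  simp

/-- the first derivative is Lipschitz -/
theorem N6_lip {g : Vec m × ℝ → ℝ} (hg : ContDiff ℝ 2 g) {C : ℝ}
    (hC : ∀ q, ‖iteratedFDeriv ℝ 2 g q‖ ≤ C) (p q : Vec m × ℝ) :
    ‖fderiv ℝ g p - fderiv ℝ g q‖ ≤ C * ‖p - q‖ := by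
  have h1 : ContDiff ℝ 1 (fderiv ℝ g) := hg.fderiv_right (by norm_num)
  have h2 : ∀ z, ‖fderiv ℝ (fderiv ℝ g) z‖ ≤ C := by
    intro z
    rw [← norm_iteratedFDeriv_one, norm_iteratedFDeriv_fderiv]
    exact hC z
  exact (convex_univ).norm_image_sub_le_of_norm_fderiv_le
    (fun z _ => (h1.differentiable (by norm_num)) z) (fun z _ => h2 z) (mem_univ q) (mem_univ p)

theorem VC_open (hk : 2 ≤ k) {M : Sub m} {ρ : ℝ} {χ : Vec m → ℝ} {R : Vec m → Vec m}
    (hT : TubeD M ρ χ R) : IsOpen {h : YS M k | VC M ρ (fun x t => h.1.toFun (x, t))} := by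
  have hk2 : (2 : WithTop ℕ∞) ≤ (k : WithTop ℕ∞) := WithTop.coe_le_coe.2 hk
  rw [isOpen_iff_mem_nhds]
  rintro h ⟨ε, hε, hv⟩
  have h1 := (continuous_subtype_val (p := fun h => h ∈ YS M k)).continuousAt.preimage_mem_nhds
    (N6_nhds_two hk h.1 (half_pos hε))
  refine mem_of_superset h1 fun h' hh' => ⟨ε / 2, half_pos hε, fun x hx t => ?_⟩
  have hU : x ∈ M.U := hT.tube x (by have := hT.ρ_pos; linarith)
  have hN := M.mem x hU
  set v := x - M.r x with hvdef
  have hf : ContDiff ℝ 2 h.1.toFun := h.1.contDiff.of_le hk2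
  have hf' : ContDiff ℝ 2 h'.1.toFun := h'.1.contDiff.of_le hk2
  set g : Vec m × ℝ → ℝ := fun q => h.1.toFun q - h'.1.toFun q with hg
  have hgc : ContDiff ℝ 2 g := hf.sub hf'
  have hd : Differentiable ℝ h.1.toFun := hf.differentiable (by norm_num)
  have hd' : Differentiable ℝ h'.1.toFun := hf'.differentiable (by norm_num)
  have hC : ∀ q, ‖iteratedFDeriv ℝ 2 g q‖ ≤ ε / 2 := by
    intro q
    have e1 : iteratedFDeriv ℝ 2 g q = iteratedFDeriv ℝ 2 h.1.toFun q - iteratedFDeriv ℝ 2 h'.1.toFun q := by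
      have := iteratedFDeriv_sub_apply (𝕜 := ℝ) (i := 2) (x := q) hf.contDiffAt hf'.contDiffAt
      exact this
    rw [e1]
    exact hh' q
  have h2 := N6_lip hgc hC (x, t) (M.r x, t)
  have e2 : ∀ q, fderiv ℝ g q = fderiv ℝ h.1.toFun q - fderiv ℝ h'.1.toFun q := fun q =>
    fderiv_sub (hd q) (hd' q)
  have e3 : ‖((x, t) : Vec m × ℝ) - (M.r x, t)‖ = ‖v‖ := by
    rw [Prod.mk_sub_mk, sub_self, Prod.norm_mk, norm_zero, max_eq_left (norm_nonneg _)]
  rw [e3] at h2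
  have e4 : fderiv ℝ g (M.r x, t) (v, 0) = 0 := by
    rw [e2, ContinuousLinearMap.sub_apply, ← N6_slice hd, ← N6_slice hd', (h.2 _ hN t).2, (h'.2 _ hN t).2]
    simp
  have h3 := (fderiv ℝ g (x, t) - fderiv ℝ g (M.r x, t)).le_opNorm (v, (0 : ℝ))
  rw [ContinuousLinearMap.sub_apply, e4, sub_zero, Prod.norm_mk, norm_zero,
    max_eq_left (norm_nonneg _)] at h3
  have h4 : ‖fderiv ℝ g (x, t) (v, 0)‖ ≤ ε / 2 * ‖v‖ * ‖v‖ :=
    h3.trans (mul_le_mul_of_nonneg_right h2 (norm_nonneg _))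
  rw [e2, ContinuousLinearMap.sub_apply, ← N6_slice hd, ← N6_slice hd', Real.norm_eq_abs, abs_le] at h4
  have h5 := hv x hx t
  have h6 : fderiv ℝ (fun y => h.1.toFun (y, t)) x v - ε / 2 * ‖v‖ * ‖v‖ ≤
      fderiv ℝ (fun y => h'.1.toFun (y, t)) x v := by linarith [h4.2]
  have h7 : ε * ‖v‖ ^ 2 ≤ fderiv ℝ (fun y => h.1.toFun (y, t)) x v := h5
  show ε / 2 * ‖v‖ ^ 2 ≤ fderiv ℝ (fun y => h'.1.toFun (y, t)) x v
  nlinarith

/-- near a point of the tube the cut-off is one and `R` is the nearest point map -/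
theorem N6_near {M : Sub m} {ρ : ℝ} {χ : Vec m → ℝ} {R : Vec m → Vec m} (hT : TubeD M ρ χ R)
    {x : Vec m} (hx : Metric.infDist x M.N ≤ ρ) : ∀ᶠ y in 𝓝 x, χ y = 1 ∧ R y = M.r y ∧ y ∈ M.U := by
  have hρ := hT.ρ_pos
  have h1 : ∀ᶠ y in 𝓝 x, Metric.infDist y M.N < 3 * ρ :=
    (Metric.continuous_infDist_pt M.N).continuousAt.eventually_lt continuousAt_const (by linarith)
  filter_upwards [h1] with y hy
  exact ⟨hT.one y hy.le, hT.R_eq y (by linarith), hT.tube y (by linarith)⟩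

theorem VC_ne (k : ℕ∞) {M : Sub m} {ρ : ℝ} {χ : Vec m → ℝ} {R : Vec m → Vec m}
    (hT : TubeD M ρ χ R) : {h : YS M k | VC M ρ (fun x t => h.1.toFun (x, t))}.Nonempty := by
  have hsm : ContDiff ℝ ∞ (fun x : Vec m => χ x * ‖x - R x‖ ^ 2) :=
    hT.sχ.mul ((contDiff_id.sub hT.sR).norm_sq ℝ)
  let f : EscF.T.Pot m k :=
    { toFun := fun q => χ q.1 * ‖q.1 - R q.1‖ ^ 2
      contDiff := (hsm.comp contDiff_fst).of_le (by exact_mod_cast le_top)
      periodic := fun n l x t => by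
        show χ (x + vz n) * ‖x + vz n - R (x + vz n)‖ ^ 2 = χ x * ‖x - R x‖ ^ 2
        rw [hT.perχ, hT.perR, add_sub_add_right_eq_sub] }
  have hρ := hT.ρ_pos
  have hfY : f ∈ YS M k := by
    intro x hx t
    have hd0 : Metric.infDist x M.N = 0 := Metric.infDist_zero_of_mem hx
    have hR : R x = x := by
      rw [hT.R_eq x (by rw [hd0]; linarith), r_self M hx]
    have h0 : χ x * ‖x - R x‖ ^ 2 = 0 := by
      rw [hR, sub_self, norm_zero]
      simp
    refine ⟨h0, ?_⟩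
    have hmin : IsLocalMin (fun y : Vec m => χ y * ‖y - R y‖ ^ 2) x := by
      refine Filter.Eventually.of_forall fun y => ?_
      show χ x * ‖x - R x‖ ^ 2 ≤ χ y * ‖y - R y‖ ^ 2
      rw [h0]
      exact mul_nonneg (hT.χ01 y).1 (sq_nonneg _)
    exact hmin.fderiv_eq_zero
  refine ⟨⟨f, hfY⟩, 2, two_pos, fun x hx t => ?_⟩
  have hU : x ∈ M.U := hT.tube x (by linarith)
  have hev : (fun y : Vec m => χ y * ‖y - R y‖ ^ 2) =ᶠ[𝓝 x] fun y => ‖y - M.r y‖ ^ 2 := by
    filter_upwards [N6_near hT hx] with y hy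
    rw [hy.1, hy.2.1, one_mul]
  have hr : DifferentiableAt ℝ M.r x :=
    ((M.smooth x hU).contDiffAt (M.isOpen.mem_nhds hU)).differentiableAt (by simp)
  have h1 : HasFDerivAt (fun y : Vec m => y - M.r y) (ContinuousLinearMap.id ℝ (Vec m) - fderiv ℝ M.r x) x :=
    (hasFDerivAt_id x).sub hr.hasFDerivAt
  have h2 := h1.norm_sq
  show 2 * ‖x - M.r x‖ ^ 2 ≤ fderiv ℝ (fun y : Vec m => χ y * ‖y - R y‖ ^ 2) x (x - M.r x)
  rw [hev.fderiv_eq, h2.fderiv]
  have h3 := fderiv_r_normal M hU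
  simp only [ContinuousLinearMap.smul_apply, ContinuousLinearMap.comp_apply,
    ContinuousLinearMap.sub_apply, ContinuousLinearMap.id_apply, h3, sub_zero, innerSL_apply_apply,
    real_inner_self_eq_norm_sq, nsmul_eq_mul]
  push_cast
  exact le_refl _

theorem VC_fh (hk : 2 ≤ k) {M : Sub m} {ρ : ℝ} {χ : Vec m → ℝ} {R : Vec m → Vec m}
    (hT : TubeD M ρ χ R) (f : Pot M k) (h : YS M k) (hv : VC M ρ (fun x t => h.1.toFun (x, t))) :
    VC M ρ (fh χ f h.1) := by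
  obtain ⟨ε, hε, hv⟩ := hv
  have hρ := hT.ρ_pos
  have hk1 : (1 : WithTop ℕ∞) ≤ (k : WithTop ℕ∞) := by
    have : (1 : ℕ∞) ≤ k := le_trans (by norm_num) hk
    exact_mod_cast this
  refine ⟨ε, hε, fun x hx t => ?_⟩
  have hU : x ∈ M.U := hT.tube x (by linarith)
  have hN := M.mem x hU
  have hr : DifferentiableAt ℝ M.r x :=
    ((M.smooth x hU).contDiffAt (M.isOpen.mem_nhds hU)).differentiableAt (by simp)
  have hdf : DifferentiableAt ℝ (fun y => f.toFun (y, t)) (M.r x) := by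
    have h1 : IsOpen {q : Vec m × ℝ | q.1 ∈ M.U} := M.isOpen.preimage continuous_fst
    have h2 : DifferentiableAt ℝ f.toFun (M.r x, t) :=
      ((f.contDiff (M.r x, t) (M.sub hN)).contDiffAt (h1.mem_nhds (M.sub hN))).differentiableAt
        (by
          intro h0
          rw [h0] at hk1
          exact absurd hk1 (by norm_num))
    exact h2.comp (M.r x) (differentiableAt_id.prodMk (differentiableAt_const t))
  have hdh : DifferentiableAt ℝ (fun y => h.1.toFun (y, t)) x := by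
    have h2 : Differentiable ℝ h.1.toFun := h.1.contDiff.differentiable (by
      intro h0
      rw [h0] at hk1
      exact absurd hk1 (by norm_num))
    exact (h2 (x, t)).comp x (differentiableAt_id.prodMk (differentiableAt_const t))
  have hev : (fun y => fh χ f h.1 y t) =ᶠ[𝓝 x] fun y => f.toFun (M.r y, t) + h.1.toFun (y, t) := by
    filter_upwards [N6_near hT hx] with y hy
    show χ y * f.toFun (y, t) + h.1.toFun (y, t) = f.toFun (M.r y, t) + h.1.toFun (y, t)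
    rw [hy.1, one_mul, f.ext y hy.2.2]
  have h3 : HasFDerivAt (fun y => f.toFun (M.r y, t))
      ((fderiv ℝ (fun y => f.toFun (y, t)) (M.r x)).comp (fderiv ℝ M.r x)) x :=
    hdf.hasFDerivAt.comp x hr.hasFDerivAt
  have h4 := h3.add hdh.hasFDerivAt
  have h5 : fderiv ℝ (fun y => f.toFun (M.r y, t) + h.1.toFun (y, t)) x =
      (fderiv ℝ (fun y => f.toFun (y, t)) (M.r x)).comp (fderiv ℝ M.r x) +
        fderiv ℝ (fun y => h.1.toFun (y, t)) x := h4.fderiv
  show ε * ‖x - M.r x‖ ^ 2 ≤ fderiv ℝ (fun y => fh χ f h.1 y t) x (x - M.r x)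
  rw [hev.fderiv_eq, h5, ContinuousLinearMap.add_apply, ContinuousLinearMap.comp_apply,
    fderiv_r_normal M hU, map_zero, zero_add]
  exact hv x hx t

end EscM
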