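import Pool.Agent.EscM.MDefs
import Pool.Agent.EscK.KDefs

/-!
Project EscM: inner definitions (uniform tube, extension of potentials, the space `Y`, class of potentials).
-/

noncomputable section

namespace EscM

open Filter Topology Set Esc EscG EscF.T
open scoped ContDiff UniformConvergence

variable {m : ℕ} {k : ℕ∞}

/-- the standard basis of the lattice -/
def bas (m : ℕ) : Module.Basis (Fin m) ℝ (Vec m) := (EuclideanSpace.basisFun (Fin m) ℝ).toBasis

/-- a uniform tube of radius `5 ρ`, a cut-off `χ` and a global smooth map `R` equal to the nearest point map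
near `N` -/
structure TubeD (M : Sub m) (ρ : ℝ) (χ : Vec m → ℝ) (R : Vec m → Vec m) : Prop where
  ρ_pos : 0 < ρ
  ne : M.N.Nonempty
  tube : ∀ x, Metric.infDist x M.N < 5 * ρ → x ∈ M.U
  sχ : ContDiff ℝ ∞ χ
  perχ : ∀ (n : Fin m → ℤ) x, χ (x + vz n) = χ x
  χ01 : ∀ x, 0 ≤ χ x ∧ χ x ≤ 1
  one : ∀ x, Metric.infDist x M.N ≤ 3 * ρ → χ x = 1
  zero : ∀ x, 4 * ρ ≤ Metric.infDist x M.N → χ x = 0
  sR : ContDiff ℝ ∞ R
  perR : ∀ (n : Fin m → ℤ) x, R (x + vz n) = R x + vz n
  R_eq : ∀ x, Metric.infDist x M.N ≤ 4 * ρ → R x = M.r x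

/-- extension of a potential on `M` -/
def extf {M : Sub m} (χ : Vec m → ℝ) (f : Pot M k) : Vec m → ℝ → ℝ := fun x t => χ x * f.toFun (x, t)

/-- potentials on the torus which vanish on `N` together with their gradient -/
def YS (M : Sub m) (k : ℕ∞) : Set (EscF.T.Pot m k) :=
  {h | ∀ x ∈ M.N, ∀ t, h.toFun (x, t) = 0 ∧ fderiv ℝ (fun y => h.toFun (y, t)) x = 0}

/-- the potential on the torus -/
def fh {M : Sub m} (χ : Vec m → ℝ) (f : Pot M k) (h : EscF.T.Pot m k) : Vec m → ℝ → ℝ :=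
  fun x t => extf χ f x t + h.toFun (x, t)

/-- smooth perturbations which do not depend on the normal variable near `N` -/
def MCl (M : Sub m) (G : Vec m → ℝ → ℝ) : Prop :=
  Sm (bas m) G ∧ ∃ δ : ℝ, 0 < δ ∧ ∀ x, Metric.infDist x M.N < δ → ∀ t, G x t = G (M.r x) t

/-- the potential grows in the normal directions near `N` -/
def VC (M : Sub m) (ρ : ℝ) (g : Vec m → ℝ → ℝ) : Prop :=
  ∃ ε : ℝ, 0 < ε ∧ ∀ x, Metric.infDist x M.N ≤ ρ → ∀ t,
    ε * ‖x - M.r x‖ ^ 2 ≤ fderiv ℝ (fun y => g y t) x (x - M.r x)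

/-- restriction to `M` of a function on the torus -/
def restr (M : Sub m) (G : Vec m → ℝ → ℝ) : Fun m :=
  letI := Classical.dec
  fun q => if q.1 ∈ M.U then G (M.r q.1) q.2 else 0

/-- sum of potentials -/
def padd {M : Sub m} (f g : Pot M k) : Pot M k where
  toFun := f.toFun + g.toFun
  contDiff := f.contDiff.add g.contDiff
  ext x hx t := by simp only [Pi.add_apply, f.ext x hx t, g.ext x hx t]
  out x hx t := by simp only [Pi.add_apply, f.out x hx t, g.out x hx t, add_zero]
  periodic n l x hx t := by simp only [Pi.add_apply, f.periodic n l x hx t, g.periodic n l x hx t]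

end EscM
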