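import Pool.Agent.EscK.F7b
import Pool.Agent.EscK.F8
import Pool.Agent.EscK.H4
import Pool.Agent.EscM.N0
import Pool.Agent.EscM.N7
import Pool.Agent.EscM.A15

/-!
Project EscM: final theorem. A closed submanifold `M` of a flat torus, a continuous Finsler metric with a strictly
calibrated closed geodesic and a second direction, and a Lagrangian near its energy: for a residual, hence dense,
set of potentials in `C^k(M × 𝕋)` there is an orbit that tends to infinity.
-/

set_option autoImplicit false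

namespace EscM

open Filter Topology Set Esc EscG EscK EscF.T
open scoped ContDiff UniformConvergence

variable {d : ℕ} {M : Sub d} {k : ℕ∞} {F : Vec d → Vec d → ℝ} {B : Vec d → ℝ} {i : Fin d} {len : ℝ}
  {c : ℝ → Vec d} {L : Lag d}

theorem result_M (hk : 2 ≤ k) (hF : IsFinsler M F) (hc : IsCalibrated M F B i len c)
    (hs : HasSecondDirection M i (c 0)) (hL : IsNear M F L) :
    {f : Pot M k | EscapesToInfinity M (fun q => L q + f.toFun (q.1, q.2.2))} ∈ residual (Pot M k) ∧
      Dense {f : Pot M k | EscapesToInfinity M (fun q => L q + f.toFun (q.1, q.2.2))} := by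
  have key : {f : Pot M k | EscapesToInfinity M (fun q => L q + f.toFun (q.1, q.2.2))} ∈
      residual (Pot M k) := by
    obtain ⟨ρ, χ, R, hT⟩ := exists_tube M ⟨c 0, hc.mem 0⟩
    obtain ⟨l, m', D, L', p, x0, hβ, hD, hl, hp, hx0, hback⟩ :=
      main_geo (k := k) hk hT hF hc hs hL
    obtain ⟨S, hS⟩ := exists_SM hT
    obtain ⟨S', hS'⟩ : ∃ S' : SCl D.β, ∀ G, S'.mem G ↔ MCl M G := by
      rw [hβ]
      exact ⟨S, hS⟩
    have hp1 : ∀ f : Vec d → ℝ → ℝ, Pt (bas d) f → Pt D.β f := fun f hf => by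
      rw [hβ]
      exact hf
    have hp2 : ∀ f : Vec d → ℝ → ℝ, Pt D.β f → Pt (bas d) f := fun f hf => by
      rw [← hβ]
      exact hf
    have hres := residual_M (k := k) hk hT (fun q f => D.Stage p (lf l f) q)
      (fun f => EscapesFrom l f x0 (Near D p)) ?_ ?_ ?_
    · filter_upwards [hres] with f hf
      obtain ⟨h, hv, he⟩ := hf
      exact hback f h hv he
    · intro q f hf hSt
      obtain ⟨r, hr, h⟩ := stage_open hD hp hl (hp1 f hf) hSt
      exact ⟨r, hr, fun f' hf' hd => h f' (hp1 f' hf') hd⟩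
    · intro a
      obtain ⟨q0, h⟩ := stage_dense S' hD hp hl (a : ℝ) (Nat.cast_nonneg a)
      refine ⟨q0, ?_⟩
      rw [← hβ]
      intro N q hq f hf hg ε hε
      obtain ⟨G, h1, h2, h3⟩ := h N q hq f hf hg ε hε
      exact ⟨G, (hS' G).1 h1, h2, h3⟩
    · intro a
      obtain ⟨q0, h⟩ := escapes_of_stages hD hp hl (a : ℝ)
      exact ⟨q0, fun q1 hq1 f hf hg hst => h q1 hq1 f (hp1 f hf) hg hst x0 hx0⟩
  haveI := baire M k
  exact ⟨key, dense_of_mem_residual key⟩

end EscM
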